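import Pool.Agent.Lib.MP_240c17_al.Q2.Spec

set_option autoImplicit false

namespace Pool.Agent.Lib.MP_240c17_al.Q2

universe u

open Pool.Agent.Lib.MP_240c17_al

private theorem AA_der {Q : Type u} [LieRing Q] (a b y : Q) :
    ⁅⁅a, b⁆, y⁆ = ⁅⁅a, y⁆, b⁆ + ⁅a, ⁅b, y⁆⁆ := by
  have h1 := lie_lie a b y
  have h2 : ⁅⁅a, y⁆, b⁆ = -⁅b, ⁅a, y⁆⁆ := (lie_skew _ _).symm
  rw [h1, h2]
  abel

theorem tAA : S_AA.{u} := by
  intro k _ h2 Q _ _ z x1 x2 A B hF h01
  have d1 : ∀ i j, ⁅⁅A i, A j⁆, x1⁆ = ⁅A (i + 1), A j⁆ + ⁅A i, A (j + 1)⁆ := by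
    intro i j
    rw [AA_der, hF.Ax1, hF.Ax1]
  have d2 : ∀ i j, ⁅⁅A i, A j⁆, x2⁆ = ⁅A (i + 2), A j⁆ + ⁅A i, A (j + 2)⁆ := by
    intro i j
    rw [AA_der, hF.Ax2, hF.Ax2]
  have skew : ∀ i j, ⁅A j, A i⁆ = -⁅A i, A j⁆ := fun i j => (lie_skew _ _).symm
  have two : ∀ q : Q, q + q = 0 → q = 0 := by
    intro q hq
    have h3 : (2 : k) • q = 0 := by rw [two_smul, hq]
    exact (smul_eq_zero.mp h3).resolve_left h2
  have mid : ∀ i j, ⁅A i, A j⁆ = 0 → ⁅A (i + 1), A (j + 1)⁆ = 0 := by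
    intro i j hij
    have e1 : ⁅⁅⁅A i, A j⁆, x1⁆, x1⁆ = (⁅A (i + 2), A j⁆ + ⁅A (i + 1), A (j + 1)⁆) +
        (⁅A (i + 1), A (j + 1)⁆ + ⁅A i, A (j + 2)⁆) := by
      rw [d1, add_lie, d1, d1]
    have e2 := d2 i j
    rw [hij, zero_lie, zero_lie] at e1
    rw [hij, zero_lie] at e2
    apply two
    have e3 : (⁅A (i + 1), A (j + 1)⁆ + ⁅A (i + 1), A (j + 1)⁆ : Q) =
        ((⁅A (i + 2), A j⁆ + ⁅A (i + 1), A (j + 1)⁆) +
        (⁅A (i + 1), A (j + 1)⁆ + ⁅A i, A (j + 2)⁆)) - (⁅A (i + 2), A j⁆ + ⁅A i, A (j + 2)⁆) := by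
      abel
    rw [e3, ← e1, ← e2, sub_zero]
  have main : ∀ N : ℕ, ∀ i j, i + j ≤ N → ⁅A i, A j⁆ = 0 := by
    intro N
    induction N with
    | zero =>
      intro i j hij
      have hi : i = 0 := by omega
      have hj : j = 0 := by omega
      rw [hi, hj, lie_self]
    | succ N ih =>
      have pos : ∀ i j, i + j ≤ N + 1 → 1 ≤ i → 1 ≤ j → ⁅A i, A j⁆ = 0 := by
        intro i j hij hi hj
        obtain ⟨i', rfl⟩ : ∃ i', i = i' + 1 := ⟨i - 1, by omega⟩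
        obtain ⟨j', rfl⟩ : ∃ j', j = j' + 1 := ⟨j - 1, by omega⟩
        exact mid i' j' (ih i' j' (by omega))
      have left : ∀ j, j ≤ N + 1 → ⁅A 0, A j⁆ = 0 := by
        intro j hj
        rcases Nat.lt_or_ge j (N + 1) with h | h
        · exact ih 0 j (by omega)
        · have hj' : j = N + 1 := by omega
          subst hj'
          rcases Nat.eq_zero_or_pos N with h0 | h0
          · subst h0
            exact h01
          · have e1 := d1 0 N
            rw [ih 0 N (by omega), zero_lie, zero_add, pos 1 N (by omega) le_rfl h0,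
              zero_add] at e1
            exact e1.symm
      intro i j hij
      rcases Nat.eq_zero_or_pos i with hi | hi
      · rw [hi]
        exact left j (by omega)
      · rcases Nat.eq_zero_or_pos j with hj | hj
        · rw [hj, skew 0 i, left i (by omega), neg_zero]
        · exact pos i j hij hi hj
  intro i j
  exact main (i + j) i j le_rfl

end Pool.Agent.Lib.MP_240c17_al.Q2
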