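import Pool.Agent.Lib.MP_240c17_al.Q2.Spec

/-!
# MP_240c17, project Q2, module Abs (helper4)
-/

set_option autoImplicit false

namespace Pool.Agent.Lib.MP_240c17_al.Q2

universe u

open Pool.Agent.Lib.MP_240c17_al

theorem tAbs : S_Rel.{u} → S_RelG.{u} → S_Core.{u} → S_Abs.{u} := by
  intro hRel hRelG hCore k _ h2
  obtain ⟨S, hS⟩ := hRel k
  refine ⟨S, le_antisymm ?_ ?_⟩
  · intro v hv
    have h1 : ∀ w ∈ S, qMk (LieSubmodule.lieSpan k (FreeLieAlgebra k (Fin 6))
        (S : Set (FreeLieAlgebra k (Fin 6)))) w = 0 := by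
      intro w hw
      rw [qMk_eq_zero]
      exact LieSubmodule.subset_lieSpan (by exact_mod_cast hw)
    have h3 := (hS _ _).mp h1
    have h4 := hCore k h2 _ _ h3 v hv
    rwa [qMk_eq_zero] at h4
  · rw [LieSubmodule.lieSpan_le]
    intro w hw
    have h5 := (hS _ (qMk (kerJ k ⊤))).mpr (hRelG k ⊤) w (by exact_mod_cast hw)
    rwa [qMk_eq_zero] at h5

end Pool.Agent.Lib.MP_240c17_al.Q2
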