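import Pool.Agent.Lib.MP_240c17_al.Q2.Spec

/-!
# MP_240c17, project Q2: the `B l` commute
-/

set_option autoImplicit false

namespace Pool.Agent.Lib.MP_240c17_al.Q2

universe u

open Pool.Agent.Lib.MP_240c17_al

/-- The combinatorial part. -/
private theorem BB_comb {M : Type u} [AddCommGroup M] (β : ℤ → ℤ → M)
    (ha : ∀ i j, β i j = -β j i) (h0 : ∀ i, β i i = 0)
    (hq : ∀ i j, β i j = 0 → β (i - 1) j - β (i + 1) j + (β i (j - 1) - β i (j + 1)) = 0)
    (hX : ∀ i j, β i j = 0 →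
      β (i - 1) (j - 1) - β (i - 1) (j + 1) - β (i + 1) (j - 1) + β (i + 1) (j + 1) = 0)
    (hb : ∀ i j : ℤ, |i| ≤ 2 → |j| ≤ 2 → β i j = 0) (n : ℕ) :
    ∀ i j : ℤ, |i| ≤ (n : ℤ) + 2 → |j| ≤ (n : ℤ) + 2 → β i j = 0 := by
  induction n with
  | zero =>
    intro i j hi hj
    exact hb i j (by simpa using hi) (by simpa using hj)
  | succ m ih =>
    obtain ⟨n, hn⟩ : ∃ n : ℤ, n = (m : ℤ) + 2 := ⟨_, rfl⟩
    have hn2 : 2 ≤ n := by omega
    have bx : ∀ i j : ℤ, -n ≤ i → i ≤ n → -n ≤ j → j ≤ n → β i j = 0 := by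
      intro i j h1 h2 h3 h4
      exact ih i j (by rw [abs_le]; omega) (by rw [abs_le]; omega)
    -- rows, inner part
    have r1 : ∀ j : ℤ, -n + 1 ≤ j → j ≤ n - 1 → β (n + 1) j = 0 := by
      intro j h1 h2
      have e := hq n j (bx _ _ (by omega) (by omega) (by omega) (by omega))
      rw [bx (n - 1) j (by omega) (by omega) (by omega) (by omega),
        bx n (j - 1) (by omega) (by omega) (by omega) (by omega),
        bx n (j + 1) (by omega) (by omega) (by omega) (by omega)] at e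
      simpa using e
    have r2 : ∀ j : ℤ, -n + 1 ≤ j → j ≤ n - 1 → β (-n - 1) j = 0 := by
      intro j h1 h2
      have e := hq (-n) j (bx _ _ (by omega) (by omega) (by omega) (by omega))
      rw [bx (-n + 1) j (by omega) (by omega) (by omega) (by omega),
        bx (-n) (j - 1) (by omega) (by omega) (by omega) (by omega),
        bx (-n) (j + 1) (by omega) (by omega) (by omega) (by omega)] at e
      simpa using e
    -- the ends of the rows
    have c1 : β (n + 1) n = 0 := by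
      have e := hX n (n - 1) (bx _ _ (by omega) (by omega) (by omega) (by omega))
      rw [bx (n - 1) (n - 1 - 1) (by omega) (by omega) (by omega) (by omega),
        bx (n - 1) (n - 1 + 1) (by omega) (by omega) (by omega) (by omega),
        r1 (n - 1 - 1) (by omega) (by omega), sub_add_cancel] at e
      simpa using e
    have c2 : β (n + 1) (-n) = 0 := by
      have e := hX n (-n + 1) (bx _ _ (by omega) (by omega) (by omega) (by omega))
      rw [bx (n - 1) (-n + 1 - 1) (by omega) (by omega) (by omega) (by omega),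
        bx (n - 1) (-n + 1 + 1) (by omega) (by omega) (by omega) (by omega),
        r1 (-n + 1 + 1) (by omega) (by omega), add_sub_cancel_right] at e
      simpa using e
    have c3 : β (-n - 1) n = 0 := by
      have e := hX (-n) (n - 1) (bx _ _ (by omega) (by omega) (by omega) (by omega))
      rw [bx (-n + 1) (n - 1 - 1) (by omega) (by omega) (by omega) (by omega),
        bx (-n + 1) (n - 1 + 1) (by omega) (by omega) (by omega) (by omega),
        r2 (n - 1 - 1) (by omega) (by omega), sub_add_cancel] at e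
      simpa using e
    have c4 : β (-n - 1) (-n) = 0 := by
      have e := hX (-n) (-n + 1) (bx _ _ (by omega) (by omega) (by omega) (by omega))
      rw [bx (-n + 1) (-n + 1 - 1) (by omega) (by omega) (by omega) (by omega),
        bx (-n + 1) (-n + 1 + 1) (by omega) (by omega) (by omega) (by omega),
        r2 (-n + 1 + 1) (by omega) (by omega), add_sub_cancel_right] at e
      simpa using e
    have c5 : β (n + 1) (-n - 1) = 0 := by
      have e := hX n (-n) (bx _ _ (by omega) (by omega) (by omega) (by omega))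
      rw [ha (n - 1) (-n - 1), r2 (n - 1) (by omega) (by omega),
        bx (n - 1) (-n + 1) (by omega) (by omega) (by omega) (by omega),
        r1 (-n + 1) (by omega) (by omega)] at e
      simpa using e
    have R1 : ∀ j : ℤ, -n ≤ j → j ≤ n → β (n + 1) j = 0 := by
      intro j h1 h2
      by_cases h3 : j = n
      · rw [h3]
        exact c1
      · by_cases h4 : j = -n
        · rw [h4]
          exact c2
        · exact r1 j (by omega) (by omega)
    have R2 : ∀ j : ℤ, -n ≤ j → j ≤ n → β (-n - 1) j = 0 := by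
      intro j h1 h2
      by_cases h3 : j = n
      · rw [h3]
        exact c3
      · by_cases h4 : j = -n
        · rw [h4]
          exact c4
        · exact r2 j (by omega) (by omega)
    intro i j hi hj
    rw [abs_le] at hi hj
    push_cast at hi hj
    have ci : (i = n + 1) ∨ (i = -n - 1) ∨ (-n ≤ i ∧ i ≤ n) := by omega
    have cj : (j = n + 1) ∨ (j = -n - 1) ∨ (-n ≤ j ∧ j ≤ n) := by omega
    rcases ci with rfl | rfl | ⟨i1, i2⟩
    · rcases cj with rfl | rfl | ⟨j1, j2⟩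
      · exact h0 _
      · exact c5
      · exact R1 j j1 j2
    · rcases cj with rfl | rfl | ⟨j1, j2⟩
      · rw [ha, c5, neg_zero]
      · exact h0 _
      · exact R2 j j1 j2
    · rcases cj with rfl | rfl | ⟨j1, j2⟩
      · rw [ha, R1 i i1 i2, neg_zero]
      · rw [ha, R2 i i1 i2, neg_zero]
      · exact bx i j i1 i2 j1 j2

private theorem BB_der {Q : Type u} [LieRing Q] (a b x : Q) :
    ⁅⁅a, b⁆, x⁆ = ⁅⁅a, x⁆, b⁆ + ⁅a, ⁅b, x⁆⁆ := by
  rw [lie_lie, ← lie_skew b ⁅a, x⁆]
  abel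

theorem tBB : S_BB.{u} := by
  intro k _ h2 Q _ _ z x1 x2 A B hF hb
  have d1 : ∀ i j, ⁅⁅B i, B j⁆, x1⁆
      = ⁅B (i - 1), B j⁆ - ⁅B (i + 1), B j⁆ + (⁅B i, B (j - 1)⁆ - ⁅B i, B (j + 1)⁆) := by
    intro i j
    rw [BB_der, hF.Bx1, hF.Bx1, sub_lie, lie_sub]
  have hp : ∀ i j, ⁅B i, B j⁆ = 0 → ⁅B (i + 2), B j⁆ + ⁅B i, B (j + 2)⁆ = 0 := by
    intro i j h
    have e : ⁅⁅B i, B j⁆, x2⁆ = 0 := by rw [h, zero_lie]
    rw [BB_der, hF.Bx2, hF.Bx2, sub_lie, lie_sub, h] at e
    have e2 := congrArg Neg.neg e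
    rw [neg_zero] at e2
    rw [← e2]
    abel
  have hm : ∀ i j, ⁅B i, B j⁆ = 0 → ⁅B (i - 2), B j⁆ + ⁅B i, B (j - 2)⁆ = 0 := by
    intro i j h
    have e : ⁅⁅B i, B j⁆, z⁆ = 0 := by rw [h, zero_lie]
    rw [BB_der, hF.Bz, hF.Bz, sub_lie, lie_sub, h] at e
    rw [← e]
    abel
  have hq : ∀ i j, ⁅B i, B j⁆ = 0 →
      ⁅B (i - 1), B j⁆ - ⁅B (i + 1), B j⁆ + (⁅B i, B (j - 1)⁆ - ⁅B i, B (j + 1)⁆) = 0 := by
    intro i j h
    rw [← d1, h, zero_lie]
  have hX : ∀ i j, ⁅B i, B j⁆ = 0 →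
      ⁅B (i - 1), B (j - 1)⁆ - ⁅B (i - 1), B (j + 1)⁆ - ⁅B (i + 1), B (j - 1)⁆
        + ⁅B (i + 1), B (j + 1)⁆ = 0 := by
    intro i j h
    have e : ⁅⁅⁅B i, B j⁆, x1⁆, x1⁆ = 0 := by rw [h, zero_lie, zero_lie]
    rw [d1, add_lie, sub_lie, sub_lie, d1, d1, d1, d1] at e
    have a1 : i - 1 - 1 = i - 2 := by ring
    have a2 : i - 1 + 1 = i := by ring
    have a3 : i + 1 - 1 = i := by ring
    have a4 : i + 1 + 1 = i + 2 := by ring
    have b1 : j - 1 - 1 = j - 2 := by ring
    have b2 : j - 1 + 1 = j := by ring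
    have b3 : j + 1 - 1 = j := by ring
    have b4 : j + 1 + 1 = j + 2 := by ring
    rw [a1, a2, a3, a4, b1, b2, b3, b4, h] at e
    have e1 := hp i j h
    have e2 := hm i j h
    have e3 : (2 : k) • (⁅B (i - 1), B (j - 1)⁆ - ⁅B (i - 1), B (j + 1)⁆ - ⁅B (i + 1), B (j - 1)⁆
        + ⁅B (i + 1), B (j + 1)⁆) = 0 := by
      rw [two_smul]
      have e4 : ⁅B (i - 1), B (j - 1)⁆ - ⁅B (i - 1), B (j + 1)⁆ - ⁅B (i + 1), B (j - 1)⁆
          + ⁅B (i + 1), B (j + 1)⁆ + (⁅B (i - 1), B (j - 1)⁆ - ⁅B (i - 1), B (j + 1)⁆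
          - ⁅B (i + 1), B (j - 1)⁆ + ⁅B (i + 1), B (j + 1)⁆)
          + (⁅B (i + 2), B j⁆ + ⁅B i, B (j + 2)⁆) + (⁅B (i - 2), B j⁆ + ⁅B i, B (j - 2)⁆) = 0 := by
        rw [← e]
        abel
      rw [e1, e2, add_zero, add_zero] at e4
      exact e4
    exact (smul_eq_zero.mp e3).resolve_left h2
  intro i j
  refine BB_comb (fun i j => ⁅B i, B j⁆) (fun i j => (lie_skew (B i) (B j)).symm) (fun i => lie_self _)
    hq hX hb (i.natAbs + j.natAbs) i j ?_ ?_
  · push_cast
    have := abs_nonneg j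
    omega
  · push_cast
    have := abs_nonneg i
    omega

end Pool.Agent.Lib.MP_240c17_al.Q2
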