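import Pool.Agent.Lib.MP_240c17_al.Q2.Spec

/-!
# MP_240c17, project Q2: module C12, the brackets `⁅⁅A i, B l⁆, B m⁆` vanish
-/

set_option autoImplicit false

namespace Pool.Agent.Lib.MP_240c17_al.Q2

universe u

open Pool.Agent.Lib.MP_240c17_al

/-- `JJ ⊤` is closed under products -/
private theorem C12_mul {k : Type u} [Field k] {φ ψ : R k} (hφ : φ ∈ JJ k ⊤) (hψ : ψ ∈ JJ k ⊤) :
    φ * ψ ∈ JJ k ⊤ := by
  refine mul_mem_JJ (fun i l h => ?_) hφ
  rw [mul_comm]
  refine mul_mem_JJ (fun i' l' h' => ?_) hψ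
  rw [mo_mul]
  rw [mo_mem_JJ] at h h' ⊢
  rcases h with h | h
  · rcases h' with h' | h'
    · left
      push_cast
      omega
    · exact absurd h' (by simp)
  · exact absurd h (by simp)

/-- `JJ ⊤` as a subalgebra -/
private noncomputable def C12_J (k : Type u) [Field k] : Subalgebra k (R k) :=
  Submodule.toSubalgebra (JJ k ⊤) (by
    rw [← mo_zero, mo_mem_JJ]
    left
    simp) (fun _ _ => C12_mul)

private theorem C12_mem_J {k : Type u} [Field k] {φ : R k} : φ ∈ C12_J k ↔ φ ∈ JJ k ⊤ := Iff.rfl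

/-- the ring `R[s, s⁻¹]` -/
private abbrev C12_C (k : Type u) [Field k] : Type u := AddMonoidAlgebra (R k) ℤ

/-- extensionality of linear maps -/
private theorem C12_ext {k : Type u} [Field k] {K : Type u} [CommRing K] [Algebra k K]
    {M : Type u} [AddCommGroup M] [Module k M]
    {f g : AddMonoidAlgebra K ℤ →ₗ[k] M}
    (h : ∀ j φ, f (AddMonoidAlgebra.single j φ) = g (AddMonoidAlgebra.single j φ)) : f = g := by
  refine LinearMap.ext fun x => ?_
  have h : f (AddMonoidAlgebra.ofCoeff x.coeff) = g (AddMonoidAlgebra.ofCoeff x.coeff) := by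
    induction x.coeff using Finsupp.induction with
    | zero =>
      rw [AddMonoidAlgebra.ofCoeff_zero, map_zero, map_zero]
    | single_add p c f' _ _ ih =>
      rw [AddMonoidAlgebra.ofCoeff_add, AddMonoidAlgebra.ofCoeff_single, map_add, map_add, ih, h]
  exact h

/-- the linear map `φ ↦ ⁅S φ, d⁆` -/
private noncomputable def C12_ad {k : Type u} [Field k] {Q : Type u} [LieRing Q] [LieAlgebra k Q]
    (S : R k →ₗ[k] Q) (d : Q) : R k →ₗ[k] Q where
  toFun φ := ⁅S φ, d⁆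
  map_add' a b := by rw [map_add, add_lie]
  map_smul' c a := by rw [map_smul, smul_lie, RingHom.id_apply]

/-- the linear map `s^j φ ↦ ⁅S φ, D j⁆` -/
private noncomputable def C12_Z {k : Type u} [Field k] {Q : Type u} [LieRing Q] [LieAlgebra k Q]
    (S : R k →ₗ[k] Q) (D : ℤ → Q) : C12_C k →ₗ[k] Q :=
  (Finsupp.lsum ℕ fun j => C12_ad S (D j)) ∘ₗ (AddMonoidAlgebra.coeffLinearEquiv k).toLinearMap

private theorem C12_Z_single {k : Type u} [Field k] {Q : Type u} [LieRing Q] [LieAlgebra k Q]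
    (S : R k →ₗ[k] Q) (D : ℤ → Q) (j : ℤ) (φ : R k) :
    C12_Z S D (AddMonoidAlgebra.single j φ) = ⁅S φ, D j⁆ := by
  show Finsupp.lsum ℕ (fun j => C12_ad S (D j)) (AddMonoidAlgebra.single j φ : C12_C k).coeff = _
  rw [AddMonoidAlgebra.coeff_single, Finsupp.lsum_single]
  rfl

/-- the subalgebra of the elements with coefficients in `JJ ⊤` -/
private noncomputable def C12_O (k : Type u) [Field k] : Subalgebra k (C12_C k) :=
  (AddMonoidAlgebra.mapAlgHom ℤ (C12_J k).val).range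

private theorem C12_single_mem {k : Type u} [Field k] (j : ℤ) {φ : R k} (h : φ ∈ JJ k ⊤) :
    (AddMonoidAlgebra.single j φ : C12_C k) ∈ C12_O k := by
  refine ⟨AddMonoidAlgebra.single j (⟨φ, h⟩ : C12_J k), ?_⟩
  show AddMonoidAlgebra.mapAlgHom ℤ (C12_J k).val (AddMonoidAlgebra.single j (⟨φ, h⟩ : C12_J k)) = _
  rw [AddMonoidAlgebra.mapAlgHom_single]
  rfl

private theorem C12_Z_zero {k : Type u} [Field k] {Q : Type u} [LieRing Q] [LieAlgebra k Q]
    (S : R k →ₗ[k] Q) (D : ℤ → Q) (hS : ∀ φ ∈ JJ k ⊤, S φ = 0) {f : C12_C k} (hf : f ∈ C12_O k) :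
    C12_Z S D f = 0 := by
  obtain ⟨y, rfl⟩ := hf
  have e : C12_Z S D ∘ₗ (AddMonoidAlgebra.mapAlgHom ℤ (C12_J k).val).toLinearMap = 0 := by
    refine C12_ext fun j φ => ?_
    show C12_Z S D (AddMonoidAlgebra.mapAlgHom ℤ (C12_J k).val (AddMonoidAlgebra.single j φ)) = 0
    rw [AddMonoidAlgebra.mapAlgHom_single, C12_Z_single]
    show ⁅S φ.1, D j⁆ = 0
    rw [hS φ.1 φ.2, zero_lie]
  exact LinearMap.congr_fun e y

/-- powers of a unit -/
private theorem C12_zpow {C : Type u} [CommRing C] (w : Cˣ) (F : ℤ → C) (h0 : F 0 = 1)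
    (hm : ∀ a b, F (a + b) = F a * F b) (h1 : F 1 = w) (l : ℤ) : ((w ^ l : Cˣ) : C) = F l := by
  have hn : F (-1) = ((w⁻¹ : Cˣ) : C) := by
    have e : w * F (-1) = 1 := by
      rw [← h1, ← hm]
      exact h0
    exact (Units.eq_inv_of_mul_eq_one_left e)
  induction l with
  | zero => rw [zpow_zero, h0, Units.val_one]
  | succ n ih => rw [zpow_add_one, Units.val_mul, ih, hm, h1]
  | pred n ih => rw [zpow_sub_one, Units.val_mul, ih, sub_eq_add_neg, hm, hn]

/-- the unit `s` -/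
private noncomputable def C12_w (k : Type u) [Field k] : (C12_C k)ˣ where
  val := AddMonoidAlgebra.single 1 1
  inv := AddMonoidAlgebra.single (-1) 1
  val_inv := by
    rw [AddMonoidAlgebra.single_mul_single, mul_one]
    rfl
  inv_val := by
    rw [AddMonoidAlgebra.single_mul_single, mul_one]
    rfl

private theorem C12_w_zpow {k : Type u} [Field k] (l : ℤ) :
    ((C12_w k ^ l : (C12_C k)ˣ) : C12_C k) = AddMonoidAlgebra.single l 1 := by
  refine C12_zpow (C12_w k) (fun l => AddMonoidAlgebra.single l 1) rfl (fun a b => ?_) rfl l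
  show (AddMonoidAlgebra.single (a + b) 1 : C12_C k) = _
  rw [AddMonoidAlgebra.single_mul_single, mul_one]

/-- the exchange of `r` and `s`, on `R` -/
private noncomputable def C12_s0 (k : Type u) [Field k] : R k →ₐ[k] C12_C k :=
  algOf (AddMonoidAlgebra.single 0 T1 - AddMonoidAlgebra.single 1 1) (C12_w k)

private theorem C12_s0_T1 {k : Type u} [Field k] : C12_s0 k T1 = AddMonoidAlgebra.single 0 T1 := by
  conv_lhs => rw [T1]
  rw [map_add, C12_s0, algOf_mo, algOf_mo, C12_w_zpow, C12_w_zpow, pow_one, pow_zero, one_mul]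
  have e : (AddMonoidAlgebra.single 0 1 : C12_C k) = 1 := rfl
  rw [e, mul_one, sub_add_cancel]

private theorem C12_s0_mo {k : Type u} [Field k] (l : ℤ) :
    C12_s0 k (mo 0 l) = AddMonoidAlgebra.single l 1 := by
  rw [C12_s0, algOf_mo, C12_w_zpow, pow_zero, one_mul]

/-- the exchange of `r` and `s` -/
private noncomputable def C12_s (k : Type u) [Field k] : C12_C k →ₐ[k] C12_C k :=
  AddMonoidAlgebra.liftNCAlgHom (C12_s0 k)
    { toFun := fun m => AddMonoidAlgebra.single 0 (mo 0 (Multiplicative.toAdd m))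
      map_one' := rfl
      map_mul' := fun a b => by
        rw [AddMonoidAlgebra.single_mul_single, mo_mul]
        rfl }
    (fun _ _ => Commute.all _ _)

private theorem C12_s_single {k : Type u} [Field k] (j : ℤ) (φ : R k) :
    C12_s k (AddMonoidAlgebra.single j φ) = C12_s0 k φ * AddMonoidAlgebra.single 0 (mo 0 j) := by
  rw [C12_s, AddMonoidAlgebra.coe_liftNCAlgHom, AddMonoidAlgebra.liftNC_single]
  rfl

/-- the value of `σ` on `s^m p^i r^l` -/
private theorem C12_s_base {k : Type u} [Field k] (m : ℤ) (i : ℕ) (l : ℤ) :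
    C12_s k (AddMonoidAlgebra.single m (T1 ^ i * mo 0 l)) =
      AddMonoidAlgebra.single l (T1 ^ i * mo 0 m) := by
  rw [C12_s_single, map_mul, map_pow, C12_s0_T1, C12_s0_mo, AddMonoidAlgebra.single_pow,
    AddMonoidAlgebra.single_mul_single, AddMonoidAlgebra.single_mul_single, mul_one,
    smul_zero, zero_add, add_zero]

private theorem C12_jac {Q : Type u} [LieRing Q] (A : ℕ → Q) (B : ℤ → Q)
    (hB : ∀ i j, ⁅B i, B j⁆ = 0) (i : ℕ) (l m : ℤ) :
    ⁅⁅A i, B m⁆, B l⁆ = ⁅⁅A i, B l⁆, B m⁆ := by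
  have h := lie_lie (A i) (B m) (B l)
  rw [hB m l, lie_zero, zero_sub, lie_skew] at h
  exact h

/-- `Z` is invariant under the exchange -/
private theorem C12_sym {k : Type u} [Field k] {Q : Type u} [LieRing Q] [LieAlgebra k Q]
    (hSex : S_Sex.{u}) (A : ℕ → Q) (B : ℤ → Q) (S : R k →ₗ[k] Q) (hB : ∀ i j, ⁅B i, B j⁆ = 0)
    (hS : ∀ i l, S (T1 ^ i * mo 0 l) = ⁅A i, B l⁆) (f : C12_C k) :
    C12_Z S B (C12_s k f) = C12_Z S B f := by
  have e : C12_Z S B ∘ₗ (C12_s k).toLinearMap = C12_Z S B := by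
    refine C12_ext fun m φ => ?_
    have e2 : C12_Z S B ∘ₗ (C12_s k).toLinearMap ∘ₗ (AddMonoidAlgebra.lsingle m) =
        C12_Z S B ∘ₗ (AddMonoidAlgebra.lsingle m) := by
      refine (hSex k Q).2 _ _ fun i l => ?_
      show C12_Z S B (C12_s k (AddMonoidAlgebra.single m (T1 ^ i * mo 0 l))) =
        C12_Z S B (AddMonoidAlgebra.single m (T1 ^ i * mo 0 l))
      rw [C12_s_base, C12_Z_single, C12_Z_single, hS, hS]
      exact C12_jac A B hB i l m
    exact LinearMap.congr_fun e2 φ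
  exact LinearMap.congr_fun e f

private theorem C12_pr {k : Type u} [Field k] :
    (AddMonoidAlgebra.single 0 T1 - AddMonoidAlgebra.single 0 (mo 0 1) : C12_C k) =
      AddMonoidAlgebra.single 0 (mo 1 0) := by
  rw [← AddMonoidAlgebra.single_sub, T1, add_sub_cancel_right]

private theorem C12_le1 {k : Type u} [Field k] : Algebra.adjoin k
    {(AddMonoidAlgebra.single 0 (mo 0 (-1)) : C12_C k),
      AddMonoidAlgebra.single 0 T1 - AddMonoidAlgebra.single 0 (mo 0 1),
      (AddMonoidAlgebra.single 0 T1 - AddMonoidAlgebra.single 0 (mo 0 1)) *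
        AddMonoidAlgebra.single 0 (mo 0 1),
      AddMonoidAlgebra.single 1 1, AddMonoidAlgebra.single (-1) 1} ≤ C12_O k := by
  refine Algebra.adjoin_le ?_
  have h1 : (1 : R k) ∈ JJ k ⊤ := by
    rw [← mo_zero]
    exact mo_mem_JJ.mpr (Or.inl (by norm_num))
  rintro x (rfl | rfl | rfl | rfl | rfl)
  · exact C12_single_mem 0 (mo_mem_JJ.mpr (Or.inl (by norm_num)))
  · rw [C12_pr]
    exact C12_single_mem 0 (mo_mem_JJ.mpr (Or.inl (by norm_num)))
  · rw [C12_pr, AddMonoidAlgebra.single_mul_single, mo_mul]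
    exact C12_single_mem 0 (mo_mem_JJ.mpr (Or.inl (by norm_num)))
  · exact C12_single_mem 1 h1
  · exact C12_single_mem (-1) h1

private theorem C12_s_s {k : Type u} [Field k] (m : ℤ) :
    C12_s k (AddMonoidAlgebra.single m 1) = AddMonoidAlgebra.single 0 (mo 0 m) := by
  rw [C12_s_single, map_one, one_mul]

private theorem C12_s_mo {k : Type u} [Field k] (l : ℤ) :
    C12_s k (AddMonoidAlgebra.single 0 (mo 0 l)) = AddMonoidAlgebra.single l 1 := by
  rw [C12_s_single, C12_s0_mo]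
  exact mul_one _

private theorem C12_s_p {k : Type u} [Field k] :
    C12_s k (AddMonoidAlgebra.single 0 T1) = AddMonoidAlgebra.single 0 T1 := by
  rw [C12_s_single, C12_s0_T1]
  exact mul_one _

private theorem C12_le2 {k : Type u} [Field k] : Algebra.adjoin k
    {(AddMonoidAlgebra.single (-1) 1 : C12_C k),
      AddMonoidAlgebra.single 0 T1 - AddMonoidAlgebra.single 1 1,
      (AddMonoidAlgebra.single 0 T1 - AddMonoidAlgebra.single 1 1) *
        AddMonoidAlgebra.single 1 1,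
      AddMonoidAlgebra.single 0 (mo 0 1), AddMonoidAlgebra.single 0 (mo 0 (-1))} ≤
        (C12_O k).comap (C12_s k) := by
  refine Algebra.adjoin_le ?_
  have hsub : ∀ s ∈ ({(AddMonoidAlgebra.single 0 (mo 0 (-1)) : C12_C k),
      AddMonoidAlgebra.single 0 T1 - AddMonoidAlgebra.single 0 (mo 0 1),
      (AddMonoidAlgebra.single 0 T1 - AddMonoidAlgebra.single 0 (mo 0 1)) *
        AddMonoidAlgebra.single 0 (mo 0 1),
      AddMonoidAlgebra.single 1 1, AddMonoidAlgebra.single (-1) 1} : Set (C12_C k)),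
        s ∈ C12_O k := fun s hs => C12_le1 (Algebra.subset_adjoin hs)
  rintro x (rfl | rfl | rfl | rfl | rfl)
  · show C12_s k _ ∈ C12_O k
    rw [C12_s_s]
    exact hsub _ (by simp)
  · show C12_s k _ ∈ C12_O k
    rw [map_sub, C12_s_p, C12_s_s]
    exact hsub _ (by simp)
  · show C12_s k _ ∈ C12_O k
    rw [map_mul, map_sub, C12_s_p, C12_s_s]
    exact hsub _ (by simp)
  · show C12_s k _ ∈ C12_O k
    rw [C12_s_mo]
    exact hsub _ (by simp)
  · show C12_s k _ ∈ C12_O k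
    rw [C12_s_mo]
    exact hsub _ (by simp)

private theorem C12_key {k : Type u} [Field k] {Q : Type u} [LieRing Q] [LieAlgebra k Q]
    (hP : S_P12.{u}) (hSex : S_Sex.{u}) (A : ℕ → Q) (B : ℤ → Q) (S : R k →ₗ[k] Q)
    (hB : ∀ i j, ⁅B i, B j⁆ = 0) (hS : ∀ i l, S (T1 ^ i * mo 0 l) = ⁅A i, B l⁆)
    (h0 : ∀ φ ∈ JJ k ⊤, S φ = 0) (i a b c d : ℕ) :
    C12_Z S B ((AddMonoidAlgebra.single 0 T1) ^ i * (AddMonoidAlgebra.single 0 (mo 0 1)) ^ a *
      (AddMonoidAlgebra.single 0 (mo 0 (-1))) ^ b * (AddMonoidAlgebra.single 1 1) ^ c *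
      (AddMonoidAlgebra.single (-1) 1) ^ d) = 0 := by
  have hr : (AddMonoidAlgebra.single 0 (mo 0 1) : C12_C k) *
      AddMonoidAlgebra.single 0 (mo 0 (-1)) = 1 := by
    rw [AddMonoidAlgebra.single_mul_single, mo_mul]
    rfl
  have h := hP k (C12_C k) (AddMonoidAlgebra.single 0 T1) (AddMonoidAlgebra.single 0 (mo 0 1))
    (AddMonoidAlgebra.single 0 (mo 0 (-1))) (AddMonoidAlgebra.single 1 1)
    (AddMonoidAlgebra.single (-1) 1) hr (C12_w k).val_inv i a b c d
  obtain ⟨f, hf, g, hg, e⟩ := Submodule.mem_sup.mp h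
  rw [← e, map_add, C12_Z_zero S B h0 (C12_le1 hf), zero_add, ← C12_sym hSex A B S hB hS g]
  exact C12_Z_zero S B h0 (C12_le2 hg)

private theorem C12_nat (l : ℤ) : ∃ a b : ℕ, (a : ℤ) - b = l := by
  obtain ⟨n, rfl | rfl⟩ := l.eq_nat_or_neg
  · exact ⟨n, 0, by simp⟩
  · exact ⟨0, n, by simp⟩

theorem tC12 : S_P12.{u} → S_Sex.{u} → S_C12.{u} := by
  intro hP hSex k _ Q _ _ A B S hB hS h0 i l m
  have hZ : C12_Z S B (AddMonoidAlgebra.single m (T1 ^ i * mo 0 l)) = ⁅⁅A i, B l⁆, B m⁆ := by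
    rw [C12_Z_single, hS]
  rw [← hZ]
  obtain ⟨a, b, hab⟩ := C12_nat l
  obtain ⟨c, d, hcd⟩ := C12_nat m
  rw [← C12_key hP hSex A B S hB hS h0 i a b c d]
  refine congrArg (C12_Z S B) ?_
  rw [AddMonoidAlgebra.single_pow, AddMonoidAlgebra.single_pow, AddMonoidAlgebra.single_pow,
    AddMonoidAlgebra.single_pow, AddMonoidAlgebra.single_pow, mo_pow, mo_pow,
    AddMonoidAlgebra.single_mul_single, AddMonoidAlgebra.single_mul_single,
    AddMonoidAlgebra.single_mul_single, AddMonoidAlgebra.single_mul_single, mul_assoc (T1 ^ i),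
    mo_mul, one_pow, one_pow, mul_one, mul_one]
  have e1 : (i • (0 : ℤ) + a • (0 : ℤ) + b • (0 : ℤ) + c • (1 : ℤ) + d • (-1 : ℤ)) = m := by
    simp only [smul_zero, nsmul_eq_mul, mul_one, mul_neg, zero_add]
    rw [← hcd]
    ring
  have e2 : ((a : ℤ) * 1 + (b : ℤ) * (-1)) = l := by
    rw [← hab]
    ring
  rw [e1, e2, mul_zero, mul_zero, add_zero]

end Pool.Agent.Lib.MP_240c17_al.Q2
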