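import Pool.Agent.Lib.MP_240c17_al.Q2.Spec

/-!
# MP_240c17, project Q2: module C21, the brackets `⁅⁅A i, B l⁆, A j⁆` vanish
-/

set_option autoImplicit false

namespace Pool.Agent.Lib.MP_240c17_al.Q2

universe u

open Pool.Agent.Lib.MP_240c17_al

/-- `JJ ⊤` is closed under products -/
private theorem C21_mul {k : Type u} [Field k] {φ ψ : R k} (hφ : φ ∈ JJ k ⊤) (hψ : ψ ∈ JJ k ⊤) :
    φ * ψ ∈ JJ k ⊤ := by
  refine mul_mem_JJ (fun i l h => ?_) hφ
  rw [mul_comm]
  refine mul_mem_JJ (fun i' l' h' => ?_) hψ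
  rw [mo_mul]
  rw [mo_mem_JJ] at h h' ⊢
  rcases h with h | h
  · rcases h' with h' | h'
    · left
      push_cast
      omega
    · exact absurd h' (by simp)
  · exact absurd h (by simp)

/-- `JJ ⊤` as a subalgebra -/
private noncomputable def C21_J (k : Type u) [Field k] : Subalgebra k (R k) :=
  Submodule.toSubalgebra (JJ k ⊤) (by
    rw [← mo_zero, mo_mem_JJ]
    left
    simp) (fun _ _ => C21_mul)

private theorem C21_mem_J {k : Type u} [Field k] {φ : R k} : φ ∈ C21_J k ↔ φ ∈ JJ k ⊤ := Iff.rfl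

/-- the ring `R[q]` -/
private abbrev C21_C (k : Type u) [Field k] : Type u := AddMonoidAlgebra (R k) ℕ

/-- extensionality of linear maps -/
private theorem C21_ext {k : Type u} [Field k] {K : Type u} [CommRing K] [Algebra k K]
    {M : Type u} [AddCommGroup M] [Module k M]
    {f g : AddMonoidAlgebra K ℕ →ₗ[k] M}
    (h : ∀ j φ, f (AddMonoidAlgebra.single j φ) = g (AddMonoidAlgebra.single j φ)) : f = g := by
  refine LinearMap.ext fun x => ?_
  have h : f (AddMonoidAlgebra.ofCoeff x.coeff) = g (AddMonoidAlgebra.ofCoeff x.coeff) := by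
    induction x.coeff using Finsupp.induction with
    | zero =>
      rw [AddMonoidAlgebra.ofCoeff_zero, map_zero, map_zero]
    | single_add p c f' _ _ ih =>
      rw [AddMonoidAlgebra.ofCoeff_add, AddMonoidAlgebra.ofCoeff_single, map_add, map_add, ih, h]
  exact h

/-- the linear map `φ ↦ ⁅S φ, d⁆` -/
private noncomputable def C21_ad {k : Type u} [Field k] {Q : Type u} [LieRing Q] [LieAlgebra k Q]
    (S : R k →ₗ[k] Q) (d : Q) : R k →ₗ[k] Q where
  toFun φ := ⁅S φ, d⁆
  map_add' a b := by rw [map_add, add_lie]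
  map_smul' c a := by rw [map_smul, smul_lie, RingHom.id_apply]

/-- the linear map `q^j φ ↦ ⁅S φ, D j⁆` -/
private noncomputable def C21_Z {k : Type u} [Field k] {Q : Type u} [LieRing Q] [LieAlgebra k Q]
    (S : R k →ₗ[k] Q) (D : ℕ → Q) : C21_C k →ₗ[k] Q :=
  (Finsupp.lsum ℕ fun j => C21_ad S (D j)) ∘ₗ (AddMonoidAlgebra.coeffLinearEquiv k).toLinearMap

private theorem C21_Z_single {k : Type u} [Field k] {Q : Type u} [LieRing Q] [LieAlgebra k Q]
    (S : R k →ₗ[k] Q) (D : ℕ → Q) (j : ℕ) (φ : R k) :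
    C21_Z S D (AddMonoidAlgebra.single j φ) = ⁅S φ, D j⁆ := by
  show Finsupp.lsum ℕ (fun j => C21_ad S (D j)) (AddMonoidAlgebra.single j φ : C21_C k).coeff = _
  rw [AddMonoidAlgebra.coeff_single, Finsupp.lsum_single]
  rfl

/-- the subalgebra of the elements with coefficients in `JJ ⊤` -/
private noncomputable def C21_O (k : Type u) [Field k] : Subalgebra k (C21_C k) :=
  (AddMonoidAlgebra.mapAlgHom ℕ (C21_J k).val).range

private theorem C21_single_mem {k : Type u} [Field k] (j : ℕ) {φ : R k} (h : φ ∈ JJ k ⊤) :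
    (AddMonoidAlgebra.single j φ : C21_C k) ∈ C21_O k := by
  refine ⟨AddMonoidAlgebra.single j (⟨φ, h⟩ : C21_J k), ?_⟩
  show AddMonoidAlgebra.mapAlgHom ℕ (C21_J k).val (AddMonoidAlgebra.single j (⟨φ, h⟩ : C21_J k)) = _
  rw [AddMonoidAlgebra.mapAlgHom_single]
  rfl

private theorem C21_Z_zero {k : Type u} [Field k] {Q : Type u} [LieRing Q] [LieAlgebra k Q]
    (S : R k →ₗ[k] Q) (D : ℕ → Q) (hS : ∀ φ ∈ JJ k ⊤, S φ = 0) {f : C21_C k} (hf : f ∈ C21_O k) :
    C21_Z S D f = 0 := by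
  obtain ⟨y, rfl⟩ := hf
  have e : C21_Z S D ∘ₗ (AddMonoidAlgebra.mapAlgHom ℕ (C21_J k).val).toLinearMap = 0 := by
    refine C21_ext fun j φ => ?_
    show C21_Z S D (AddMonoidAlgebra.mapAlgHom ℕ (C21_J k).val (AddMonoidAlgebra.single j φ)) = 0
    rw [AddMonoidAlgebra.mapAlgHom_single, C21_Z_single]
    show ⁅S φ.1, D j⁆ = 0
    rw [hS φ.1 φ.2, zero_lie]
  exact LinearMap.congr_fun e y

/-- powers of a unit -/
private theorem C21_zpow {C : Type u} [CommRing C] (w : Cˣ) (F : ℤ → C) (h0 : F 0 = 1)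
    (hm : ∀ a b, F (a + b) = F a * F b) (h1 : F 1 = w) (l : ℤ) : ((w ^ l : Cˣ) : C) = F l := by
  have hn : F (-1) = ((w⁻¹ : Cˣ) : C) := by
    have e : w * F (-1) = 1 := by
      rw [← h1, ← hm]
      exact h0
    exact (Units.eq_inv_of_mul_eq_one_left e)
  induction l with
  | zero => rw [zpow_zero, h0, Units.val_one]
  | succ n ih => rw [zpow_add_one, Units.val_mul, ih, hm, h1]
  | pred n ih => rw [zpow_sub_one, Units.val_mul, ih, sub_eq_add_neg, hm, hn]

/-- the unit `w` -/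
private noncomputable def C21_w (k : Type u) [Field k] : (C21_C k)ˣ where
  val := AddMonoidAlgebra.single 0 (mo 0 1)
  inv := AddMonoidAlgebra.single 0 (mo 0 (-1))
  val_inv := by
    rw [AddMonoidAlgebra.single_mul_single, mo_mul]
    rfl
  inv_val := by
    rw [AddMonoidAlgebra.single_mul_single, mo_mul]
    rfl

private theorem C21_w_zpow {k : Type u} [Field k] (l : ℤ) :
    ((C21_w k ^ l : (C21_C k)ˣ) : C21_C k) = AddMonoidAlgebra.single 0 (mo 0 l) := by
  refine C21_zpow (C21_w k) (fun l => AddMonoidAlgebra.single 0 (mo 0 l)) rfl (fun a b => ?_) rfl l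
  show (AddMonoidAlgebra.single 0 (mo 0 (a + b)) : C21_C k) = _
  rw [AddMonoidAlgebra.single_mul_single, mo_mul]

/-- the exchange of `p` and `q`, on `R` -/
private noncomputable def C21_s0 (k : Type u) [Field k] : R k →ₐ[k] C21_C k :=
  algOf (AddMonoidAlgebra.single 1 1 - AddMonoidAlgebra.single 0 (mo 0 1)) (C21_w k)

private theorem C21_s0_T1 {k : Type u} [Field k] : C21_s0 k T1 = AddMonoidAlgebra.single 1 1 := by
  rw [T1, map_add, C21_s0, algOf_mo, algOf_mo, C21_w_zpow, C21_w_zpow, pow_one, pow_zero, one_mul]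
  have e : (AddMonoidAlgebra.single 0 (mo 0 0) : C21_C k) = 1 := rfl
  rw [e, mul_one, sub_add_cancel]

private theorem C21_s0_mo {k : Type u} [Field k] (l : ℤ) :
    C21_s0 k (mo 0 l) = AddMonoidAlgebra.single 0 (mo 0 l) := by
  rw [C21_s0, algOf_mo, C21_w_zpow, pow_zero, one_mul]

/-- the exchange of `p` and `q` -/
private noncomputable def C21_s (k : Type u) [Field k] : C21_C k →ₐ[k] C21_C k :=
  AddMonoidAlgebra.liftNCAlgHom (C21_s0 k) (powersHom (C21_C k) (AddMonoidAlgebra.single 0 T1))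
    (fun _ _ => Commute.all _ _)

private theorem C21_s_single {k : Type u} [Field k] (j : ℕ) (φ : R k) :
    C21_s k (AddMonoidAlgebra.single j φ) = C21_s0 k φ * AddMonoidAlgebra.single 0 (T1 ^ j) := by
  rw [C21_s, AddMonoidAlgebra.coe_liftNCAlgHom, AddMonoidAlgebra.liftNC_single]
  show C21_s0 k φ * (powersHom (C21_C k) (AddMonoidAlgebra.single 0 T1)) (Multiplicative.ofAdd j) = _
  rw [powersHom_apply, toAdd_ofAdd, AddMonoidAlgebra.single_pow, smul_zero]

/-- the value of `Z ∘ σ` on `q^j p^i w^l` -/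
private theorem C21_s_base {k : Type u} [Field k] (j i : ℕ) (l : ℤ) :
    C21_s k (AddMonoidAlgebra.single j (T1 ^ i * mo 0 l)) =
      AddMonoidAlgebra.single i (T1 ^ j * mo 0 l) := by
  rw [C21_s_single, map_mul, map_pow, C21_s0_T1, C21_s0_mo, AddMonoidAlgebra.single_pow,
    AddMonoidAlgebra.single_mul_single, AddMonoidAlgebra.single_mul_single, one_pow, one_mul,
    smul_eq_mul, mul_one, add_zero, add_zero, mul_comm]

private theorem C21_jac {Q : Type u} [LieRing Q] (A : ℕ → Q) (B : ℤ → Q)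
    (hA : ∀ i j, ⁅A i, A j⁆ = 0) (i : ℕ) (l : ℤ) (j : ℕ) :
    ⁅⁅A j, B l⁆, A i⁆ = ⁅⁅A i, B l⁆, A j⁆ := by
  rw [lie_lie, hA j i, lie_zero, sub_zero, ← lie_skew (A i) (B l), neg_lie, lie_skew]

/-- `Z` is invariant under the exchange -/
private theorem C21_sym {k : Type u} [Field k] {Q : Type u} [LieRing Q] [LieAlgebra k Q]
    (hSex : S_Sex.{u}) (A : ℕ → Q) (B : ℤ → Q) (S : R k →ₗ[k] Q) (hA : ∀ i j, ⁅A i, A j⁆ = 0)
    (hS : ∀ i l, S (T1 ^ i * mo 0 l) = ⁅A i, B l⁆) (f : C21_C k) :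
    C21_Z S A (C21_s k f) = C21_Z S A f := by
  have e : C21_Z S A ∘ₗ (C21_s k).toLinearMap = C21_Z S A := by
    refine C21_ext fun j φ => ?_
    have e2 : C21_Z S A ∘ₗ (C21_s k).toLinearMap ∘ₗ (AddMonoidAlgebra.lsingle j) =
        C21_Z S A ∘ₗ (AddMonoidAlgebra.lsingle j) := by
      refine (hSex k Q).2 _ _ fun i l => ?_
      show C21_Z S A (C21_s k (AddMonoidAlgebra.single j (T1 ^ i * mo 0 l))) =
        C21_Z S A (AddMonoidAlgebra.single j (T1 ^ i * mo 0 l))
      rw [C21_s_base, C21_Z_single, C21_Z_single, hS, hS]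
      exact C21_jac A B hA i l j
    exact LinearMap.congr_fun e2 φ
  exact LinearMap.congr_fun e f

private theorem C21_pw {k : Type u} [Field k] :
    (AddMonoidAlgebra.single 0 T1 - AddMonoidAlgebra.single 0 (mo 0 1) : C21_C k) =
      AddMonoidAlgebra.single 0 (mo 1 0) := by
  rw [← AddMonoidAlgebra.single_sub, T1, add_sub_cancel_right]

private theorem C21_le1 {k : Type u} [Field k] : Algebra.adjoin k
    {(AddMonoidAlgebra.single 0 (mo 0 (-1)) : C21_C k),
      AddMonoidAlgebra.single 0 T1 - AddMonoidAlgebra.single 0 (mo 0 1),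
      (AddMonoidAlgebra.single 0 T1 - AddMonoidAlgebra.single 0 (mo 0 1)) *
        AddMonoidAlgebra.single 0 (mo 0 1),
      AddMonoidAlgebra.single 1 1} ≤ C21_O k := by
  refine Algebra.adjoin_le ?_
  rintro x (rfl | rfl | rfl | rfl)
  · exact C21_single_mem 0 (mo_mem_JJ.mpr (Or.inl (by norm_num)))
  · rw [C21_pw]
    exact C21_single_mem 0 (mo_mem_JJ.mpr (Or.inl (by norm_num)))
  · rw [C21_pw, AddMonoidAlgebra.single_mul_single, mo_mul]
    exact C21_single_mem 0 (mo_mem_JJ.mpr (Or.inl (by norm_num)))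
  · exact C21_single_mem 1 (by
      rw [← mo_zero]
      exact mo_mem_JJ.mpr (Or.inl (by norm_num)))

private theorem C21_s_q {k : Type u} [Field k] :
    C21_s k (AddMonoidAlgebra.single 1 1) = AddMonoidAlgebra.single 0 T1 := by
  rw [C21_s_single, map_one, one_mul, pow_one]

private theorem C21_s_mo {k : Type u} [Field k] (l : ℤ) :
    C21_s k (AddMonoidAlgebra.single 0 (mo 0 l)) = AddMonoidAlgebra.single 0 (mo 0 l) := by
  rw [C21_s_single, C21_s0_mo, pow_zero]
  exact mul_one _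

private theorem C21_s_p {k : Type u} [Field k] :
    C21_s k (AddMonoidAlgebra.single 0 T1) = AddMonoidAlgebra.single 1 1 := by
  rw [C21_s_single, C21_s0_T1, pow_zero]
  exact mul_one _

private theorem C21_le2 {k : Type u} [Field k] : Algebra.adjoin k
    {(AddMonoidAlgebra.single 0 (mo 0 (-1)) : C21_C k),
      AddMonoidAlgebra.single 1 1 - AddMonoidAlgebra.single 0 (mo 0 1),
      (AddMonoidAlgebra.single 1 1 - AddMonoidAlgebra.single 0 (mo 0 1)) *
        AddMonoidAlgebra.single 0 (mo 0 1),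
      AddMonoidAlgebra.single 0 T1} ≤ (C21_O k).comap (C21_s k) := by
  refine Algebra.adjoin_le ?_
  have hsub : ∀ s ∈ ({(AddMonoidAlgebra.single 0 (mo 0 (-1)) : C21_C k),
      AddMonoidAlgebra.single 0 T1 - AddMonoidAlgebra.single 0 (mo 0 1),
      (AddMonoidAlgebra.single 0 T1 - AddMonoidAlgebra.single 0 (mo 0 1)) *
        AddMonoidAlgebra.single 0 (mo 0 1),
      AddMonoidAlgebra.single 1 1} : Set (C21_C k)), s ∈ C21_O k := fun s hs =>
    C21_le1 (Algebra.subset_adjoin hs)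
  rintro x (rfl | rfl | rfl | rfl)
  · show C21_s k _ ∈ C21_O k
    rw [C21_s_mo]
    exact hsub _ (by simp)
  · show C21_s k _ ∈ C21_O k
    rw [map_sub, C21_s_q, C21_s_mo]
    exact hsub _ (by simp)
  · show C21_s k _ ∈ C21_O k
    rw [map_mul, map_sub, C21_s_q, C21_s_mo]
    exact hsub _ (by simp)
  · show C21_s k _ ∈ C21_O k
    rw [C21_s_p]
    exact hsub _ (by simp)

private theorem C21_key {k : Type u} [Field k] {Q : Type u} [LieRing Q] [LieAlgebra k Q]
    (hP : S_P21.{u}) (hSex : S_Sex.{u}) (A : ℕ → Q) (B : ℤ → Q) (S : R k →ₗ[k] Q)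
    (hA : ∀ i j, ⁅A i, A j⁆ = 0) (hS : ∀ i l, S (T1 ^ i * mo 0 l) = ⁅A i, B l⁆)
    (h0 : ∀ φ ∈ JJ k ⊤, S φ = 0) (i j m n : ℕ) :
    C21_Z S A ((AddMonoidAlgebra.single 0 T1) ^ i * (AddMonoidAlgebra.single 1 1) ^ j *
      (AddMonoidAlgebra.single 0 (mo 0 1)) ^ m * (AddMonoidAlgebra.single 0 (mo 0 (-1))) ^ n) = 0 := by
  have h := hP k (C21_C k) (AddMonoidAlgebra.single 0 T1) (AddMonoidAlgebra.single 1 1)
    (AddMonoidAlgebra.single 0 (mo 0 1)) (AddMonoidAlgebra.single 0 (mo 0 (-1)))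
    (C21_w k).val_inv i j m n
  obtain ⟨f, hf, g, hg, e⟩ := Submodule.mem_sup.mp h
  rw [← e, map_add, C21_Z_zero S A h0 (C21_le1 hf), zero_add, ← C21_sym hSex A B S hA hS g]
  exact C21_Z_zero S A h0 (C21_le2 hg)

theorem tC21 : S_P21.{u} → S_Sex.{u} → S_C21.{u} := by
  intro hP hSex k _ Q _ _ A B S hA hS h0 i l j
  have hZ : C21_Z S A (AddMonoidAlgebra.single j (T1 ^ i * mo 0 l)) = ⁅⁅A i, B l⁆, A j⁆ := by
    rw [C21_Z_single, hS]
  rw [← hZ]
  obtain ⟨n, rfl | rfl⟩ := l.eq_nat_or_neg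
  · have h := C21_key hP hSex A B S hA hS h0 i j n 0
    rw [← h, AddMonoidAlgebra.single_pow, AddMonoidAlgebra.single_pow, AddMonoidAlgebra.single_pow,
      mo_pow, AddMonoidAlgebra.single_mul_single, AddMonoidAlgebra.single_mul_single, pow_zero,
      mul_one, one_pow, mul_one, smul_zero, smul_zero, smul_eq_mul, mul_one, mul_zero, mul_one,
      zero_add, add_zero]
  · have h := C21_key hP hSex A B S hA hS h0 i j 0 n
    rw [← h, pow_zero, mul_one, AddMonoidAlgebra.single_pow, AddMonoidAlgebra.single_pow,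
      AddMonoidAlgebra.single_pow, mo_pow, AddMonoidAlgebra.single_mul_single,
      AddMonoidAlgebra.single_mul_single, one_pow, mul_one, smul_zero, smul_zero, smul_eq_mul,
      mul_one, mul_zero, mul_neg, mul_one, zero_add, add_zero]

end Pool.Agent.Lib.MP_240c17_al.Q2
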