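import Pool.Agent.Lib.MP_240c17_al.Q2.Spec

/-!
# MP_240c17, project Q2: the core of the presentation
-/

set_option autoImplicit false

namespace Pool.Agent.Lib.MP_240c17_al.Q2

universe u

open Pool.Agent.Lib.MP_240c17_al

/-- elements of the span of pairs `(q, h)` in which `q` is a linear function of `h` -/
private theorem Core_lin {k : Type u} [Field k] {Q : Type u} [LieRing Q] [LieAlgebra k Q]
    (z x1 x2 : Q) (α β S : R k →ₗ[k] Q) {G : Set (Q × HH k)}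
    (h : ∀ p ∈ G, p.1 = p.2.t 0 • z + p.2.t 1 • x1 + p.2.t 2 • x2 + α p.2.a + β p.2.b + S p.2.c) :
    ∀ p ∈ Submodule.span k G,
      p.1 = p.2.t 0 • z + p.2.t 1 • x1 + p.2.t 2 • x2 + α p.2.a + β p.2.b + S p.2.c := by
  intro p hp
  induction hp using Submodule.span_induction with
  | mem x hx => exact h x hx
  | zero =>
    show (0 : Q) = (0 : Fin 3 → k) 0 • z + (0 : Fin 3 → k) 1 • x1 + (0 : Fin 3 → k) 2 • x2 + α 0 +
      β 0 + S 0
    simp
  | add x y _ _ h1 h2 =>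
    show x.1 + y.1 = (x.2.t + y.2.t) 0 • z + (x.2.t + y.2.t) 1 • x1 + (x.2.t + y.2.t) 2 • x2 +
      α (x.2.a + y.2.a) + β (x.2.b + y.2.b) + S (x.2.c + y.2.c)
    rw [h1, h2, map_add, map_add, map_add, Pi.add_apply, Pi.add_apply, Pi.add_apply, add_smul,
      add_smul, add_smul]
    abel
  | smul c x _ h1 =>
    show c • x.1 = (c • x.2.t) 0 • z + (c • x.2.t) 1 • x1 + (c • x.2.t) 2 • x2 +
      α (c • x.2.a) + β (c • x.2.b) + S (c • x.2.c)
    rw [h1, map_smul, map_smul, map_smul, Pi.smul_apply, Pi.smul_apply, Pi.smul_apply,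
      smul_eq_mul, smul_eq_mul, smul_eq_mul, mul_smul, mul_smul, mul_smul, smul_add, smul_add,
      smul_add, smul_add, smul_add]

theorem tCore : S_FamE.{u} → S_AA.{u} → S_BB.{u} → S_Sex.{u} → S_WW.{u} → S_C21.{u} → S_C12.{u} →
    S_Span.{u} → S_Core.{u} := by
  intro hFamE hAA hBB hSex hWW hC21 hC12 hSpan k _ hk Q _ _ θ hR v hv
  obtain ⟨A, B, hF, hA0, hB0, hB1, hA01, hBb, hAB0, hAB1⟩ := hFamE Q _ _ _ _ _ _ hR
  have hA := hAA k hk Q _ _ _ A B hF hA01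
  have hB := hBB k hk Q _ _ _ A B hF hBb
  obtain ⟨S, hS⟩ := (hSex k Q).1 (fun i l => ⁅A i, B l⁆)
  have hW := hWW k hk Q _ _ _ A B hF hAB0 hAB1 S hS
  have hCA := hC21 k Q A B S hA hS hW
  have hCB := hC12 k Q A B S hB hS hW
  have hsp := hSpan k Q _ _ _ A B hF hA hB hCA hCB θ rfl rfl rfl hA0.symm hB0.symm hB1.symm v
  obtain ⟨α, hα⟩ := (hSex k Q).1 (fun i l => if l = 0 then A i else 0)
  have hα' : ∀ i : ℕ, α (T1 ^ i) = A i := by
    intro i
    have h := hα i 0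
    rw [mo_zero, mul_one, if_pos rfl] at h
    exact h
  let β : R k →ₗ[k] Q := linOf (fun i l => if i = 0 then B l else 0)
  have hβ : ∀ l : ℤ, β (mo 0 l) = B l := by
    intro l
    show linOf (fun i l => if i = 0 then B l else 0) (mo 0 l) = B l
    rw [linOf_mo, if_pos rfl]
  obtain ⟨n1, n2, n3, n4⟩ := mem_kerJ.mp hv
  have e := Core_lin (θ (FreeLieAlgebra.of k 0)) (θ (FreeLieAlgebra.of k 1))
    (θ (FreeLieAlgebra.of k 2)) α β S (G := _) ?_ _ hsp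
  · have e' : θ v = (Phi k v).t 0 • θ (FreeLieAlgebra.of k 0) +
        (Phi k v).t 1 • θ (FreeLieAlgebra.of k 1) + (Phi k v).t 2 • θ (FreeLieAlgebra.of k 2) +
        α (Phi k v).a + β (Phi k v).b + S (Phi k v).c := e
    rw [e', n1, n2, n3, hW _ n4, map_zero, map_zero]
    simp
  · rintro p ((((rfl | rfl | rfl) | ⟨i, rfl⟩) | ⟨l, rfl⟩) | ⟨⟨i, l⟩, rfl⟩)
    · simp
    · simp
    · simp
    · show A i = (0 : Fin 3 → k) 0 • θ (FreeLieAlgebra.of k 0) +
        (0 : Fin 3 → k) 1 • θ (FreeLieAlgebra.of k 1) +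
        (0 : Fin 3 → k) 2 • θ (FreeLieAlgebra.of k 2) + α (T1 ^ i) + β 0 + S 0
      rw [hα']
      simp
    · show B l = (0 : Fin 3 → k) 0 • θ (FreeLieAlgebra.of k 0) +
        (0 : Fin 3 → k) 1 • θ (FreeLieAlgebra.of k 1) +
        (0 : Fin 3 → k) 2 • θ (FreeLieAlgebra.of k 2) + α 0 + β (mo 0 l) + S 0
      rw [hβ]
      simp
    · show ⁅A i, B l⁆ = (0 : Fin 3 → k) 0 • θ (FreeLieAlgebra.of k 0) +
        (0 : Fin 3 → k) 1 • θ (FreeLieAlgebra.of k 1) +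
        (0 : Fin 3 → k) 2 • θ (FreeLieAlgebra.of k 2) + α 0 + β 0 + S (T1 ^ i * mo 0 l)
      rw [hS]
      simp

end Pool.Agent.Lib.MP_240c17_al.Q2
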