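import Pool.Agent.Lib.MP_240c17_al.Q2.Spec

set_option autoImplicit false

namespace Pool.Agent.Lib.MP_240c17_al.Q2

universe u

open Pool.Agent.Lib.MP_240c17_al

section
variable {Q : Type u} [LieRing Q]

/-- right bracket with `y` -/
private def FamE_D (y : Q) : AddMonoid.End Q where
  toFun l := ⁅l, y⁆
  map_zero' := zero_lie y
  map_add' a b := add_lie a b y

private theorem FamE_D_apply (y l : Q) : FamE_D y l = ⁅l, y⁆ := rfl

private theorem FamE_comm (y y' : Q) (h : ⁅y, y'⁆ = 0) : Commute (FamE_D y) (FamE_D y') := by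
  apply AddMonoidHom.ext
  intro l
  change ⁅⁅l, y'⁆, y⁆ = ⁅⁅l, y⁆, y'⁆
  have h1 := lie_lie l y y'
  have h2 : ⁅⁅l, y'⁆, y⁆ = -⁅y, ⁅l, y'⁆⁆ := (lie_skew _ _).symm
  rw [h1, h2, h, lie_zero]
  abel

/-- integer powers of `E`, with inverse `F` -/
private def FamE_EE (E F : AddMonoid.End Q) (m : ℤ) : AddMonoid.End Q :=
  if 0 ≤ m then E ^ m.toNat else F ^ (-m).toNat

private theorem FamE_EE_nonneg (E F : AddMonoid.End Q) (n : ℕ) :
    FamE_EE E F (n : ℤ) = E ^ n := by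
  unfold FamE_EE
  rw [if_pos (by positivity)]
  simp

private theorem FamE_EE_neg (E F : AddMonoid.End Q) (n : ℕ) :
    FamE_EE E F (-(n : ℤ)) = F ^ n := by
  unfold FamE_EE
  rcases Nat.eq_zero_or_pos n with h | h
  · subst h
    simp
  · rw [if_neg (by omega)]
    simp

private theorem FamE_EE_comm (E F X : AddMonoid.End Q) (hE : Commute E X) (hF : Commute F X)
    (m : ℤ) : Commute (FamE_EE E F m) X := by
  unfold FamE_EE
  split_ifs
  · exact hE.pow_left _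
  · exact hF.pow_left _

private theorem FamE_stepE (E F : AddMonoid.End Q) (hEF : Commute E F) (v : Q)
    (hv : E (F v) = v) (m : ℤ) : E (FamE_EE E F m v) = FamE_EE E F (m + 1) v := by
  rcases lt_or_ge m 0 with h | h
  · obtain ⟨n, hn⟩ : ∃ n : ℕ, m = -((n + 1 : ℕ) : ℤ) := ⟨(-m - 1).toNat, by omega⟩
    have e : m + 1 = -(n : ℤ) := by rw [hn]; push_cast; ring
    rw [e, hn, FamE_EE_neg, FamE_EE_neg]
    have h1 : E * F ^ (n + 1) = F ^ n * (E * F) := by
      rw [pow_succ, ← mul_assoc, (hEF.pow_right n).eq, mul_assoc]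
    have h2 := congrArg (fun f : AddMonoid.End Q => f v) h1
    change E ((F ^ (n + 1)) v) = (F ^ n) (E (F v)) at h2
    rw [h2, hv]
  · obtain ⟨n, hn⟩ : ∃ n : ℕ, m = (n : ℤ) := ⟨m.toNat, by omega⟩
    have e : m + 1 = ((n + 1 : ℕ) : ℤ) := by rw [hn]; push_cast; ring
    rw [e, hn, FamE_EE_nonneg, FamE_EE_nonneg, pow_succ']
    rfl

private theorem FamE_stepF (E F : AddMonoid.End Q) (hEF : Commute E F) (v : Q)
    (hv : E (F v) = v) (m : ℤ) : F (FamE_EE E F m v) = FamE_EE E F (m - 1) v := by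
  rcases lt_or_ge 0 m with h | h
  · obtain ⟨n, hn⟩ : ∃ n : ℕ, m = ((n + 1 : ℕ) : ℤ) := ⟨(m - 1).toNat, by omega⟩
    have e : m - 1 = (n : ℤ) := by rw [hn]; push_cast; ring
    rw [e, hn, FamE_EE_nonneg, FamE_EE_nonneg]
    have h1 : F * E ^ (n + 1) = E ^ n * (E * F) := by
      rw [pow_succ, ← mul_assoc, (hEF.symm.pow_right n).eq, mul_assoc, hEF.eq]
    have h2 := congrArg (fun f : AddMonoid.End Q => f v) h1
    change F ((E ^ (n + 1)) v) = (E ^ n) (E (F v)) at h2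
    rw [h2, hv]
  · obtain ⟨n, hn⟩ : ∃ n : ℕ, m = -(n : ℤ) := ⟨(-m).toNat, by omega⟩
    have e : m - 1 = -((n + 1 : ℕ) : ℤ) := by rw [hn]; push_cast; ring
    rw [e, hn, FamE_EE_neg, FamE_EE_neg, pow_succ']
    rfl

end

theorem tFamE : S_FamE.{u} := by
  intro Q _ z x1 x2 a b0 b1 hR
  have hX2 : Commute (FamE_D x1) (FamE_D x2) := FamE_comm _ _ hR.x12
  have hZ1 : Commute (FamE_D z) (FamE_D x1) := FamE_comm _ _ hR.zx1
  have hZ2 : Commute (FamE_D z) (FamE_D x2) := FamE_comm _ _ hR.zx2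
  obtain ⟨E, hEdef⟩ : ∃ E : AddMonoid.End Q, E = 1 - FamE_D x2 := ⟨_, rfl⟩
  obtain ⟨F, hFdef⟩ : ∃ F : AddMonoid.End Q, F = 1 + FamE_D z := ⟨_, rfl⟩
  have hE : ∀ l, E l = Eo x2 l := by intro l; rw [hEdef]; rfl
  have hF : ∀ l, F l = Fo z l := by intro l; rw [hFdef]; rfl
  have hEF : Commute E F := by
    rw [hEdef, hFdef]
    exact ((Commute.one_left _).sub_left (((Commute.one_right _).add_right hZ2.symm)))
  have hEX : Commute E (FamE_D x1) := by
    rw [hEdef]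
    exact (Commute.one_left _).sub_left hX2.symm
  have hFX : Commute F (FamE_D x1) := by
    rw [hFdef]
    exact (Commute.one_left _).add_left hZ1
  have v0 : E (F b0) = b0 := by rw [hF, hE]; exact hR.e0
  have v1 : E (F b1) = b1 := by rw [hF, hE]; exact hR.e1
  have hcX : ∀ m v, ⁅FamE_EE E F m v, x1⁆ = FamE_EE E F m ⁅v, x1⁆ := by
    intro m v
    have h := congrArg (fun f : AddMonoid.End Q => f v) (FamE_EE_comm E F _ hEX hFX m).eq
    exact h.symm
  have hcF : ∀ m v, FamE_EE E F m (F v) = F (FamE_EE E F m v) := by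
    intro m v
    exact congrArg (fun f : AddMonoid.End Q => f v)
      (FamE_EE_comm E F F hEF (Commute.refl F) m).eq
  have hcE : ∀ m v, FamE_EE E F m (E v) = E (FamE_EE E F m v) := by
    intro m v
    exact congrArg (fun f : AddMonoid.End Q => f v)
      (FamE_EE_comm E F E (Commute.refl E) hEF.symm m).eq
  have sE := FamE_stepE E F hEF
  have sF := FamE_stepF E F hEF
  have EE0 : ∀ v, FamE_EE E F 0 v = v := by
    intro v
    have h := FamE_EE_nonneg E F 0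
    rw [Nat.cast_zero, pow_zero] at h
    rw [h]
    rfl
  -- the family B
  obtain ⟨B, hBe, hBo⟩ : ∃ B : ℤ → Q, (∀ m, B (2 * m) = FamE_EE E F m b0) ∧
      (∀ m, B (2 * m + 1) = FamE_EE E F m b1) := by
    refine ⟨fun l => FamE_EE E F (l / 2) (if l % 2 = 0 then b0 else b1), ?_, ?_⟩
    · intro m
      change FamE_EE E F (2 * m / 2) (if 2 * m % 2 = 0 then b0 else b1) = _
      rw [if_pos (by omega)]
      congr 2
      omega
    · intro m
      change FamE_EE E F ((2 * m + 1) / 2) (if (2 * m + 1) % 2 = 0 then b0 else b1) = _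
      rw [if_neg (by omega)]
      congr 2
      omega
  have BE : ∀ l, E (B l) = B (l + 2) := by
    intro l
    obtain ⟨m, rfl | rfl⟩ := Int.even_or_odd' l
    · rw [hBe, sE b0 v0, show 2 * m + 2 = 2 * (m + 1) by ring, hBe]
    · rw [hBo, sE b1 v1, show 2 * m + 1 + 2 = 2 * (m + 1) + 1 by ring, hBo]
  have BF : ∀ l, F (B l) = B (l - 2) := by
    intro l
    obtain ⟨m, rfl | rfl⟩ := Int.even_or_odd' l
    · rw [hBe, sF b0 v0, show 2 * m - 2 = 2 * (m - 1) by ring, hBe]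
    · rw [hBo, sF b1 v1, show 2 * m + 1 - 2 = 2 * (m - 1) + 1 by ring, hBo]
  have hB0 : B 0 = b0 := by
    have h := hBe 0
    rw [mul_zero, EE0] at h
    exact h
  have hB1 : B 1 = b1 := by
    have h := hBo 0
    rw [mul_zero, zero_add, EE0] at h
    exact h
  have hBm1 : B (-1) = Fo z b1 := by
    have h := BF 1
    rw [hB1, hF] at h
    exact h.symm
  have hBm2 : B (-2) = Fo z b0 := by
    have h := BF 0
    rw [hB0, hF, zero_sub] at h
    exact h.symm
  have hB2 : B 2 = Eo x2 b0 := by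
    have h := BE 0
    rw [hB0, hE, zero_add] at h
    exact h.symm
  -- the family A
  have XA : ∀ i, Commute (FamE_D x1 ^ i) (FamE_D z) := fun i => hZ1.symm.pow_left i
  have XA2 : ∀ i, Commute (FamE_D x1 ^ i) (FamE_D x2) := fun i => hX2.pow_left i
  refine ⟨fun i => (FamE_D x1 ^ i) a, B, ?_, ?_, hB0, hB1, ?_, ?_, ?_, ?_⟩
  · refine ⟨hR.zx1, hR.zx2, hR.x12, ?_, ?_, ?_, ?_, ?_, ?_⟩
    · intro i
      have h := congrArg (fun f : AddMonoid.End Q => f a) (XA i).eq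
      change (FamE_D x1 ^ i) ⁅a, z⁆ = ⁅(FamE_D x1 ^ i) a, z⁆ at h
      rw [← h, hR.az]
    · intro i
      change ⁅(FamE_D x1 ^ i) a, x1⁆ = (FamE_D x1 ^ (i + 1)) a
      rw [pow_succ']
      rfl
    · intro i
      have h := congrArg (fun f : AddMonoid.End Q => f a) (XA2 i).eq
      change (FamE_D x1 ^ i) ⁅a, x2⁆ = ⁅(FamE_D x1 ^ i) a, x2⁆ at h
      change ⁅(FamE_D x1 ^ i) a, x2⁆ = (FamE_D x1 ^ (i + 2)) a
      rw [← h, hR.ax2, pow_add, pow_two]
      rfl
    · intro l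
      have h := BF l
      rw [hF] at h
      rw [← h]
      unfold Fo
      abel
    · intro l
      obtain ⟨m, rfl | rfl⟩ := Int.even_or_odd' l
      · rw [hBe, hcX, hR.b0x, ← hF, map_sub, hcF, sF b1 v1,
          show 2 * m - 1 = 2 * (m - 1) + 1 by ring, hBo, hBo]
      · rw [hBo, hcX, hR.b1x, ← hE, map_sub, hcE, sE b0 v0,
          show 2 * m + 1 - 1 = 2 * m by ring, show 2 * m + 1 + 1 = 2 * (m + 1) by ring, hBe, hBe]
    · intro l
      have h := BE l
      rw [hE] at h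
      rw [← h]
      unfold Eo
      abel
  · rfl
  · change ⁅(FamE_D x1 ^ 0) a, (FamE_D x1 ^ 1) a⁆ = 0
    rw [pow_zero, pow_one]
    exact hR.aa
  · have hv : ∀ i : ℤ, |i| ≤ 2 → ∃ s : Fin 5,
        B i = (![Fo z b0, Fo z b1, b0, b1, Eo x2 b0] : Fin 5 → Q) s := by
      intro i hi
      rw [abs_le] at hi
      obtain ⟨h1, h2⟩ := hi
      have h3 : i = -2 ∨ i = -1 ∨ i = 0 ∨ i = 1 ∨ i = 2 := by omega
      rcases h3 with rfl | rfl | rfl | rfl | rfl
      · exact ⟨0, hBm2⟩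
      · exact ⟨1, hBm1⟩
      · exact ⟨2, hB0⟩
      · exact ⟨3, hB1⟩
      · exact ⟨4, hB2⟩
    intro i j hi hj
    obtain ⟨s, hs⟩ := hv i hi
    obtain ⟨t, ht⟩ := hv j hj
    rw [hs, ht]
    exact hR.bb s t
  · change ⁅(FamE_D x1 ^ 0) a, B 0⁆ = 0
    rw [pow_zero, hB0]
    exact hR.ab0
  · change ⁅(FamE_D x1 ^ 0) a, B (-1)⁆ = 0
    rw [pow_zero, hBm1]
    exact hR.ab1

end Pool.Agent.Lib.MP_240c17_al.Q2
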