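import Pool.Agent.Lib.MP_240c17_al.Q2.Spec

/-!
# MP_240c17, project Q2, module GL: stable ideals contain a power of the determinant
-/

set_option autoImplicit false

namespace Pool.Agent.Lib.MP_240c17_al.Q2

universe u

open Pool.Agent.Lib.MP_240c17_al

section gen

variable {k A σ : Type*} [Field k] [Infinite k] [CommRing A] [Algebra k A] [Fintype σ]

/-- A polynomial over an algebra all of whose values at points over an infinite field lie in a subspace has
its coefficients in this subspace. -/
private theorem GL_coeff (P : Submodule k A) (Q : MvPolynomial σ A)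
    (h : ∀ g : σ → k, MvPolynomial.eval (fun i => algebraMap k A (g i)) Q ∈ P) (μ : σ →₀ ℕ) :
    MvPolynomial.coeff μ Q ∈ P := by
  classical
  by_contra hμ
  obtain ⟨f, hf, hP⟩ := Submodule.exists_le_ker_of_notMem hμ
  have h1 : ∑ ν ∈ Q.support, MvPolynomial.monomial ν (f (MvPolynomial.coeff ν Q)) = 0 := by
    refine MvPolynomial.funext fun g => ?_
    rw [map_sum, map_zero]
    have h2 := hP (h g)
    rw [LinearMap.mem_ker, MvPolynomial.eval_eq', map_sum] at h2
    rw [← h2]
    refine Finset.sum_congr rfl fun ν _ => ?_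
    rw [MvPolynomial.eval_monomial, Finsupp.prod_fintype _ _ (fun i => pow_zero _)]
    have h3 : ∏ i, (algebraMap k A (g i)) ^ ν i = algebraMap k A (∏ i, g i ^ ν i) := by
      rw [map_prod]
      refine Finset.prod_congr rfl fun i _ => ?_
      rw [map_pow]
    rw [h3, mul_comm (MvPolynomial.coeff ν Q), ← Algebra.smul_def, map_smul, smul_eq_mul, mul_comm]
  have h4 := congrArg (MvPolynomial.coeff μ) h1
  rw [MvPolynomial.coeff_sum, MvPolynomial.coeff_zero] at h4
  simp only [MvPolynomial.coeff_monomial] at h4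
  rw [Finset.sum_ite_eq' Q.support μ (fun ν => f (MvPolynomial.coeff ν Q))] at h4
  by_cases h5 : μ ∈ Q.support
  · rw [if_pos h5] at h4
    exact hf h4
  · rw [MvPolynomial.notMem_support_iff] at h5
    rw [h5, map_zero] at hf
    exact hf rfl

/-- the values at all points over the algebra lie in the ideal -/
private theorem GL_eval (P : Ideal A) (Q : MvPolynomial σ A)
    (h : ∀ g : σ → k, MvPolynomial.eval (fun i => algebraMap k A (g i)) Q ∈ P) (γ : σ → A) :
    MvPolynomial.eval γ Q ∈ P := by
  rw [MvPolynomial.eval_eq']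
  refine Ideal.sum_mem _ fun ν _ => Ideal.mul_mem_right _ _ ?_
  exact GL_coeff (P.restrictScalars k) Q h ν

omit [Infinite k] [Fintype σ] in
private theorem GL_coef [Finite σ] (D : A) (q : MvPolynomial σ k) (μ : σ →₀ ℕ) :
    MvPolynomial.coeff μ (MvPolynomial.aeval (fun i => MvPolynomial.C D * MvPolynomial.X i) q :
      MvPolynomial σ A) =
      algebraMap k A (MvPolynomial.coeff μ q) * D ^ (μ.sum fun _ e => e) := by
  classical
  induction q using MvPolynomial.induction_on' with
  | monomial ν a =>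
    have h1 : (ν.prod fun i e => (MvPolynomial.C D * MvPolynomial.X i : MvPolynomial σ A) ^ e) =
        MvPolynomial.monomial ν (D ^ (ν.sum fun _ e => e)) := by
      rw [MvPolynomial.monomial_eq, map_pow]
      simp only [Finsupp.prod, Finsupp.sum, mul_pow]
      rw [Finset.prod_mul_distrib, Finset.prod_pow_eq_pow_sum]
    rw [MvPolynomial.aeval_monomial, h1, IsScalarTower.algebraMap_apply k A (MvPolynomial σ A),
      MvPolynomial.algebraMap_eq, MvPolynomial.coeff_C_mul, MvPolynomial.coeff_monomial,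
      MvPolynomial.coeff_monomial]
    by_cases h2 : ν = μ
    · rw [if_pos h2, if_pos h2, h2]
    · rw [if_neg h2, if_neg h2, map_zero, mul_zero, zero_mul]
  | add p q hp hq =>
    rw [map_add, MvPolynomial.coeff_add, hp, hq, MvPolynomial.coeff_add, map_add, add_mul]

end gen

/-- the generic substitution -/
private noncomputable def GL_Phi (k : Type u) [Field k] :
    U4 k →ₐ[k] MvPolynomial (Fin 2 × Fin 2) (U4 k) :=
  MvPolynomial.aeval ![
    MvPolynomial.X (0, 0) * MvPolynomial.C (MvPolynomial.X 0) +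
      MvPolynomial.X (0, 1) * MvPolynomial.C (MvPolynomial.X 1),
    MvPolynomial.X (1, 0) * MvPolynomial.C (MvPolynomial.X 0) +
      MvPolynomial.X (1, 1) * MvPolynomial.C (MvPolynomial.X 1),
    MvPolynomial.X (0, 0) * MvPolynomial.C (MvPolynomial.X 2) +
      MvPolynomial.X (0, 1) * MvPolynomial.C (MvPolynomial.X 3),
    MvPolynomial.X (1, 0) * MvPolynomial.C (MvPolynomial.X 2) +
      MvPolynomial.X (1, 1) * MvPolynomial.C (MvPolynomial.X 3)]

/-- the values of the generic substitution -/
private theorem GL_PhiEval (k : Type u) [Field k] (γ : Fin 2 × Fin 2 → U4 k) (q : U4 k) :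
    MvPolynomial.eval γ (GL_Phi k q) =
      MvPolynomial.aeval ![γ (0, 0) * MvPolynomial.X 0 + γ (0, 1) * MvPolynomial.X 1,
        γ (1, 0) * MvPolynomial.X 0 + γ (1, 1) * MvPolynomial.X 1,
        γ (0, 0) * MvPolynomial.X 2 + γ (0, 1) * MvPolynomial.X 3,
        γ (1, 0) * MvPolynomial.X 2 + γ (1, 1) * MvPolynomial.X 3] q := by
  have h : ((MvPolynomial.aeval γ : MvPolynomial (Fin 2 × Fin 2) (U4 k) →ₐ[U4 k] U4 k).restrictScalars
      k).comp (GL_Phi k) =
      MvPolynomial.aeval ![γ (0, 0) * MvPolynomial.X 0 + γ (0, 1) * MvPolynomial.X 1,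
        γ (1, 0) * MvPolynomial.X 0 + γ (1, 1) * MvPolynomial.X 1,
        γ (0, 0) * MvPolynomial.X 2 + γ (0, 1) * MvPolynomial.X 3,
        γ (1, 0) * MvPolynomial.X 2 + γ (1, 1) * MvPolynomial.X 3] := by
    refine MvPolynomial.algHom_ext fun i => ?_
    fin_cases i <;> simp [GL_Phi]
  have h2 := congrArg (fun φ : U4 k →ₐ[k] U4 k => φ q) h
  simpa using h2

theorem tGL : S_GL.{u} := by
  intro k _ _ P hP hne
  obtain ⟨q, hq, hq0⟩ := Submodule.exists_mem_ne_zero_of_ne_bot hne
  -- step 1
  have h1 : ∀ γ : Fin 2 × Fin 2 → U4 k, MvPolynomial.eval γ (GL_Phi k q) ∈ P := by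
    refine GL_eval (k := k) P _ fun g => ?_
    rw [GL_PhiEval]
    have h2 := hP (fun i j => g (i, j)) q hq
    have h3 : (![algebraMap k (U4 k) (g (0, 0)) * MvPolynomial.X 0 +
          algebraMap k (U4 k) (g (0, 1)) * MvPolynomial.X 1,
        algebraMap k (U4 k) (g (1, 0)) * MvPolynomial.X 0 +
          algebraMap k (U4 k) (g (1, 1)) * MvPolynomial.X 1,
        algebraMap k (U4 k) (g (0, 0)) * MvPolynomial.X 2 +
          algebraMap k (U4 k) (g (0, 1)) * MvPolynomial.X 3,
        algebraMap k (U4 k) (g (1, 0)) * MvPolynomial.X 2 +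
          algebraMap k (U4 k) (g (1, 1)) * MvPolynomial.X 3] : Fin 4 → U4 k) =
        ![g (0, 0) • MvPolynomial.X 0 + g (0, 1) • MvPolynomial.X 1,
        g (1, 0) • MvPolynomial.X 0 + g (1, 1) • MvPolynomial.X 1,
        g (0, 0) • MvPolynomial.X 2 + g (0, 1) • MvPolynomial.X 3,
        g (1, 0) • MvPolynomial.X 2 + g (1, 1) • MvPolynomial.X 3] := by
      simp only [← Algebra.smul_def]
    rw [h3]
    exact h2
  -- step 2
  have h2 : ∀ y : Fin 4 → k,
      MvPolynomial.aeval (fun i => det4 k * algebraMap k (U4 k) (y i)) q ∈ P := by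
    intro y
    have h3 := h1 (fun p => if p.1 = 0 then
        (if p.2 = 0 then algebraMap k (U4 k) (y 0) * MvPolynomial.X 3 -
            algebraMap k (U4 k) (y 2) * MvPolynomial.X 1
          else algebraMap k (U4 k) (y 2) * MvPolynomial.X 0 -
            algebraMap k (U4 k) (y 0) * MvPolynomial.X 2) else
        (if p.2 = 0 then algebraMap k (U4 k) (y 1) * MvPolynomial.X 3 -
            algebraMap k (U4 k) (y 3) * MvPolynomial.X 1
          else algebraMap k (U4 k) (y 3) * MvPolynomial.X 0 -
            algebraMap k (U4 k) (y 1) * MvPolynomial.X 2))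
    rw [GL_PhiEval] at h3
    convert h3 using 2
    congr 1
    funext i
    fin_cases i
    · simp [det4]
      ring
    · simp [det4]
      ring
    · simp [det4]
      ring
    · simp [det4]
      ring
  -- step 3
  have h4 : ∀ μ, MvPolynomial.coeff μ (MvPolynomial.aeval
      (fun i => MvPolynomial.C (det4 k) * MvPolynomial.X i) q : MvPolynomial (Fin 4) (U4 k)) ∈
      P.restrictScalars k := by
    refine GL_coeff (P.restrictScalars k) _ fun y => ?_
    have h5 : MvPolynomial.eval (fun i => algebraMap k (U4 k) (y i)) (MvPolynomial.aeval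
        (fun i => MvPolynomial.C (det4 k) * MvPolynomial.X i) q : MvPolynomial (Fin 4) (U4 k)) =
        MvPolynomial.aeval (fun i => det4 k * algebraMap k (U4 k) (y i)) q := by
      have h : ((MvPolynomial.aeval (fun i => algebraMap k (U4 k) (y i)) :
          MvPolynomial (Fin 4) (U4 k) →ₐ[U4 k] U4 k).restrictScalars k).comp
          (MvPolynomial.aeval (fun i => MvPolynomial.C (det4 k) * MvPolynomial.X i)) =
          MvPolynomial.aeval (fun i => det4 k * algebraMap k (U4 k) (y i)) := by
        refine MvPolynomial.algHom_ext fun i => ?_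
        simp
      have h2 := congrArg (fun φ : U4 k →ₐ[k] U4 k => φ q) h
      simpa using h2
    rw [h5]
    exact h2 y
  obtain ⟨μ, hμ⟩ := MvPolynomial.ne_zero_iff.1 hq0
  refine ⟨μ.sum fun _ e => e, ?_⟩
  have h6 := h4 μ
  rw [GL_coef] at h6
  have h7 : algebraMap k (U4 k) (MvPolynomial.coeff μ q)⁻¹ *
      (algebraMap k (U4 k) (MvPolynomial.coeff μ q) * det4 k ^ (μ.sum fun _ e => e)) ∈ P :=
    P.mul_mem_left _ h6
  rwa [← mul_assoc, ← map_mul, inv_mul_cancel₀ hμ, map_one, one_mul] at h7

end Pool.Agent.Lib.MP_240c17_al.Q2
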