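import Pool.Agent.Lib.MP_240c17_al.Q2.Spec

/-!
# MP_240c17, project Q2: `VG` is an ideal, stable under the substitutions
-/

set_option autoImplicit false

namespace Pool.Agent.Lib.MP_240c17_al.Q2

universe u

open Pool.Agent.Lib.MP_240c17_al

section Gid
variable {k : Type u} [Field k]

/-- multiplication of the components with `α`, `β`, `α β` -/
private noncomputable def Gid_mul (α β : U4 k) : GG k →ₗ⁅k⁆ GG k where
  toFun p := ⟨p.t, α * p.a, β * p.b, α * β * p.c⟩
  map_add' p q := by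
    ext1
    · rfl
    · exact mul_add _ _ _
    · exact mul_add _ _ _
    · exact mul_add _ _ _
  map_smul' r p := by
    ext1
    · rfl
    · exact mul_smul_comm _ _ _
    · exact mul_smul_comm _ _ _
    · exact mul_smul_comm _ _ _
  map_lie' := by
    intro p q
    ext1
    · rfl
    · simp only [HL.lie_a]
      ring
    · simp only [HL.lie_b]
      ring
    · simp only [HL.lie_c]
      ring

/-- action of a matrix on the torus -/
private def Gid_row (g : Fin 2 → Fin 2 → k) (y : Fin 2 → k) : Fin 2 → k :=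
  fun j => y 0 * g 0 j + y 1 * g 1 j

private theorem Gid_f4 (g : Fin 2 → Fin 2 → k) (y : Fin 2 → k) :
    f4 k (Gid_row g y) = sub4 g (f4 k y) := by
  simp only [f4, LinearMap.coe_mk, AddHom.coe_mk, Gid_row, map_add, map_smul, sub4,
    MvPolynomial.aeval_X, Matrix.cons_val_zero, Matrix.cons_val_one, add_smul, mul_smul, smul_add]
  abel

private theorem Gid_g4 (g : Fin 2 → Fin 2 → k) (y : Fin 2 → k) :
    g4 k (Gid_row g y) = sub4 g (g4 k y) := by
  have h2 : (sub4 g (MvPolynomial.X 2 : U4 k))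
      = g 0 0 • MvPolynomial.X 2 + g 0 1 • MvPolynomial.X 3 := by
    simp [sub4]
  have h3 : (sub4 g (MvPolynomial.X 3 : U4 k))
      = g 1 0 • MvPolynomial.X 2 + g 1 1 • MvPolynomial.X 3 := by
    simp [sub4]
  simp only [g4, LinearMap.coe_mk, AddHom.coe_mk, Gid_row, map_add, map_smul, h2, h3, add_smul,
    mul_smul, smul_add]
  abel

/-- the substitution on `GG` -/
private noncomputable def Gid_sub (g : Fin 2 → Fin 2 → k) : GG k →ₗ⁅k⁆ GG k where
  toFun p := ⟨Gid_row g p.t, sub4 g p.a, sub4 g p.b, sub4 g p.c⟩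
  map_add' p q := by
    ext1
    · funext j
      simp only [Gid_row, HL.add_t, Pi.add_apply]
      ring
    · exact map_add _ _ _
    · exact map_add _ _ _
    · exact map_add _ _ _
  map_smul' r p := by
    ext1
    · funext j
      simp only [Gid_row, HL.smul_t, Pi.smul_apply, smul_eq_mul, RingHom.id_apply]
      ring
    · exact map_smul _ _ _
    · exact map_smul _ _ _
    · exact map_smul _ _ _
  map_lie' := by
    intro p q
    ext1
    · funext j
      simp only [Gid_row, HL.lie_t, Pi.zero_apply]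
      ring
    · simp only [HL.lie_a, map_sub, map_mul, Gid_f4]
    · simp only [HL.lie_b, map_sub, map_mul, Gid_g4]
    · simp only [HL.lie_c, map_sub, map_add, map_mul, Gid_f4, Gid_g4]

private theorem Gid_psi (i : Fin 4) : Psi k (FreeLieAlgebra.of k i) = gens4 k i :=
  FreeLieAlgebra.lift_of_apply (R := k) (gens4 k) i

/-- an endomorphism of the free Lie algebra which induces a given endomorphism of `GG` -/
private theorem Gid_ind (w : Fin 4 → FreeLieAlgebra k (Fin 4)) (E : GG k →ₗ⁅k⁆ GG k)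
    (h : ∀ i, Psi k (w i) = E (gens4 k i)) (v : FreeLieAlgebra k (Fin 4)) :
    Psi k (FreeLieAlgebra.lift k w v) = E (Psi k v) := by
  have h1 : (Psi k).comp (FreeLieAlgebra.lift k w) = E.comp (Psi k) := by
    apply FreeLieAlgebra.hom_ext
    intro i
    rw [LieHom.comp_apply, LieHom.comp_apply, FreeLieAlgebra.lift_of_apply, Gid_psi, h]
  have h2 := congrArg (fun F : FreeLieAlgebra k (Fin 4) →ₗ⁅k⁆ GG k => F v) h1
  simpa only [LieHom.comp_apply] using h2

private theorem Gid_X (hV : S_Ver.{u}) (Id : Set (FreeLieAlgebra k ℕ)) (α β : U4 k)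
    (w : Fin 4 → FreeLieAlgebra k (Fin 4))
    (h : ∀ i, Psi k (w i) = Gid_mul α β (gens4 k i)) (q : U4 k) (hq : q ∈ VG Id) :
    α * β * q ∈ VG Id := by
  obtain ⟨v, hv, hv2⟩ := hq
  refine ⟨FreeLieAlgebra.lift k w v, hV k Id 4 4 _ v hv, ?_⟩
  rw [Gid_ind w _ h v, hv2]
  ext1
  · rfl
  · exact mul_zero _
  · exact mul_zero _
  · rfl

/-- the generators, with one of them replaced -/
private theorem Gid_gen (hV : S_Ver.{u}) (Id : Set (FreeLieAlgebra k ℕ)) (i : Fin 4) (q : U4 k)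
    (hq : q ∈ VG Id) : MvPolynomial.X i * q ∈ VG Id := by
  have hb : ∀ j i' : Fin 4, Psi k ⁅FreeLieAlgebra.of k j, FreeLieAlgebra.of k i'⁆
      = ⁅gens4 k j, gens4 k i'⁆ := by
    intro j i'
    rw [LieHom.map_lie, Gid_psi, Gid_psi]
  have hf0 : f4 k (Pi.single 0 1) = MvPolynomial.X 0 := by simp [f4]
  have hf1 : f4 k (Pi.single 1 1) = MvPolynomial.X 1 := by simp [f4]
  have hg0 : g4 k (Pi.single 0 1) = MvPolynomial.X 2 := by simp [g4]
  have hg1 : g4 k (Pi.single 1 1) = MvPolynomial.X 3 := by simp [g4]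
  have main : ∀ (α β : U4 k) (w : Fin 4 → FreeLieAlgebra k (Fin 4)),
      α * β = MvPolynomial.X i → (∀ i, Psi k (w i) = Gid_mul α β (gens4 k i)) →
      MvPolynomial.X i * q ∈ VG Id := by
    intro α β w h1 h2
    rw [← h1]
    exact Gid_X hV Id α β w h2 q hq
  fin_cases i
  · refine main (MvPolynomial.X 0) 1 ![FreeLieAlgebra.of k 0, FreeLieAlgebra.of k 1,
      ⁅FreeLieAlgebra.of k (2 : Fin 4), FreeLieAlgebra.of k (0 : Fin 4)⁆, FreeLieAlgebra.of k 3] (mul_one _) ?_
    intro j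
    fin_cases j
    · change Psi k (FreeLieAlgebra.of k 0) = _
      rw [Gid_psi]
      ext1 <;> simp [Gid_mul, gens4]
    · change Psi k (FreeLieAlgebra.of k 1) = _
      rw [Gid_psi]
      ext1 <;> simp [Gid_mul, gens4]
    · change Psi k ⁅FreeLieAlgebra.of k (2 : Fin 4), FreeLieAlgebra.of k (0 : Fin 4)⁆ = _
      rw [hb]
      ext1 <;> simp [Gid_mul, gens4, hf0, hg0]
    · change Psi k (FreeLieAlgebra.of k 3) = _
      rw [Gid_psi]
      ext1 <;> simp [Gid_mul, gens4]
  · refine main (MvPolynomial.X 1) 1 ![FreeLieAlgebra.of k 0, FreeLieAlgebra.of k 1,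
      ⁅FreeLieAlgebra.of k (2 : Fin 4), FreeLieAlgebra.of k (1 : Fin 4)⁆, FreeLieAlgebra.of k 3] (mul_one _) ?_
    intro j
    fin_cases j
    · change Psi k (FreeLieAlgebra.of k 0) = _
      rw [Gid_psi]
      ext1 <;> simp [Gid_mul, gens4]
    · change Psi k (FreeLieAlgebra.of k 1) = _
      rw [Gid_psi]
      ext1 <;> simp [Gid_mul, gens4]
    · change Psi k ⁅FreeLieAlgebra.of k (2 : Fin 4), FreeLieAlgebra.of k (1 : Fin 4)⁆ = _
      rw [hb]
      ext1 <;> simp [Gid_mul, gens4, hf1, hg1]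
    · change Psi k (FreeLieAlgebra.of k 3) = _
      rw [Gid_psi]
      ext1 <;> simp [Gid_mul, gens4]
  · refine main 1 (MvPolynomial.X 2) ![FreeLieAlgebra.of k 0, FreeLieAlgebra.of k 1,
      FreeLieAlgebra.of k 2, ⁅FreeLieAlgebra.of k (3 : Fin 4), FreeLieAlgebra.of k (0 : Fin 4)⁆] (one_mul _) ?_
    intro j
    fin_cases j
    · change Psi k (FreeLieAlgebra.of k 0) = _
      rw [Gid_psi]
      ext1 <;> simp [Gid_mul, gens4]
    · change Psi k (FreeLieAlgebra.of k 1) = _
      rw [Gid_psi]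
      ext1 <;> simp [Gid_mul, gens4]
    · change Psi k (FreeLieAlgebra.of k 2) = _
      rw [Gid_psi]
      ext1 <;> simp [Gid_mul, gens4]
    · change Psi k ⁅FreeLieAlgebra.of k (3 : Fin 4), FreeLieAlgebra.of k (0 : Fin 4)⁆ = _
      rw [hb]
      ext1 <;> simp [Gid_mul, gens4, hf0, hg0]
  · refine main 1 (MvPolynomial.X 3) ![FreeLieAlgebra.of k 0, FreeLieAlgebra.of k 1,
      FreeLieAlgebra.of k 2, ⁅FreeLieAlgebra.of k (3 : Fin 4), FreeLieAlgebra.of k (1 : Fin 4)⁆] (one_mul _) ?_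
    intro j
    fin_cases j
    · change Psi k (FreeLieAlgebra.of k 0) = _
      rw [Gid_psi]
      ext1 <;> simp [Gid_mul, gens4]
    · change Psi k (FreeLieAlgebra.of k 1) = _
      rw [Gid_psi]
      ext1 <;> simp [Gid_mul, gens4]
    · change Psi k (FreeLieAlgebra.of k 2) = _
      rw [Gid_psi]
      ext1 <;> simp [Gid_mul, gens4]
    · change Psi k ⁅FreeLieAlgebra.of k (3 : Fin 4), FreeLieAlgebra.of k (1 : Fin 4)⁆ = _
      rw [hb]
      ext1 <;> simp [Gid_mul, gens4, hf1, hg1]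

private theorem Gid_zero (Id : Set (FreeLieAlgebra k ℕ)) : (0 : U4 k) ∈ VG Id :=
  ⟨0, (verbalIdeal Id 4).zero_mem, map_zero _⟩

private theorem Gid_add (Id : Set (FreeLieAlgebra k ℕ)) (p q : U4 k) (hp : p ∈ VG Id)
    (hq : q ∈ VG Id) : p + q ∈ VG Id := by
  obtain ⟨v, hv, hv2⟩ := hp
  obtain ⟨w, hw, hw2⟩ := hq
  refine ⟨v + w, (verbalIdeal Id 4).add_mem hv hw, ?_⟩
  rw [map_add, hv2, hw2]
  ext1 <;> simp

private theorem Gid_smul (Id : Set (FreeLieAlgebra k ℕ)) (r : k) (q : U4 k)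
    (hq : q ∈ VG Id) : r • q ∈ VG Id := by
  obtain ⟨w, hw, hw2⟩ := hq
  refine ⟨r • w, (verbalIdeal Id 4).smul_mem r hw, ?_⟩
  rw [map_smul, hw2]
  ext1 <;> simp

private theorem Gid_mulmem (hV : S_Ver.{u}) (Id : Set (FreeLieAlgebra k ℕ)) (p : U4 k) :
    ∀ q ∈ VG Id, p * q ∈ VG Id := by
  induction p using MvPolynomial.induction_on with
  | C a =>
    intro q hq
    rw [← MvPolynomial.smul_eq_C_mul]
    exact Gid_smul Id a q hq
  | add p₁ p₂ h₁ h₂ =>
    intro q hq
    rw [add_mul]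
    exact Gid_add Id _ _ (h₁ q hq) (h₂ q hq)
  | mul_X p i h =>
    intro q hq
    rw [mul_assoc]
    exact h _ (Gid_gen hV Id i q hq)

private theorem Gid_subst (hV : S_Ver.{u}) (Id : Set (FreeLieAlgebra k ℕ))
    (g : Fin 2 → Fin 2 → k) (q : U4 k) (hq : q ∈ VG Id) : sub4 g q ∈ VG Id := by
  obtain ⟨v, hv, hv2⟩ := hq
  refine ⟨FreeLieAlgebra.lift k ![g 0 0 • FreeLieAlgebra.of k 0 + g 0 1 • FreeLieAlgebra.of k 1,
    g 1 0 • FreeLieAlgebra.of k 0 + g 1 1 • FreeLieAlgebra.of k 1, FreeLieAlgebra.of k 2,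
    FreeLieAlgebra.of k 3] v, hV k Id 4 4 _ v hv, ?_⟩
  rw [Gid_ind _ (Gid_sub g) ?_ v, hv2]
  · ext1
    · funext j
      simp [Gid_sub, Gid_row]
    · exact map_zero _
    · exact map_zero _
    · rfl
  · intro j
    fin_cases j
    · change Psi k (g 0 0 • FreeLieAlgebra.of k 0 + g 0 1 • FreeLieAlgebra.of k 1) = _
      rw [map_add, map_smul, map_smul, Gid_psi, Gid_psi]
      ext1
      · funext i
        fin_cases i <;> simp [Gid_sub, Gid_row, gens4]
      all_goals simp [Gid_sub, gens4]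
    · change Psi k (g 1 0 • FreeLieAlgebra.of k 0 + g 1 1 • FreeLieAlgebra.of k 1) = _
      rw [map_add, map_smul, map_smul, Gid_psi, Gid_psi]
      ext1
      · funext i
        fin_cases i <;> simp [Gid_sub, Gid_row, gens4]
      all_goals simp [Gid_sub, gens4]
    · change Psi k (FreeLieAlgebra.of k 2) = _
      rw [Gid_psi]
      ext1
      · funext i
        simp [Gid_sub, Gid_row, gens4]
      all_goals simp [Gid_sub, gens4]
    · change Psi k (FreeLieAlgebra.of k 3) = _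
      rw [Gid_psi]
      ext1
      · funext i
        simp [Gid_sub, Gid_row, gens4]
      all_goals simp [Gid_sub, gens4]

end Gid

theorem tGid : S_Ver.{u} → S_Gid.{u} := by
  intro hV k _ Id
  refine ⟨{ carrier := VG Id, add_mem' := ?_, zero_mem' := Gid_zero Id, smul_mem' := ?_ }, rfl, ?_⟩
  · intro p q hp hq
    exact Gid_add Id p q hp hq
  · intro p q hq
    exact Gid_mulmem hV Id p q hq
  · intro g q hq
    exact Gid_subst hV Id g q hq

end Pool.Agent.Lib.MP_240c17_al.Q2
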