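import Pool.Agent.Lib.MP_240c17_al.Q2.Spec

/-!
# MP_240c17, project Q2, module Gne: `VG` is not zero
-/

set_option autoImplicit false

namespace Pool.Agent.Lib.MP_240c17_al.Q2

universe u

open Pool.Agent.Lib.MP_240c17_al

variable {k : Type u} [Field k]

attribute [local instance 100] LieRing.ofAssociativeRing

/-- a homomorphism commutes with the evaluation of the elements of the free Lie algebra -/
private theorem Gne_lift {X : Type} {L L' : Type u} [LieRing L] [LieAlgebra k L] [LieRing L']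
    [LieAlgebra k L'] (φ : L →ₗ⁅k⁆ L') (ρ : X → L) (g : FreeLieAlgebra k X) :
    φ (FreeLieAlgebra.lift k ρ g) = FreeLieAlgebra.lift k (fun n => φ (ρ n)) g := by
  have h : φ.comp (FreeLieAlgebra.lift k ρ) = FreeLieAlgebra.lift k (fun n => φ (ρ n)) := by
    apply FreeLieAlgebra.hom_ext
    intro n
    rw [LieHom.comp_apply, FreeLieAlgebra.lift_of_apply, FreeLieAlgebra.lift_of_apply]
  rw [← h, LieHom.comp_apply]

/-- matrix with the entries `x` at `(0, 1)` and `y` at `(1, 1)` -/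
private def Gne_M (x y : k) : Matrix (Fin 3) (Fin 3) k := !![0, x, 0; 0, y, 0; 0, 0, 0]

private theorem Gne_M_tri (x y : k) : IsTri 0 (Gne_M x y) := by
  refine ⟨?_, ?_, ?_, ?_, ?_⟩ <;> simp [Gne_M]

private theorem Gne_M_lie (x y x' y' : k) :
    ⁅Gne_M x y, Gne_M x' y'⁆ = Gne_M (x * y' - x' * y) 0 := by
  rw [Ring.lie_def]
  ext i j
  fin_cases i <;> fin_cases j <;>
    simp [Gne_M, mul_comm]

private theorem Gne_M_add (x y x' y' : k) :
    Gne_M (x + x') (y + y') = Gne_M x y + Gne_M x' y' := by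
  ext i j
  fin_cases i <;> fin_cases j <;> simp [Gne_M]

private theorem Gne_M_smul (c x y : k) : Gne_M (c * x) (c * y) = c • Gne_M x y := by
  ext i j
  fin_cases i <;> fin_cases j <;> simp [Gne_M]

section HL
variable {V : Type u} [AddCommGroup V] [Module k V] {U : Type u} [CommRing U] [Algebra k U]
  {f g : V →ₗ[k] U}

/-- evaluation of the part `a` -/
private noncomputable def Gne_A (ε : U →ₐ[k] k) : HL f g →ₗ⁅k⁆ Matrix (Fin 3) (Fin 3) k where
  toFun p := Gne_M (ε p.a) (ε (f p.t))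
  map_add' p q := by
    rw [HL.add_a, HL.add_t, map_add, map_add, map_add, Gne_M_add]
  map_smul' c p := by
    rw [HL.smul_a, HL.smul_t, map_smul, map_smul, map_smul, smul_eq_mul, smul_eq_mul, Gne_M_smul]
    rfl
  map_lie' := by
    intro p q
    rw [Gne_M_lie, HL.lie_a, HL.lie_t, map_zero, map_zero, map_sub, map_mul, map_mul]

/-- evaluation of the part `b` -/
private noncomputable def Gne_B (ε : U →ₐ[k] k) : HL f g →ₗ⁅k⁆ Matrix (Fin 3) (Fin 3) k where
  toFun p := Gne_M (ε p.b) (ε (g p.t))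
  map_add' p q := by
    rw [HL.add_b, HL.add_t, map_add, map_add, map_add, Gne_M_add]
  map_smul' c p := by
    rw [HL.smul_b, HL.smul_t, map_smul, map_smul, map_smul, smul_eq_mul, smul_eq_mul, Gne_M_smul]
    rfl
  map_lie' := by
    intro p q
    rw [Gne_M_lie, HL.lie_b, HL.lie_t, map_zero, map_zero, map_sub, map_mul, map_mul]

/-- the values of an identity are killed by the evaluation -/
private theorem Gne_van [Infinite k] {Id : Set (FreeLieAlgebra k ℕ)} (hI : NoId Id)
    {h : FreeLieAlgebra k ℕ} (hh : h ∈ Id) (ρ : ℕ → HL f g) (ε : U →ₐ[k] k) :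
    ε (FreeLieAlgebra.lift k ρ h).a = 0 ∧ ε (f (FreeLieAlgebra.lift k ρ h).t) = 0 ∧
      ε (FreeLieAlgebra.lift k ρ h).b = 0 := by
  have hA : (Gne_A ε : HL f g →ₗ⁅k⁆ Matrix (Fin 3) (Fin 3) k) (FreeLieAlgebra.lift k ρ h) = 0 := by
    rw [Gne_lift]
    exact tri_vanish hI hh 0 _ (fun n => Gne_M_tri _ _)
  have hB : (Gne_B ε : HL f g →ₗ⁅k⁆ Matrix (Fin 3) (Fin 3) k) (FreeLieAlgebra.lift k ρ h) = 0 := by
    rw [Gne_lift]
    exact tri_vanish hI hh 0 _ (fun n => Gne_M_tri _ _)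
  refine ⟨?_, ?_, ?_⟩
  · have h1 := congrFun (congrFun hA 0) 1
    exact h1
  · have h1 := congrFun (congrFun hA 1) 1
    exact h1
  · have h1 := congrFun (congrFun hB 0) 1
    exact h1

end HL

/-- the evaluation at `(1, 0, 0, 1)` -/
private noncomputable def Gne_e (k : Type u) [Field k] : U4 k →ₐ[k] k :=
  MvPolynomial.aeval ![1, 0, 0, 1]

private theorem Gne_e_f (t : Fin 2 → k) : Gne_e k (f4 k t) = t 0 := by
  have h : f4 k t = t 0 • MvPolynomial.X 0 + t 1 • MvPolynomial.X 1 := rfl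
  rw [h, map_add, map_smul, map_smul, Gne_e, MvPolynomial.aeval_X, MvPolynomial.aeval_X]
  simp

private theorem Gne_e_g (t : Fin 2 → k) : Gne_e k (g4 k t) = t 1 := by
  have h : g4 k t = t 0 • MvPolynomial.X 2 + t 1 • MvPolynomial.X 3 := rfl
  rw [h, map_add, map_smul, map_smul, Gne_e, MvPolynomial.aeval_X, MvPolynomial.aeval_X]
  simp

/-- the homomorphism `GG → H2` -/
private noncomputable def Gne_H (k : Type u) [Field k] : GG k →ₗ⁅k⁆ H2 k where
  toFun p := ⟨p.t, Gne_e k p.a, Gne_e k p.b, Gne_e k p.c⟩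
  map_add' p q := by
    ext1
    · rfl
    · exact map_add _ _ _
    · exact map_add _ _ _
    · exact map_add _ _ _
  map_smul' c p := by
    ext1
    · rfl
    · exact map_smul _ _ _
    · exact map_smul _ _ _
    · exact map_smul _ _ _
  map_lie' := by
    intro p q
    ext1
    · rfl
    · rw [HL.lie_a]
      show Gne_e k (p.a * f4 k q.t - q.a * f4 k p.t) = Gne_e k p.a * q.t 0 - Gne_e k q.a * p.t 0
      rw [map_sub, map_mul, map_mul, Gne_e_f, Gne_e_f]
    · rw [HL.lie_b]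
      show Gne_e k (p.b * g4 k q.t - q.b * g4 k p.t) = Gne_e k p.b * q.t 1 - Gne_e k q.b * p.t 1
      rw [map_sub, map_mul, map_mul, Gne_e_g, Gne_e_g]
    · rw [HL.lie_c]
      show Gne_e k (p.a * q.b - q.a * p.b + (p.c * (f4 k q.t + g4 k q.t) -
        q.c * (f4 k p.t + g4 k p.t))) = Gne_e k p.a * Gne_e k q.b - Gne_e k q.a * Gne_e k p.b +
        (Gne_e k p.c * (q.t 0 + q.t 1) - Gne_e k q.c * (p.t 0 + p.t 1))
      rw [map_add, map_sub, map_sub, map_mul, map_mul, map_mul, map_mul, map_add, map_add,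
        Gne_e_f, Gne_e_f, Gne_e_g, Gne_e_g]

/-- the lift of an element of `H2` -/
private noncomputable def Gne_r (p : H2 k) : FreeLieAlgebra k (Fin 4) :=
  p.t 0 • FreeLieAlgebra.of k (0 : Fin 4) + p.t 1 • FreeLieAlgebra.of k (1 : Fin 4) +
    p.a • FreeLieAlgebra.of k (2 : Fin 4) + p.b • FreeLieAlgebra.of k (3 : Fin 4) +
    p.c • ⁅FreeLieAlgebra.of k (2 : Fin 4), FreeLieAlgebra.of k (3 : Fin 4)⁆

private theorem Gne_r_eq (p : H2 k) : Gne_H k (Psi k (Gne_r p)) = p := by
  have h0 : Gne_H k (Psi k (FreeLieAlgebra.of k 0)) = ⟨Pi.single 0 1, 0, 0, 0⟩ := by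
    rw [Psi, FreeLieAlgebra.lift_of_apply]
    ext1
    · rfl
    · exact map_zero _
    · exact map_zero _
    · exact map_zero _
  have h1 : Gne_H k (Psi k (FreeLieAlgebra.of k 1)) = ⟨Pi.single 1 1, 0, 0, 0⟩ := by
    rw [Psi, FreeLieAlgebra.lift_of_apply]
    ext1
    · rfl
    · exact map_zero _
    · exact map_zero _
    · exact map_zero _
  have h2 : Gne_H k (Psi k (FreeLieAlgebra.of k 2)) = ⟨0, 1, 0, 0⟩ := by
    rw [Psi, FreeLieAlgebra.lift_of_apply]
    ext1
    · rfl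
    · exact map_one _
    · exact map_zero _
    · exact map_zero _
  have h3 : Gne_H k (Psi k (FreeLieAlgebra.of k 3)) = ⟨0, 0, 1, 0⟩ := by
    rw [Psi, FreeLieAlgebra.lift_of_apply]
    ext1
    · rfl
    · exact map_zero _
    · exact map_one _
    · exact map_zero _
  rw [Gne_r]
  simp only [map_add, map_smul, LieHom.map_lie, h0, h1, h2, h3]
  ext1
  · ext j
    fin_cases j <;> simp
  · simp
  · simp
  · simp

theorem tGne : S_Gne.{u} := by
  intro k _ _ Id hI hn
  have hn' : ∃ g ∈ Id, ∃ ρ : ℕ → H2 k, FreeLieAlgebra.lift k ρ g ≠ 0 := by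
    by_contra hc
    apply hn
    intro g hg ρ
    by_contra hne
    exact hc ⟨g, hg, ρ, hne⟩
  obtain ⟨g, hg, ρ, hρ⟩ := hn'
  have hv : FreeLieAlgebra.lift k (fun n => Gne_r (ρ n)) g ∈ verbalIdeal Id 4 :=
    LieSubmodule.subset_lieSpan ⟨g, hg, _, rfl⟩
  have e1 : Psi k (FreeLieAlgebra.lift k (fun n => Gne_r (ρ n)) g) =
      FreeLieAlgebra.lift k (fun n => Psi k (Gne_r (ρ n))) g := Gne_lift _ _ _
  have e2 : Gne_H k (Psi k (FreeLieAlgebra.lift k (fun n => Gne_r (ρ n)) g)) =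
      FreeLieAlgebra.lift k ρ g := by
    rw [e1, Gne_lift]
    congr 2
    funext n
    exact Gne_r_eq _
  have hvan : ∀ x : Fin 4 → k, MvPolynomial.aeval x (Psi k (FreeLieAlgebra.lift k
        (fun n => Gne_r (ρ n)) g)).a = 0 ∧
      MvPolynomial.aeval x (f4 k (Psi k (FreeLieAlgebra.lift k (fun n => Gne_r (ρ n)) g)).t) = 0 ∧
      MvPolynomial.aeval x (Psi k (FreeLieAlgebra.lift k (fun n => Gne_r (ρ n)) g)).b = 0 := by
    intro x
    rw [e1]
    exact Gne_van hI hg (fun n => Psi k (Gne_r (ρ n))) (MvPolynomial.aeval x)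
  set P := Psi k (FreeLieAlgebra.lift k (fun n => Gne_r (ρ n)) g) with hP
  have ha : P.a = 0 := by
    refine MvPolynomial.funext (fun x => ?_)
    rw [map_zero]
    exact (hvan x).1
  have hb : P.b = 0 := by
    refine MvPolynomial.funext (fun x => ?_)
    rw [map_zero]
    exact (hvan x).2.2
  have ht : P.t = 0 := by
    have hf : f4 k P.t = P.t 0 • MvPolynomial.X 0 + P.t 1 • MvPolynomial.X 1 := rfl
    have h0 := (hvan ![1, 0, 0, 0]).2.1
    have h1 := (hvan ![0, 1, 0, 0]).2.1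
    rw [hf, map_add, map_smul, map_smul, MvPolynomial.aeval_X, MvPolynomial.aeval_X] at h0 h1
    ext j
    fin_cases j
    · simpa using h0
    · simpa using h1
  refine ⟨P.c, ⟨_, hv, ?_⟩, ?_⟩
  · rw [← hP]
    ext1
    · exact ht
    · exact ha
    · exact hb
    · rfl
  · intro hc
    apply hρ
    rw [← e2]
    have hz : P = 0 := by
      ext1
      · exact ht
      · exact ha
      · exact hb
      · exact hc
    rw [hz, map_zero]

end Pool.Agent.Lib.MP_240c17_al.Q2
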