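import Pool.Agent.Lib.MP_240c17_al.Q2.Spec

/-!
# MP_240c17, project Q2: Lay, the layer theorem
-/

set_option autoImplicit false

namespace Pool.Agent.Lib.MP_240c17_al.Q2

universe u

open Pool.Agent.Lib.MP_240c17_al

variable {k : Type u} [Field k]

private theorem Lay_mem_VU {Id : Set (FreeLieAlgebra k ℕ)} {v : FreeLieAlgebra k (Fin 6)}
    (hv : v ∈ verbalIdeal Id 6) (h1 : (Phi k v).t = 0) (h2 : (Phi k v).a = 0)
    (h3 : (Phi k v).b = 0) : (Phi k v).c ∈ VU Id :=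
  ⟨v, hv, HL.ext h1 h2 h3 rfl⟩

private theorem Lay_JJ_top {j : ℕ∞} {φ : R k} (h : φ ∈ JJ k ⊤) : φ ∈ JJ k j :=
  fun p hp => (h p hp).imp_right fun h' => le_top.trans h'

private theorem Lay_Phi_of (i : Fin 6) : Phi k (FreeLieAlgebra.of k i) = gens k i := by
  rw [Phi, FreeLieAlgebra.lift_of_apply]

private theorem Lay_lie0 {v : FreeLieAlgebra k (Fin 6)} {φ : R k} (h : Phi k v = ⟨0, 0, 0, φ⟩) :
    Phi k ⁅v, FreeLieAlgebra.of k 0⁆ = ⟨0, 0, 0, φ * mo 0 (-2)⟩ := by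
  have e : fA k (Pi.single 0 1) + gB k (Pi.single 0 1) = mo 0 (-2) := by
    rw [hC]
    simp
  rw [LieHom.map_lie, Lay_Phi_of, h]
  refine HL.ext ?_ ?_ ?_ ?_
  · rfl
  · rw [HL.lie_a]
    simp [gens]
  · rw [HL.lie_b]
    simp [gens]
  · rw [HL.lie_c]
    show (0 : R k) * 0 - 0 * 0 + (φ * (fA k (Pi.single 0 1) + gB k (Pi.single 0 1)) -
      0 * (fA k 0 + gB k 0)) = φ * mo 0 (-2)
    rw [e]
    ring

private theorem Lay_lie1 {v : FreeLieAlgebra k (Fin 6)} {φ : R k} (h : Phi k v = ⟨0, 0, 0, φ⟩) :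
    Phi k ⁅v, FreeLieAlgebra.of k 1⁆ = ⟨0, 0, 0, φ * (mo 1 0 + mo 0 (-1))⟩ := by
  have e : fA k (Pi.single 1 1) + gB k (Pi.single 1 1) = mo 1 0 + mo 0 (-1) := by
    rw [hC]
    simp
  rw [LieHom.map_lie, Lay_Phi_of, h]
  refine HL.ext ?_ ?_ ?_ ?_
  · rfl
  · rw [HL.lie_a]
    simp [gens]
  · rw [HL.lie_b]
    simp [gens]
  · rw [HL.lie_c]
    show (0 : R k) * 0 - 0 * 0 + (φ * (fA k (Pi.single 1 1) + gB k (Pi.single 1 1)) -
      0 * (fA k 0 + gB k 0)) = φ * (mo 1 0 + mo 0 (-1))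
    rw [e]
    ring

/-- the `c`-components of an ideal -/
private def Lay_P (K : LieIdeal k (FreeLieAlgebra k (Fin 6))) : Submodule k (R k) where
  carrier := {c | ∃ v ∈ K, Phi k v = ⟨0, 0, 0, c⟩}
  add_mem' := by
    rintro c c' ⟨v, hv, h⟩ ⟨v', hv', h'⟩
    refine ⟨v + v', add_mem hv hv', ?_⟩
    rw [map_add, h, h']
    refine HL.ext ?_ ?_ ?_ ?_ <;> simp
  zero_mem' := ⟨0, zero_mem K, by rw [map_zero]; rfl⟩
  smul_mem' := by
    rintro r c ⟨v, hv, h⟩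
    refine ⟨r • v, K.smul_mem r hv, ?_⟩
    rw [map_smul, h]
    refine HL.ext ?_ ?_ ?_ ?_ <;> simp

private theorem Lay_lie_mem {K : LieIdeal k (FreeLieAlgebra k (Fin 6))}
    {v x : FreeLieAlgebra k (Fin 6)} (hv : v ∈ K) : ⁅v, x⁆ ∈ K := by
  rw [← lie_skew]
  exact neg_mem (K.lie_mem hv)

private theorem Lay_det : ev4 k (det4 k) = -(mo 1 0 * (mo 0 (-2) - 1)) := by
  have h0 : ev4 k (MvPolynomial.X 0) = 1 := by simp [ev4]
  have h1 : ev4 k (MvPolynomial.X 1) = T1 := by simp [ev4]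
  have h2 : ev4 k (MvPolynomial.X 2) = mo 0 (-2) - 1 := by simp [ev4]
  have h3 : ev4 k (MvPolynomial.X 3) = mo 0 (-1) - mo 0 1 := by simp [ev4]
  have h4 : (mo 0 1 : R k) * mo 0 (-2) = mo 0 (-1) := by
    rw [mo_mul]
    norm_num
  rw [det4, map_sub, map_mul, map_mul, h0, h1, h2, h3, T1, ← h4]
  ring

theorem tLay : S_Van.{u} → S_Idl.{u} → S_Pt.{u} → S_Gne.{u} → S_Gid.{u} → S_GL.{u} → S_Tr.{u} →
    S_Lj.{u} → S_Sur.{u} → S_Lay.{u} := by
  intro hVan hIdl hPt hGne hGid hGL hTr hLj hSur k _ _ Id hId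
  obtain ⟨I, hI⟩ := hIdl k Id
  have hV := hVan k Id hId
  have hmemI : ∀ c, c ∈ I ↔ c ∈ VU Id := fun c => by rw [← hI]; rfl
  by_cases hbot : ∀ c ∈ I, c = 0
  · refine ⟨⊤, by simp, ∅, ?_⟩
    refine le_antisymm (le_sup_of_le_right le_sup_left) (sup_le ?_ (sup_le le_rfl ?_))
    · intro v hv
      obtain ⟨h1, h2, h3, _⟩ := hV v hv
      refine mem_kerJ.2 ⟨h1, h2, h3, ?_⟩
      rw [hbot _ ((hmemI _).2 (Lay_mem_VU hv h1 h2 h3))]
      exact Submodule.zero_mem _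
    · rw [LieSubmodule.lieSpan_le]
      intro v hv
      simp at hv
  · simp only [not_forall] at hbot
    obtain ⟨c0, hc0, hc0'⟩ := hbot
    obtain ⟨q, hq, hq0⟩ := hGne k Id hId (hPt k Id c0 ((hmemI _).1 hc0) hc0')
    obtain ⟨P4, hP4, hsub⟩ := hGid k Id
    have hP4ne : P4 ≠ ⊥ := by
      intro h
      apply hq0
      have h1 : q ∈ P4 := by
        have h2 : q ∈ (P4 : Set (U4 k)) := by rw [hP4]; exact hq
        exact h2
      rw [h] at h1
      exact (Submodule.mem_bot _).1 h1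
    obtain ⟨d, hd⟩ := hGL k P4 hsub hP4ne
    have hd1 : det4 k ^ d ∈ VG Id := by
      rw [← hP4]
      exact hd
    have hd2 : (mo 1 0 * (mo 0 (-2) - 1)) ^ d ∈ I := by
      have h1 := (hmemI _).2 (hTr k Id _ hd1)
      rw [map_pow, Lay_det, neg_pow] at h1
      have h2 := I.mul_mem_left ((-1) ^ d) h1
      rwa [← mul_assoc, ← mul_pow, neg_one_mul, neg_neg, one_pow, one_mul] at h2
    obtain ⟨j, hj1, hjI, N, hN⟩ := hLj k I (by
      intro c hc p hp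
      obtain ⟨v, hv, hPv⟩ := (hmemI c).1 hc
      have h1 := (hV v hv).2.2.2 p
      rw [hPv] at h1
      exact h1 hp) ⟨d, hd2⟩
    choose κ hκ using fun l : ℤ => hSur k (mo j l)
    classical
    refine ⟨(j : ℕ∞), by exact_mod_cast hj1, (Finset.Icc (-1) N).image κ, ?_⟩
    set K : LieIdeal k (FreeLieAlgebra k (Fin 6)) := verbalIdeal Id 6 ⊔
      (kerJ k ⊤ ⊔ LieSubmodule.lieSpan k (FreeLieAlgebra k (Fin 6))
        (((Finset.Icc (-1) N).image κ : Finset _) : Set (FreeLieAlgebra k (Fin 6)))) with hK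
    have hK1 : verbalIdeal Id 6 ≤ K := le_sup_left
    have hK2 : kerJ k ⊤ ≤ K := le_sup_of_le_right le_sup_left
    have hK3 : ∀ l : ℤ, -1 ≤ l → l ≤ N → κ l ∈ K := by
      intro l h1 h2
      have h3 : LieSubmodule.lieSpan k (FreeLieAlgebra k (Fin 6))
        (((Finset.Icc (-1) N).image κ : Finset _) : Set (FreeLieAlgebra k (Fin 6))) ≤ K :=
        le_sup_of_le_right le_sup_right
      refine h3 (LieSubmodule.subset_lieSpan ?_)
      exact Finset.mem_coe.2 (Finset.mem_image_of_mem _ (Finset.mem_Icc.2 ⟨h1, h2⟩))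
    refine le_antisymm ?_ (sup_le ?_ (sup_le ?_ ?_))
    · have key : ∀ φ : R k, (∀ p : ℕ × ℤ, φ.coeff p ≠ 0 → j ≤ p.1) → φ ∈ Lay_P K := by
        refine hN (Lay_P K) ?_ ?_ ?_ ?_
        · intro c hc
          obtain ⟨v, hv, hPv⟩ := (hmemI c).1 hc
          exact ⟨v, hK1 hv, hPv⟩
        · rintro φ ⟨v, hv, hPv⟩
          exact ⟨_, Lay_lie_mem hv, Lay_lie0 hPv⟩
        · rintro φ ⟨v, hv, hPv⟩
          exact ⟨_, Lay_lie_mem hv, Lay_lie1 hPv⟩
        · intro l h1 h2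
          exact ⟨κ l, hK3 l h1 h2, hκ l⟩
      intro v hv
      obtain ⟨h1, h2, h3, h4⟩ := mem_kerJ.1 hv
      have h5 : (Phi k v).c ∈ Lay_P K ⊔ JJ k ⊤ := by
        refine mem_of_mo fun p hp => ?_
        rcases h4 p hp with h6 | h6
        · exact Submodule.mem_sup_right (mo_mem_JJ.2 (Or.inl h6))
        · refine Submodule.mem_sup_left (key _ ?_)
          intro p' hp'
          rw [coeff_mo] at hp'
          by_cases e : p' = (p.1, p.2)
          · rw [e]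
            exact_mod_cast h6
          · rw [if_neg e] at hp'
            exact absurd rfl hp'
      obtain ⟨c2, ⟨v2, hv2, hPv2⟩, c1, hc1, hc⟩ := Submodule.mem_sup.1 h5
      have h7 : v - v2 ∈ kerJ k ⊤ := by
        refine mem_kerJ.2 ⟨?_, ?_, ?_, ?_⟩
        · rw [map_sub, HL.sub_t, h1, hPv2, sub_zero]
        · rw [map_sub, HL.sub_a, h2, hPv2, sub_zero]
        · rw [map_sub, HL.sub_b, h3, hPv2, sub_zero]
        · rw [map_sub, HL.sub_c, hPv2, ← hc]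
          simpa using hc1
      have h8 : v = v2 + (v - v2) := by abel
      rw [h8]
      exact add_mem hv2 (hK2 h7)
    · intro v hv
      obtain ⟨h1, h2, h3, _⟩ := hV v hv
      refine mem_kerJ.2 ⟨h1, h2, h3, ?_⟩
      intro p hp
      right
      exact_mod_cast hjI _ ((hmemI _).2 (Lay_mem_VU hv h1 h2 h3)) p hp
    · intro v hv
      obtain ⟨h1, h2, h3, h4⟩ := mem_kerJ.1 hv
      exact mem_kerJ.2 ⟨h1, h2, h3, Lay_JJ_top h4⟩
    · rw [LieSubmodule.lieSpan_le]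
      intro v hv
      obtain ⟨l, _, rfl⟩ := Finset.mem_image.1 (Finset.mem_coe.1 hv)
      refine mem_kerJ.2 ?_
      rw [hκ l]
      exact ⟨rfl, rfl, rfl, mo_mem_JJ.2 (Or.inr le_rfl)⟩

end Pool.Agent.Lib.MP_240c17_al.Q2
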