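import Pool.Agent.Lib.MP_240c17_al.Q2.Spec

/-!
# MP_240c17, project Q2, module Lj: the ring lemma on the layer j
-/

set_option autoImplicit false

namespace Pool.Agent.Lib.MP_240c17_al.Q2

universe u

open Pool.Agent.Lib.MP_240c17_al

variable {k : Type u} [Field k]

/-- the subspace of the elements divisible by `u^j` -/
private def Lj_SD (k : Type u) [Field k] (j : ℕ) : Submodule k (R k) where
  carrier := {φ | ∀ p : ℕ × ℤ, φ.coeff p ≠ 0 → j ≤ p.1}
  add_mem' := by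
    intro φ ψ hφ hψ p hp
    by_cases h : φ.coeff p = 0
    · refine hψ p ?_
      intro h'
      apply hp
      rw [AddMonoidAlgebra.coeff_add, Finsupp.add_apply, h, h', add_zero]
    · exact hφ p h
  zero_mem' := by
    intro p hp
    exact absurd rfl hp
  smul_mem' := by
    intro c φ hφ p hp
    refine hφ p ?_
    intro h
    apply hp
    rw [AddMonoidAlgebra.coeff_smul, Finsupp.smul_apply, h, smul_zero]

private theorem Lj_memSD {j : ℕ} {φ : R k} :
    φ ∈ Lj_SD k j ↔ ∀ p : ℕ × ℤ, φ.coeff p ≠ 0 → j ≤ p.1 := Iff.rfl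

private theorem Lj_moSD {j i : ℕ} {l : ℤ} (h : j ≤ i) : (mo i l : R k) ∈ Lj_SD k j := by
  intro p hp
  rw [coeff_mo] at hp
  by_cases e : p = (i, l)
  · rw [e]
    exact h
  · rw [if_neg e] at hp
    exact absurd rfl hp

private theorem Lj_mulSD (j : ℕ) (ψ : R k) : mo j 0 * ψ ∈ Lj_SD k j := by
  refine R_induction (P := fun ψ => mo j 0 * ψ ∈ Lj_SD k j) ?_ ?_ ?_ ?_ ψ
  · show mo j 0 * (0 : R k) ∈ _
    rw [mul_zero]
    exact Submodule.zero_mem _
  · intro a b ha hb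
    show mo j 0 * (a + b) ∈ _
    rw [mul_add]
    exact Submodule.add_mem _ ha hb
  · intro c a ha
    show mo j 0 * (c • a) ∈ _
    rw [mul_smul_comm]
    exact Submodule.smul_mem _ _ ha
  · intro i l
    show mo j 0 * mo i l ∈ _
    rw [mo_mul]
    exact Lj_moSD (Nat.le_add_right j i)

private theorem Lj_divSD {j : ℕ} {φ : R k} (h : φ ∈ Lj_SD k j) : ∃ ψ, φ = mo j 0 * ψ := by
  have h1 : φ ∈ LinearMap.range (LinearMap.mulLeft k (mo j 0 : R k)) := by
    refine mem_of_mo fun p hp => ?_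
    have h2 : j ≤ p.1 := h p hp
    refine ⟨mo (p.1 - j) p.2, ?_⟩
    show mo j 0 * mo (p.1 - j) p.2 = _
    rw [mo_mul, zero_add, Nat.add_sub_cancel' h2]
  obtain ⟨ψ, hψ⟩ := h1
  exact ⟨ψ, hψ.symm⟩

/-- the unit `w` -/
private noncomputable def Lj_wU (k : Type u) [Field k] : (R k)ˣ where
  val := mo 0 1
  inv := mo 0 (-1)
  val_inv := by
    rw [mo_mul]
    exact mo_zero
  inv_val := by
    rw [mo_mul]
    exact mo_zero

private theorem Lj_wU_val : ((Lj_wU k : (R k)ˣ) : R k) = mo 0 1 := rfl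

private theorem Lj_wU_inv : (((Lj_wU k)⁻¹ : (R k)ˣ) : R k) = mo 0 (-1) := rfl

private theorem Lj_wU_zpow (l : ℤ) : ((Lj_wU k ^ l : (R k)ˣ) : R k) = mo 0 l := by
  obtain ⟨n, rfl | rfl⟩ := l.eq_nat_or_neg
  · rw [zpow_natCast, Units.val_pow_eq_pow_val, Lj_wU_val, mo_pow, mul_zero, mul_one]
  · rw [zpow_neg, zpow_natCast, ← inv_pow, Units.val_pow_eq_pow_val, Lj_wU_inv, mo_pow, mul_zero,
      mul_neg_one]

/-- `u ↦ 0` -/
private noncomputable def Lj_T (k : Type u) [Field k] : R k →ₐ[k] R k := algOf (0 : R k) (Lj_wU k)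

private theorem Lj_T_zero (l : ℤ) : Lj_T k (mo 0 l) = mo 0 l := by
  rw [Lj_T, algOf_mo, Lj_wU_zpow, pow_zero, one_mul]

private theorem Lj_T_succ {i : ℕ} (hi : i ≠ 0) (l : ℤ) : Lj_T k (mo i l) = 0 := by
  rw [Lj_T, algOf_mo, zero_pow hi, zero_mul]

private theorem Lj_T_div (φ : R k) : ∃ ψ, φ = Lj_T k φ + mo 1 0 * ψ := by
  refine R_induction (P := fun φ => ∃ ψ, φ = Lj_T k φ + mo 1 0 * ψ) ?_ ?_ ?_ ?_ φ
  · exact ⟨0, by rw [map_zero, mul_zero, add_zero]⟩
  · rintro a b ⟨x, hx⟩ ⟨y, hy⟩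
    refine ⟨x + y, ?_⟩
    rw [map_add]
    calc a + b = (Lj_T k a + mo 1 0 * x) + (Lj_T k b + mo 1 0 * y) := by rw [← hx, ← hy]
      _ = _ := by ring
  · rintro c a ⟨x, hx⟩
    refine ⟨c • x, ?_⟩
    rw [map_smul, mul_smul_comm, ← smul_add, ← hx]
  · intro i l
    cases i with
    | zero => exact ⟨0, by rw [Lj_T_zero, mul_zero, add_zero]⟩
    | succ i =>
      refine ⟨mo i l, ?_⟩
      rw [Lj_T_succ (Nat.succ_ne_zero i), mo_mul, zero_add, zero_add, Nat.add_comm 1 i]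

private theorem Lj_T_T (φ : R k) : Lj_T k (Lj_T k φ) = Lj_T k φ := by
  refine R_induction (P := fun φ => Lj_T k (Lj_T k φ) = Lj_T k φ) ?_ ?_ ?_ ?_ φ
  · rw [map_zero, map_zero]
  · intro a b ha hb
    rw [map_add, map_add, ha, hb]
  · intro c a ha
    rw [map_smul, map_smul, ha]
  · intro i l
    by_cases h : i = 0
    · rw [h, Lj_T_zero, Lj_T_zero]
    · rw [Lj_T_succ h, map_zero]

/-- the elements without `u` -/
private def Lj_Z (k : Type u) [Field k] : Submodule k (R k) where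
  carrier := {φ | ∀ p : ℕ × ℤ, φ.coeff p ≠ 0 → p.1 = 0}
  add_mem' := by
    intro φ ψ hφ hψ p hp
    by_cases h : φ.coeff p = 0
    · refine hψ p ?_
      intro h'
      apply hp
      rw [AddMonoidAlgebra.coeff_add, Finsupp.add_apply, h, h', add_zero]
    · exact hφ p h
  zero_mem' := by
    intro p hp
    exact absurd rfl hp
  smul_mem' := by
    intro c φ hφ p hp
    refine hφ p ?_
    intro h
    apply hp
    rw [AddMonoidAlgebra.coeff_smul, Finsupp.smul_apply, h, smul_zero]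

private theorem Lj_T_Z (φ : R k) : Lj_T k φ ∈ Lj_Z k := by
  refine R_induction (P := fun φ => Lj_T k φ ∈ Lj_Z k) ?_ ?_ ?_ ?_ φ
  · show Lj_T k 0 ∈ _
    rw [map_zero]
    exact Submodule.zero_mem _
  · intro a b ha hb
    show Lj_T k (a + b) ∈ _
    rw [map_add]
    exact Submodule.add_mem _ ha hb
  · intro c a ha
    show Lj_T k (c • a) ∈ _
    rw [map_smul]
    exact Submodule.smul_mem _ _ ha
  · intro i l
    show Lj_T k (mo i l) ∈ _
    by_cases h : i = 0
    · rw [h, Lj_T_zero]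
      intro p hp
      rw [coeff_mo] at hp
      by_cases e : p = (0, l)
      · rw [e]
      · rw [if_neg e] at hp
        exact absurd rfl hp
    · rw [Lj_T_succ h]
      exact Submodule.zero_mem _

private theorem Lj_mo_ne (i : ℕ) (l : ℤ) : (mo i l : R k) ≠ 0 := by
  intro h
  have h1 : (mo i l : R k).coeff (i, l) = 1 := by rw [coeff_mo, if_pos rfl]
  rw [h] at h1
  exact zero_ne_one h1

private theorem Lj_xi_ne : (mo 0 (-2) - 1 : R k) ≠ 0 := by
  intro h
  have h1 : (mo 0 (-2) : R k) = mo 0 0 := by rw [mo_zero]; exact sub_eq_zero.mp h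
  have h2 : (mo 0 (-2) : R k).coeff (0, 0) = 1 := by rw [h1, coeff_mo, if_pos rfl]
  rw [coeff_mo, if_neg (by decide)] at h2
  exact zero_ne_one h2

private theorem Lj_T_xi : Lj_T k (mo 0 (-2) - 1) = mo 0 (-2) - 1 := by
  rw [map_sub, map_one, Lj_T_zero]

theorem tLj : S_Lj.{u} := by
  intro k _ I hI hd
  classical
  obtain ⟨d, hd⟩ := hd
  have : NoZeroDivisors (R k) := inferInstance
  have : IsDomain (R k) := NoZeroDivisors.to_isDomain _
  set ξ : R k := mo 0 (-2) - 1 with hξ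
  have e1 : (mo 1 0 * ξ) ^ d = mo d 0 * ξ ^ d := by
    rw [mul_pow, mo_pow, mul_one]
    simp
  rw [e1] at hd
  let Q : ℕ → Prop := fun j => ∀ c ∈ I, ∀ p : ℕ × ℤ, c.coeff p ≠ 0 → j ≤ p.1
  have hQ1 : Q 1 := hI
  have hQd : ∀ j, Q j → j ≤ d := by
    intro j hj
    by_contra hlt
    push Not at hlt
    obtain ⟨ψ, hψ⟩ := Lj_divSD (j := j) (fun p hp => hj _ hd p hp)
    have e2 : (mo j 0 : R k) = mo d 0 * mo (j - d) 0 := by
      rw [mo_mul, Nat.add_sub_cancel' hlt.le, zero_add]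
    rw [e2, mul_assoc] at hψ
    have e3 := mul_left_cancel₀ (Lj_mo_ne d 0) hψ
    have e4 := congrArg (Lj_T k) e3
    rw [map_pow, map_mul, Lj_T_xi, Lj_T_succ (by omega), zero_mul] at e4
    exact pow_ne_zero d Lj_xi_ne e4
  have h1d : 1 ≤ d := hQd 1 hQ1
  obtain ⟨j, hj1, hQj, hQj1⟩ : ∃ j, 1 ≤ j ∧ Q j ∧ ¬ Q (j + 1) := by
    refine ⟨Nat.findGreatest Q d, Nat.le_findGreatest h1d hQ1, Nat.findGreatest_spec h1d hQ1, ?_⟩
    intro h
    exact absurd h (Nat.findGreatest_is_greatest (Nat.lt_succ_self _) (hQd _ h))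
  refine ⟨j, hj1, hQj, 0, ?_⟩
  -- the element g
  obtain ⟨g, hgI, hg0⟩ : ∃ g, mo j 0 * g ∈ I ∧ Lj_T k g ≠ 0 := by
    by_contra hcon
    push Not at hcon
    apply hQj1
    intro c hc p hp
    obtain ⟨g, rfl⟩ := Lj_divSD (j := j) (fun p hp => hQj _ hc p hp)
    obtain ⟨ψ, hψ⟩ := Lj_T_div g
    rw [hcon g hc, zero_add] at hψ
    rw [hψ, ← mul_assoc, mo_mul, zero_add] at hp
    exact Lj_mulSD (j + 1) ψ p hp
  obtain ⟨g1, hg1⟩ := Lj_T_div g
  set g0 := Lj_T k g with hg0def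
  have hjd : j ≤ d := hQd j hQj
  set h : R k := ξ ^ d * g0 ^ (d - j) with hh
  have hhI : mo j 0 * h ∈ I := by
    obtain ⟨q, hq⟩ := sub_dvd_pow_sub_pow g0 (-(mo 1 0 * g1)) (d - j)
    rw [sub_neg_eq_add, ← hg1] at hq
    have e5 : mo j 0 * h = (mo j 0 * g) * (ξ ^ d * q) + (mo d 0 * ξ ^ d) * (-g1) ^ (d - j) := by
      have e6 : g0 ^ (d - j) = g * q + (mo 1 0 * (-g1)) ^ (d - j) := by
        rw [← hq]
        ring
      have e7 : (mo d 0 : R k) = mo j 0 * mo 1 0 ^ (d - j) := by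
        rw [mo_pow, mo_mul]
        congr 1
        omega
      rw [hh, e6, e7, mul_pow]
      ring
    rw [e5]
    exact I.add_mem (I.mul_mem_right _ hgI) (I.mul_mem_right _ hd)
  have hh0 : h ≠ 0 := mul_ne_zero (pow_ne_zero _ Lj_xi_ne) (pow_ne_zero _ hg0)
  have hhT : Lj_T k h = h := by
    rw [hh, map_mul, map_pow, map_pow, hg0def, Lj_T_T, hξ, Lj_T_xi]
  have hhZ : ∀ p : ℕ × ℤ, h.coeff p ≠ 0 → p.1 = 0 := by
    have := Lj_T_Z h
    rw [hhT] at this
    exact this
  -- the leading term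
  obtain ⟨n, hn, hmax⟩ : ∃ n : ℤ, h.coeff (0, n) ≠ 0 ∧ ∀ l : ℤ, h.coeff (0, l) ≠ 0 → l ≤ n := by
    have hne : (h.coeff.support.image Prod.snd).Nonempty := by
      rw [Finset.image_nonempty, Finsupp.support_nonempty_iff]
      intro h'
      apply hh0
      have : AddMonoidAlgebra.ofCoeff h.coeff = (AddMonoidAlgebra.ofCoeff 0 : R k) := by rw [h']
      exact this
    obtain ⟨n, hn, hm⟩ := (h.coeff.support.image Prod.snd).exists_max_image id hne
    obtain ⟨p, hp, rfl⟩ := Finset.mem_image.mp hn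
    have hp' := Finsupp.mem_support_iff.mp hp
    refine ⟨p.2, ?_, ?_⟩
    · have : p = (0, p.2) := Prod.ext (hhZ p hp') rfl
      rw [← this]
      exact hp'
    · intro l hl
      exact hm l (Finset.mem_image.mpr ⟨(0, l), Finsupp.mem_support_iff.mpr hl, rfl⟩)
  intro P hPI hP2 hP1 hPm φ hφ
  -- the subspace P'
  let P' : Submodule k (R k) := P.comap (LinearMap.mulLeft k (mo j 0 : R k))
  have hmem : ∀ ψ, ψ ∈ P' ↔ mo j 0 * ψ ∈ P := fun ψ => Iff.rfl
  have q1 : ∀ ψ, mo j 0 * ψ ∈ I → ψ ∈ P' := fun ψ hψ => hPI _ hψ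
  have q2 : ∀ ψ ∈ P', ψ * mo 0 (-2) ∈ P' := by
    intro ψ hψ
    rw [hmem, ← mul_assoc]
    exact hP2 _ hψ
  have q3 : ∀ ψ ∈ P', ψ * (mo 1 0 + mo 0 (-1)) ∈ P' := by
    intro ψ hψ
    rw [hmem, ← mul_assoc]
    exact hP1 _ hψ
  have q4 : ∀ l : ℤ, -1 ≤ l → l ≤ 0 → (mo 0 l : R k) ∈ P' := by
    intro l h1 h2
    rw [hmem, mo_mul, add_zero, zero_add]
    exact hPm l h1 h2
  have q5 : ∀ m : ℕ, ∀ l : ℤ, -1 - 2 * (m : ℤ) ≤ l → l ≤ 0 → (mo 0 l : R k) ∈ P' := by
    intro m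
    induction m with
    | zero =>
      intro l h1 h2
      exact q4 l (by simpa using h1) h2
    | succ m ih =>
      intro l h1 h2
      by_cases h3 : -1 - 2 * (m : ℤ) ≤ l
      · exact ih l h3 h2
      · have h4 := q2 _ (ih (l + 2) (by push_cast at h1; omega) (by omega))
        rw [mo_mul] at h4
        have e : (0 + 0, l + 2 + -2) = ((0, l) : ℕ × ℤ) := by
          refine Prod.ext rfl ?_
          show l + 2 + -2 = l
          ring
        have e' : (mo (0 + 0) (l + 2 + -2) : R k) = mo 0 l := by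
          have := congrArg (fun p : ℕ × ℤ => (mo p.1 p.2 : R k)) e
          exact this
        rwa [e'] at h4
  have q6 : ∀ l : ℤ, l ≤ 0 → (mo 0 l : R k) ∈ P' := by
    intro l hl
    exact q5 (-l).toNat l (by omega) hl
  have q7 : ∀ i : ℕ, ∀ l : ℤ, l ≤ 0 → (mo i l : R k) ∈ P' := by
    intro i
    induction i with
    | zero => exact q6
    | succ i ih =>
      intro l hl
      have h1 := q3 _ (ih l hl)
      have h2 := ih (l - 1) (by omega)
      have h3 : (mo (i + 1) l : R k) = mo i l * (mo 1 0 + mo 0 (-1)) - mo i (l - 1) := by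
        rw [mul_add, mo_mul, mo_mul, add_zero, add_zero, ← sub_eq_add_neg, add_sub_cancel_right]
      rw [h3]
      exact Submodule.sub_mem _ h1 h2
  set r : R k := h - h.coeff (0, n) • mo 0 n with hr
  have hrc : ∀ p : ℕ × ℤ, r.coeff p ≠ 0 → p.1 = 0 ∧ p.2 < n := by
    intro p hp
    have e : r.coeff p = h.coeff p - h.coeff (0, n) * (if p = (0, n) then 1 else 0) := by
      rw [hr, AddMonoidAlgebra.coeff_sub, Finsupp.sub_apply, AddMonoidAlgebra.coeff_smul,
        Finsupp.smul_apply, coeff_mo, smul_eq_mul]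
    by_cases hpn : p = (0, n)
    · rw [e, if_pos hpn, mul_one, hpn, sub_self] at hp
      exact absurd rfl hp
    · rw [e, if_neg hpn, mul_zero, sub_zero] at hp
      have h1 := hhZ p hp
      have h2 : p = (0, p.2) := Prod.ext h1 rfl
      refine ⟨h1, lt_of_le_of_ne (hmax p.2 (by rw [← h2]; exact hp)) ?_⟩
      intro h3
      apply hpn
      rw [h2, h3]
  have q8 : ∀ m : ℕ, ∀ l : ℤ, l ≤ (m : ℤ) → ∀ i : ℕ, (mo i l : R k) ∈ P' := by
    intro m
    induction m with
    | zero =>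
      intro l hl i
      exact q7 i l (by simpa using hl)
    | succ m ih =>
      intro l hl i
      by_cases h3 : l ≤ (m : ℤ)
      · exact ih l h3 i
      · have h4 : h * mo i (l - n) ∈ P' := by
          apply q1
          rw [← mul_assoc]
          exact I.mul_mem_right _ hhI
        have h5 : r * mo i (l - n) ∈ P' := by
          have h6 : r ∈ P'.comap (LinearMap.mulRight k (mo i (l - n) : R k)) := by
            refine mem_of_mo fun p hp => ?_
            rw [Submodule.mem_comap, LinearMap.mulRight_apply, mo_mul]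
            have := hrc p hp
            push_cast at hl
            exact ih _ (by omega) _
          exact h6
        have h7 : h.coeff (0, n) • (mo i l : R k) = h * mo i (l - n) - r * mo i (l - n) := by
          rw [← sub_mul, hr, sub_sub_cancel, smul_mul_assoc, mo_mul, zero_add, add_sub_cancel]
        have h8 : h.coeff (0, n) • (mo i l : R k) ∈ P' := by
          rw [h7]
          exact Submodule.sub_mem _ h4 h5
        have h9 := Submodule.smul_mem P' (h.coeff (0, n))⁻¹ h8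
        rwa [smul_smul, inv_mul_cancel₀ hn, one_smul] at h9
  have q9 : ∀ ψ : R k, ψ ∈ P' := fun ψ => mem_of_mo fun p _ => q8 p.2.toNat p.2 (Int.self_le_toNat _) p.1
  obtain ⟨ψ, rfl⟩ := Lj_divSD (j := j) hφ
  exact q9 ψ

end Pool.Agent.Lib.MP_240c17_al.Q2
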