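import Pool.Agent.Lib.MP_240c17_al.Q2.Spec

/-!
# MP_240c17, project Q2: the algebras `G_j` are class-2-by-abelian
-/

set_option autoImplicit false

namespace Pool.Agent.Lib.MP_240c17_al.Q2

universe u

open Pool.Agent.Lib.MP_240c17_al

/-- in `HL`: second commutators of arbitrary elements against commutators vanish -/
private theorem N2A_zero {k : Type u} [Field k] {V : Type u} [AddCommGroup V] [Module k V]
    {U : Type u} [CommRing U] [Algebra k U] {f g : V →ₗ[k] U} (p q r : HL f g)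
    (hp : p.t = 0) (hq : q.t = 0) (hr : r.t = 0) : ⁅⁅p, q⁆, r⁆ = 0 := by
  ext
  · rfl
  all_goals simp only [HL.lie_a, HL.lie_b, HL.lie_c, HL.lie_t, hp, hq, hr, map_zero, HL.zero_a,
    HL.zero_b, HL.zero_c]
  all_goals ring

/-- **N2A** -/
theorem tN2A : S_N2A.{u} := by
  intro k _ j a b c d e f
  obtain ⟨a, rfl⟩ := qMk_surjective (kerJ k j) a
  obtain ⟨b, rfl⟩ := qMk_surjective (kerJ k j) b
  obtain ⟨c, rfl⟩ := qMk_surjective (kerJ k j) c
  obtain ⟨d, rfl⟩ := qMk_surjective (kerJ k j) d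
  obtain ⟨e, rfl⟩ := qMk_surjective (kerJ k j) e
  obtain ⟨f, rfl⟩ := qMk_surjective (kerJ k j) f
  simp only [← LieHom.map_lie]
  rw [qMk_eq_zero, mem_kerJ]
  have h : Phi k ⁅⁅⁅a, b⁆, ⁅c, d⁆⁆, ⁅e, f⁆⁆ = 0 := by
    simp only [LieHom.map_lie]
    exact N2A_zero _ _ _ rfl rfl rfl
  rw [h]
  exact ⟨rfl, rfl, rfl, Submodule.zero_mem _⟩

end Pool.Agent.Lib.MP_240c17_al.Q2
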