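import Pool.Agent.Lib.MP_240c17_al.Q2.Spec

/-!
# MP_240c17, project Q2: `G_j` is not residually finite dimensional
-/

set_option autoImplicit false

namespace Pool.Agent.Lib.MP_240c17_al.Q2

universe u

open Pool.Agent.Lib.MP_240c17_al

/-- commuting right actions -/
private theorem Nrfd_comm {Q : Type u} [LieRing Q] (b x z : Q) (h : ⁅z, x⁆ = 0) :
    ⁅⁅b, x⁆, z⁆ = ⁅⁅b, z⁆, x⁆ := by
  have h' : ⁅x, z⁆ = 0 := by rw [← lie_skew, h, neg_zero]
  have h1 := lie_lie_right b x z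
  rw [h', lie_zero] at h1
  exact (sub_eq_zero.1 h1.symm)

/-- the element `[a, b₀ - [b₀, x₂]]` is not in the kernel -/
private theorem Nrfd_ne {k : Type u} [Field k] {j : ℕ∞} (hj : 0 < j) :
    (⁅FreeLieAlgebra.of k (3 : Fin 6), FreeLieAlgebra.of k (4 : Fin 6) -
      ⁅FreeLieAlgebra.of k (4 : Fin 6), FreeLieAlgebra.of k (2 : Fin 6)⁆⁆ :
      FreeLieAlgebra k (Fin 6)) ∉ kerJ k j := by
  intro h
  have h4 := (mem_kerJ.1 h).2.2.2
  have hof : ∀ i : Fin 6, Phi k (FreeLieAlgebra.of k i) = gens k i := fun i =>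
    FreeLieAlgebra.lift_of_apply (gens k) i
  rw [LieHom.map_lie, map_sub, LieHom.map_lie, hof, hof, hof] at h4
  have e3 : gens k 3 = ⟨0, 1, 0, 0⟩ := rfl
  have e4 : gens k 4 = ⟨0, 0, 1, 0⟩ := rfl
  have e2 : gens k 2 = ⟨Pi.single 2 1, 0, 0, 0⟩ := rfl
  have e : (⁅gens k 3, gens k 4 - ⁅gens k 4, gens k 2⁆⁆ : HH k).c = mo 0 2 := by
    rw [e3, e4, e2]
    have hg : gB k (Pi.single 2 1) = 1 - mo 0 2 := by
      simp [gB]
    simp only [HL.lie_c, HL.lie_a, HL.lie_b, HL.lie_t, HL.sub_a, HL.sub_b, HL.sub_c, HL.sub_t,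
      zero_mul, mul_zero, sub_zero, map_zero, one_mul, hg, add_zero]
    ring
  rw [e, mo_mem_JJ] at h4
  rcases h4 with h4 | h4
  · norm_num at h4
  · have h5 : j = 0 := by simpa using h4
    exact hj.ne' h5

theorem tNrfd : S_RelG.{u} → S_Nrfd.{u} := by
  intro hG k _ j hj hR
  have hne : qMk (kerJ k j) ⁅FreeLieAlgebra.of k (3 : Fin 6), FreeLieAlgebra.of k (4 : Fin 6) -
      ⁅FreeLieAlgebra.of k (4 : Fin 6), FreeLieAlgebra.of k (2 : Fin 6)⁆⁆ ≠ 0 := by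
    intro h0
    exact Nrfd_ne hj ((qMk_eq_zero _ _).1 h0)
  obtain ⟨I, hfd, hI⟩ := hR _ hne
  apply hI
  rw [← qMk_eq_zero I]
  have r := hG k j
  have h1 := congrArg (qMk I) r.zx2
  have h2 := congrArg (qMk I) r.az
  have h3 := congrArg (qMk I) r.e0
  have h4 := congrArg (qMk I) r.ab0
  unfold Eo Fo at h3
  simp only [map_sub, map_add, LieHom.map_lie, map_zero] at h1 h2 h3 h4 ⊢
  refine fd_quasi (k := k) _ (qMk I (qMk (kerJ k j) (FreeLieAlgebra.of k 0))) _ _ ?_ h2 ?_ h4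
  · rw [← lie_skew, h1, neg_zero]
  · rw [add_lie] at h3
    rw [sub_lie, Nrfd_comm _ _ _ h1]
    refine Eq.trans ?_ h3
    abel

end Pool.Agent.Lib.MP_240c17_al.Q2
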