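import Pool.Agent.Lib.MP_240c17_al.Q2.Spec

/-!
# The sum of two subalgebras, case (2,1)
-/

set_option autoImplicit false

namespace Pool.Agent.Lib.MP_240c17_al.Q2

universe u

open Pool.Agent.Lib.MP_240c17_al

theorem tP21 : S_PU.{u} → S_P21.{u} := by
  intro hPU k _ C _ _ p q w wi hw i j m n
  have a1 : wi ∈ Algebra.adjoin k {wi, p - w, (p - w) * w, q} :=
    Algebra.subset_adjoin (by simp)
  have a2 : p - w ∈ Algebra.adjoin k {wi, p - w, (p - w) * w, q} :=
    Algebra.subset_adjoin (by simp)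
  have a3 : q ∈ Algebra.adjoin k {wi, p - w, (p - w) * w, q} :=
    Algebra.subset_adjoin (by simp)
  have b1 : wi ∈ Algebra.adjoin k {wi, q - w, (q - w) * w, p} :=
    Algebra.subset_adjoin (by simp)
  have b2 : q - w ∈ Algebra.adjoin k {wi, q - w, (q - w) * w, p} :=
    Algebra.subset_adjoin (by simp)
  have b3 : p ∈ Algebra.adjoin k {wi, q - w, (q - w) * w, p} :=
    Algebra.subset_adjoin (by simp)
  generalize Algebra.adjoin k {wi, p - w, (p - w) * w, q} = O1 at a1 a2 a3 ⊢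
  generalize Algebra.adjoin k {wi, q - w, (q - w) * w, p} = O2 at b1 b2 b3 ⊢
  have hp : p * wi ∈ O1 := by
    have e : p * wi = (p - w) * wi + 1 := by rw [← hw]; ring
    rw [e]
    exact O1.add_mem (O1.mul_mem a2 a1) O1.one_mem
  have hq : q * wi ∈ O2 := by
    have e : q * wi = (q - w) * wi + 1 := by rw [← hw]; ring
    rw [e]
    exact O2.add_mem (O2.mul_mem b2 b1) O2.one_mem
  have hwm : wi ^ m * w ^ m = 1 := by rw [← mul_pow, mul_comm, hw, one_pow]
  refine hPU k C O1 O2 wi wi (-(p - w)) p a1 b1 (O1.neg_mem a2) b3 ?_ (i + j + m) _ ?_ ?_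
  · rw [← hw]; ring
  · have e : wi ^ (i + j + m) * (p ^ i * q ^ j * w ^ m * wi ^ n) =
        (p * wi) ^ i * q ^ j * wi ^ j * wi ^ n := by
      calc wi ^ (i + j + m) * (p ^ i * q ^ j * w ^ m * wi ^ n)
          = (p * wi) ^ i * q ^ j * wi ^ j * wi ^ n * (wi ^ m * w ^ m) := by ring
        _ = (p * wi) ^ i * q ^ j * wi ^ j * wi ^ n := by rw [hwm, mul_one]
    rw [e]
    exact O1.mul_mem (O1.mul_mem (O1.mul_mem (O1.pow_mem hp _) (O1.pow_mem a3 _))
      (O1.pow_mem a1 _)) (O1.pow_mem a1 _)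
  · have e : wi ^ (i + j + m) * (p ^ i * q ^ j * w ^ m * wi ^ n) =
        (q * wi) ^ j * p ^ i * wi ^ i * wi ^ n := by
      calc wi ^ (i + j + m) * (p ^ i * q ^ j * w ^ m * wi ^ n)
          = (q * wi) ^ j * p ^ i * wi ^ i * wi ^ n * (wi ^ m * w ^ m) := by ring
        _ = (q * wi) ^ j * p ^ i * wi ^ i * wi ^ n := by rw [hwm, mul_one]
    rw [e]
    exact O2.mul_mem (O2.mul_mem (O2.mul_mem (O2.pow_mem hq _) (O2.pow_mem b3 _))
      (O2.pow_mem b1 _)) (O2.pow_mem b1 _)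

end Pool.Agent.Lib.MP_240c17_al.Q2
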