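import Pool.Agent.Lib.MP_240c17_al.Q2.Spec

/-!
# Partition of unity
-/

set_option autoImplicit false

namespace Pool.Agent.Lib.MP_240c17_al.Q2

universe u

open Pool.Agent.Lib.MP_240c17_al

theorem tPU : S_PU.{u} := by
  intro k _ C _ _ O1 O2 m1 m2 e1 e2 hm1 hm2 he1 he2 h N φ h1 h2
  have e : φ = ∑ i ∈ Finset.range (2 * N + 1),
      (m1 * e1) ^ i * (m2 * e2) ^ (2 * N - i) * ((2 * N).choose i : C) * φ := by
    rw [← Finset.sum_mul, ← add_pow, h, one_pow, one_mul]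
  rw [e]
  refine Submodule.sum_mem _ fun i hi => ?_
  rw [Finset.mem_range] at hi
  by_cases hiN : N ≤ i
  · refine Submodule.mem_sup_left ?_
    obtain ⟨j, rfl⟩ : ∃ j, i = N + j := ⟨i - N, by omega⟩
    have e3 : m2 * e2 = 1 - m1 * e1 := by rw [← h]; ring
    have e4 : (m1 * e1) ^ (N + j) * (m2 * e2) ^ (2 * N - (N + j)) *
        ((2 * N).choose (N + j) : C) * φ = m1 ^ j * e1 ^ (N + j) * (1 - m1 * e1) ^ (2 * N - (N + j)) *
        ((2 * N).choose (N + j) : C) * (m1 ^ N * φ) := by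
      rw [e3, mul_pow, pow_add m1]
      ring
    rw [e4, Subalgebra.mem_toSubmodule]
    refine O1.mul_mem (O1.mul_mem (O1.mul_mem (O1.mul_mem (O1.pow_mem hm1 _) (O1.pow_mem he1 _))
      (O1.pow_mem (O1.sub_mem O1.one_mem (O1.mul_mem hm1 he1)) _)) (natCast_mem O1 _)) h1
  · refine Submodule.mem_sup_right ?_
    obtain ⟨j, hj⟩ : ∃ j, 2 * N - i = N + j := ⟨N - i, by omega⟩
    have e3 : m1 * e1 = 1 - m2 * e2 := by rw [← h]; ring
    have e4 : (m1 * e1) ^ i * (m2 * e2) ^ (2 * N - i) *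
        ((2 * N).choose i : C) * φ = m2 ^ j * e2 ^ (N + j) * (1 - m2 * e2) ^ i *
        ((2 * N).choose i : C) * (m2 ^ N * φ) := by
      rw [e3, hj, mul_pow, pow_add m2]
      ring
    rw [e4, Subalgebra.mem_toSubmodule]
    refine O2.mul_mem (O2.mul_mem (O2.mul_mem (O2.mul_mem (O2.pow_mem hm2 _) (O2.pow_mem he2 _))
      (O2.pow_mem (O2.sub_mem O2.one_mem (O2.mul_mem hm2 he2)) _)) (natCast_mem O2 _)) h2

end Pool.Agent.Lib.MP_240c17_al.Q2
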