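import Pool.Agent.Lib.MP_240c17_al.Q2.Spec

/-!
# MP_240c17, project Q2, module `Pt`: evaluation at a point
-/

set_option autoImplicit false

namespace Pool.Agent.Lib.MP_240c17_al.Q2

universe u

open Pool.Agent.Lib.MP_240c17_al

section

variable {k : Type u} [Field k]

/-- the embedding of the polynomials -/
private noncomputable def Pt_tau (k : Type u) [Field k] : MvPolynomial (Fin 2) k →ₐ[k] R k :=
  MvPolynomial.aeval ![mo 1 0, mo 0 1]

private theorem Pt_tau0 : Pt_tau k (MvPolynomial.X 0) = mo 1 0 := by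
  rw [Pt_tau, MvPolynomial.aeval_X]
  rfl

private theorem Pt_tau1 : Pt_tau k (MvPolynomial.X 1) = mo 0 1 := by
  rw [Pt_tau, MvPolynomial.aeval_X]
  rfl

private theorem Pt_ex (c : R k) : ∃ (N : ℕ) (P : MvPolynomial (Fin 2) k),
    c * mo 0 (N : ℤ) = Pt_tau k P := by
  refine R_induction (P := fun c => ∃ (N : ℕ) (P : MvPolynomial (Fin 2) k),
    c * mo 0 (N : ℤ) = Pt_tau k P) ?_ ?_ ?_ ?_ c
  · exact ⟨0, 0, by rw [zero_mul, map_zero]⟩
  · rintro a b ⟨N, P, h1⟩ ⟨M, Q, h2⟩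
    refine ⟨N + M, P * MvPolynomial.X 1 ^ M + Q * MvPolynomial.X 1 ^ N, ?_⟩
    have e : (mo 0 ((N + M : ℕ) : ℤ) : R k) = mo 0 (N : ℤ) * mo 0 (M : ℤ) := by
      rw [mo_mul]
      push_cast
      rfl
    have e1 : (mo 0 1 : R k) ^ M = mo 0 (M : ℤ) := by rw [mo_pow]; simp
    have e2 : (mo 0 1 : R k) ^ N = mo 0 (N : ℤ) := by rw [mo_pow]; simp
    rw [map_add, map_mul, map_mul, map_pow, map_pow, Pt_tau1, ← h1, ← h2, e, e1, e2]
    ring
  · rintro r a ⟨N, P, h1⟩
    exact ⟨N, r • P, by rw [map_smul, ← h1, smul_mul_assoc]⟩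
  · intro i l
    refine ⟨l.natAbs, MvPolynomial.X 0 ^ i * MvPolynomial.X 1 ^ (l + l.natAbs).toNat, ?_⟩
    rw [map_mul, map_pow, map_pow, Pt_tau0, Pt_tau1, mo_pow, mo_pow, mo_mul, mo_mul]
    have e : (((l + (l.natAbs : ℤ)).toNat : ℕ) : ℤ) = l + (l.natAbs : ℤ) :=
      Int.toNat_of_nonneg (by omega)
    congr 1
    · ring
    · rw [e]
      ring

private theorem Pt_pt [Infinite k] (c : R k) (hc : c ≠ 0) : ∃ ε : R k →ₐ[k] k, ε c ≠ 0 := by
  obtain ⟨N, P, h1⟩ := Pt_ex c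
  have hP : P ≠ 0 := by
    rintro rfl
    apply hc
    rw [map_zero] at h1
    have h2 : c * mo 0 (N : ℤ) * mo 0 (-(N : ℤ)) = 0 := by rw [h1, zero_mul]
    rw [mul_assoc, mo_mul, add_neg_cancel, add_zero, mo_zero, mul_one] at h2
    exact h2
  have h2 : P * MvPolynomial.X 1 ≠ 0 := mul_ne_zero hP (MvPolynomial.X_ne_zero 1)
  obtain ⟨x, hx⟩ : ∃ x, MvPolynomial.eval x (P * MvPolynomial.X 1) ≠ 0 := by
    by_contra h
    push Not at h
    exact h2 (MvPolynomial.funext fun x => by rw [h x, map_zero])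
  rw [map_mul, MvPolynomial.eval_X] at hx
  have hx1 : x 1 ≠ 0 := right_ne_zero_of_mul hx
  have hxP : MvPolynomial.eval x P ≠ 0 := left_ne_zero_of_mul hx
  let ε : R k →ₐ[k] k := algOf (x 0) (Units.mk0 (x 1) hx1)
  refine ⟨ε, fun h0 => hxP ?_⟩
  have h3 : ε.comp (Pt_tau k) = MvPolynomial.aeval x := by
    refine MvPolynomial.algHom_ext fun i => ?_
    rw [AlgHom.comp_apply, MvPolynomial.aeval_X]
    fin_cases i
    · show ε (Pt_tau k (MvPolynomial.X 0)) = x 0
      rw [Pt_tau0, algOf_mo]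
      simp
    · show ε (Pt_tau k (MvPolynomial.X 1)) = x 1
      rw [Pt_tau1, algOf_mo]
      simp
  have h4 : ε (Pt_tau k P) = MvPolynomial.aeval x P := by rw [← h3, AlgHom.comp_apply]
  rw [← h1, map_mul, h0, zero_mul] at h4
  rw [← MvPolynomial.coe_aeval_eq_eval]
  exact h4.symm

/-- the evaluation of `H` -/
private noncomputable def Pt_th (ε : R k →ₐ[k] k) : HH k →ₗ⁅k⁆ H2 k where
  toFun p := ⟨![ε (fA k p.t), ε (gB k p.t)], ε p.a, ε p.b, ε p.c⟩
  map_add' p q := by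
    ext1
    · funext i
      fin_cases i
      · show ε (fA k (p + q).t) = ε (fA k p.t) + ε (fA k q.t)
        rw [HL.add_t, map_add, map_add]
      · show ε (gB k (p + q).t) = ε (gB k p.t) + ε (gB k q.t)
        rw [HL.add_t, map_add, map_add]
    · show ε (p + q).a = ε p.a + ε q.a
      rw [HL.add_a, map_add]
    · show ε (p + q).b = ε p.b + ε q.b
      rw [HL.add_b, map_add]
    · show ε (p + q).c = ε p.c + ε q.c
      rw [HL.add_c, map_add]
  map_smul' r p := by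
    ext1
    · funext i
      fin_cases i
      · show ε (fA k (r • p).t) = r • ε (fA k p.t)
        rw [HL.smul_t, map_smul, map_smul]
      · show ε (gB k (r • p).t) = r • ε (gB k p.t)
        rw [HL.smul_t, map_smul, map_smul]
    · show ε (r • p).a = r • ε p.a
      rw [HL.smul_a, map_smul]
    · show ε (r • p).b = r • ε p.b
      rw [HL.smul_b, map_smul]
    · show ε (r • p).c = r • ε p.c
      rw [HL.smul_c, map_smul]
  map_lie' := by
    intro p q
    ext1
    · funext i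
      fin_cases i
      · show ε (fA k 0) = 0
        rw [map_zero, map_zero]
      · show ε (gB k 0) = 0
        rw [map_zero, map_zero]
    · show ε ⁅p, q⁆.a = ε p.a * ε (fA k q.t) - ε q.a * ε (fA k p.t)
      rw [HL.lie_a, map_sub, map_mul, map_mul]
    · show ε ⁅p, q⁆.b = ε p.b * ε (gB k q.t) - ε q.b * ε (gB k p.t)
      rw [HL.lie_b, map_sub, map_mul, map_mul]
    · show ε ⁅p, q⁆.c = ε p.a * ε q.b - ε q.a * ε p.b +
        (ε p.c * (ε (fA k q.t) + ε (gB k q.t)) - ε q.c * (ε (fA k p.t) + ε (gB k p.t)))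
      rw [HL.lie_c]
      simp only [map_add, map_sub, map_mul]

end

theorem tPt : S_Pt.{u} := by
  intro k _ _ Id c hc hc0 hI
  obtain ⟨v, hv, hvc⟩ := hc
  obtain ⟨ε, hε⟩ := Pt_pt c hc0
  have h1 : verbalIdeal Id 6 ≤ ((Pt_th ε).comp (Phi k)).ker := by
    refine LieSubmodule.lieSpan_le.mpr ?_
    rintro _ ⟨g, hg, ρ, rfl⟩
    have h2 : ((Pt_th ε).comp (Phi k)).comp (FreeLieAlgebra.lift k ρ) =
        FreeLieAlgebra.lift k fun n => Pt_th ε (Phi k (ρ n)) := by
      refine FreeLieAlgebra.hom_ext ?_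
      intro n
      rw [FreeLieAlgebra.lift_of_apply]
      show Pt_th ε (Phi k (FreeLieAlgebra.lift k ρ (FreeLieAlgebra.of k n))) = _
      rw [FreeLieAlgebra.lift_of_apply]
    show FreeLieAlgebra.lift k ρ g ∈ ((Pt_th ε).comp (Phi k)).ker
    rw [LieHom.mem_ker]
    have h3 : ((Pt_th ε).comp (Phi k)).comp (FreeLieAlgebra.lift k ρ) g = 0 := by
      rw [h2]
      exact hI g hg _
    exact h3
  have h2 := h1 hv
  rw [LieHom.mem_ker, LieHom.comp_apply, hvc] at h2
  have h3 : (Pt_th ε (⟨0, 0, 0, c⟩ : HH k)).c = 0 := by rw [h2]; rfl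
  exact hε h3

end Pool.Agent.Lib.MP_240c17_al.Q2
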