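import Pool.Agent.Lib.MP_240c17_al.Q2.Spec

set_option autoImplicit false

namespace Pool.Agent.Lib.MP_240c17_al.Q2

universe u

open Pool.Agent.Lib.MP_240c17_al

section
variable {k : Type u} [Field k] {L Q : Type u} [LieRing L] [LieAlgebra k L] [LieRing Q]
  [LieAlgebra k Q]

private theorem Rel_Eo (θ : L →ₗ⁅k⁆ Q) (x l : L) : θ (Eo x l) = Eo (θ x) (θ l) := by
  unfold Eo
  rw [map_sub, LieHom.map_lie]

private theorem Rel_Fo (θ : L →ₗ⁅k⁆ Q) (x l : L) : θ (Fo x l) = Fo (θ x) (θ l) := by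
  unfold Fo
  rw [map_add, LieHom.map_lie]

/-- the vector of the elements `b w^l` -/
private def Rel_v {M : Type u} [LieRing M] (z x2 b0 b1 : M) : Fin 5 → M :=
  ![Fo z b0, Fo z b1, b0, b1, Eo x2 b0]

private theorem Rel_map (θ : L →ₗ⁅k⁆ Q) (z x2 b0 b1 : L) (i : Fin 5) :
    θ (Rel_v z x2 b0 b1 i) = Rel_v (θ z) (θ x2) (θ b0) (θ b1) i := by
  fin_cases i
  · exact Rel_Fo θ z b0
  · exact Rel_Fo θ z b1
  · rfl
  · rfl
  · exact Rel_Eo θ x2 b0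

end

section
variable {M : Type u} [LieRing M]

/-- the first twelve words -/
private def Rel_w (Z X1 X2 A B0 B1 : M) : Fin 12 → M :=
  ![⁅Z, X1⁆, ⁅Z, X2⁆, ⁅X1, X2⁆, ⁅A, Z⁆ - A, ⁅A, X2⁆ - ⁅⁅A, X1⁆, X1⁆,
    Eo X2 (Fo Z B0) - B0, Eo X2 (Fo Z B1) - B1, ⁅B0, X1⁆ - (Fo Z B1 - B1),
    ⁅B1, X1⁆ - (B0 - Eo X2 B0), ⁅A, ⁅A, X1⁆⁆, ⁅A, B0⁆, ⁅A, Fo Z B1⁆]

end

private theorem Rel_main {k : Type u} [Field k] {L : Type u} [LieRing L] [LieAlgebra k L]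
    (Z X1 X2 A B0 B1 : L) : ∃ S : Finset L,
    ∀ (Q : Type u) [LieRing Q] [LieAlgebra k Q] (θ : L →ₗ⁅k⁆ Q),
      (∀ w ∈ S, θ w = 0) ↔ Rl (θ Z) (θ X1) (θ X2) (θ A) (θ B0) (θ B1) := by
  classical
  obtain ⟨S1, hS1⟩ : ∃ S : Finset L, ∀ w, w ∈ S ↔ ∃ i, Rel_w Z X1 X2 A B0 B1 i = w :=
    ⟨Finset.univ.image (Rel_w Z X1 X2 A B0 B1), fun w => by
      rw [Finset.mem_image]
      exact ⟨fun ⟨i, _, e⟩ => ⟨i, e⟩, fun ⟨i, e⟩ => ⟨i, Finset.mem_univ i, e⟩⟩⟩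
  obtain ⟨S2, hS2⟩ : ∃ S : Finset L, ∀ w, w ∈ S ↔
      ∃ i j, ⁅Rel_v Z X2 B0 B1 i, Rel_v Z X2 B0 B1 j⁆ = w :=
    ⟨(Finset.univ : Finset (Fin 5 × Fin 5)).image
      (fun p => ⁅Rel_v Z X2 B0 B1 p.1, Rel_v Z X2 B0 B1 p.2⁆), fun w => by
      rw [Finset.mem_image]
      exact ⟨fun ⟨p, _, e⟩ => ⟨p.1, p.2, e⟩, fun ⟨i, j, e⟩ => ⟨(i, j), Finset.mem_univ _, e⟩⟩⟩
  refine ⟨S1 ∪ S2, ?_⟩
  intro Q _ _ θ
  constructor
  · intro h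
    have g : ∀ i, θ (Rel_w Z X1 X2 A B0 B1 i) = 0 := fun i =>
      h _ (Finset.mem_union.2 (Or.inl ((hS1 _).2 ⟨i, rfl⟩)))
    refine ⟨?_, ?_, ?_, ?_, ?_, ?_, ?_, ?_, ?_, ?_, ?_, ?_, ?_⟩
    · have e : θ ⁅Z, X1⁆ = 0 := g 0
      rw [LieHom.map_lie] at e
      exact e
    · have e : θ ⁅Z, X2⁆ = 0 := g 1
      rw [LieHom.map_lie] at e
      exact e
    · have e : θ ⁅X1, X2⁆ = 0 := g 2
      rw [LieHom.map_lie] at e
      exact e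
    · have e : θ (⁅A, Z⁆ - A) = 0 := g 3
      rw [map_sub, LieHom.map_lie] at e
      exact sub_eq_zero.1 e
    · have e : θ (⁅A, X2⁆ - ⁅⁅A, X1⁆, X1⁆) = 0 := g 4
      rw [map_sub, LieHom.map_lie, LieHom.map_lie, LieHom.map_lie] at e
      exact sub_eq_zero.1 e
    · have e : θ (Eo X2 (Fo Z B0) - B0) = 0 := g 5
      rw [map_sub, Rel_Eo, Rel_Fo] at e
      exact sub_eq_zero.1 e
    · have e : θ (Eo X2 (Fo Z B1) - B1) = 0 := g 6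
      rw [map_sub, Rel_Eo, Rel_Fo] at e
      exact sub_eq_zero.1 e
    · have e : θ (⁅B0, X1⁆ - (Fo Z B1 - B1)) = 0 := g 7
      rw [map_sub, LieHom.map_lie, map_sub, Rel_Fo] at e
      exact sub_eq_zero.1 e
    · have e : θ (⁅B1, X1⁆ - (B0 - Eo X2 B0)) = 0 := g 8
      rw [map_sub, LieHom.map_lie, map_sub, Rel_Eo] at e
      exact sub_eq_zero.1 e
    · have e : θ ⁅A, ⁅A, X1⁆⁆ = 0 := g 9
      rw [LieHom.map_lie, LieHom.map_lie] at e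
      exact e
    · intro i j
      have h2 := h _ (Finset.mem_union.2 (Or.inr ((hS2 _).2 ⟨i, j, rfl⟩)))
      rw [LieHom.map_lie, Rel_map, Rel_map] at h2
      exact h2
    · have e : θ ⁅A, B0⁆ = 0 := g 10
      rw [LieHom.map_lie] at e
      exact e
    · have e : θ ⁅A, Fo Z B1⁆ = 0 := g 11
      rw [LieHom.map_lie, Rel_Fo] at e
      exact e
  · intro h w hw
    rcases Finset.mem_union.1 hw with hw | hw
    · obtain ⟨i, rfl⟩ := (hS1 _).1 hw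
      fin_cases i
      · show θ ⁅Z, X1⁆ = 0
        rw [LieHom.map_lie, h.zx1]
      · show θ ⁅Z, X2⁆ = 0
        rw [LieHom.map_lie, h.zx2]
      · show θ ⁅X1, X2⁆ = 0
        rw [LieHom.map_lie, h.x12]
      · show θ (⁅A, Z⁆ - A) = 0
        rw [map_sub, LieHom.map_lie, h.az, sub_self]
      · show θ (⁅A, X2⁆ - ⁅⁅A, X1⁆, X1⁆) = 0
        rw [map_sub, LieHom.map_lie, LieHom.map_lie, LieHom.map_lie, h.ax2, sub_self]
      · show θ (Eo X2 (Fo Z B0) - B0) = 0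
        rw [map_sub, Rel_Eo, Rel_Fo, h.e0, sub_self]
      · show θ (Eo X2 (Fo Z B1) - B1) = 0
        rw [map_sub, Rel_Eo, Rel_Fo, h.e1, sub_self]
      · show θ (⁅B0, X1⁆ - (Fo Z B1 - B1)) = 0
        rw [map_sub, LieHom.map_lie, map_sub, Rel_Fo, h.b0x, sub_self]
      · show θ (⁅B1, X1⁆ - (B0 - Eo X2 B0)) = 0
        rw [map_sub, LieHom.map_lie, map_sub, Rel_Eo, h.b1x, sub_self]
      · show θ ⁅A, ⁅A, X1⁆⁆ = 0
        rw [LieHom.map_lie, LieHom.map_lie, h.aa]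
      · show θ ⁅A, B0⁆ = 0
        rw [LieHom.map_lie, h.ab0]
      · show θ ⁅A, Fo Z B1⁆ = 0
        rw [LieHom.map_lie, Rel_Fo, h.ab1]
    · obtain ⟨i, j, rfl⟩ := (hS2 _).1 hw
      rw [LieHom.map_lie, Rel_map, Rel_map]
      exact h.bb i j

theorem tRel : S_Rel.{u} := fun _ _ => Rel_main _ _ _ _ _ _

end Pool.Agent.Lib.MP_240c17_al.Q2
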