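import Pool.Agent.Lib.MP_240c17_al.Q2.Spec

set_option autoImplicit false

namespace Pool.Agent.Lib.MP_240c17_al.Q2

universe u

open Pool.Agent.Lib.MP_240c17_al

section
variable {k : Type u} [Field k] {L H Q : Type u} [LieRing L] [LieAlgebra k L] [LieRing Q]
  [LieAlgebra k Q] [LieRing H] [LieAlgebra k H]

private theorem RelG_Eo (θ : L →ₗ⁅k⁆ Q) (x l : L) : θ (Eo x l) = Eo (θ x) (θ l) := by
  unfold Eo
  rw [map_sub, LieHom.map_lie]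

private theorem RelG_Fo (θ : L →ₗ⁅k⁆ Q) (x l : L) : θ (Fo x l) = Fo (θ x) (θ l) := by
  unfold Fo
  rw [map_add, LieHom.map_lie]

/-- the vector of the elements `b w^l` -/
private def RelG_v {M : Type u} [LieRing M] (z x2 b0 b1 : M) : Fin 5 → M :=
  ![Fo z b0, Fo z b1, b0, b1, Eo x2 b0]

private theorem RelG_map (θ : L →ₗ⁅k⁆ Q) (z x2 b0 b1 : L) (i : Fin 5) :
    θ (RelG_v z x2 b0 b1 i) = RelG_v (θ z) (θ x2) (θ b0) (θ b1) i := by
  fin_cases i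
  · exact RelG_Fo θ z b0
  · exact RelG_Fo θ z b1
  · rfl
  · rfl
  · exact RelG_Eo θ x2 b0

private theorem RelG_main (P : L →ₗ⁅k⁆ H) (q : L →ₗ⁅k⁆ Q) (hq : ∀ v, P v = 0 → q v = 0)
    (z x1 x2 a b0 b1 : L)
    (zx1 : ⁅P z, P x1⁆ = 0) (zx2 : ⁅P z, P x2⁆ = 0) (x12 : ⁅P x1, P x2⁆ = 0)
    (az : ⁅P a, P z⁆ = P a) (ax2 : ⁅P a, P x2⁆ = ⁅⁅P a, P x1⁆, P x1⁆)
    (e0 : Eo (P x2) (Fo (P z) (P b0)) = P b0) (e1 : Eo (P x2) (Fo (P z) (P b1)) = P b1)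
    (b0x : ⁅P b0, P x1⁆ = Fo (P z) (P b1) - P b1) (b1x : ⁅P b1, P x1⁆ = P b0 - Eo (P x2) (P b0))
    (aa : ⁅P a, ⁅P a, P x1⁆⁆ = 0)
    (bb : ∀ i j : Fin 5, ⁅RelG_v (P z) (P x2) (P b0) (P b1) i,
      RelG_v (P z) (P x2) (P b0) (P b1) j⁆ = 0)
    (ab0 : q ⁅a, b0⁆ = 0) (ab1 : q ⁅a, Fo z b1⁆ = 0) :
    Rl (q z) (q x1) (q x2) (q a) (q b0) (q b1) := by
  have key : ∀ v w, P v = P w → q v = q w := by
    intro v w h
    rw [← sub_eq_zero, ← map_sub]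
    apply hq
    rw [map_sub, h, sub_self]
  refine ⟨?_, ?_, ?_, ?_, ?_, ?_, ?_, ?_, ?_, ?_, ?_, ?_, ?_⟩
  · rw [← LieHom.map_lie]
    exact hq _ (by rw [LieHom.map_lie, zx1])
  · rw [← LieHom.map_lie]
    exact hq _ (by rw [LieHom.map_lie, zx2])
  · rw [← LieHom.map_lie]
    exact hq _ (by rw [LieHom.map_lie, x12])
  · rw [← LieHom.map_lie]
    exact key _ _ (by rw [LieHom.map_lie, az])
  · rw [← LieHom.map_lie, ← LieHom.map_lie, ← LieHom.map_lie]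
    exact key _ _ (by rw [LieHom.map_lie, LieHom.map_lie, LieHom.map_lie, ax2])
  · rw [← RelG_Fo, ← RelG_Eo]
    exact key _ _ (by rw [RelG_Eo, RelG_Fo, e0])
  · rw [← RelG_Fo, ← RelG_Eo]
    exact key _ _ (by rw [RelG_Eo, RelG_Fo, e1])
  · rw [← RelG_Fo, ← LieHom.map_lie, ← map_sub]
    exact key _ _ (by rw [LieHom.map_lie, map_sub, RelG_Fo, b0x])
  · rw [← RelG_Eo, ← LieHom.map_lie, ← map_sub]
    exact key _ _ (by rw [LieHom.map_lie, map_sub, RelG_Eo, b1x])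
  · rw [← LieHom.map_lie, ← LieHom.map_lie]
    exact hq _ (by rw [LieHom.map_lie, LieHom.map_lie, aa])
  · intro i j
    have h : ⁅RelG_v (q z) (q x2) (q b0) (q b1) i, RelG_v (q z) (q x2) (q b0) (q b1) j⁆ = 0 := by
      rw [← RelG_map, ← RelG_map, ← LieHom.map_lie]
      exact hq _ (by rw [LieHom.map_lie, RelG_map, RelG_map, bb])
    exact h
  · rw [← LieHom.map_lie]
    exact ab0
  · rw [← RelG_Fo, ← LieHom.map_lie]
    exact ab1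

end

section
variable {k : Type u} [Field k]

/-- `φ b` -/
private noncomputable def RelG_be (φ : R k) : HH k := ⟨0, 0, φ, 0⟩

/-- `φ a` -/
private noncomputable def RelG_al (φ : R k) : HH k := ⟨0, φ, 0, 0⟩

/-- torus elements -/
private noncomputable def RelG_to (t : Fin 3 → k) : HH k := ⟨t, 0, 0, 0⟩

private theorem RelG_tt (s t : Fin 3 → k) : ⁅RelG_to s, RelG_to t⁆ = 0 := by
  unfold RelG_to
  ext
  · simp
  all_goals simp

private theorem RelG_bt (φ : R k) (t : Fin 3 → k) :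
    ⁅RelG_be φ, RelG_to t⁆ = RelG_be (φ * gB k t) := by
  unfold RelG_be RelG_to
  ext
  · simp
  all_goals simp

private theorem RelG_at (φ : R k) (t : Fin 3 → k) :
    ⁅RelG_al φ, RelG_to t⁆ = RelG_al (φ * fA k t) := by
  unfold RelG_al RelG_to
  ext
  · simp
  all_goals simp

private theorem RelG_bb (φ ψ : R k) : ⁅RelG_be φ, RelG_be ψ⁆ = 0 := by
  unfold RelG_be
  ext
  · simp
  all_goals simp

private theorem RelG_aa (φ ψ : R k) : ⁅RelG_al φ, RelG_al ψ⁆ = 0 := by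
  unfold RelG_al
  ext
  · simp
  all_goals simp

private theorem RelG_ab (φ ψ : R k) : ⁅RelG_al φ, RelG_be ψ⁆ = ⟨0, 0, 0, φ * ψ⟩ := by
  unfold RelG_al RelG_be
  ext
  · simp
  all_goals simp

private theorem RelG_sub (φ ψ : R k) : RelG_be φ - RelG_be ψ = RelG_be (φ - ψ) := by
  unfold RelG_be
  ext
  · simp
  all_goals simp

private theorem RelG_add (φ ψ : R k) : RelG_be φ + RelG_be ψ = RelG_be (φ + ψ) := by
  unfold RelG_be
  ext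
  · simp
  all_goals simp

private theorem RelG_g0 : gB k (Pi.single 0 1) = mo 0 (-2) - 1 := by
  show ((Pi.single 0 1 : Fin 3 → k) 0 • (mo 0 (-2) - 1) +
    (Pi.single 0 1 : Fin 3 → k) 1 • (mo 0 (-1) - mo 0 1) +
    (Pi.single 0 1 : Fin 3 → k) 2 • (1 - mo 0 2) : R k) = _
  simp

private theorem RelG_g1 : gB k (Pi.single 1 1) = mo 0 (-1) - mo 0 1 := by
  show ((Pi.single 1 1 : Fin 3 → k) 0 • (mo 0 (-2) - 1) +
    (Pi.single 1 1 : Fin 3 → k) 1 • (mo 0 (-1) - mo 0 1) +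
    (Pi.single 1 1 : Fin 3 → k) 2 • (1 - mo 0 2) : R k) = _
  simp

private theorem RelG_g2 : gB k (Pi.single 2 1) = 1 - mo 0 2 := by
  show ((Pi.single 2 1 : Fin 3 → k) 0 • (mo 0 (-2) - 1) +
    (Pi.single 2 1 : Fin 3 → k) 1 • (mo 0 (-1) - mo 0 1) +
    (Pi.single 2 1 : Fin 3 → k) 2 • (1 - mo 0 2) : R k) = _
  simp

private theorem RelG_f0 : fA k (Pi.single 0 1) = 1 := by
  show ((Pi.single 0 1 : Fin 3 → k) 0 • 1 + (Pi.single 0 1 : Fin 3 → k) 1 • T1 +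
    (Pi.single 0 1 : Fin 3 → k) 2 • T1 ^ 2 : R k) = _
  simp

private theorem RelG_f1 : fA k (Pi.single 1 1) = T1 := by
  show ((Pi.single 1 1 : Fin 3 → k) 0 • 1 + (Pi.single 1 1 : Fin 3 → k) 1 • T1 +
    (Pi.single 1 1 : Fin 3 → k) 2 • T1 ^ 2 : R k) = _
  simp

private theorem RelG_f2 : fA k (Pi.single 2 1) = T1 ^ 2 := by
  show ((Pi.single 2 1 : Fin 3 → k) 0 • 1 + (Pi.single 2 1 : Fin 3 → k) 1 • T1 +
    (Pi.single 2 1 : Fin 3 → k) 2 • T1 ^ 2 : R k) = _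
  simp

private theorem RelG_F (φ : R k) :
    Fo (RelG_to (Pi.single 0 1)) (RelG_be φ) = RelG_be (φ * mo 0 (-2)) := by
  unfold Fo
  rw [RelG_bt, RelG_add, RelG_g0, mul_sub, mul_one, add_sub_cancel]

private theorem RelG_E (φ : R k) :
    Eo (RelG_to (Pi.single 2 1)) (RelG_be φ) = RelG_be (φ * mo 0 2) := by
  unfold Eo
  rw [RelG_bt, RelG_sub, RelG_g2, mul_sub, mul_one, sub_sub_cancel]

private theorem RelG_vb (i : Fin 5) : ∃ φ : R k, RelG_v (RelG_to (Pi.single 0 1))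
    (RelG_to (Pi.single 2 1)) (RelG_be 1) (RelG_be (mo 0 1)) i = RelG_be φ := by
  fin_cases i
  · exact ⟨_, RelG_F 1⟩
  · exact ⟨_, RelG_F (mo 0 1)⟩
  · exact ⟨1, rfl⟩
  · exact ⟨mo 0 1, rfl⟩
  · exact ⟨_, RelG_E 1⟩

end

theorem tRelG : S_RelG.{u} := by
  intro k _ j
  have p : ∀ i, Phi k (FreeLieAlgebra.of k i) = gens k i := fun i =>
    FreeLieAlgebra.lift_of_apply (gens k) i
  have p0 : Phi k (FreeLieAlgebra.of k 0) = RelG_to (Pi.single 0 1) := p 0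
  have p1 : Phi k (FreeLieAlgebra.of k 1) = RelG_to (Pi.single 1 1) := p 1
  have p2 : Phi k (FreeLieAlgebra.of k 2) = RelG_to (Pi.single 2 1) := p 2
  have p3 : Phi k (FreeLieAlgebra.of k 3) = RelG_al 1 := p 3
  have p4 : Phi k (FreeLieAlgebra.of k 4) = RelG_be 1 := p 4
  have p5 : Phi k (FreeLieAlgebra.of k 5) = RelG_be (mo 0 1) := p 5
  have hc : ∀ (v : FreeLieAlgebra k (Fin 6)) (c : R k), Phi k v = ⟨0, 0, 0, c⟩ → c ∈ JJ k j →
      qMk (kerJ k j) v = 0 := by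
    intro v c hv hcj
    rw [qMk_eq_zero, mem_kerJ, hv]
    exact ⟨rfl, rfl, rfl, hcj⟩
  refine RelG_main (Phi k) (qMk (kerJ k j)) ?_ _ _ _ _ _ _ ?_ ?_ ?_ ?_ ?_ ?_ ?_ ?_ ?_ ?_ ?_ ?_ ?_
  · intro v hv
    exact hc v 0 hv (Submodule.zero_mem _)
  · rw [p0, p1, RelG_tt]
  · rw [p0, p2, RelG_tt]
  · rw [p1, p2, RelG_tt]
  · rw [p3, p0, RelG_at, RelG_f0, mul_one]
  · rw [p3, p2, p1, RelG_at, RelG_at, RelG_at, RelG_f2, RelG_f1, one_mul, one_mul, sq]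
  · rw [p2, p0, p4, RelG_F, RelG_E, one_mul, mo_mul]
    rfl
  · rw [p2, p0, p5, RelG_F, RelG_E, mo_mul, mo_mul]
    rfl
  · rw [p4, p1, p0, p5, RelG_bt, RelG_F, RelG_sub, RelG_g1, one_mul, mo_mul]
    rfl
  · rw [p5, p1, p4, p2, RelG_bt, RelG_E, RelG_sub, RelG_g1, one_mul, mul_sub, mo_mul, mo_mul]
    rfl
  · rw [p3, p1, RelG_at, RelG_aa]
  · intro i i'
    rw [p0, p2, p4, p5]
    obtain ⟨φ, hφ⟩ := RelG_vb (k := k) i
    obtain ⟨ψ, hψ⟩ := RelG_vb (k := k) i'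
    rw [hφ, hψ, RelG_bb]
  · refine hc _ (1 * 1) ?_ ?_
    · rw [LieHom.map_lie, p3, p4, RelG_ab]
    · rw [mul_one, ← mo_zero, mo_mem_JJ]
      left
      simp
  · refine hc _ (1 * (mo 0 1 * mo 0 (-2))) ?_ ?_
    · rw [LieHom.map_lie, RelG_Fo, p3, p0, p5, RelG_F, RelG_ab]
    · rw [one_mul, mo_mul, mo_mem_JJ]
      left
      norm_num

end Pool.Agent.Lib.MP_240c17_al.Q2
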