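import Pool.Agent.Lib.MP_240c17_al.Q2.Spec

/-!
# Linear maps with prescribed values on the basis `T₁^i w^l`
-/

set_option autoImplicit false

namespace Pool.Agent.Lib.MP_240c17_al.Q2

universe u

open Pool.Agent.Lib.MP_240c17_al

/-- the unit `w` -/
noncomputable def Sex_W (k : Type u) [Field k] : (R k)ˣ where
  val := mo 0 1
  inv := mo 0 (-1)
  val_inv := by
    rw [mo_mul]
    exact mo_zero
  inv_val := by
    rw [mo_mul]
    exact mo_zero

theorem Sex_zpow (k : Type u) [Field k] (l : ℤ) : ((Sex_W k ^ l : (R k)ˣ) : R k) = mo 0 l := by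
  obtain ⟨n, rfl | rfl⟩ := l.eq_nat_or_neg
  · rw [zpow_natCast, Units.val_pow_eq_pow_val]
    show (mo 0 1 : R k) ^ n = _
    rw [mo_pow]
    simp
  · rw [zpow_neg, zpow_natCast, ← inv_pow, Units.val_pow_eq_pow_val]
    show (mo 0 (-1) : R k) ^ n = _
    rw [mo_pow]
    simp

theorem tSex : S_Sex.{u} := by
  intro k _ M _ _
  constructor
  · intro F
    let τ : R k →ₐ[k] R k := algOf (mo 1 0 - mo 0 1) (Sex_W k)
    refine ⟨(linOf F).comp τ.toLinearMap, fun i l => ?_⟩
    show linOf F (τ (T1 ^ i * mo 0 l)) = F i l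
    have h1 : ∀ l, τ (mo 0 l) = mo 0 l := by
      intro l
      rw [algOf_mo, pow_zero, one_mul, Sex_zpow]
    have h2 : τ T1 = mo 1 0 := by
      rw [T1, map_add, h1, algOf_mo, pow_one, zpow_zero, Units.val_one, mul_one, sub_add_cancel]
    rw [map_mul, map_pow, h1, h2, ← mo_split, linOf_mo]
  · intro f g h
    have key : ∀ i j l, f (T1 ^ j * mo i l) = g (T1 ^ j * mo i l) := by
      intro i
      induction i with
      | zero => intro j l; exact h j l
      | succ i ih =>
        intro j l
        have e : (T1 : R k) ^ j * mo (i + 1) l = T1 ^ (j + 1) * mo i l - T1 ^ j * mo i (l + 1) := by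
          have e1 : (mo (i + 1) l : R k) = mo 1 0 * mo i l := by
            rw [mo_mul, zero_add, add_comm 1 i]
          have e2 : (mo i (l + 1) : R k) = mo 0 1 * mo i l := by
            rw [mo_mul, zero_add, add_comm 1 l]
          rw [e1, e2, pow_succ, T1]
          ring
        rw [e, map_sub, map_sub, ih, ih]
    refine lin_ext fun i l => ?_
    have := key i 0 l
    rwa [pow_zero, one_mul] at this

end Pool.Agent.Lib.MP_240c17_al.Q2
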