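import Pool.Agent.Lib.MP_240c17_al.Q2.Spec

/-!
# MP_240c17, project Q2: the pairs `(θ v, Phi v)`
-/

set_option autoImplicit false

namespace Pool.Agent.Lib.MP_240c17_al.Q2

universe u

open Pool.Agent.Lib.MP_240c17_al

section
variable {k : Type u} [Field k] {Q : Type u} [LieRing Q]

/-- componentwise bracket -/
private noncomputable def pb (p q : Q × HH k) : Q × HH k := (⁅p.1, q.1⁆, ⁅p.2, q.2⁆)

private theorem pb_add_left (p p' q : Q × HH k) : pb (p + p') q = pb p q + pb p' q := by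
  refine Prod.ext ?_ ?_
  · exact add_lie _ _ _
  · exact add_lie _ _ _

private theorem pb_add_right (p q q' : Q × HH k) : pb p (q + q') = pb p q + pb p q' := by
  refine Prod.ext ?_ ?_
  · exact lie_add _ _ _
  · exact lie_add _ _ _

private theorem pb_smul_left [LieAlgebra k Q] (c : k) (p q : Q × HH k) : pb (c • p) q = c • pb p q := by
  refine Prod.ext ?_ ?_
  · exact smul_lie _ _ _
  · exact smul_lie _ _ _

private theorem pb_smul_right [LieAlgebra k Q] (c : k) (p q : Q × HH k) : pb p (c • q) = c • pb p q := by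
  refine Prod.ext ?_ ?_
  · exact lie_smul _ _ _
  · exact lie_smul _ _ _

private theorem pb_zero_left (q : Q × HH k) : pb 0 q = 0 := by
  refine Prod.ext ?_ ?_
  · exact zero_lie _
  · exact zero_lie _

private theorem pb_zero_right (p : Q × HH k) : pb p 0 = 0 := by
  refine Prod.ext ?_ ?_
  · exact lie_zero _
  · exact lie_zero _

private theorem pb_skew (p q : Q × HH k) : pb q p = -pb p q := by
  refine Prod.ext ?_ ?_
  · exact (lie_skew _ _).symm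
  · exact (lie_skew _ _).symm

/-- a set whose brackets lie in its span spans a subalgebra -/
private theorem pb_span [LieAlgebra k Q] {G : Set (Q × HH k)}
    (h : ∀ p ∈ G, ∀ q ∈ G, pb p q ∈ Submodule.span k G) :
    ∀ p ∈ Submodule.span k G, ∀ q ∈ Submodule.span k G, pb p q ∈ Submodule.span k G := by
  intro p hp q hq
  induction hp using Submodule.span_induction with
  | mem x hx =>
    induction hq using Submodule.span_induction with
    | mem y hy => exact h x hx y hy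
    | zero =>
      rw [pb_zero_right]
      exact Submodule.zero_mem _
    | add y y' _ _ h1 h2 =>
      rw [pb_add_right]
      exact Submodule.add_mem _ h1 h2
    | smul c y _ h1 =>
      rw [pb_smul_right]
      exact Submodule.smul_mem _ _ h1
  | zero =>
    rw [pb_zero_left]
    exact Submodule.zero_mem _
  | add x x' _ _ h1 h2 =>
    rw [pb_add_left]
    exact Submodule.add_mem _ h1 h2
  | smul c x _ h1 =>
    rw [pb_smul_left]
    exact Submodule.smul_mem _ _ h1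

private theorem fA0 : fA k (Pi.single 0 1) = 1 := by
  show (Pi.single (M := fun _ : Fin 3 => k) 0 1 : Fin 3 → k) 0 • (1 : R k) + (Pi.single 0 1 : Fin 3 → k) 1 • T1 +
    (Pi.single 0 1 : Fin 3 → k) 2 • T1 ^ 2 = 1
  simp

private theorem fA1 : fA k (Pi.single 1 1) = T1 := by
  show (Pi.single (M := fun _ : Fin 3 => k) 1 1 : Fin 3 → k) 0 • (1 : R k) + (Pi.single 1 1 : Fin 3 → k) 1 • T1 +
    (Pi.single 1 1 : Fin 3 → k) 2 • T1 ^ 2 = T1
  simp

private theorem fA2 : fA k (Pi.single 2 1) = T1 ^ 2 := by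
  show (Pi.single (M := fun _ : Fin 3 => k) 2 1 : Fin 3 → k) 0 • (1 : R k) + (Pi.single 2 1 : Fin 3 → k) 1 • T1 +
    (Pi.single 2 1 : Fin 3 → k) 2 • T1 ^ 2 = T1 ^ 2
  simp

private theorem gB0 : gB k (Pi.single 0 1) = mo 0 (-2) - 1 := by
  show (Pi.single (M := fun _ : Fin 3 => k) 0 1 : Fin 3 → k) 0 • (mo 0 (-2) - 1 : R k) +
    (Pi.single 0 1 : Fin 3 → k) 1 • (mo 0 (-1) - mo 0 1) +
    (Pi.single 0 1 : Fin 3 → k) 2 • (1 - mo 0 2) = mo 0 (-2) - 1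
  simp

private theorem gB1 : gB k (Pi.single 1 1) = mo 0 (-1) - mo 0 1 := by
  show (Pi.single (M := fun _ : Fin 3 => k) 1 1 : Fin 3 → k) 0 • (mo 0 (-2) - 1 : R k) +
    (Pi.single 1 1 : Fin 3 → k) 1 • (mo 0 (-1) - mo 0 1) +
    (Pi.single 1 1 : Fin 3 → k) 2 • (1 - mo 0 2) = mo 0 (-1) - mo 0 1
  simp

private theorem gB2 : gB k (Pi.single 2 1) = 1 - mo 0 2 := by
  show (Pi.single (M := fun _ : Fin 3 => k) 2 1 : Fin 3 → k) 0 • (mo 0 (-2) - 1 : R k) +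
    (Pi.single 2 1 : Fin 3 → k) 1 • (mo 0 (-1) - mo 0 1) +
    (Pi.single 2 1 : Fin 3 → k) 2 • (1 - mo 0 2) = 1 - mo 0 2
  simp

private theorem mo0_mul (l m : ℤ) : (mo 0 l : R k) * mo 0 m = mo 0 (l + m) := by
  rw [mo_mul]

end

theorem tSpan : S_Sex.{u} → S_Span.{u} := by
  intro _ k _ Q _ _ z x1 x2 A B hF hAA hBB hCA hCB θ h0 h1 h2 h3 h4 h5 v
  set G : Set (Q × HH k) := ({(z, ⟨Pi.single 0 1, 0, 0, 0⟩), (x1, ⟨Pi.single 1 1, 0, 0, 0⟩),
            (x2, ⟨Pi.single 2 1, 0, 0, 0⟩)} : Set (Q × HH k)) ∪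
            (Set.range fun i : ℕ => (A i, (⟨0, T1 ^ i, 0, 0⟩ : HH k))) ∪
            (Set.range fun l : ℤ => (B l, (⟨0, 0, mo 0 l, 0⟩ : HH k))) ∪
            Set.range fun p : ℕ × ℤ => (⁅A p.1, B p.2⁆, (⟨0, 0, 0, T1 ^ p.1 * mo 0 p.2⟩ : HH k))
            with hG
  -- the generators
  have mz : ((z, ⟨Pi.single 0 1, 0, 0, 0⟩) : Q × HH k) ∈ Submodule.span k G :=
    Submodule.subset_span (Or.inl (Or.inl (Or.inl (Or.inl rfl))))
  have mx1 : ((x1, ⟨Pi.single 1 1, 0, 0, 0⟩) : Q × HH k) ∈ Submodule.span k G :=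
    Submodule.subset_span (Or.inl (Or.inl (Or.inl (Or.inr (Or.inl rfl)))))
  have mx2 : ((x2, ⟨Pi.single 2 1, 0, 0, 0⟩) : Q × HH k) ∈ Submodule.span k G :=
    Submodule.subset_span (Or.inl (Or.inl (Or.inl (Or.inr (Or.inr rfl)))))
  have mA : ∀ i : ℕ, ((A i, ⟨0, T1 ^ i, 0, 0⟩) : Q × HH k) ∈ Submodule.span k G := fun i =>
    Submodule.subset_span (Or.inl (Or.inl (Or.inr ⟨i, rfl⟩)))
  have mB : ∀ l : ℤ, ((B l, ⟨0, 0, mo 0 l, 0⟩) : Q × HH k) ∈ Submodule.span k G := fun l =>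
    Submodule.subset_span (Or.inl (Or.inr ⟨l, rfl⟩))
  have mC : ∀ (i : ℕ) (l : ℤ), ((⁅A i, B l⁆, ⟨0, 0, 0, T1 ^ i * mo 0 l⟩) : Q × HH k) ∈
      Submodule.span k G := fun i l => Submodule.subset_span (Or.inr ⟨(i, l), rfl⟩)
  have m0 : ∀ p : Q × HH k, p = 0 → p ∈ Submodule.span k G := by
    rintro p rfl
    exact Submodule.zero_mem _
  -- brackets with the torus
  have hAt : ∀ i : ℕ, ∀ t ∈ ({(z, ⟨Pi.single 0 1, 0, 0, 0⟩), (x1, ⟨Pi.single 1 1, 0, 0, 0⟩),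
            (x2, ⟨Pi.single 2 1, 0, 0, 0⟩)} : Set (Q × HH k)),
      pb ((A i, ⟨0, T1 ^ i, 0, 0⟩) : Q × HH k) t ∈ Submodule.span k G := by
    rintro i t (rfl | rfl | rfl)
    · have e : pb ((A i, ⟨0, T1 ^ i, 0, 0⟩) : Q × HH k) (z, ⟨Pi.single 0 1, 0, 0, 0⟩) =
          (A i, ⟨0, T1 ^ i, 0, 0⟩) := by
        refine Prod.ext (hF.Az i) ?_
        refine HL.ext rfl ?_ ?_ ?_
        · show T1 ^ i * fA k (Pi.single 0 1) - 0 * fA k 0 = T1 ^ i
          rw [fA0]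
          ring
        · show 0 * gB k (Pi.single 0 1) - 0 * gB k 0 = 0
          ring
        · show T1 ^ i * 0 - 0 * 0 + (0 * (fA k (Pi.single 0 1) + gB k (Pi.single 0 1)) -
            0 * (fA k 0 + gB k 0)) = 0
          ring
      rw [e]
      exact mA i
    · have e : pb ((A i, ⟨0, T1 ^ i, 0, 0⟩) : Q × HH k) (x1, ⟨Pi.single 1 1, 0, 0, 0⟩) =
          (A (i + 1), ⟨0, T1 ^ (i + 1), 0, 0⟩) := by
        refine Prod.ext (hF.Ax1 i) ?_
        refine HL.ext rfl ?_ ?_ ?_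
        · show T1 ^ i * fA k (Pi.single 1 1) - 0 * fA k 0 = T1 ^ (i + 1)
          rw [fA1]
          ring
        · show 0 * gB k (Pi.single 1 1) - 0 * gB k 0 = 0
          ring
        · show T1 ^ i * 0 - 0 * 0 + (0 * (fA k (Pi.single 1 1) + gB k (Pi.single 1 1)) -
            0 * (fA k 0 + gB k 0)) = 0
          ring
      rw [e]
      exact mA _
    · have e : pb ((A i, ⟨0, T1 ^ i, 0, 0⟩) : Q × HH k) (x2, ⟨Pi.single 2 1, 0, 0, 0⟩) =
          (A (i + 2), ⟨0, T1 ^ (i + 2), 0, 0⟩) := by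
        refine Prod.ext (hF.Ax2 i) ?_
        refine HL.ext rfl ?_ ?_ ?_
        · show T1 ^ i * fA k (Pi.single 2 1) - 0 * fA k 0 = T1 ^ (i + 2)
          rw [fA2]
          ring
        · show 0 * gB k (Pi.single 2 1) - 0 * gB k 0 = 0
          ring
        · show T1 ^ i * 0 - 0 * 0 + (0 * (fA k (Pi.single 2 1) + gB k (Pi.single 2 1)) -
            0 * (fA k 0 + gB k 0)) = 0
          ring
      rw [e]
      exact mA _
  have hBt : ∀ l : ℤ, ∀ t ∈ ({(z, ⟨Pi.single 0 1, 0, 0, 0⟩), (x1, ⟨Pi.single 1 1, 0, 0, 0⟩),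
            (x2, ⟨Pi.single 2 1, 0, 0, 0⟩)} : Set (Q × HH k)),
      pb ((B l, ⟨0, 0, mo 0 l, 0⟩) : Q × HH k) t ∈ Submodule.span k G := by
    rintro l t (rfl | rfl | rfl)
    · have e : pb ((B l, ⟨0, 0, mo 0 l, 0⟩) : Q × HH k) (z, ⟨Pi.single 0 1, 0, 0, 0⟩) =
          (B (l - 2), ⟨0, 0, mo 0 (l - 2), 0⟩) - (B l, ⟨0, 0, mo 0 l, 0⟩) := by
        refine Prod.ext (hF.Bz l) ?_
        refine HL.ext ?_ ?_ ?_ ?_
        · show (0 : Fin 3 → k) = 0 - 0
          rw [sub_zero]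
        · show 0 * fA k (Pi.single 0 1) - 0 * fA k 0 = 0 - 0
          ring
        · show mo 0 l * gB k (Pi.single 0 1) - 0 * gB k 0 = mo 0 (l - 2) - mo 0 l
          rw [gB0, mul_sub, mo0_mul, zero_mul, sub_zero, mul_one]
          rfl
        · show 0 * 0 - 0 * mo 0 l + (0 * (fA k (Pi.single 0 1) + gB k (Pi.single 0 1)) -
            0 * (fA k 0 + gB k 0)) = 0 - 0
          ring
      rw [e]
      exact Submodule.sub_mem _ (mB _) (mB _)
    · have e : pb ((B l, ⟨0, 0, mo 0 l, 0⟩) : Q × HH k) (x1, ⟨Pi.single 1 1, 0, 0, 0⟩) =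
          (B (l - 1), ⟨0, 0, mo 0 (l - 1), 0⟩) - (B (l + 1), ⟨0, 0, mo 0 (l + 1), 0⟩) := by
        refine Prod.ext (hF.Bx1 l) ?_
        refine HL.ext ?_ ?_ ?_ ?_
        · show (0 : Fin 3 → k) = 0 - 0
          rw [sub_zero]
        · show 0 * fA k (Pi.single 1 1) - 0 * fA k 0 = 0 - 0
          ring
        · show mo 0 l * gB k (Pi.single 1 1) - 0 * gB k 0 = mo 0 (l - 1) - mo 0 (l + 1)
          rw [gB1, mul_sub, mo0_mul, mo0_mul, zero_mul, sub_zero]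
          rfl
        · show 0 * 0 - 0 * mo 0 l + (0 * (fA k (Pi.single 1 1) + gB k (Pi.single 1 1)) -
            0 * (fA k 0 + gB k 0)) = 0 - 0
          ring
      rw [e]
      exact Submodule.sub_mem _ (mB _) (mB _)
    · have e : pb ((B l, ⟨0, 0, mo 0 l, 0⟩) : Q × HH k) (x2, ⟨Pi.single 2 1, 0, 0, 0⟩) =
          (B l, ⟨0, 0, mo 0 l, 0⟩) - (B (l + 2), ⟨0, 0, mo 0 (l + 2), 0⟩) := by
        refine Prod.ext (hF.Bx2 l) ?_
        refine HL.ext ?_ ?_ ?_ ?_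
        · show (0 : Fin 3 → k) = 0 - 0
          rw [sub_zero]
        · show 0 * fA k (Pi.single 2 1) - 0 * fA k 0 = 0 - 0
          ring
        · show mo 0 l * gB k (Pi.single 2 1) - 0 * gB k 0 = mo 0 l - mo 0 (l + 2)
          rw [gB2, mul_sub, mo0_mul, zero_mul, sub_zero, mul_one]
        · show 0 * 0 - 0 * mo 0 l + (0 * (fA k (Pi.single 2 1) + gB k (Pi.single 2 1)) -
            0 * (fA k 0 + gB k 0)) = 0 - 0
          ring
      rw [e]
      exact Submodule.sub_mem _ (mB _) (mB _)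
  have hjac : ∀ a b y : Q, ⁅⁅a, b⁆, y⁆ = ⁅⁅a, y⁆, b⁆ + ⁅a, ⁅b, y⁆⁆ := by
    intro a b y
    rw [lie_lie_right a b y]
    abel
  have hCt : ∀ (i : ℕ) (l : ℤ), ∀ t ∈ ({(z, ⟨Pi.single 0 1, 0, 0, 0⟩),
            (x1, ⟨Pi.single 1 1, 0, 0, 0⟩), (x2, ⟨Pi.single 2 1, 0, 0, 0⟩)} : Set (Q × HH k)),
      pb ((⁅A i, B l⁆, ⟨0, 0, 0, T1 ^ i * mo 0 l⟩) : Q × HH k) t ∈ Submodule.span k G := by
    rintro i l t (rfl | rfl | rfl)
    · have e : pb ((⁅A i, B l⁆, ⟨0, 0, 0, T1 ^ i * mo 0 l⟩) : Q × HH k)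
          (z, ⟨Pi.single 0 1, 0, 0, 0⟩) =
          (⁅A i, B (l - 2)⁆, ⟨0, 0, 0, T1 ^ i * mo 0 (l - 2)⟩) := by
        refine Prod.ext ?_ ?_
        · show ⁅⁅A i, B l⁆, z⁆ = ⁅A i, B (l - 2)⁆
          rw [hjac, hF.Az, hF.Bz, lie_sub]
          abel
        refine HL.ext rfl ?_ ?_ ?_
        · show 0 * fA k (Pi.single 0 1) - 0 * fA k 0 = 0
          ring
        · show 0 * gB k (Pi.single 0 1) - 0 * gB k 0 = 0
          ring
        · show 0 * 0 - 0 * 0 + (T1 ^ i * mo 0 l * (fA k (Pi.single 0 1) + gB k (Pi.single 0 1)) -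
            0 * (fA k 0 + gB k 0)) = T1 ^ i * mo 0 (l - 2)
          have e1 : (mo 0 (l - 2) : R k) = mo 0 l * mo 0 (-2) := by
            rw [mo0_mul]
            rfl
          rw [fA0, gB0, e1]
          ring
      rw [e]
      exact mC _ _
    · have e : pb ((⁅A i, B l⁆, ⟨0, 0, 0, T1 ^ i * mo 0 l⟩) : Q × HH k)
          (x1, ⟨Pi.single 1 1, 0, 0, 0⟩) =
          (⁅A (i + 1), B l⁆, ⟨0, 0, 0, T1 ^ (i + 1) * mo 0 l⟩) +
          ((⁅A i, B (l - 1)⁆, ⟨0, 0, 0, T1 ^ i * mo 0 (l - 1)⟩) -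
          (⁅A i, B (l + 1)⁆, ⟨0, 0, 0, T1 ^ i * mo 0 (l + 1)⟩)) := by
        refine Prod.ext ?_ ?_
        · show ⁅⁅A i, B l⁆, x1⁆ = ⁅A (i + 1), B l⁆ + (⁅A i, B (l - 1)⁆ - ⁅A i, B (l + 1)⁆)
          rw [hjac, hF.Ax1, hF.Bx1, lie_sub]
        refine HL.ext ?_ ?_ ?_ ?_
        · show (0 : Fin 3 → k) = 0 + (0 - 0)
          simp
        · show 0 * fA k (Pi.single 1 1) - 0 * fA k 0 = 0 + (0 - 0)
          ring
        · show 0 * gB k (Pi.single 1 1) - 0 * gB k 0 = 0 + (0 - 0)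
          ring
        · show 0 * 0 - 0 * 0 + (T1 ^ i * mo 0 l * (fA k (Pi.single 1 1) + gB k (Pi.single 1 1)) -
            0 * (fA k 0 + gB k 0)) = T1 ^ (i + 1) * mo 0 l + (T1 ^ i * mo 0 (l - 1) -
              T1 ^ i * mo 0 (l + 1))
          have e1 : (mo 0 (l - 1) : R k) = mo 0 l * mo 0 (-1) := by
            rw [mo0_mul]
            rfl
          rw [fA1, gB1, e1, ← mo0_mul l 1]
          ring
      rw [e]
      exact Submodule.add_mem _ (mC _ _) (Submodule.sub_mem _ (mC _ _) (mC _ _))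
    · have e : pb ((⁅A i, B l⁆, ⟨0, 0, 0, T1 ^ i * mo 0 l⟩) : Q × HH k)
          (x2, ⟨Pi.single 2 1, 0, 0, 0⟩) =
          (⁅A (i + 2), B l⁆, ⟨0, 0, 0, T1 ^ (i + 2) * mo 0 l⟩) +
          ((⁅A i, B l⁆, ⟨0, 0, 0, T1 ^ i * mo 0 l⟩) -
          (⁅A i, B (l + 2)⁆, ⟨0, 0, 0, T1 ^ i * mo 0 (l + 2)⟩)) := by
        refine Prod.ext ?_ ?_
        · show ⁅⁅A i, B l⁆, x2⁆ = ⁅A (i + 2), B l⁆ + (⁅A i, B l⁆ - ⁅A i, B (l + 2)⁆)
          rw [hjac, hF.Ax2, hF.Bx2, lie_sub]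
        refine HL.ext ?_ ?_ ?_ ?_
        · show (0 : Fin 3 → k) = 0 + (0 - 0)
          simp
        · show 0 * fA k (Pi.single 2 1) - 0 * fA k 0 = 0 + (0 - 0)
          ring
        · show 0 * gB k (Pi.single 2 1) - 0 * gB k 0 = 0 + (0 - 0)
          ring
        · show 0 * 0 - 0 * 0 + (T1 ^ i * mo 0 l * (fA k (Pi.single 2 1) + gB k (Pi.single 2 1)) -
            0 * (fA k 0 + gB k 0)) = T1 ^ (i + 2) * mo 0 l + (T1 ^ i * mo 0 l -
              T1 ^ i * mo 0 (l + 2))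
          rw [fA2, gB2, ← mo0_mul l 2]
          ring
      rw [e]
      exact Submodule.add_mem _ (mC _ _) (Submodule.sub_mem _ (mC _ _) (mC _ _))
  -- the torus is abelian
  have htt : ∀ s ∈ ({(z, ⟨Pi.single 0 1, 0, 0, 0⟩), (x1, ⟨Pi.single 1 1, 0, 0, 0⟩),
            (x2, ⟨Pi.single 2 1, 0, 0, 0⟩)} : Set (Q × HH k)),
      ∀ t ∈ ({(z, ⟨Pi.single 0 1, 0, 0, 0⟩), (x1, ⟨Pi.single 1 1, 0, 0, 0⟩),
            (x2, ⟨Pi.single 2 1, 0, 0, 0⟩)} : Set (Q × HH k)), pb s t = 0 := by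
    have hl : ∀ s t : Fin 3 → k, ⁅(⟨s, 0, 0, 0⟩ : HH k), (⟨t, 0, 0, 0⟩ : HH k)⁆ = 0 := by
      intro s t
      refine HL.ext rfl ?_ ?_ ?_
      · show 0 * fA k t - 0 * fA k s = 0
        ring
      · show 0 * gB k t - 0 * gB k s = 0
        ring
      · show 0 * 0 - 0 * 0 + (0 * (fA k t + gB k t) - 0 * (fA k s + gB k s)) = 0
        ring
    rintro s (rfl | rfl | rfl) t (rfl | rfl | rfl)
    · exact Prod.ext (lie_self _) (hl _ _)
    · exact Prod.ext hF.zx1 (hl _ _)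
    · exact Prod.ext hF.zx2 (hl _ _)
    · refine Prod.ext ?_ (hl _ _)
      show ⁅x1, z⁆ = 0
      rw [← lie_skew, hF.zx1, neg_zero]
    · exact Prod.ext (lie_self _) (hl _ _)
    · exact Prod.ext hF.x12 (hl _ _)
    · refine Prod.ext ?_ (hl _ _)
      show ⁅x2, z⁆ = 0
      rw [← lie_skew, hF.zx2, neg_zero]
    · refine Prod.ext ?_ (hl _ _)
      show ⁅x2, x1⁆ = 0
      rw [← lie_skew, hF.x12, neg_zero]
    · exact Prod.ext (lie_self _) (hl _ _)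
  -- elements without torus part
  have hN : ∀ a b c a' b' c' : R k, ⁅(⟨0, a, b, c⟩ : HH k), (⟨0, a', b', c'⟩ : HH k)⁆ =
      ⟨0, 0, 0, a * b' - a' * b⟩ := by
    intro a b c a' b' c'
    refine HL.ext rfl ?_ ?_ ?_
    · show a * fA k 0 - a' * fA k 0 = 0
      rw [map_zero]
      ring
    · show b * gB k 0 - b' * gB k 0 = 0
      rw [map_zero]
      ring
    · show a * b' - a' * b + (c * (fA k 0 + gB k 0) - c' * (fA k 0 + gB k 0)) = a * b' - a' * b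
      rw [map_zero, map_zero]
      ring
  have hG2 : ∀ p ∈ G, ∀ q ∈ G, pb p q ∈ Submodule.span k G := by
    rintro p (((hp | ⟨i, rfl⟩) | ⟨l, rfl⟩) | ⟨⟨i, l⟩, rfl⟩) q
      (((hq | ⟨j, rfl⟩) | ⟨m, rfl⟩) | ⟨⟨j, m⟩, rfl⟩)
    · exact m0 _ (htt p hp q hq)
    · rw [pb_skew]
      exact Submodule.neg_mem _ (hAt j p hp)
    · rw [pb_skew]
      exact Submodule.neg_mem _ (hBt m p hp)
    · rw [pb_skew]
      exact Submodule.neg_mem _ (hCt j m p hp)
    · exact hAt i q hq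
    · refine m0 _ (Prod.ext (hAA i j) ?_)
      show ⁅(⟨0, T1 ^ i, 0, 0⟩ : HH k), (⟨0, T1 ^ j, 0, 0⟩ : HH k)⁆ = 0
      rw [hN, mul_zero, mul_zero, sub_zero]
      rfl
    · have e : pb ((A i, ⟨0, T1 ^ i, 0, 0⟩) : Q × HH k) (B m, ⟨0, 0, mo 0 m, 0⟩) =
          (⁅A i, B m⁆, ⟨0, 0, 0, T1 ^ i * mo 0 m⟩) := by
        refine Prod.ext rfl ?_
        show ⁅(⟨0, T1 ^ i, 0, 0⟩ : HH k), (⟨0, 0, mo 0 m, 0⟩ : HH k)⁆ = _
        rw [hN, mul_zero, sub_zero]
      rw [e]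
      exact mC i m
    · refine m0 _ (Prod.ext ?_ ?_)
      · show ⁅A i, ⁅A j, B m⁆⁆ = 0
        rw [← lie_skew, hCA, neg_zero]
      · show ⁅(⟨0, T1 ^ i, 0, 0⟩ : HH k), (⟨0, 0, 0, T1 ^ j * mo 0 m⟩ : HH k)⁆ = 0
        rw [hN, mul_zero, mul_zero, sub_zero]
        rfl
    · exact hBt l q hq
    · have e : pb ((B l, ⟨0, 0, mo 0 l, 0⟩) : Q × HH k) (A j, ⟨0, T1 ^ j, 0, 0⟩) =
          -(⁅A j, B l⁆, ⟨0, 0, 0, T1 ^ j * mo 0 l⟩) := by
        rw [pb_skew]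
        congr 1
        refine Prod.ext rfl ?_
        show ⁅(⟨0, T1 ^ j, 0, 0⟩ : HH k), (⟨0, 0, mo 0 l, 0⟩ : HH k)⁆ = _
        rw [hN, mul_zero, sub_zero]
      rw [e]
      exact Submodule.neg_mem _ (mC j l)
    · refine m0 _ (Prod.ext (hBB l m) ?_)
      show ⁅(⟨0, 0, mo 0 l, 0⟩ : HH k), (⟨0, 0, mo 0 m, 0⟩ : HH k)⁆ = 0
      rw [hN, zero_mul, zero_mul, sub_zero]
      rfl
    · refine m0 _ (Prod.ext ?_ ?_)
      · show ⁅B l, ⁅A j, B m⁆⁆ = 0
        rw [← lie_skew, hCB, neg_zero]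
      · show ⁅(⟨0, 0, mo 0 l, 0⟩ : HH k), (⟨0, 0, 0, T1 ^ j * mo 0 m⟩ : HH k)⁆ = 0
        rw [hN, zero_mul, zero_mul, sub_zero]
        rfl
    · exact hCt i l q hq
    · refine m0 _ (Prod.ext (hCA i l j) ?_)
      show ⁅(⟨0, 0, 0, T1 ^ i * mo 0 l⟩ : HH k), (⟨0, T1 ^ j, 0, 0⟩ : HH k)⁆ = 0
      rw [hN, zero_mul, mul_zero, sub_zero]
      rfl
    · refine m0 _ (Prod.ext (hCB i l m) ?_)
      show ⁅(⟨0, 0, 0, T1 ^ i * mo 0 l⟩ : HH k), (⟨0, 0, mo 0 m, 0⟩ : HH k)⁆ = 0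
      rw [hN, zero_mul, zero_mul, sub_zero]
      rfl
    · refine m0 _ (Prod.ext ?_ ?_)
      · show ⁅⁅A i, B l⁆, ⁅A j, B m⁆⁆ = 0
        rw [leibniz_lie, hCA, hCB, zero_lie, lie_zero, add_zero]
      · show ⁅(⟨0, 0, 0, T1 ^ i * mo 0 l⟩ : HH k), (⟨0, 0, 0, T1 ^ j * mo 0 m⟩ : HH k)⁆ = 0
        rw [hN, zero_mul, sub_zero]
        rfl
  have hD := pb_span hG2
  -- the subalgebra
  let K : LieSubalgebra k (FreeLieAlgebra k (Fin 6)) :=
    { carrier := {v | (θ v, Phi k v) ∈ Submodule.span k G}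
      add_mem' := by
        intro a b ha hb
        show (θ (a + b), Phi k (a + b)) ∈ Submodule.span k G
        rw [map_add, map_add]
        have ha' : (θ a, Phi k a) ∈ Submodule.span k G := ha
        have hb' : (θ b, Phi k b) ∈ Submodule.span k G := hb
        exact (Submodule.span k G).add_mem ha' hb'
      zero_mem' := by
        show (θ 0, Phi k 0) ∈ Submodule.span k G
        rw [map_zero, map_zero]
        exact Submodule.zero_mem _
      smul_mem' := by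
        intro c a ha
        show (θ (c • a), Phi k (c • a)) ∈ Submodule.span k G
        rw [map_smul, map_smul]
        have ha' : (θ a, Phi k a) ∈ Submodule.span k G := ha
        exact (Submodule.span k G).smul_mem c ha'
      lie_mem' := by
        intro a b ha hb
        show (θ ⁅a, b⁆, Phi k ⁅a, b⁆) ∈ Submodule.span k G
        rw [LieHom.map_lie, LieHom.map_lie]
        exact hD _ ha _ hb }
  have hgen : ∀ i : Fin 6, FreeLieAlgebra.of k i ∈ K := by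
    have hPhi : ∀ i : Fin 6, Phi k (FreeLieAlgebra.of k i) = gens k i := by
      intro i
      rw [Phi, FreeLieAlgebra.lift_of_apply]
    intro i
    show (θ (FreeLieAlgebra.of k i), Phi k (FreeLieAlgebra.of k i)) ∈ Submodule.span k G
    rw [hPhi]
    fin_cases i
    · show (θ (FreeLieAlgebra.of k 0), (⟨Pi.single 0 1, 0, 0, 0⟩ : HH k)) ∈ Submodule.span k G
      rw [h0]
      exact mz
    · show (θ (FreeLieAlgebra.of k 1), (⟨Pi.single 1 1, 0, 0, 0⟩ : HH k)) ∈ Submodule.span k G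
      rw [h1]
      exact mx1
    · show (θ (FreeLieAlgebra.of k 2), (⟨Pi.single 2 1, 0, 0, 0⟩ : HH k)) ∈ Submodule.span k G
      rw [h2]
      exact mx2
    · show (θ (FreeLieAlgebra.of k 3), (⟨0, 1, 0, 0⟩ : HH k)) ∈ Submodule.span k G
      rw [h3]
      have := mA 0
      rw [pow_zero] at this
      exact this
    · show (θ (FreeLieAlgebra.of k 4), (⟨0, 0, 1, 0⟩ : HH k)) ∈ Submodule.span k G
      rw [h4]
      exact mB 0
    · show (θ (FreeLieAlgebra.of k 5), (⟨0, 0, mo 0 1, 0⟩ : HH k)) ∈ Submodule.span k G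
      rw [h5]
      exact mB 1
  have hid : FreeLieAlgebra.lift k (FreeLieAlgebra.of k) v = v := by
    have h : FreeLieAlgebra.lift k (FreeLieAlgebra.of k : Fin 6 → FreeLieAlgebra k (Fin 6)) =
        (LieHom.id : FreeLieAlgebra k (Fin 6) →ₗ⁅k⁆ FreeLieAlgebra k (Fin 6)) := by
      apply FreeLieAlgebra.hom_ext
      intro x
      rw [FreeLieAlgebra.lift_of_apply]
      rfl
    rw [h]
    rfl
  have hv := lift_mem K (FreeLieAlgebra.of k) hgen v
  rw [hid] at hv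
  exact hv

end Pool.Agent.Lib.MP_240c17_al.Q2
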