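import Pool.Agent.Lib.MP_240c17_al.Q2.Spec

/-!
# MP_240c17, project Q2, module `Sur`: the words give all elements of the `c`-component
-/

set_option autoImplicit false

namespace Pool.Agent.Lib.MP_240c17_al.Q2

universe u

open Pool.Agent.Lib.MP_240c17_al

section

variable {k : Type u} [Field k]

private theorem Sur_gen (i : Fin 6) : Phi k (FreeLieAlgebra.of k i) = gens k i :=
  FreeLieAlgebra.lift_of_apply (gens k) i

private theorem Sur_f1 : fA k (Pi.single 1 1) = T1 := by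
  show (Pi.single 1 1 : Fin 3 → k) 0 • (1 : R k) + (Pi.single 1 1 : Fin 3 → k) 1 • T1 +
    (Pi.single 1 1 : Fin 3 → k) 2 • T1 ^ 2 = T1
  simp

private theorem Sur_g0 : gB k (Pi.single 0 1) = mo 0 (-2) - 1 := by
  show (Pi.single 0 1 : Fin 3 → k) 0 • (mo 0 (-2) - 1 : R k) +
    (Pi.single 0 1 : Fin 3 → k) 1 • (mo 0 (-1) - mo 0 1) +
    (Pi.single 0 1 : Fin 3 → k) 2 • (1 - mo 0 2) = _
  simp

private theorem Sur_g2 : gB k (Pi.single 2 1) = 1 - mo 0 2 := by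
  show (Pi.single 2 1 : Fin 3 → k) 0 • (mo 0 (-2) - 1 : R k) +
    (Pi.single 2 1 : Fin 3 → k) 1 • (mo 0 (-1) - mo 0 1) +
    (Pi.single 2 1 : Fin 3 → k) 2 • (1 - mo 0 2) = _
  simp

private theorem Sur_a (i : ℕ) : ∃ v, Phi k v = ⟨0, T1 ^ i, 0, 0⟩ := by
  induction i with
  | zero =>
    refine ⟨FreeLieAlgebra.of k 3, ?_⟩
    rw [Sur_gen, pow_zero]
    rfl
  | succ i ih =>
    obtain ⟨v, hv⟩ := ih
    refine ⟨⁅v, FreeLieAlgebra.of k 1⁆, ?_⟩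
    have h1 : gens k 1 = ⟨Pi.single 1 1, 0, 0, 0⟩ := rfl
    rw [LieHom.map_lie, hv, Sur_gen, h1]
    ext1
    · rfl
    · rw [HL.lie_a, Sur_f1, zero_mul, sub_zero, pow_succ]
    · rw [HL.lie_b, zero_mul, zero_mul, sub_zero]
    · show T1 ^ i * 0 - 0 * 0 + (0 * (fA k (Pi.single 1 1) + gB k (Pi.single 1 1)) -
        0 * (fA k 0 + gB k 0)) = (0 : R k)
      ring

private theorem Sur_up {φ : R k} (h : ∃ v, Phi k v = ⟨0, 0, φ, 0⟩) :
    ∃ v, Phi k v = ⟨0, 0, φ * mo 0 2, 0⟩ := by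
  obtain ⟨v, hv⟩ := h
  refine ⟨v - ⁅v, FreeLieAlgebra.of k 2⁆, ?_⟩
  have h1 : gens k 2 = ⟨Pi.single 2 1, 0, 0, 0⟩ := rfl
  rw [map_sub, LieHom.map_lie, hv, Sur_gen, h1]
  ext1
  · rw [HL.sub_t, HL.lie_t, sub_zero]
  · rw [HL.sub_a, HL.lie_a, zero_mul, zero_mul, sub_zero, sub_zero]
  · rw [HL.sub_b, HL.lie_b, Sur_g2, zero_mul, sub_zero]
    ring
  · show 0 - (0 * 0 - 0 * φ + (0 * (fA k (Pi.single 2 1) + gB k (Pi.single 2 1)) -
      0 * (fA k 0 + gB k 0))) = (0 : R k)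
    ring

private theorem Sur_dn {φ : R k} (h : ∃ v, Phi k v = ⟨0, 0, φ, 0⟩) :
    ∃ v, Phi k v = ⟨0, 0, φ * mo 0 (-2), 0⟩ := by
  obtain ⟨v, hv⟩ := h
  refine ⟨v + ⁅v, FreeLieAlgebra.of k 0⁆, ?_⟩
  have h1 : gens k 0 = ⟨Pi.single 0 1, 0, 0, 0⟩ := rfl
  rw [map_add, LieHom.map_lie, hv, Sur_gen, h1]
  ext1
  · rw [HL.add_t, HL.lie_t, add_zero]
  · rw [HL.add_a, HL.lie_a, zero_mul, zero_mul, sub_zero, add_zero]
  · rw [HL.add_b, HL.lie_b, Sur_g0, zero_mul, sub_zero]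
    ring
  · show 0 + (0 * 0 - 0 * φ + (0 * (fA k (Pi.single 0 1) + gB k (Pi.single 0 1)) -
      0 * (fA k 0 + gB k 0))) = (0 : R k)
    ring

private theorem Sur_b2 (φ : R k) (h : ∃ v, Phi k v = ⟨0, 0, φ, 0⟩) (m : ℤ) :
    ∃ v, Phi k v = ⟨0, 0, φ * mo 0 (2 * m), 0⟩ := by
  induction m using Int.induction_on with
  | zero =>
    rw [mul_zero, mo_zero, mul_one]
    exact h
  | succ m ih =>
    have h1 := Sur_up ih
    rw [mul_assoc, mo_mul] at h1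
    have e : (2 * (m : ℤ) + 2) = 2 * ((m : ℤ) + 1) := by ring
    rw [e] at h1
    exact h1
  | pred m ih =>
    have h1 := Sur_dn ih
    rw [mul_assoc, mo_mul] at h1
    have e : (2 * (-(m : ℤ)) + -2) = 2 * (-(m : ℤ) - 1) := by ring
    rw [e] at h1
    exact h1

private theorem Sur_b (l : ℤ) : ∃ v, Phi k v = ⟨0, 0, mo 0 l, 0⟩ := by
  have h0 : ∃ v, Phi k v = ⟨0, 0, 1, 0⟩ := ⟨FreeLieAlgebra.of k 4, by rw [Sur_gen]; rfl⟩
  have h1 : ∃ v, Phi k v = ⟨0, 0, mo 0 1, 0⟩ := ⟨FreeLieAlgebra.of k 5, by rw [Sur_gen]; rfl⟩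
  obtain ⟨m, hm | hm⟩ : ∃ m : ℤ, l = 2 * m ∨ l = 2 * m + 1 := ⟨l / 2, by omega⟩
  · have h2 := Sur_b2 1 h0 m
    rw [one_mul, ← hm] at h2
    exact h2
  · have h2 := Sur_b2 (mo 0 1) h1 m
    rw [mo_mul] at h2
    have e : (1 + 2 * m : ℤ) = l := by omega
    rw [e] at h2
    exact h2

private theorem Sur_c (i : ℕ) (l : ℤ) : ∃ v, Phi k v = ⟨0, 0, 0, T1 ^ i * mo 0 l⟩ := by
  obtain ⟨v, hv⟩ := Sur_a (k := k) i
  obtain ⟨w, hw⟩ := Sur_b (k := k) l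
  refine ⟨⁅v, w⁆, ?_⟩
  rw [LieHom.map_lie, hv, hw]
  ext1
  · rfl
  · rw [HL.lie_a, map_zero, mul_zero, mul_zero, sub_zero]
  · rw [HL.lie_b, map_zero, mul_zero, mul_zero, sub_zero]
  · rw [HL.lie_c, map_zero, map_zero]
    ring

end

theorem tSur : S_Sex.{u} → S_Sur.{u} := by
  intro hS k _ c
  let P : Submodule k (R k) :=
    { carrier := {c | ∃ v, Phi k v = ⟨0, 0, 0, c⟩}
      add_mem' := by
        rintro a b ⟨v, hv⟩ ⟨w, hw⟩
        refine ⟨v + w, ?_⟩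
        rw [map_add, hv, hw]
        ext1
        · rw [HL.add_t, add_zero]
        · rw [HL.add_a, add_zero]
        · rw [HL.add_b, add_zero]
        · rfl
      zero_mem' := ⟨0, by rw [map_zero]; rfl⟩
      smul_mem' := by
        rintro r a ⟨v, hv⟩
        refine ⟨r • v, ?_⟩
        rw [map_smul, hv]
        ext1
        · rw [HL.smul_t, smul_zero]
        · rw [HL.smul_a, smul_zero]
        · rw [HL.smul_b, smul_zero]
        · rfl }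
  have h1 : P.mkQ = 0 := by
    refine (hS k (R k ⧸ P)).2 P.mkQ 0 fun i l => ?_
    rw [LinearMap.zero_apply, Submodule.mkQ_apply, Submodule.Quotient.mk_eq_zero]
    exact Sur_c i l
  have h2 : P.mkQ c = 0 := by rw [h1, LinearMap.zero_apply]
  rw [Submodule.mkQ_apply, Submodule.Quotient.mk_eq_zero] at h2
  exact h2

end Pool.Agent.Lib.MP_240c17_al.Q2
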