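import Pool.Agent.Lib.MP_240c17_al.Q2.Spec

set_option autoImplicit false

namespace Pool.Agent.Lib.MP_240c17_al.Q2

universe u

open Pool.Agent.Lib.MP_240c17_al

section
variable {k : Type u} [Field k]

private theorem Tr_X (i : Fin 4) : ev4 k (MvPolynomial.X i) =
    (![1, T1, mo 0 (-2) - 1, mo 0 (-1) - mo 0 1] : Fin 4 → R k) i :=
  MvPolynomial.aeval_X _ i

private theorem Tr_f (y : Fin 2 → k) : ev4 k (f4 k y) = fA k ![y 0, y 1, 0] := by
  have h1 : f4 k y = y 0 • MvPolynomial.X 0 + y 1 • MvPolynomial.X 1 := rfl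
  have h2 : fA k ![y 0, y 1, 0] = y 0 • (1 : R k) + y 1 • T1 + (0 : k) • T1 ^ 2 := rfl
  have x0 : ev4 k (MvPolynomial.X 0) = 1 := Tr_X 0
  have x1 : ev4 k (MvPolynomial.X 1) = T1 := Tr_X 1
  rw [h1, h2, zero_smul, add_zero, map_add (ev4 k), map_smul (ev4 k), map_smul (ev4 k), x0, x1]

private theorem Tr_g (y : Fin 2 → k) : ev4 k (g4 k y) = gB k ![y 0, y 1, 0] := by
  have h1 : g4 k y = y 0 • MvPolynomial.X 2 + y 1 • MvPolynomial.X 3 := rfl
  have h2 : gB k ![y 0, y 1, 0] = y 0 • (mo 0 (-2) - 1 : R k) + y 1 • (mo 0 (-1) - mo 0 1) +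
      (0 : k) • (1 - mo 0 2) := rfl
  have x0 : ev4 k (MvPolynomial.X 2) = mo 0 (-2) - 1 := Tr_X 2
  have x1 : ev4 k (MvPolynomial.X 3) = mo 0 (-1) - mo 0 1 := Tr_X 3
  rw [h1, h2, zero_smul, add_zero, map_add (ev4 k), map_smul (ev4 k), map_smul (ev4 k), x0, x1]

/-- the homomorphism `GG k → HH k` -/
private noncomputable def Tr_J (k : Type u) [Field k] : GG k →ₗ⁅k⁆ HH k where
  toFun p := ⟨![p.t 0, p.t 1, 0], ev4 k p.a, ev4 k p.b, ev4 k p.c⟩
  map_add' p q := by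
    refine HL.ext ?_ ?_ ?_ ?_
    · funext i
      fin_cases i
      · rfl
      · rfl
      · exact (add_zero (0 : k)).symm
    · exact map_add (ev4 k) p.a q.a
    · exact map_add (ev4 k) p.b q.b
    · exact map_add (ev4 k) p.c q.c
  map_smul' c p := by
    refine HL.ext ?_ ?_ ?_ ?_
    · funext i
      fin_cases i
      · rfl
      · rfl
      · exact (mul_zero c).symm
    · exact map_smul (ev4 k) c p.a
    · exact map_smul (ev4 k) c p.b
    · exact map_smul (ev4 k) c p.c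
  map_lie' {p q} := by
    refine HL.ext ?_ ?_ ?_ ?_
    · funext i
      fin_cases i
      · rfl
      · rfl
      · rfl
    · show ev4 k (p.a * f4 k q.t - q.a * f4 k p.t) =
        ev4 k p.a * fA k ![q.t 0, q.t 1, 0] - ev4 k q.a * fA k ![p.t 0, p.t 1, 0]
      rw [map_sub, map_mul, map_mul, Tr_f, Tr_f]
    · show ev4 k (p.b * g4 k q.t - q.b * g4 k p.t) =
        ev4 k p.b * gB k ![q.t 0, q.t 1, 0] - ev4 k q.b * gB k ![p.t 0, p.t 1, 0]
      rw [map_sub, map_mul, map_mul, Tr_g, Tr_g]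
    · show ev4 k (p.a * q.b - q.a * p.b +
          (p.c * (f4 k q.t + g4 k q.t) - q.c * (f4 k p.t + g4 k p.t))) =
        ev4 k p.a * ev4 k q.b - ev4 k q.a * ev4 k p.b +
          (ev4 k p.c * (fA k ![q.t 0, q.t 1, 0] + gB k ![q.t 0, q.t 1, 0]) -
            ev4 k q.c * (fA k ![p.t 0, p.t 1, 0] + gB k ![p.t 0, p.t 1, 0]))
      simp only [map_add, map_sub, map_mul, Tr_f, Tr_g]

/-- the homomorphism from 4 to 6 generators -/
private noncomputable def Tr_th (k : Type u) [Field k] :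
    FreeLieAlgebra k (Fin 4) →ₗ⁅k⁆ FreeLieAlgebra k (Fin 6) :=
  FreeLieAlgebra.lift k ![FreeLieAlgebra.of k 0, FreeLieAlgebra.of k 1, FreeLieAlgebra.of k 3,
    FreeLieAlgebra.of k 4]

private theorem Tr_comp : (Phi k).comp (Tr_th k) = (Tr_J k).comp (Psi k) := by
  refine FreeLieAlgebra.hom_ext (fun i => ?_)
  have p : ∀ i, Phi k (FreeLieAlgebra.of k i) = gens k i := fun i =>
    FreeLieAlgebra.lift_of_apply (gens k) i
  have s : ∀ i, Psi k (FreeLieAlgebra.of k i) = gens4 k i := fun i =>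
    FreeLieAlgebra.lift_of_apply (gens4 k) i
  have t : ∀ i, Tr_th k (FreeLieAlgebra.of k i) = (![FreeLieAlgebra.of k 0, FreeLieAlgebra.of k 1,
      FreeLieAlgebra.of k 3, FreeLieAlgebra.of k 4] : Fin 4 → FreeLieAlgebra k (Fin 6)) i := fun i =>
    FreeLieAlgebra.lift_of_apply _ i
  show Phi k (Tr_th k (FreeLieAlgebra.of k i)) = Tr_J k (Psi k (FreeLieAlgebra.of k i))
  rw [t, s]
  fin_cases i
  · show Phi k (FreeLieAlgebra.of k 0) = Tr_J k ⟨Pi.single 0 1, 0, 0, 0⟩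
    rw [p]
    refine HL.ext ?_ (map_zero (ev4 k)).symm (map_zero (ev4 k)).symm (map_zero (ev4 k)).symm
    funext i
    fin_cases i <;> rfl
  · show Phi k (FreeLieAlgebra.of k 1) = Tr_J k ⟨Pi.single 1 1, 0, 0, 0⟩
    rw [p]
    refine HL.ext ?_ (map_zero (ev4 k)).symm (map_zero (ev4 k)).symm (map_zero (ev4 k)).symm
    funext i
    fin_cases i <;> rfl
  · show Phi k (FreeLieAlgebra.of k 3) = Tr_J k ⟨0, 1, 0, 0⟩
    rw [p]
    refine HL.ext ?_ (map_one (ev4 k)).symm (map_zero (ev4 k)).symm (map_zero (ev4 k)).symm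
    funext i
    fin_cases i <;> rfl
  · show Phi k (FreeLieAlgebra.of k 4) = Tr_J k ⟨0, 0, 1, 0⟩
    rw [p]
    refine HL.ext ?_ (map_zero (ev4 k)).symm (map_one (ev4 k)).symm (map_zero (ev4 k)).symm
    funext i
    fin_cases i <;> rfl

end

theorem tTr : S_Ver.{u} → S_Tr.{u} := by
  intro hVer k _ Id q hq
  obtain ⟨v, hv, hq⟩ := hq
  refine ⟨Tr_th k v, hVer k Id 4 6 (Tr_th k) v hv, ?_⟩
  have h : Phi k (Tr_th k v) = Tr_J k (Psi k v) := LieHom.congr_fun Tr_comp v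
  rw [h, hq]
  refine HL.ext ?_ (map_zero (ev4 k)) (map_zero (ev4 k)) rfl
  funext i
  fin_cases i <;> rfl

end Pool.Agent.Lib.MP_240c17_al.Q2
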