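import Pool.Agent.Lib.MP_240c17_al.Q2.Spec

/-!
# MP_240c17, project Q2, module Van: values of identities on `H`
-/

set_option autoImplicit false

namespace Pool.Agent.Lib.MP_240c17_al.Q2

universe u

open Pool.Agent.Lib.MP_240c17_al

attribute [local instance 100] LieRing.ofAssociativeRing

section points

variable {k : Type u} [Field k]

private theorem Van_pow [Infinite k] {n : ℤ} (h : ∀ w : kˣ, w ^ n = 1) : n = 0 := by
  by_contra hn
  have hm : 0 < n.natAbs := Int.natAbs_pos.2 hn
  have h1 : ∀ w : kˣ, w ^ n.natAbs = 1 := by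
    intro w
    rcases Int.natAbs_eq n with e | e
    · have h2 := h w
      rw [e, zpow_natCast] at h2
      exact h2
    · have h2 := h w
      rw [e, zpow_neg, zpow_natCast, inv_eq_one] at h2
      exact h2
  have h2 : (Polynomial.X ^ n.natAbs - Polynomial.C 1 : Polynomial k) = 0 := by
    refine Polynomial.eq_zero_of_infinite_isRoot _ ?_
    refine Set.Infinite.mono ?_ ((Set.finite_singleton (0 : k)).infinite_compl)
    intro x hx
    have hx0 : x ≠ 0 := hx
    have h3 := congrArg (fun w : kˣ => (w : k)) (h1 (Units.mk0 x hx0))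
    simp only [Units.val_pow_eq_pow_val, Units.val_mk0, Units.val_one] at h3
    show Polynomial.eval x _ = 0
    rw [Polynomial.eval_sub, Polynomial.eval_pow, Polynomial.eval_X, Polynomial.eval_C, h3,
      sub_self]
  exact Polynomial.X_pow_sub_C_ne_zero hm 1 h2

/-- the characters `(b, w) ↦ b^i w^l` -/
private def Van_chi (k : Type u) [Field k] (p : ℕ × ℤ) : (k × kˣ) →* k where
  toFun g := g.1 ^ p.1 * ((g.2 ^ p.2 : kˣ) : k)
  map_one' := by simp
  map_mul' g h := by
    rw [Prod.fst_mul, Prod.snd_mul, mul_pow, mul_zpow, Units.val_mul]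
    ring

private theorem Van_chi_apply (p : ℕ × ℤ) (g : k × kˣ) :
    Van_chi k p g = g.1 ^ p.1 * ((g.2 ^ p.2 : kˣ) : k) := rfl

private theorem Van_chi_inj [Infinite k] : Function.Injective (Van_chi k) := by
  intro p q h
  have h1 : p.1 = q.1 := by
    have h2 : ((p.1 : ℤ) - q.1) = 0 := by
      refine Van_pow (k := k) fun w => ?_
      have h3 := congrArg (fun φ : (k × kˣ) →* k => φ ((w : k), 1)) h
      simp only [Van_chi_apply, one_zpow, Units.val_one, mul_one] at h3
      rw [zpow_sub, zpow_natCast, zpow_natCast]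
      have h4 : w ^ p.1 = w ^ q.1 := by
        apply Units.ext
        rw [Units.val_pow_eq_pow_val, Units.val_pow_eq_pow_val]
        exact h3
      rw [h4, mul_inv_cancel]
    omega
  have h5 : p.2 = q.2 := by
    have h2 : p.2 - q.2 = 0 := by
      refine Van_pow (k := k) fun w => ?_
      have h3 := congrArg (fun φ : (k × kˣ) →* k => φ (1, w)) h
      simp only [Van_chi_apply, one_pow, one_mul] at h3
      rw [zpow_sub, Units.ext h3, mul_inv_cancel]
    omega
  exact Prod.ext h1 h5

/-- an element which vanishes at all points is zero -/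
private theorem Van_zero [Infinite k] (φ : R k)
    (h : ∀ (b : k) (w : kˣ), algOf (k := k) b w φ = 0) : φ = 0 := by
  have hli : LinearIndependent k (fun p : ℕ × ℤ => (Van_chi k p : k × kˣ → k)) :=
    (linearIndependent_monoidHom (k × kˣ) k).comp _ Van_chi_inj
  have h1 : Finsupp.linearCombination k (fun p : ℕ × ℤ => (Van_chi k p : k × kˣ → k)) φ.coeff = 0 := by
    funext g
    rw [Pi.zero_apply, ← h g.1 g.2]
    have h2 : (LinearMap.proj g ∘ₗ
        Finsupp.linearCombination k (fun p : ℕ × ℤ => (Van_chi k p : k × kˣ → k))) ∘ₗ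
        (AddMonoidAlgebra.coeffLinearEquiv k).toLinearMap =
        (algOf (k := k) g.1 g.2).toLinearMap := by
      refine lin_ext fun i l => ?_
      rw [AlgHom.toLinearMap_apply, algOf_mo, LinearMap.comp_apply, LinearMap.comp_apply]
      show Finsupp.linearCombination k (fun p : ℕ × ℤ => (Van_chi k p : k × kˣ → k))
        (mo i l : R k).coeff g = _
      rw [mo, AddMonoidAlgebra.coeff_single, Finsupp.linearCombination_single, one_smul]
      rfl
    exact LinearMap.congr_fun h2 φ
  have h3 := linearIndependent_iff.1 hli _ h1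
  have e : φ = φ.coeff.sum AddMonoidAlgebra.single := (AddMonoidAlgebra.sum_coeff_single φ).symm
  rw [e, h3, Finsupp.sum_zero_index]

/-- an element which vanishes at all points with `u = 0` is divisible by `u` -/
private theorem Van_zero' [Infinite k] (c : R k)
    (h : ∀ w : kˣ, algOf (k := k) (0 : k) w c = 0) (p : ℕ × ℤ) (hp : c.coeff p ≠ 0) : 1 ≤ p.1 := by
  classical
  by_contra hlt
  have hp0 : p.1 = 0 := by omega
  -- the part of `c` without `u`
  set ψ : R k := ∑ q ∈ c.coeff.support with q.1 = 0, c.coeff q • mo q.1 q.2 with hψ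
  have h1 : ψ = 0 := by
    refine Van_zero ψ fun b w => ?_
    have h2 := h w
    have e : c = ∑ q ∈ c.coeff.support, c.coeff q • mo q.1 q.2 := by
      conv_lhs => rw [← AddMonoidAlgebra.sum_coeff_single c]
      rw [Finsupp.sum]
      exact Finset.sum_congr rfl fun q _ => single_eq _ _
    rw [e, map_sum] at h2
    rw [hψ, map_sum, ← h2, Finset.sum_filter]
    refine Finset.sum_congr rfl fun q _ => ?_
    rw [map_smul, algOf_mo]
    by_cases hq : q.1 = 0
    · rw [if_pos hq, map_smul, algOf_mo, hq, pow_zero, pow_zero]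
    · rw [if_neg hq, map_smul, algOf_mo, zero_pow hq, zero_mul, smul_zero]
  have h2 : ψ.coeff p = c.coeff p := by
    rw [hψ]
    have h3 : ∀ (s : Finset (ℕ × ℤ)) (f : ℕ × ℤ → R k), (∑ q ∈ s, f q).coeff p =
        ∑ q ∈ s, (f q).coeff p := by
      intro s f
      induction s using Finset.induction_on with
      | empty => rfl
      | insert a s ha ih =>
        rw [Finset.sum_insert ha, Finset.sum_insert ha, AddMonoidAlgebra.coeff_add,
          Finsupp.add_apply, ih]
    rw [h3]
    rw [Finset.sum_eq_single p]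
    · rw [AddMonoidAlgebra.coeff_smul, Finsupp.smul_apply, coeff_mo, if_pos rfl, smul_eq_mul,
        mul_one]
    · intro q _ hq
      rw [AddMonoidAlgebra.coeff_smul, Finsupp.smul_apply, coeff_mo, if_neg, smul_zero]
      rintro rfl
      exact hq rfl
    · intro hq
      exact absurd (Finset.mem_filter.2 ⟨Finsupp.mem_support_iff.2 hp, hp0⟩) hq
  rw [h1] at h2
  exact hp h2.symm

end points

section tri

variable {k : Type u} [Field k]

/-- the homomorphism to triangular matrices -/
private noncomputable def Van_hom (α β γ l : HH k →ₗ[k] k) (μ : k)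
    (h1 : ∀ p q : HH k, α ⁅p, q⁆ = α p * l q - α q * l p)
    (h2 : ∀ p q : HH k, β ⁅p, q⁆ = (μ - 1) * (β p * l q - β q * l p))
    (h3 : ∀ p q : HH k, γ ⁅p, q⁆ = α p * β q - α q * β p + μ * (γ p * l q - γ q * l p))
    (h4 : ∀ p q : HH k, l ⁅p, q⁆ = 0) : HH k →ₗ⁅k⁆ Matrix (Fin 3) (Fin 3) k where
  toFun p := !![0, α p, γ p; 0, l p, β p; 0, 0, μ * l p]
  map_add' p q := by
    ext i j
    fin_cases i <;> fin_cases j <;> simp [mul_add]
  map_smul' c p := by
    ext i j
    fin_cases i <;> fin_cases j <;> simp [mul_left_comm]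
  map_lie' {p q} := by
    ext i j
    fin_cases i <;> fin_cases j <;>
      simp [Ring.lie_def, Matrix.mul_apply, Fin.sum_univ_three, h1, h2, h3, h4] <;> ring

private theorem Van_kill [Infinite k] {Id : Set (FreeLieAlgebra k ℕ)} (hI : NoId Id)
    (χ : HH k →ₗ⁅k⁆ Matrix (Fin 3) (Fin 3) k) (μ : k) (hχ : ∀ p, IsTri μ (χ p))
    (v : FreeLieAlgebra k (Fin 6)) (hv : v ∈ verbalIdeal Id 6) : χ (Phi k v) = 0 := by
  have h1 : verbalIdeal Id 6 ≤ (χ.comp (Phi k)).ker := by
    rw [verbalIdeal, LieSubmodule.lieSpan_le]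
    rintro w ⟨g, hg, ρ, rfl⟩
    show FreeLieAlgebra.lift k ρ g ∈ (χ.comp (Phi k)).ker
    rw [LieHom.mem_ker, ← LieHom.comp_apply, ← FreeLieAlgebra.lift_comp_of
      ((χ.comp (Phi k)).comp (FreeLieAlgebra.lift k ρ))]
    exact tri_vanish hI hg μ _ fun n => hχ _
  exact (LieHom.mem_ker ..).1 (h1 hv)

private theorem Van_main [Infinite k] {Id : Set (FreeLieAlgebra k ℕ)} (hI : NoId Id)
    (α β γ l : HH k →ₗ[k] k) (μ : k)
    (h1 : ∀ p q : HH k, α ⁅p, q⁆ = α p * l q - α q * l p)
    (h2 : ∀ p q : HH k, β ⁅p, q⁆ = (μ - 1) * (β p * l q - β q * l p))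
    (h3 : ∀ p q : HH k, γ ⁅p, q⁆ = α p * β q - α q * β p + μ * (γ p * l q - γ q * l p))
    (h4 : ∀ p q : HH k, l ⁅p, q⁆ = 0)
    (v : FreeLieAlgebra k (Fin 6)) (hv : v ∈ verbalIdeal Id 6) :
    α (Phi k v) = 0 ∧ γ (Phi k v) = 0 ∧ l (Phi k v) = 0 := by
  have h5 := Van_kill hI (Van_hom α β γ l μ h1 h2 h3 h4) μ
    (fun p => ⟨rfl, rfl, rfl, rfl, rfl⟩) v hv
  refine ⟨?_, ?_, ?_⟩
  · exact congrFun (congrFun h5 0) 1
  · exact congrFun (congrFun h5 0) 2
  · exact congrFun (congrFun h5 1) 1

private noncomputable def Van_a (k : Type u) [Field k] : HH k →ₗ[k] R k where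
  toFun p := p.a
  map_add' _ _ := rfl
  map_smul' _ _ := rfl

private noncomputable def Van_b (k : Type u) [Field k] : HH k →ₗ[k] R k where
  toFun p := p.b
  map_add' _ _ := rfl
  map_smul' _ _ := rfl

private noncomputable def Van_c (k : Type u) [Field k] : HH k →ₗ[k] R k where
  toFun p := p.c
  map_add' _ _ := rfl
  map_smul' _ _ := rfl

private noncomputable def Van_t (k : Type u) [Field k] : HH k →ₗ[k] (Fin 3 → k) where
  toFun p := p.t
  map_add' _ _ := rfl
  map_smul' _ _ := rfl

private theorem Van_fA_inj {t : Fin 3 → k} (h : fA k t = 0) : t = 0 := by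
  have h1 : t 0 • (1 : R k) + t 1 • T1 + t 2 • T1 ^ 2 = 0 := h
  rw [T1_sq, T1, ← mo_zero] at h1
  have h2 : ∀ p : ℕ × ℤ, (t 0 • (mo 0 0 : R k) + t 1 • (mo 1 0 + mo 0 1) +
      t 2 • (mo 2 0 + (mo 1 1 + mo 1 1) + mo 0 2)).coeff p = 0 := by
    intro p
    rw [h1]
    rfl
  simp only [AddMonoidAlgebra.coeff_add, AddMonoidAlgebra.coeff_smul, Finsupp.add_apply,
    Finsupp.smul_apply, coeff_mo] at h2
  funext i
  fin_cases i
  · simpa using h2 (0, 0)
  · simpa using h2 (1, 0)
  · simpa using h2 (2, 0)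

end tri

theorem tVan : S_Van.{u} := by
  intro k _ _ Id hI v hv
  -- the first homomorphism
  have hA : ∀ (b : k) (w : kˣ), algOf (k := k) b w (Phi k v).a = 0 ∧
      algOf (k := k) b w (fA k (Phi k v).t) = 0 := by
    intro b w
    have h1 := Van_main hI ((algOf (k := k) b w).toLinearMap ∘ₗ Van_a k) 0 0
      ((algOf (k := k) b w).toLinearMap ∘ₗ fA k ∘ₗ Van_t k) 0
      (fun p q => by
        show algOf (k := k) b w (p.a * fA k q.t - q.a * fA k p.t) =
          algOf (k := k) b w p.a * algOf (k := k) b w (fA k q.t) -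
          algOf (k := k) b w q.a * algOf (k := k) b w (fA k p.t)
        rw [map_sub, map_mul, map_mul])
      (fun p q => by simp) (fun p q => by simp)
      (fun p q => by
        show algOf (k := k) b w (fA k 0) = 0
        rw [map_zero, map_zero]) v hv
    exact ⟨h1.1, h1.2.2⟩
  -- the second homomorphism
  have hB : ∀ (b : k) (w : kˣ), algOf (k := k) b w (Phi k v).b = 0 := by
    intro b w
    have h1 := Van_main hI ((algOf (k := k) b w).toLinearMap ∘ₗ Van_b k) 0 0
      ((algOf (k := k) b w).toLinearMap ∘ₗ gB k ∘ₗ Van_t k) 0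
      (fun p q => by
        show algOf (k := k) b w (p.b * gB k q.t - q.b * gB k p.t) =
          algOf (k := k) b w p.b * algOf (k := k) b w (gB k q.t) -
          algOf (k := k) b w q.b * algOf (k := k) b w (gB k p.t)
        rw [map_sub, map_mul, map_mul])
      (fun p q => by simp) (fun p q => by simp)
      (fun p q => by
        show algOf (k := k) b w (gB k 0) = 0
        rw [map_zero, map_zero]) v hv
    exact h1.1
  -- the third homomorphism
  have hC : ∀ w : kˣ, algOf (k := k) (0 : k) w (Phi k v).c = 0 := by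
    intro w
    set ε := algOf (k := k) (0 : k) w with hε
    set μ : k := ((w ^ (-2 : ℤ) : kˣ) : k) with hμ
    have hw : (w : k) ≠ 0 := w.ne_zero
    have hg : ∀ t : Fin 3 → k, ε (gB k t) = (μ - 1) * ε (fA k t) := by
      intro t
      have e1 : fA k t = t 0 • (1 : R k) + t 1 • T1 + t 2 • T1 ^ 2 := rfl
      have e2 : gB k t = t 0 • (mo 0 (-2) - 1) + t 1 • (mo 0 (-1) - mo 0 1) +
        t 2 • (1 - mo 0 2) := rfl
      have e3 : μ = (w : k)⁻¹ ^ 2 := by
        rw [hμ]
        simp [zpow_neg, zpow_ofNat]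
      have e4 : ε (mo 0 (-2)) = (w : k)⁻¹ ^ 2 := by
        rw [hε, algOf_mo, ← e3, hμ, pow_zero, one_mul]
      have e5 : ε (mo 0 (-1)) = (w : k)⁻¹ := by
        rw [hε, algOf_mo]
        simp
      have e6 : ε (mo 0 1) = (w : k) := by
        rw [hε, algOf_mo]
        simp
      have e7 : ε (mo 0 2) = (w : k) ^ 2 := by
        rw [hε, algOf_mo]
        simp [zpow_ofNat]
      have e8 : ε T1 = (w : k) := by
        rw [T1, map_add, e6, hε, algOf_mo]
        simp
      rw [e1, e2, e3]
      simp only [map_add, map_sub, map_smul, map_pow, map_one, e4, e5, e6, e7, e8, smul_eq_mul]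
      field_simp
    have h1 := Van_main hI (ε.toLinearMap ∘ₗ Van_a k) (ε.toLinearMap ∘ₗ Van_b k)
      (ε.toLinearMap ∘ₗ Van_c k) (ε.toLinearMap ∘ₗ fA k ∘ₗ Van_t k) μ
      (fun p q => by
        show ε (p.a * fA k q.t - q.a * fA k p.t) = ε p.a * ε (fA k q.t) - ε q.a * ε (fA k p.t)
        rw [map_sub, map_mul, map_mul])
      (fun p q => by
        show ε (p.b * gB k q.t - q.b * gB k p.t) =
          (μ - 1) * (ε p.b * ε (fA k q.t) - ε q.b * ε (fA k p.t))
        rw [map_sub, map_mul, map_mul, hg, hg]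
        ring)
      (fun p q => by
        show ε (p.a * q.b - q.a * p.b + (p.c * (fA k q.t + gB k q.t) -
          q.c * (fA k p.t + gB k p.t))) = ε p.a * ε q.b - ε q.a * ε p.b +
          μ * (ε p.c * ε (fA k q.t) - ε q.c * ε (fA k p.t))
        simp only [map_sub, map_mul, map_add, hg]
        ring)
      (fun p q => by
        show ε (fA k 0) = 0
        rw [map_zero, map_zero]) v hv
    exact h1.2.1
  refine ⟨?_, ?_, ?_, ?_⟩
  · exact Van_fA_inj (Van_zero _ fun b w => (hA b w).2)
  · exact Van_zero _ fun b w => (hA b w).1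
  · exact Van_zero _ hB
  · exact fun p hp => Van_zero' _ hC p hp

end Pool.Agent.Lib.MP_240c17_al.Q2
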