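import Pool.Agent.Lib.MP_240c17_al.Q2.Spec

/-!
# MP_240c17, project Q2, module Ver: verbal ideals are stable
-/

set_option autoImplicit false

namespace Pool.Agent.Lib.MP_240c17_al.Q2

universe u

open Pool.Agent.Lib.MP_240c17_al

private theorem Ver_lift {k : Type u} [Field k] {n m : ℕ}
    (θ : FreeLieAlgebra k (Fin n) →ₗ⁅k⁆ FreeLieAlgebra k (Fin m))
    (ρ : ℕ → FreeLieAlgebra k (Fin n)) (g : FreeLieAlgebra k ℕ) :
    θ (FreeLieAlgebra.lift k ρ g) = FreeLieAlgebra.lift k (fun i => θ (ρ i)) g := by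
  have h : θ.comp (FreeLieAlgebra.lift k ρ) = FreeLieAlgebra.lift k (fun i => θ (ρ i)) := by
    apply FreeLieAlgebra.hom_ext
    intro i
    rw [LieHom.comp_apply, FreeLieAlgebra.lift_of_apply, FreeLieAlgebra.lift_of_apply]
  rw [← h, LieHom.comp_apply]

theorem tVer : S_Ver.{u} := by
  intro k _ Id n m θ v hv
  have hle : verbalIdeal Id n ≤ LieIdeal.comap θ (verbalIdeal Id m) := by
    unfold verbalIdeal
    rw [LieSubmodule.lieSpan_le]
    rintro w ⟨g, hg, ρ, rfl⟩
    rw [SetLike.mem_coe, LieIdeal.mem_comap]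
    apply LieSubmodule.subset_lieSpan
    exact ⟨g, hg, fun i => θ (ρ i), Ver_lift θ ρ g⟩
  have := hle hv
  rwa [LieIdeal.mem_comap] at this

end Pool.Agent.Lib.MP_240c17_al.Q2
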