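import Pool.Agent.Lib.MP_240c17_al.Q2.Spec

/-!
# `S` kills `W`
-/

set_option autoImplicit false

namespace Pool.Agent.Lib.MP_240c17_al.Q2

universe u

open Pool.Agent.Lib.MP_240c17_al

/-- `l ↦ ⁅l, y⁆` -/
def WW_rr (k : Type u) [Field k] {Q : Type u} [LieRing Q] [LieAlgebra k Q] (y : Q) : Q →ₗ[k] Q where
  toFun l := ⁅l, y⁆
  map_add' a b := add_lie a b y
  map_smul' c a := smul_lie c a y

theorem WW_rr_apply (k : Type u) [Field k] {Q : Type u} [LieRing Q] [LieAlgebra k Q] (y l : Q) :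
    WW_rr k y l = ⁅l, y⁆ := rfl

theorem WW_lie {Q : Type u} [LieRing Q] (a l z : Q) : ⁅⁅a, l⁆, z⁆ = ⁅⁅a, z⁆, l⁆ + ⁅a, ⁅l, z⁆⁆ := by
  rw [lie_lie_right]
  abel

theorem tWW : S_Sex.{u} → S_WW.{u} := by
  intro hSex k _ h2 Q _ _ z x1 x2 A B hF h00 h01 S hS
  have hu := (hSex k Q).2
  -- the action of the torus
  have hz : ∀ φ, ⁅S φ, z⁆ = S (φ * mo 0 (-2)) := by
    have e := hu ((WW_rr k z).comp S) (S.comp (LinearMap.mulRight k (mo 0 (-2)))) (fun i l => by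
      show ⁅S (T1 ^ i * mo 0 l), z⁆ = S (T1 ^ i * mo 0 l * mo 0 (-2))
      rw [mul_assoc, mo_mul, hS, add_zero, hS, WW_lie, hF.Az, hF.Bz, lie_sub,
        ← sub_eq_add_neg l 2]
      abel)
    intro φ
    exact LinearMap.congr_fun e φ
  have hx1 : ∀ φ, ⁅S φ, x1⁆ = S (φ * (mo 1 0 + mo 0 (-1))) := by
    have e := hu ((WW_rr k x1).comp S) (S.comp (LinearMap.mulRight k (mo 1 0 + mo 0 (-1))))
      (fun i l => by
        show ⁅S (T1 ^ i * mo 0 l), x1⁆ = S (T1 ^ i * mo 0 l * (mo 1 0 + mo 0 (-1)))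
        have e1 : (T1 : R k) ^ i * mo 0 l * (mo 1 0 + mo 0 (-1)) = T1 ^ (i + 1) * mo 0 l -
            T1 ^ i * mo 0 (l + 1) + T1 ^ i * mo 0 (l - 1) := by
          have e2 : (mo 0 (l + 1) : R k) = mo 0 l * mo 0 1 := by rw [mo_mul]
          have e3 : (mo 0 (l - 1) : R k) = mo 0 l * mo 0 (-1) := by
            rw [mo_mul, sub_eq_add_neg]
          rw [e2, e3, pow_succ, T1]
          ring
        rw [e1, map_add, map_sub, hS, hS, hS, hS, WW_lie, hF.Ax1, hF.Bx1, lie_sub]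
        abel)
    intro φ
    exact LinearMap.congr_fun e φ
  have hx2 : ∀ φ, ⁅S φ, x2⁆ = S (φ * (mo 2 0 + (mo 1 1 + mo 1 1) + 1)) := by
    have e := hu ((WW_rr k x2).comp S)
      (S.comp (LinearMap.mulRight k (mo 2 0 + (mo 1 1 + mo 1 1) + 1))) (fun i l => by
        show ⁅S (T1 ^ i * mo 0 l), x2⁆ = S (T1 ^ i * mo 0 l * (mo 2 0 + (mo 1 1 + mo 1 1) + 1))
        have e1 : (T1 : R k) ^ i * mo 0 l * (mo 2 0 + (mo 1 1 + mo 1 1) + 1) =
            T1 ^ (i + 2) * mo 0 l - T1 ^ i * mo 0 (l + 2) + T1 ^ i * mo 0 l := by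
          have e2 : (mo 0 (l + 2) : R k) = mo 0 l * mo 0 2 := by rw [mo_mul]
          have e3 : (mo 2 0 : R k) + (mo 1 1 + mo 1 1) + 1 = T1 ^ 2 - mo 0 2 + 1 := by
            rw [T1_sq]
            ring
          rw [e2, e3, pow_add]
          ring
        rw [e1, map_add, map_sub, hS, hS, hS, WW_lie, hF.Ax2, hF.Bx2, lie_sub]
        abel)
    intro φ
    exact LinearMap.congr_fun e φ
  -- the set `P`
  obtain ⟨P, hP⟩ : ∃ P : R k → Prop, ∀ φ, P φ ↔ ∀ n : ℕ, S (φ * mo 0 (-(n : ℤ))) = 0 :=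
    ⟨fun φ => ∀ n : ℕ, S (φ * mo 0 (-(n : ℤ))) = 0, fun _ => Iff.rfl⟩
  have p1 : P 1 := by
    rw [hP]
    have key : ∀ n : ℕ, S (1 * mo 0 (-(n : ℤ))) = 0 ∧ S (1 * mo 0 (-((n + 1 : ℕ) : ℤ))) = 0 := by
      intro n
      induction n with
      | zero =>
        constructor
        · have e := hS 0 0
          rw [pow_zero] at e
          rw [Nat.cast_zero, neg_zero, e, h00]
        · have e := hS 0 (-1)
          rw [pow_zero] at e
          rw [Nat.cast_add, Nat.cast_zero, zero_add, Nat.cast_one, e, h01]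
      | succ n ih =>
        refine ⟨ih.2, ?_⟩
        have e := hz (1 * mo 0 (-(n : ℤ)))
        rw [ih.1, zero_lie, mul_assoc, mo_mul] at e
        have e2 : (-((n + 1 + 1 : ℕ) : ℤ)) = -(n : ℤ) + -2 := by push_cast; ring
        rw [e2]
        exact e.symm
    exact fun n => (key n).1
  have p2 : ∀ φ, P φ → P (φ * mo 1 0) := by
    intro φ hφ
    rw [hP] at hφ ⊢
    intro n
    have e := hx1 (φ * mo 0 (-(n : ℤ)))
    rw [hφ, zero_lie] at e
    have e2 : φ * mo 0 (-(n : ℤ)) * (mo 1 0 + mo 0 (-1)) = φ * mo 1 0 * mo 0 (-(n : ℤ)) +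
        φ * mo 0 (-((n + 1 : ℕ) : ℤ)) := by
      have e3 : (mo 0 (-((n + 1 : ℕ) : ℤ)) : R k) = mo 0 (-(n : ℤ)) * mo 0 (-1) := by
        rw [mo_mul]
        congr 1
        push_cast
        ring
      rw [e3]
      ring
    rw [e2, map_add, hφ, add_zero] at e
    exact e.symm
  have p3 : ∀ φ, P φ → P (φ * mo 1 1) := by
    intro φ hφ
    have hφ2 := p2 _ (p2 _ hφ)
    rw [hP] at hφ hφ2 ⊢
    intro n
    have e := hx2 (φ * mo 0 (-(n : ℤ)))
    rw [hφ, zero_lie] at e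
    have e2 : φ * mo 0 (-(n : ℤ)) * (mo 2 0 + (mo 1 1 + mo 1 1) + 1) =
        φ * mo 1 0 * mo 1 0 * mo 0 (-(n : ℤ)) + (φ * mo 1 1 * mo 0 (-(n : ℤ)) +
          φ * mo 1 1 * mo 0 (-(n : ℤ))) + φ * mo 0 (-(n : ℤ)) := by
      have e3 : (mo 2 0 : R k) = mo 1 0 * mo 1 0 := by rw [mo_mul]; rfl
      rw [e3]
      ring
    rw [e2, map_add, map_add, map_add, hφ, hφ2, add_zero, zero_add, ← two_smul k] at e
    rcases smul_eq_zero.mp e.symm with h | h
    · exact absurd h h2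
    · exact h
  have p4 : ∀ n φ, P φ → P (φ * mo 1 0 ^ n) := by
    intro n
    induction n with
    | zero => intro φ hφ; rwa [pow_zero, mul_one]
    | succ n ih =>
      intro φ hφ
      have := p2 _ (ih φ hφ)
      rwa [mul_assoc, ← pow_succ] at this
  have p5 : ∀ n φ, P φ → P (φ * mo 1 1 ^ n) := by
    intro n
    induction n with
    | zero => intro φ hφ; rwa [pow_zero, mul_one]
    | succ n ih =>
      intro φ hφ
      have := p3 _ (ih φ hφ)
      rwa [mul_assoc, ← pow_succ] at this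
  intro φ hφ
  have hker : φ ∈ LinearMap.ker S := by
    refine mem_of_mo fun p hp => ?_
    rw [LinearMap.mem_ker]
    have hle : p.2 ≤ (p.1 : ℤ) := by
      rcases hφ p hp with h | h
      · exact h
      · exact absurd (top_le_iff.mp h) (ENat.natCast_ne_top _)
    obtain ⟨i, l⟩ := p
    dsimp only at hle ⊢
    obtain ⟨n, hn⟩ : ∃ n, n = l.toNat := ⟨_, rfl⟩
    obtain ⟨m, hm⟩ : ∃ m, m = (-l).toNat := ⟨_, rfl⟩
    have hPn := (hP _).1 (p4 (i - n) _ (p5 n _ p1)) m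
    have e : (1 : R k) * mo 1 1 ^ n * mo 1 0 ^ (i - n) * mo 0 (-(m : ℤ)) = mo i l := by
      rw [one_mul, mo_pow, mo_pow, mo_mul, mo_mul]
      congr 1
      · omega
      · omega
    rwa [e] at hPn
  exact LinearMap.mem_ker.mp hker

end Pool.Agent.Lib.MP_240c17_al.Q2
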