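import Pool.Agent.Lib.MP_240c17_al.Q2.Asm
import Pool.Agent.Lib.MP_240c17_al.Q2.Rel
import Pool.Agent.Lib.MP_240c17_al.Q2.RelG
import Pool.Agent.Lib.MP_240c17_al.Q2.FamE
import Pool.Agent.Lib.MP_240c17_al.Q2.AA
import Pool.Agent.Lib.MP_240c17_al.Q2.BB
import Pool.Agent.Lib.MP_240c17_al.Q2.Sex
import Pool.Agent.Lib.MP_240c17_al.Q2.WW
import Pool.Agent.Lib.MP_240c17_al.Q2.PU
import Pool.Agent.Lib.MP_240c17_al.Q2.P21
import Pool.Agent.Lib.MP_240c17_al.Q2.P12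
import Pool.Agent.Lib.MP_240c17_al.Q2.C21
import Pool.Agent.Lib.MP_240c17_al.Q2.C12
import Pool.Agent.Lib.MP_240c17_al.Q2.Span
import Pool.Agent.Lib.MP_240c17_al.Q2.Core
import Pool.Agent.Lib.MP_240c17_al.Q2.Abs
import Pool.Agent.Lib.MP_240c17_al.Q2.Nrfd
import Pool.Agent.Lib.MP_240c17_al.Q2.N2A
import Pool.Agent.Lib.MP_240c17_al.Q2.Sur
import Pool.Agent.Lib.MP_240c17_al.Q2.Ver
import Pool.Agent.Lib.MP_240c17_al.Q2.Van
import Pool.Agent.Lib.MP_240c17_al.Q2.Idl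
import Pool.Agent.Lib.MP_240c17_al.Q2.Pt
import Pool.Agent.Lib.MP_240c17_al.Q2.Gne
import Pool.Agent.Lib.MP_240c17_al.Q2.Gid
import Pool.Agent.Lib.MP_240c17_al.Q2.GL
import Pool.Agent.Lib.MP_240c17_al.Q2.Tr
import Pool.Agent.Lib.MP_240c17_al.Q2.Lj
import Pool.Agent.Lib.MP_240c17_al.Q2.Lay

/-!
# MP_240c17, project Q2: the theorems
-/

set_option autoImplicit false

namespace Pool.Agent.Lib.MP_240c17_al.Q2

universe u

open Pool.Agent.Lib.MP_240c17_al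

theorem hAbs : S_Abs.{u} :=
  tAbs tRel tRelG (tCore tFamE tAA tBB tSex (tWW tSex) (tC21 (tP21 tPU) tSex) (tC12 (tP12 tPU) tSex)
    (tSpan tSex))

theorem hLay : S_Lay.{u} :=
  tLay tVan (tIdl tVer) tPt tGne (tGid tVer) tGL (tTr tVer) tLj (tSur tSex)

theorem hNrfd : S_Nrfd.{u} := tNrfd tRelG

/-- necessity for the algebras with decidable word problem -/
theorem dw (k : Type u) [Field k] [Infinite k] [Primcodable k] [CompField k] (h2 : (2 : k) ≠ 0)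
    (Id : Set (FreeLieAlgebra k ℕ))
    (h : ∀ (L : Type u) [LieRing L] [LieAlgebra k L], RelFPDec Id L →
      ResiduallyFiniteDimensional k L) :
    ∃ (m : ℕ) (c : ℕ → k), (∃ i ≤ m, c i ≠ 0) ∧
      ∀ (L : Type u) [LieRing L] [LieAlgebra k L], InVariety Id L → ∀ a b y : L,
        ∑ i ∈ Finset.range (m + 1),
          c i • ⁅(fun l => ⁅l, y⁆)^[i] a, (fun l => ⁅l, y⁆)^[m - i] b⁆ = 0 :=
  dw_of hAbs hLay hNrfd k h2 Id h

/-- an absolutely finitely presented algebra of `N₂A` that is not residually finite dimensional -/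
theorem ab (k : Type u) [Field k] (h2 : (2 : k) ≠ 0) :
    ∃ (J : LieIdeal k (FreeLieAlgebra k (Fin 6))) (S : Finset (FreeLieAlgebra k (Fin 6))),
      J = LieSubmodule.lieSpan k (FreeLieAlgebra k (Fin 6)) (S : Set (FreeLieAlgebra k (Fin 6))) ∧
      (∀ a b c d e f : FreeLieAlgebra k (Fin 6) ⧸ J, ⁅⁅⁅a, b⁆, ⁅c, d⁆⁆, ⁅e, f⁆⁆ = 0) ∧
      ¬ResiduallyFiniteDimensional k (FreeLieAlgebra k (Fin 6) ⧸ J) ∧
      ∀ [Primcodable k] [CompField k], DecWP (qMk J) :=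
  ab_of hAbs hNrfd tN2A k h2

end Pool.Agent.Lib.MP_240c17_al.Q2
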