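import Pool.Agent.Lib.MP_240c17_al.Q2.Defs2

/-!
# MP_240c17, project Q2: statements of the modules, with proofs in the docstrings

Notation: `[l, y]` (right action) is written `l.y`.  `R = k[u, w, w⁻¹]`, `mo i l = u^i w^l`, `T₁ = u + w`,
`ξ = w⁻² - 1`.  `H = k³ ⋉ (R a ⊕ R b ⊕ R c)`, weights of `(z, x₁, x₂)`: `(1, T₁, T₁²)` on `a`, `ξ (1, w, w²)` on `b`,
`h = (w⁻², u + w⁻¹, u² + 2 u w + 1)` on `c` (`hC`).  Useful: `R_induction`, `mem_of_mo`, `lin_ext`, `linOf`,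
`algOf`, `alg_ext`, `mo_mul`, `mo_pow`, `mo_split`, `coeff_mo`, `mo_mem_JJ`, `mul_mem_JJ`, and from the landed
hand-in `lie_lie_right`, `fd_quasi`, `qMk`, `qMk_eq_zero`, `tri_vanish`, `NoId`, `IsTri`.
-/

set_option autoImplicit false

namespace Pool.Agent.Lib.MP_240c17_al.Q2

universe u

open Pool.Agent.Lib.MP_240c17_al

/-! ## A. the absolute presentation -/

/-- **Rel**: the relations are finitely many words.  Proof: the finset of the words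
`⁅Z,X1⁆, ⁅Z,X2⁆, ⁅X1,X2⁆, ⁅A,Z⁆ - A, ⁅A,X2⁆ - ⁅⁅A,X1⁆,X1⁆, Eo X2 (Fo Z B0) - B0, Eo X2 (Fo Z B1) - B1,
⁅B0,X1⁆ - (Fo Z B1 - B1), ⁅B1,X1⁆ - (B0 - Eo X2 B0), ⁅A,⁅A,X1⁆⁆`, the 25 words of `bb` (image of a Finset
`univ ×ˢ univ`), `⁅A,B0⁆, ⁅A, Fo Z B1⁆` (`Z = FreeLieAlgebra.of k 0`, …).  A homomorphism kills them iff the images
satisfy `Rl` (`map_lie`, `sub_eq_zero`). -/
def S_Rel : Prop :=
  ∀ (k : Type u) [Field k], ∃ S : Finset (FreeLieAlgebra k (Fin 6)),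
    ∀ (Q : Type u) [LieRing Q] [LieAlgebra k Q] (θ : FreeLieAlgebra k (Fin 6) →ₗ⁅k⁆ Q),
      (∀ w ∈ S, θ w = 0) ↔ Rl (θ (FreeLieAlgebra.of k 0)) (θ (FreeLieAlgebra.of k 1))
        (θ (FreeLieAlgebra.of k 2)) (θ (FreeLieAlgebra.of k 3)) (θ (FreeLieAlgebra.of k 4))
        (θ (FreeLieAlgebra.of k 5))

/-- **RelG**: the relations hold in `G_j`.  Proof: `qMk (kerJ k j) w = 0` iff `w ∈ kerJ k j` (`qMk_eq_zero`,
`mem_kerJ`); `Phi k (of i) = gens k i` (`FreeLieAlgebra.lift_of_apply`).  Compute: in `H` the elements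
`Fo z b₀ = w⁻² b`, `Fo z b₁ = w⁻¹ b`, `Eo x₂ b₀ = w² b`, …; all relations hold exactly in `H`, except that
`⁅a,b₀⁆ = c`, `⁅a, Fo z b₁⁆ = w⁻¹ c`, which lie in `JJ`. -/
def S_RelG : Prop :=
  ∀ (k : Type u) [Field k] (j : ℕ∞), Rl (qMk (kerJ k j) (FreeLieAlgebra.of k 0))
    (qMk (kerJ k j) (FreeLieAlgebra.of k 1)) (qMk (kerJ k j) (FreeLieAlgebra.of k 2))
    (qMk (kerJ k j) (FreeLieAlgebra.of k 3)) (qMk (kerJ k j) (FreeLieAlgebra.of k 4))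
    (qMk (kerJ k j) (FreeLieAlgebra.of k 5))

/-- **FamE** (the families).  Let `X l = ⁅l, x1⁆`, `E = Eo x2`, `F = Fo z`.  These additive maps commute
(`lie_lie_right` and `⁅z,x1⁆ = ⁅z,x2⁆ = ⁅x1,x2⁆ = 0`).  `A i = X^[i] a`: `⁅A i,z⁆ = A i` and `⁅A i, x2⁆ = A (i+2)` by
commuting.  `B`: for `m : ℤ` put `B (2m) = E^[m] b0`, `B (2m+1) = E^[m] b1` if `m ≥ 0` and `F^[-m]` instead if
`m < 0`.  As `E F b = b = F E b` for `b = b0, b1` and hence for all the `B l`: `E (B l) = B (l+2)`,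
`F (B l) = B (l-2)` for all `l`, which are the formulas for `x2` and `z`; the formula for `x1` holds for `b0, b1`
(`b0x`, `b1x`) and for all `l` by commuting with `E`, `F`. -/
def S_FamE : Prop :=
  ∀ (Q : Type u) [LieRing Q] (z x1 x2 a b0 b1 : Q), Rl z x1 x2 a b0 b1 →
    ∃ (A : ℕ → Q) (B : ℤ → Q), Fam z x1 x2 A B ∧ A 0 = a ∧ B 0 = b0 ∧ B 1 = b1 ∧ ⁅A 0, A 1⁆ = 0 ∧
      (∀ i j : ℤ, |i| ≤ 2 → |j| ≤ 2 → ⁅B i, B j⁆ = 0) ∧ ⁅A 0, B 0⁆ = 0 ∧ ⁅A 0, B (-1)⁆ = 0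

/-- **AA**.  Proof: put `α i j = ⁅A i, A j⁆`.  `⁅α i j, x1⁆ = α (i+1) j + α i (j+1)`, `⁅α i j, x2⁆ = α (i+2) j + α i (j+2)`
(right derivations), so `2 • α (i+1) (j+1) = ⁅⁅α i j, x1⁆, x1⁆ - ⁅α i j, x2⁆`.  Induction on `N`: `α i j = 0` for
`i + j ≤ N`.  For `i + j = N + 1` and `i, j ≥ 1` use the last formula (`2` is invertible); `α 0 (N+1)` with
`N ≥ 1`: `⁅α 0 N, x1⁆ = α 1 N + α 0 (N+1)`; `α 0 1 = 0` is given; `α i 0 = -α 0 i`, `α 0 0 = 0`. -/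
def S_AA : Prop :=
  ∀ (k : Type u) [Field k], (2 : k) ≠ 0 → ∀ (Q : Type u) [LieRing Q] [LieAlgebra k Q] (z x1 x2 : Q)
    (A : ℕ → Q) (B : ℤ → Q), Fam z x1 x2 A B → ⁅A 0, A 1⁆ = 0 → ∀ i j, ⁅A i, A j⁆ = 0

/-- **BB**.  Proof: put `β i j = ⁅B i, B j⁆` (antisymmetric, `β i i = 0`).  If `β i j = 0`, then applying `x1` gives
(q): `β (i-1) j - β (i+1) j + β i (j-1) - β i (j+1) = 0`; applying `x2`: `β (i+2) j + β i (j+2) = 0`; applying `z`: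
`β (i-2) j + β i (j-2) = 0`; applying `x1` twice and subtracting: `⁅⁅β i j,x1⁆,x1⁆ = (β (i-2) j + β (i+2) j - 2β i j) +
(β i (j-2) + β i (j+2) - 2 β i j) + 2(β (i-1) (j-1) - β (i-1) (j+1) - β (i+1) (j-1) + β (i+1) (j+1))`, so (X):
`β (i-1) (j-1) - β (i-1) (j+1) - β (i+1) (j-1) + β (i+1) (j+1) = 0`.
Induction on `n ≥ 2`: `β = 0` on the box `|i|, |j| ≤ n`.  Step: for `|j| ≤ n-1`, (q) at `(n, j)` gives
`β (n+1) j = 0`, (q) at `(-n, j)` gives `β (-n-1) j = 0`.  (X) at `(n, n-1)`: `β (n+1) n = β (n+1) (n-2) = 0`; (X) at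
`(n, 1-n)`: `β (n+1) (-n) = β (n+1) (2-n) = 0`; (X) at `(-n, n-1)`: `β (-n-1) n = 0`; (X) at `(-n, 1-n)`:
`β (-n-1) (-n) = 0`.  (X) at `(n, -n)`: `β (n+1) (-n-1) = 0` (use antisymmetry for `β (n-1) (-n-1)`).  All other
points of the box `n+1` with a coordinate `±(n+1)` follow by antisymmetry and `β i i = 0`. -/
def S_BB : Prop :=
  ∀ (k : Type u) [Field k], (2 : k) ≠ 0 → ∀ (Q : Type u) [LieRing Q] [LieAlgebra k Q] (z x1 x2 : Q)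
    (A : ℕ → Q) (B : ℤ → Q), Fam z x1 x2 A B → (∀ i j : ℤ, |i| ≤ 2 → |j| ≤ 2 → ⁅B i, B j⁆ = 0) →
      ∀ i j, ⁅B i, B j⁆ = 0

/-- **Sex** (linear maps with prescribed values on the basis `T₁^i w^l`).  Proof: the homomorphism of
algebras `τ = algOf (mo 1 0 - mo 0 1) (unit w)` maps `T₁` to `mo 1 0` and `mo 0 l` to `mo 0 l`; take
`linOf F ∘ τ`; `τ (T₁^i * mo 0 l) = mo i l`.  Uniqueness: the elements `T₁^i w^l` span, because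
`mo i l = (T₁ - w)^i w^l` (induction on `i`). -/
def S_Sex : Prop :=
  ∀ (k : Type u) [Field k] (M : Type u) [AddCommGroup M] [Module k M],
    (∀ F : ℕ → ℤ → M, ∃ S : R k →ₗ[k] M, ∀ i l, S (T1 ^ i * mo 0 l) = F i l) ∧
    ∀ f g : R k →ₗ[k] M, (∀ i l, f (T1 ^ i * mo 0 l) = g (T1 ^ i * mo 0 l)) → f = g

/-- **WW**.  Available: `S_Sex` (uniqueness).  Proof.  (1) For all `φ`: `⁅S φ, z⁆ = S (φ w⁻²)`,
`⁅S φ, x1⁆ = S (φ (mo 1 0 + mo 0 (-1)))`, `⁅S φ, x2⁆ = S (φ (mo 2 0 + 2 mo 1 1 + 1))`: both sides are linear in `φ`, and for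
`φ = T₁^i w^l` use `Fam` and `mo 1 0 = T₁ - w`, `T₁² = mo 2 0 + 2 mo 1 1 + mo 0 2`.  (2) Let `P = {φ | ∀ n : ℕ,
S (φ * mo 0 (-n)) = 0}`.  `1 ∈ P` (from `S 1 = 0`, `S w⁻¹ = 0` and `w⁻²`).  `φ ∈ P → φ * mo 1 0 ∈ P`
(`u = (u + w⁻¹) - w⁻¹`) and `φ * mo 1 1 ∈ P` (`2 u w = (u² + 2uw + 1) - u² - 1`, `2 ≠ 0`).
(3) For `l ≤ i`: `mo i l = mo 1 0^(i-n) * mo 1 1^n * mo 0 (-m)` with `n = max l 0`.  Use `mem_of_mo`. -/
def S_WW : Prop :=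
  ∀ (k : Type u) [Field k], (2 : k) ≠ 0 → ∀ (Q : Type u) [LieRing Q] [LieAlgebra k Q] (z x1 x2 : Q)
    (A : ℕ → Q) (B : ℤ → Q), Fam z x1 x2 A B → ⁅A 0, B 0⁆ = 0 → ⁅A 0, B (-1)⁆ = 0 →
      ∀ S : R k →ₗ[k] Q, (∀ i l, S (T1 ^ i * mo 0 l) = ⁅A i, B l⁆) → ∀ φ ∈ JJ k ⊤, S φ = 0

/-- **PU** (partition of unity).  Proof: `e = m₁ e₁`, `1 - e = m₂ e₂`.  `e, 1 - e ∈ O₁` and `∈ O₂`.
`φ = (e + (1-e))^(2N) φ = ∑_i C(2N,i) e^i (1-e)^(2N-i) φ`; the terms with `i ≥ N` are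
`C(2N,i) e₁^N e^(i-N) (1-e)^(2N-i) (m₁^N φ) ∈ O₁`, the others `C(2N,i) e^i (1-e)^(N-i) e₂^N (m₂^N φ) ∈ O₂`
(`2N - i ≥ N`). -/
def S_PU : Prop :=
  ∀ (k : Type u) [Field k] (C : Type u) [CommRing C] [Algebra k C] (O1 O2 : Subalgebra k C)
    (m1 m2 e1 e2 : C), m1 ∈ O1 → m2 ∈ O2 → e1 ∈ O1 → e2 ∈ O2 → m1 * e1 + m2 * e2 = 1 →
      ∀ (N : ℕ) (φ : C), m1 ^ N * φ ∈ O1 → m2 ^ N * φ ∈ O2 →
        φ ∈ Subalgebra.toSubmodule O1 ⊔ Subalgebra.toSubmodule O2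

/-- **P21**.  Available: `S_PU`.  `m₁ = m₂ = wi`, `e₁ = -(p - w) ∈ O₁`, `e₂ = p ∈ O₂`:
`wi * (-(p - w)) + wi * p = wi * w = 1`.
`φ = p^i q^j w^m wi^n`, `N = i + j + m`: `wi^N φ ∈ O₁`: `p wi = (p - w) wi + 1 ∈ O₁`, so
`wi^N φ = (p wi)^i q^j (wi^m w^m) wi^j wi^n`; similarly in `O₂`. -/
def S_P21 : Prop :=
  ∀ (k : Type u) [Field k] (C : Type u) [CommRing C] [Algebra k C] (p q w wi : C), w * wi = 1 →
    ∀ i j m n : ℕ, p ^ i * q ^ j * w ^ m * wi ^ n ∈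
      Subalgebra.toSubmodule (Algebra.adjoin k {wi, p - w, (p - w) * w, q}) ⊔
      Subalgebra.toSubmodule (Algebra.adjoin k {wi, q - w, (q - w) * w, p})

/-- **P12**.  Available: `S_PU`.  `O₁ = k[ri, p-r, (p-r)r, s, si]`, `O₂ = k[si, p-s, (p-s)s, r, ri]`, `m₁ = ri`,
`m₂ = si`, `e₁ = (p-r) r si`, `e₂ = r - (p - s)`: `ri e₁ + si e₂ = (p - r) si + si (r - p + s) = 1`.
`φ = p^i r^a ri^b s^c si^d`, `N = i + a + c`: `ri^N φ ∈ O₁` as `p ri = (p - r) ri + 1 ∈ O₁`,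
`ri^N φ = (p ri)^i (ri r)^a ri^c ri^b s^c si^d`; `si^N φ ∈ O₂` similarly. -/
def S_P12 : Prop :=
  ∀ (k : Type u) [Field k] (C : Type u) [CommRing C] [Algebra k C] (p r ri s si : C), r * ri = 1 →
    s * si = 1 → ∀ i a b c d : ℕ, p ^ i * r ^ a * ri ^ b * s ^ c * si ^ d ∈
      Subalgebra.toSubmodule (Algebra.adjoin k {ri, p - r, (p - r) * r, s, si}) ⊔
      Subalgebra.toSubmodule (Algebra.adjoin k {si, p - s, (p - s) * s, r, ri})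

/-- **C21**.  Available: `S_P21`, `S_Sex`.  Proof.  (1) symmetry: `⁅⁅A i,B l⁆,A j⁆ = ⁅⁅A j,B l⁆,A i⁆` (Jacobi,
`⁅A i, A j⁆ = 0`).  (2) Let `C = Polynomial (R k)` (or `AddMonoidAlgebra k (ℕ × ℤ × ℕ)`), `p = T₁`, `w = mo 0 1`,
`wi = mo 0 (-1)`, `q = X`; `Z : C → Q` linear with `Z (q^j * T₁^i * mo 0 l) = ⁅⁅A i,B l⁆,A j⁆`.  For `φ ∈ R`:
`Z (q^j φ) = ⁅S φ, A j⁆` (uniqueness in `S_Sex`), so `Z` vanishes on the span of `q^j φ`, `φ ∈ JJ k ⊤`, and this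
span is a subalgebra containing `wi, p - w, (p-w) w, q` (`JJ k ⊤` is closed under products: `mo_mul`).  By (1)
`Z` is invariant under the exchange of `p` and `q`, so it vanishes on the second algebra.  `S_P21`: `Z = 0`. -/
def S_C21 : Prop :=
  ∀ (k : Type u) [Field k] (Q : Type u) [LieRing Q] [LieAlgebra k Q] (A : ℕ → Q) (B : ℤ → Q)
    (S : R k →ₗ[k] Q), (∀ i j, ⁅A i, A j⁆ = 0) → (∀ i l, S (T1 ^ i * mo 0 l) = ⁅A i, B l⁆) →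
      (∀ φ ∈ JJ k ⊤, S φ = 0) → ∀ i l j, ⁅⁅A i, B l⁆, A j⁆ = 0

/-- **C12**.  Available: `S_P12`, `S_Sex`.  Proof as `S_C21`: (1) `⁅⁅A i,B l⁆,B m⁆ = ⁅⁅A i,B m⁆,B l⁆`.  (2) `C =
AddMonoidAlgebra k (ℕ × ℤ × ℤ)` (or `AddMonoidAlgebra (R k) ℤ`), `p = T₁`, `r, ri = w^±1`, `s, si` = the last
variable and its inverse; `Z (T₁^i r^l s^m) = ⁅⁅A i,B l⁆,B m⁆`, `Z (s^m φ) = ⁅S φ, B m⁆` for `φ ∈ R`. -/
def S_C12 : Prop :=
  ∀ (k : Type u) [Field k] (Q : Type u) [LieRing Q] [LieAlgebra k Q] (A : ℕ → Q) (B : ℤ → Q)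
    (S : R k →ₗ[k] Q), (∀ i j, ⁅B i, B j⁆ = 0) → (∀ i l, S (T1 ^ i * mo 0 l) = ⁅A i, B l⁆) →
      (∀ φ ∈ JJ k ⊤, S φ = 0) → ∀ i l m, ⁅⁅A i, B l⁆, B m⁆ = 0

/-- **Span**.  Available: `S_Sex`.  Let `θ` be a homomorphism with the images `z, x1, x2, A 0, B 0, B 1` of the
generators.  Then `(θ v, Phi v)` lies in the span `D` (in `Q × HH k`) of the pairs `(z, e₀), (x1, e₁), (x2, e₂),
(A i, ⟨0,T₁^i,0,0⟩), (B l, ⟨0,0,mo 0 l,0⟩), (⁅A i,B l⁆, ⟨0,0,0,T₁^i mo 0 l⟩)`.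
Proof: the set of `v` with this property is a Lie subalgebra: the bracket of two of the pairs (componentwise)
is in `D` (use `Fam`; `⁅⁅A i,B l⁆,x1⁆ = ⁅A (i+1),B l⁆ + ⁅A i,B (l-1)⁆ - ⁅A i,B (l+1)⁆` and similarly for `z, x2`; all
other brackets vanish on both sides); it contains the generators; `FreeLieAlgebra` is generated by them
(`lift_mem` of `Func.lean` with `FreeLieAlgebra.lift k of = id`, or the universal property). -/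
def S_Span : Prop :=
  ∀ (k : Type u) [Field k] (Q : Type u) [LieRing Q] [LieAlgebra k Q] (z x1 x2 : Q)
    (A : ℕ → Q) (B : ℤ → Q), Fam z x1 x2 A B → (∀ i j, ⁅A i, A j⁆ = 0) → (∀ i j, ⁅B i, B j⁆ = 0) →
      (∀ i l j, ⁅⁅A i, B l⁆, A j⁆ = 0) → (∀ i l m, ⁅⁅A i, B l⁆, B m⁆ = 0) →
      ∀ θ : FreeLieAlgebra k (Fin 6) →ₗ⁅k⁆ Q, θ (FreeLieAlgebra.of k 0) = z →
        θ (FreeLieAlgebra.of k 1) = x1 → θ (FreeLieAlgebra.of k 2) = x2 →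
        θ (FreeLieAlgebra.of k 3) = A 0 → θ (FreeLieAlgebra.of k 4) = B 0 →
        θ (FreeLieAlgebra.of k 5) = B 1 → ∀ v, (θ v, Phi k v) ∈ Submodule.span k
          (({(z, ⟨Pi.single 0 1, 0, 0, 0⟩), (x1, ⟨Pi.single 1 1, 0, 0, 0⟩),
            (x2, ⟨Pi.single 2 1, 0, 0, 0⟩)} : Set (Q × HH k)) ∪
            (Set.range fun i : ℕ => (A i, (⟨0, T1 ^ i, 0, 0⟩ : HH k))) ∪
            (Set.range fun l : ℤ => (B l, (⟨0, 0, mo 0 l, 0⟩ : HH k))) ∪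
            Set.range fun p : ℕ × ℤ => (⁅A p.1, B p.2⁆, (⟨0, 0, 0, T1 ^ p.1 * mo 0 p.2⟩ : HH k)))

/-- **Core**.  Available: `S_FamE`, `S_AA`, `S_BB`, `S_Sex`, `S_WW`, `S_C21`, `S_C12`, `S_Span`.  Proof: take
the families, `S`; the brackets vanish; for `v ∈ kerJ k ⊤` the pair `(θ v, Phi v)` is in the span.  So
`θ v = t₀ z + t₁ x1 + t₂ x2 + ∑ α_i A i + ∑ β_l B l + S φ` and `Phi v = ⟨t, ∑ α_i T₁^i, ∑ β_l w^l, φ⟩` with the same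
coefficients (e.g. the span is contained in the range of the linear map `(t, α, β, φ) ↦ …` from
`(Fin 3 → k) × (ℕ →₀ k) × (ℤ →₀ k) × R k`).  `Phi v = ⟨0,0,0,φ⟩`, `φ ∈ JJ k ⊤`: `t = 0`, `α = 0` (the `T₁^i` are linearly
independent, by `S_Sex` with `M = k`), `β = 0`, `S φ = 0`. -/
def S_Core : Prop :=
  ∀ (k : Type u) [Field k], (2 : k) ≠ 0 → ∀ (Q : Type u) [LieRing Q] [LieAlgebra k Q]
    (θ : FreeLieAlgebra k (Fin 6) →ₗ⁅k⁆ Q), Rl (θ (FreeLieAlgebra.of k 0)) (θ (FreeLieAlgebra.of k 1))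
      (θ (FreeLieAlgebra.of k 2)) (θ (FreeLieAlgebra.of k 3)) (θ (FreeLieAlgebra.of k 4))
      (θ (FreeLieAlgebra.of k 5)) → ∀ v ∈ kerJ k ⊤, θ v = 0

/-- **Abs**.  Available: `S_Rel`, `S_RelG`, `S_Core`.  Proof: `S` of `S_Rel`; `lieSpan S ≤ kerJ k ⊤` by `S_Rel`
applied to `qMk (kerJ k ⊤)` and `S_RelG`; conversely `S_Core` for `θ = qMk (lieSpan S)`. -/
def S_Abs : Prop :=
  ∀ (k : Type u) [Field k], (2 : k) ≠ 0 → ∃ S : Finset (FreeLieAlgebra k (Fin 6)),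
    kerJ k ⊤ = LieSubmodule.lieSpan k (FreeLieAlgebra k (Fin 6)) (S : Set (FreeLieAlgebra k (Fin 6)))

/-! ## B. properties of the algebras `G_j` -/

/-- **Nrfd**.  Proof: otherwise let `I` be an ideal of finite codimension of `G_j` not containing
`ζ = [a, b₀ - [b₀, x₂]]` (the image of `of 3, of 4, of 2`); `ζ ≠ 0`: `Phi` of the word is `⟨0,0,0,mo 0 2⟩`, and
`mo 0 2 ∉ JJ k j` (`mo_mem_JJ`, `j > 0`).  Apply `fd_quasi` (file `Fin.lean`) in the quotient with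
`x = x₂`, `z = z`, `a`, `b = b₀`: the relations hold by `S_RelG`-type computations: `[x₂,z] = 0`, `[a,z] = a`,
`b₁ + [b₁,z] = b` for `b₁ = b - [b,x₂]` (`b₁ = w² b`), `[a,b] = c ∈ JJ`.  Available: `S_RelG`. -/
def S_Nrfd : Prop :=
  ∀ (k : Type u) [Field k] (j : ℕ∞), 0 < j → ¬ResiduallyFiniteDimensional k (Gq k j)

/-- **N2A**.  Proof: `G_j` is a quotient of the free Lie algebra; for words `⁅⁅⁅a,b⁆,⁅c,d⁆⁆,⁅e,f⁆⁆` the image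
under `Phi` is `0`: commutators have `t = 0`, commutators of those have `t = a = b = 0`, and such elements
commute with elements with `t = 0`. -/
def S_N2A : Prop :=
  ∀ (k : Type u) [Field k] (j : ℕ∞) (a b c d e f : Gq k j), ⁅⁅⁅a, b⁆, ⁅c, d⁆⁆, ⁅e, f⁆⁆ = 0

/-- **Sur**.  Proof: the set of `c` with this property is a subspace, closed under multiplication with
`w⁻²`, `mo 1 0 + mo 0 (-1)`, … (bracket with `of 0`, `of 1`, `of 2`).  Better: for all `i, l` there are words with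
`Phi = ⟨0, T₁^i, 0, 0⟩` (iterate `⁅·, of 1⁆` on `of 3`) and `Phi = ⟨0,0,mo 0 l,0⟩` (from `of 4`, `of 5` by
`v ↦ v - ⁅v, of 2⁆` and `v ↦ v + ⁅v, of 0⁆`); their bracket gives `T₁^i w^l`; these span (`S_Sex`). -/
def S_Sur : Prop :=
  ∀ (k : Type u) [Field k] (c : R k), ∃ v, Phi k v = ⟨0, 0, 0, c⟩

/-! ## C. varieties -/

/-- **Ver** (verbal ideals are stable).  Proof: `verbalIdeal` is a `lieSpan`; `LieSubmodule.lieSpan_le` with the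
`comap` of the target ideal; `θ ∘ lift ρ = lift (θ ∘ ρ)`. -/
def S_Ver : Prop :=
  ∀ (k : Type u) [Field k] (Id : Set (FreeLieAlgebra k ℕ)) (n m : ℕ)
    (θ : FreeLieAlgebra k (Fin n) →ₗ⁅k⁆ FreeLieAlgebra k (Fin m)), ∀ v ∈ verbalIdeal Id n,
      θ v ∈ verbalIdeal Id m

/-- **Van** (uses `tri_vanish`).  Proof.  For a homomorphism `ε : R k →ₐ[k] k` (evaluation at `u ↦ τ₁ - τ₂`,
`w ↦ τ₂ ≠ 0`) the maps `p ↦ !![0, ε p.a, 0; 0, ε (fA p.t), 0; 0, 0, 0]`, `p ↦ !![0, ε p.b, 0; 0, ε (gB p.t), 0; 0, 0, 0]`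
and, for `τ₁ = τ₂ = τ`, `μ = τ⁻²`, `p ↦ !![0, ε p.a, ε p.c; 0, ε (fA p.t), ε p.b; 0, 0, μ ε (fA p.t)]` are homomorphisms
`HH k → Matrix (Fin 3) (Fin 3) k` with values in `IsTri μ` (`μ = 0`, `0`, `τ⁻²`); for the last one
`ε (gB t) = (μ - 1) ε (fA t)`.  By `tri_vanish` their composition with `Phi` kills the values of the
identities, hence the verbal ideal (the kernel of the composition is an ideal).  So `ε (Phi v).a = 0` for all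
`ε`: `(Phi v).a = 0` (`k` infinite: an element of `R k` vanishing at all points is `0`), the same for `b`;
`ε (fA t) = t₀ + t₁ τ₁ + t₂ τ₁² = 0` for all `τ₁`: `t = 0`; `(Phi v).c` vanishes at all points with `u = 0`, so the
coefficients of `(0, l)` vanish. -/
def S_Van : Prop :=
  ∀ (k : Type u) [Field k] [Infinite k] (Id : Set (FreeLieAlgebra k ℕ)), NoId Id →
    ∀ v ∈ verbalIdeal Id 6, (Phi k v).t = 0 ∧ (Phi k v).a = 0 ∧ (Phi k v).b = 0 ∧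
      ∀ p : ℕ × ℤ, (Phi k v).c.coeff p ≠ 0 → 1 ≤ p.1

/-- **Idl** (`VU` is an ideal).  Available: `S_Ver`.  Proof: `VU Id` is a subspace.  For `α, β : R k` the map
`⟨t,a,b,c⟩ ↦ ⟨t, α a, β b, α β c⟩` is an endomorphism of `H`.  For `(α, β) = (T₁, 1)` it is induced by the
endomorphism `of 3 ↦ ⁅of 3, of 1⁆` of the free Lie algebra (other generators fixed), for `(1, w)` by
`of 4 ↦ of 5`, `of 5 ↦ of 4 - ⁅of 4, of 2⁆` (`w² b`), for `(1, w⁻¹)` by `of 4 ↦ of 5 + ⁅of 5, of 0⁆`, `of 5 ↦ of 4`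
(compare on generators, `FreeLieAlgebra.hom_ext`).  So `VU` is closed under the multiplication with `T₁`,
`w`, `w⁻¹`, hence with `u = T₁ - w` and with all monomials (`R_induction`). -/
def S_Idl : Prop :=
  ∀ (k : Type u) [Field k] (Id : Set (FreeLieAlgebra k ℕ)), ∃ I : Ideal (R k), (I : Set (R k)) = VU Id

/-- **Pt**.  Proof: `c = ∑ …≠ 0`; as `k` is infinite there is a point `ε : R k →ₐ[k] k` (`u ↦ τ₁`, `w ↦ τ₂ ≠ 0`) with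
`ε c ≠ 0`.  The map `HH k → H2 k`, `⟨t,a,b,c⟩ ↦ ⟨![ε (fA t), ε (gB t)], ε a, ε b, ε c⟩` is a homomorphism.  If `H2 k`
satisfied the identities, the composition with `Phi` would kill `verbalIdeal Id 6`. -/
def S_Pt : Prop :=
  ∀ (k : Type u) [Field k] [Infinite k] (Id : Set (FreeLieAlgebra k ℕ)), ∀ c ∈ VU Id, c ≠ 0 →
    ¬InVariety Id (H2 k)

/-- **Gne**.  Uses `tri_vanish`.  Proof: some `g ∈ Id`, `ρ : ℕ → H2 k` have `lift ρ g ≠ 0`.  Lift `ρ` to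
`ρ' n = (ρ n).t 0 • of 0 + (ρ n).t 1 • of 1 + (ρ n).a • of 2 + (ρ n).b • of 3 + (ρ n).c • ⁅of 2, of 3⁆` in the free
algebra on 4 generators; `v = lift ρ' g ∈ verbalIdeal Id 4`; the evaluation `GG k → H2 k` at
`(s₁,s₂,t₁,t₂) = (1,0,0,1)` maps `Psi v` to `lift ρ g`.  By evaluation at arbitrary points `(s, t)`, as in
`S_Van` (two maps to 2 by 2 blocks, `μ = 0`), `(Psi v).a = 0`, `(Psi v).b = 0`, `(Psi v).t = 0`.  So
`Psi v = ⟨0,0,0,q⟩` with `q ≠ 0`. -/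
def S_Gne : Prop :=
  ∀ (k : Type u) [Field k] [Infinite k] (Id : Set (FreeLieAlgebra k ℕ)), NoId Id →
    ¬InVariety Id (H2 k) → ∃ q ∈ VG Id, q ≠ 0

/-- **Gid** (`VG` is an ideal, stable under the substitutions).  Available: `S_Ver`.  Proof: multiplication
with `X 0, X 1` by `of 2 ↦ ⁅of 2, of 0⁆`, `⁅of 2, of 1⁆`; with `X 2, X 3` by `of 3 ↦ ⁅of 3, of 0⁆, ⁅of 3, of 1⁆`
(as in `S_Idl`).  Substitution: `of 0 ↦ g 0 0 • of 0 + g 0 1 • of 1`, `of 1 ↦ g 1 0 • of 0 + g 1 1 • of 1`; it induces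
the endomorphism `⟨y,a,b,c⟩ ↦ ⟨y g, sub4 g a, sub4 g b, sub4 g c⟩` of `GG k`, `(y g) j = ∑ i, y i * g i j`. -/
def S_Gid : Prop :=
  ∀ (k : Type u) [Field k] (Id : Set (FreeLieAlgebra k ℕ)),
    ∃ P : Ideal (U4 k), (P : Set (U4 k)) = VG Id ∧ ∀ g, ∀ q ∈ P, sub4 g q ∈ P

/-- **GL**.  Proof.  `q ∈ P`, `q ≠ 0`.  Let `Q ∈ U4[G] = MvPolynomial (Fin 2 × Fin 2) (U4 k)` be the polynomial
with `Q(g) = sub4 g q` for `g` with entries in `k` (substitute generic `G`).  All coefficients `Q_μ ∈ U4 k` of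
`Q` are in `P`: for a linear functional `λ : U4 k → k` vanishing on `P` the polynomial `∑ λ(Q_μ) G^μ` over `k`
vanishes at all points of `k⁴`, so it is `0` (`MvPolynomial.funext`); `P` is the intersection of the kernels
of such `λ` (`Submodule.exists_le_ker_of_notMem` or `exists_dual_map_eq_bot_of_notMem`).  So `Q(γ) ∈ P` for every `γ`
with entries in `U4 k` (`P` is an ideal).  Take `γ = c • Y * adj(X)`, `X = !![X 0, X 2; X 1, X 3]`, `Y ∈ M₂(k)`,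
`c ∈ k`: `Q(γ) = q(c • det4 • Y)` (substitution of `c * det4 * Y i j` for the entries of `X`).  Choose `Y` with
`q(Y) ≠ 0` (`MvPolynomial.funext`), let `p(T) = q(T Y) ∈ k[T]`, `p(1) ≠ 0`: `∑ p_e c^e det4^e ∈ P` for all `c ∈ k`, so
again all `p_e det4^e ∈ P`, and some `p_e ≠ 0`. -/
def S_GL : Prop :=
  ∀ (k : Type u) [Field k] [Infinite k] (P : Ideal (U4 k)), (∀ g, ∀ q ∈ P, sub4 g q ∈ P) → P ≠ ⊥ →
    ∃ d : ℕ, det4 k ^ d ∈ P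

/-- **Tr**.  Available: `S_Ver`.  Proof: the homomorphism `of 0 ↦ of 0, of 1 ↦ of 1, of 2 ↦ of 3, of 3 ↦ of 4`
from 4 to 6 generators, and the homomorphism `GG k → HH k`, `⟨y,a,b,c⟩ ↦ ⟨![y 0, y 1, 0], ev4 a, ev4 b, ev4 c⟩`
(compatible with `f4, g4`), agree on the generators. -/
def S_Tr : Prop :=
  ∀ (k : Type u) [Field k] (Id : Set (FreeLieAlgebra k ℕ)), ∀ q ∈ VG Id, ev4 k q ∈ VU Id

/-- **Lj** (ring lemma).  Write `u = mo 1 0`, `w^l = mo 0 l`.  Let `j` be maximal with all elements of `I`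
divisible by `u^j` (that is `c.coeff p ≠ 0 → j ≤ p.1`); it exists, since `(u ξ)^d ∈ I` has the nonzero coefficient
`(-1)^d` at `(d, 0)`, so `j ≤ d`.  Let `I' = {φ | u^j φ ∈ I}` (an ideal; division by `u^j` is possible).  There is
`g ∈ I'` with `g = g₀ + u g₁`, `g₀ ≠ 0` a combination of the `w^l`.  `u^M ξ^d ∈ I'` for `M = d - j`.
`g₀^M - (-u g₁)^M` is divisible by `g₀ + u g₁` (`sub_dvd_pow_sub_pow`), so
`ξ^d g₀^M ∈ I'` (for `M = 0` clear): a nonzero combination `c₁ w^n + (lower powers)` of powers of `w`,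
`c₁ ≠ 0`, with no `u` (leading coefficients multiply).  Put `N = max n 0`.  Let `P` be as in the statement and
`P' = {φ | u^j φ ∈ P}`: it contains `I'`, is closed under `w⁻²` and `u + w⁻¹`, contains `w^l` for `-1 ≤ l ≤ N`, so
for all `l ≤ N`; then `u^i w^l` for all `l ≤ N` by induction on `i` (`u φ = (u + w⁻¹) φ - w⁻¹ φ`), and for `l > N` by
strong induction on `l` (multiply the element above by `u^i w^(l-n)`).  So `P' = ⊤`. -/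
def S_Lj : Prop :=
  ∀ (k : Type u) [Field k] (I : Ideal (R k)), (∀ c ∈ I, ∀ p : ℕ × ℤ, c.coeff p ≠ 0 → 1 ≤ p.1) →
    (∃ d : ℕ, (mo 1 0 * (mo 0 (-2) - 1)) ^ d ∈ I) → ∃ j : ℕ, 1 ≤ j ∧
      (∀ c ∈ I, ∀ p : ℕ × ℤ, c.coeff p ≠ 0 → j ≤ p.1) ∧ ∃ N : ℤ, ∀ P : Submodule k (R k),
        (∀ c ∈ I, c ∈ P) → (∀ φ ∈ P, φ * mo 0 (-2) ∈ P) → (∀ φ ∈ P, φ * (mo 1 0 + mo 0 (-1)) ∈ P) →
        (∀ l : ℤ, -1 ≤ l → l ≤ N → mo j l ∈ P) →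
        ∀ φ : R k, (∀ p : ℕ × ℤ, φ.coeff p ≠ 0 → j ≤ p.1) → φ ∈ P

/-- **Lay**.  Available: `S_Van`, `S_Idl`, `S_Pt`, `S_Gne`, `S_Gid`, `S_GL`, `S_Tr`, `S_Lj`, `S_Sur`.
Proof.  Let `I` be the ideal `VU Id`.  If `I = ⊥`, take `j = ⊤`, `S = ∅`: `verbalIdeal ≤ kerJ k ⊤` by `S_Van` (the
`c`-component lies in `VU`).  Otherwise `S_Pt`, `S_Gne`, `S_Gid`, `S_GL`, `S_Tr`: `ev4 (det4^d) ∈ I`,
`ev4 det4 = (mo 0 (-1) - mo 0 1) - T₁ (mo 0 (-2) - 1) = -(mo 1 0 * (mo 0 (-2) - 1))`.  `S_Lj` gives `j`, `N`.  Choose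
`κ_l` with `Phi κ_l = ⟨0,0,0,mo j l⟩` (`S_Sur`), `-1 ≤ l ≤ N`.  `K = verbalIdeal ⊔ kerJ k ⊤ ⊔ lieSpan {κ_l} ≤ kerJ k j`
clearly.  `P = {c | ∃ v ∈ K, Phi v = ⟨0,0,0,c⟩}` satisfies the hypotheses of `S_Lj` (bracket with `of 0`,
`of 1`), so it contains all `c` divisible by `u^j`.  If `v ∈ kerJ k j`, then `(Phi v).c = c₁ + c₂`, `c₁ ∈ JJ k ⊤`, `c₂`
divisible by `u^j` (split by monomials); take `v₂ ∈ K` with `Phi v₂ = ⟨0,0,0,c₂⟩`; `v - v₂ ∈ kerJ k ⊤ ≤ K`. -/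
def S_Lay : Prop :=
  ∀ (k : Type u) [Field k] [Infinite k] (Id : Set (FreeLieAlgebra k ℕ)), NoId Id →
    ∃ j : ℕ∞, 0 < j ∧ ∃ S : Finset (FreeLieAlgebra k (Fin 6)), kerJ k j = verbalIdeal Id 6 ⊔
      (kerJ k ⊤ ⊔ LieSubmodule.lieSpan k (FreeLieAlgebra k (Fin 6)) (S : Set (FreeLieAlgebra k (Fin 6))))

end Pool.Agent.Lib.MP_240c17_al.Q2
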