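import Pool.Agent.Lib.MP_240c17_al.Q2.Mem

/-!
# MP_240c17, project Q2: membership test, part 2
-/

set_option autoImplicit false

namespace Pool.Agent.Lib.MP_240c17_al.Q2

universe u

open Pool.Agent.Lib.MP_240c17_al

theorem sameB_symm {m m' : Nm} (h : sameB m m') : sameB m' m := by
  obtain ⟨t, i, p, q⟩ := m
  obtain ⟨t', i', p', q'⟩ := m'
  unfold sameB at h ⊢
  simp only at h ⊢
  omega

theorem sameB_trans {m m' m'' : Nm} (h : sameB m m') (h' : sameB m' m'') : sameB m m'' := by
  obtain ⟨t, i, p, q⟩ := m
  obtain ⟨t', i', p', q'⟩ := m'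
  obtain ⟨t'', i'', p'', q''⟩ := m''
  unfold sameB at h h' ⊢
  simp only at h h' ⊢
  omega

section test
variable {k : Type u} [Field k]

/-- coefficient of the basis vector -/
def cf (m : Nm) (l : List (k × Nm)) : k := (l.map fun p => if sameB m p.2 then p.1 else 0).sum

theorem cf_nil (m : Nm) : cf (k := k) m [] = 0 := rfl

theorem cf_cons (m : Nm) (p : k × Nm) (l : List (k × Nm)) :
    cf m (p :: l) = (if sameB m p.2 then p.1 else 0) + cf m l := by
  rw [cf, List.map_cons, List.sum_cons]
  rfl

theorem kap_lval (m : Nm) (l : List (k × Nm)) : kap k m (lval (bH k) l) = cf m l := by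
  rw [lin_lval]
  induction l with
  | nil => rfl
  | cons p l ih =>
    rw [List.map_cons, List.sum_cons, ih, cf_cons, kap_bH]
    congr 1
    by_cases h : sameB m p.2
    · rw [if_pos h, if_pos h, mul_one]
    · rw [if_neg h, if_neg h, mul_zero]

theorem cf_same {m m' : Nm} (h : sameB m m') (l : List (k × Nm)) : cf m l = cf m' l := by
  induction l with
  | nil => rfl
  | cons p l ih =>
    rw [cf_cons, cf_cons, ih]
    congr 1
    by_cases h' : sameB m p.2
    · rw [if_pos h', if_pos (sameB_trans (sameB_symm h) h')]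
    · rw [if_neg h', if_neg (fun h'' => h' (sameB_trans h h''))]

theorem cf_ne {m : Nm} {l : List (k × Nm)} (h : cf m l ≠ 0) : ∃ p ∈ l, sameB m p.2 := by
  induction l with
  | nil => exact absurd rfl h
  | cons p l ih =>
    by_cases h' : sameB m p.2
    · exact ⟨p, List.mem_cons_self, h'⟩
    · rw [cf_cons, if_neg h', zero_add] at h
      obtain ⟨q, hq, hq'⟩ := ih h
      exact ⟨q, List.mem_cons_of_mem _ hq, hq'⟩

/-- names whose basis vectors lie in `JJ j c` -/
def good (j : ℕ∞) (m : Nm) : Prop :=
  5 ≤ m.1 ∧ (m.2.2.1 ≤ m.2.1 + m.2.2.2 ∨ j ≤ (m.2.1 : ℕ∞))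

theorem good_same {j : ℕ∞} {m m' : Nm} (h : sameB m m') (h' : good j m) : good j m' := by
  obtain ⟨t, i, p, q⟩ := m
  obtain ⟨t', i', p', q'⟩ := m'
  obtain ⟨h1, h2⟩ := h'
  unfold sameB at h
  simp only at h h1 h2
  have e : i = i' := by omega
  subst e
  refine ⟨?_, ?_⟩
  · show 5 ≤ t'
    omega
  · rcases h2 with h2 | h2
    · left
      show p' ≤ i + q'
      omega
    · right
      exact h2

/-- the ideal -/
def inK (j : ℕ∞) (v : HH k) : Prop := v.t = 0 ∧ v.a = 0 ∧ v.b = 0 ∧ v.c ∈ JJ k j

theorem kap_zero {j : ℕ∞} {m : Nm} (hm : ¬good j m) {v : HH k} (hv : inK j v) : kap k m v = 0 := by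
  obtain ⟨h1, h2, h3, h4⟩ := hv
  obtain ⟨t, i, p, q⟩ := m
  have ht : t = 0 ∨ t = 1 ∨ t = 2 ∨ t = 3 ∨ t = 4 ∨ 5 ≤ t := by omega
  have c0 : (0 : R k).coeff = 0 := rfl
  rcases ht with rfl | rfl | rfl | rfl | rfl | ht
  · simp [kap, prT, h1]
  · simp [kap, prT, h1]
  · simp [kap, prT, h1]
  · simp [kap, prA, h2]
  · simp [kap, prB, h3]
  · have n0 : t ≠ 0 := by omega
    have n1 : t ≠ 1 := by omega
    have n2 : t ≠ 2 := by omega
    have n3 : t ≠ 3 := by omega
    have n4 : t ≠ 4 := by omega
    have hk : kap k (t, i, p, q) = (cfn k (i, (p : ℤ) - q)).comp (prC k) := by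
      simp [kap, n0, n1, n2, n3, n4]
    rw [hk]
    show v.c.coeff (i, (p : ℤ) - q) = 0
    by_contra h
    apply hm
    refine ⟨ht, ?_⟩
    rcases mem_JJ.mp h4 _ h with h | h
    · left
      have h' : (p : ℤ) - q ≤ (i : ℤ) := h
      show p ≤ i + q
      omega
    · right
      exact h

theorem sum_zero_of {l : List (k × Nm)} {f : k × Nm → k} (h : ∀ p ∈ l, f p = 0) :
    (l.map f).sum = 0 := by
  induction l with
  | nil => rfl
  | cons p l ih =>
    rw [List.map_cons, List.sum_cons, h p List.mem_cons_self, zero_add]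
    exact ih fun q hq => h q (List.mem_cons_of_mem _ hq)

theorem inK_iff (j : ℕ∞) (l : List (k × Nm)) :
    inK j (lval (bH k) l) ↔ ∀ p ∈ l, good j p.2 ∨ cf p.2 l = 0 := by
  constructor
  · intro h p _
    by_cases hg : good j p.2
    · exact Or.inl hg
    · right
      rw [← kap_lval]
      exact kap_zero hg h
  · intro h
    have key : ∀ m, ¬good j m → kap k m (lval (bH k) l) = 0 := by
      intro m hm
      rw [kap_lval]
      by_contra hc
      obtain ⟨p, hp, hs⟩ := cf_ne hc
      rcases h p hp with h' | h'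
      · exact hm (good_same (sameB_symm hs) h')
      · rw [← cf_same hs] at h'
        exact hc h'
    have hl : ∀ t i p q, t ≤ 4 → ¬good j (t, i, p, q) := by
      rintro t i p q ht ⟨h1, _⟩
      have : 5 ≤ t := h1
      omega
    refine ⟨?_, ?_, ?_, ?_⟩
    · funext s
      fin_cases s
      · have := key (0, 0, 0, 0) (hl _ _ _ _ (by omega))
        simpa [kap, prT] using this
      · have := key (1, 0, 0, 0) (hl _ _ _ _ (by omega))
        simpa [kap, prT] using this
      · have := key (2, 0, 0, 0) (hl _ _ _ _ (by omega))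
        simpa [kap, prT] using this
    · refine tau_inj k _ ?_
      have h0 : ∀ p : ℕ × ℤ, (tau k (lval (bH k) l).a).coeff p = 0 := by
        rintro ⟨i, n⟩
        by_cases hn : n = 0
        · subst hn
          have := key (3, i, 0, 0) (hl _ _ _ _ (by omega))
          simpa [kap, prA, cfn_apply] using this
        · have e : (tau k (lval (bH k) l).a).coeff (i, n) =
              ((cfn k (i, n)).comp ((tau k).toLinearMap.comp (prA k))) (lval (bH k) l) := rfl
          rw [e, lin_lval]
          refine sum_zero_of fun p _ => ?_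
          obtain ⟨c, t, i', p', q'⟩ := p
          have e2 : ((cfn k (i, n)).comp ((tau k).toLinearMap.comp (prA k)))
              (bH k (t, i', p', q')) = (tau k (bH k (t, i', p', q')).a).coeff (i, n) := rfl
          show c * ((cfn k (i, n)).comp ((tau k).toLinearMap.comp (prA k)))
              (bH k (t, i', p', q')) = 0
          rw [e2]
          have ht : t = 0 ∨ t = 1 ∨ t = 2 ∨ t = 3 ∨ t = 4 ∨ ¬t ≤ 4 := by omega
          rcases ht with rfl | rfl | rfl | rfl | rfl | ht
          · simp [bH, eH]
          · simp [bH, eH]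
          · simp [bH, eH]
          · have e3 : (bH k (3, i', p', q')).a = T1 ^ i' := by simp [bH, eH]
            rw [e3, tau_T1, coeff_mo, if_neg, mul_zero]
            rw [Prod.mk.injEq]
            exact fun h => hn h.2
          · simp [bH, eH]
          · simp [bH, ht]
      refine AddMonoidAlgebra.ext ?_
      exact Finsupp.ext h0
    · have h0 : ∀ p : ℕ × ℤ, ((lval (bH k) l).b).coeff p = 0 := by
        rintro ⟨i, n⟩
        by_cases hn : i = 0
        · subst hn
          have := key (4, 0, n.toNat, (-n).toNat) (hl _ _ _ _ (by omega))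
          have e : ((n.toNat : ℤ) - ((-n).toNat : ℤ)) = n := by omega
          have e2 : kap k (4, 0, n.toNat, (-n).toNat) (lval (bH k) l) =
              (lval (bH k) l).b.coeff (0, (n.toNat : ℤ) - ((-n).toNat : ℤ)) := by
            simp [kap, prB, cfn_apply]
          rw [e2, e] at this
          exact this
        · have e : ((lval (bH k) l).b).coeff (i, n) =
              ((cfn k (i, n)).comp (prB k)) (lval (bH k) l) := rfl
          rw [e, lin_lval]
          refine sum_zero_of fun p _ => ?_
          obtain ⟨c, t, i', p', q'⟩ := p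
          have e2 : ((cfn k (i, n)).comp (prB k)) (bH k (t, i', p', q')) =
            ((bH k (t, i', p', q')).b).coeff (i, n) := rfl
          show c * ((cfn k (i, n)).comp (prB k)) (bH k (t, i', p', q')) = 0
          rw [e2]
          have ht : t = 0 ∨ t = 1 ∨ t = 2 ∨ t = 3 ∨ t = 4 ∨ ¬t ≤ 4 := by omega
          rcases ht with rfl | rfl | rfl | rfl | rfl | ht
          · simp [bH, eH]
          · simp [bH, eH]
          · simp [bH, eH]
          · simp [bH, eH]
          · have e3 : (bH k (4, i', p', q')).b = mo 0 ((p' : ℤ) - q') := by simp [bH, eH]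
            rw [e3, coeff_mo, if_neg, mul_zero]
            rw [Prod.mk.injEq]
            exact fun h => hn h.1
          · simp [bH, ht]
      refine AddMonoidAlgebra.ext ?_
      exact Finsupp.ext h0
    · rw [mem_JJ]
      rintro ⟨i, n⟩ hc
      by_contra hn
      apply hc
      have e : ((n.toNat : ℤ) - ((-n).toNat : ℤ)) = n := by omega
      have hg : ¬good j (5, i, n.toNat, (-n).toNat) := by
        rintro ⟨_, h1 | h1⟩
        · apply hn
          left
          have h2 : n.toNat ≤ i + (-n).toNat := h1
          show n ≤ (i : ℤ)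
          omega
        · exact hn (Or.inr h1)
      have := key (5, i, n.toNat, (-n).toNat) hg
      have e2 : kap k (5, i, n.toNat, (-n).toNat) (lval (bH k) l) =
          (lval (bH k) l).c.coeff (i, (n.toNat : ℤ) - ((-n).toNat : ℤ)) := by
        simp [kap, prC, cfn_apply]
      rw [e2, e] at this
      exact this

end test

end Pool.Agent.Lib.MP_240c17_al.Q2
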