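import Pool.Agent.Lib.MP_240c17_al.Q2.Cwp

/-!
# MP_240c17, project Q2: the structure constants are computable
-/

set_option autoImplicit false

namespace Pool.Agent.Lib.MP_240c17_al.Q2

universe u u1 u2

open Pool.Agent.Lib.MP_240c17_al

theorem comp_ite {α : Type u1} {σ : Type u2} [Primcodable α] [Primcodable σ] {c : α → Prop}
    [DecidablePred c] {f g : α → σ} (hc : PrimrecPred c) (hf : Computable f) (hg : Computable g) :
    Computable fun a => if c a then f a else g a := by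
  refine (Computable.cond hc.decide.to_comp hf hg).of_eq fun a => ?_
  by_cases h : c a
  · simp [h]
  · simp [h]

section
variable {α : Type u1} [Primcodable α]

theorem prim_nm {f1 f2 f3 f4 : α → ℕ} (h1 : Primrec f1) (h2 : Primrec f2) (h3 : Primrec f3)
    (h4 : Primrec f4) : Primrec fun x => ((f1 x, f2 x, f3 x, f4 x) : Nm) :=
  Primrec.pair h1 (Primrec.pair h2 (Primrec.pair h3 h4))

theorem prim_addc {f : α → ℕ} (h : Primrec f) (c : ℕ) : Primrec fun x => f x + c :=
  Primrec.nat_add.comp h (Primrec.const c)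

theorem pp_eqc {f : α → ℕ} (h : Primrec f) (c : ℕ) : PrimrecPred fun x => f x = c :=
  Primrec.eq.comp h (Primrec.const c)

theorem pp_ltc {f : α → ℕ} (h : Primrec f) (c : ℕ) : PrimrecPred fun x => f x < c :=
  Primrec.nat_lt.comp h (Primrec.const c)

variable {k : Type u} [Primcodable k]

theorem comp_l1 {n : α → Nm} (c : k) (hn : Primrec n) : Computable fun x => [((c, n x) : k × Nm)] :=
  Computable.list_cons.comp ((Computable.const c).pair hn.to_comp) (Computable.const [])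

theorem comp_l2 {m n : α → Nm} (c d : k) (hm : Primrec m) (hn : Primrec n) :
    Computable fun x => [((c, m x) : k × Nm), ((d, n x) : k × Nm)] :=
  Computable.list_cons.comp ((Computable.const c).pair hm.to_comp) (comp_l1 d hn)

theorem comp_l3 {l m n : α → Nm} (b c d : k) (hl : Primrec l) (hm : Primrec m) (hn : Primrec n) :
    Computable fun x => [((b, l x) : k × Nm), ((c, m x) : k × Nm), ((d, n x) : k × Nm)] :=
  Computable.list_cons.comp ((Computable.const b).pair hl.to_comp) (comp_l2 c d hm hn)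

end

section
variable (k : Type u) [Field k] [Primcodable k]

theorem comp_tor0 : Computable fun x : ℕ × Nm =>
    if x.1 = 0 then [((1 : k), ((4, 0, x.2.2.2.1, x.2.2.2.2 + 2) : Nm)),
        (-1, (4, 0, x.2.2.2.1, x.2.2.2.2))] else
     if x.1 = 1 then [(1, (4, 0, x.2.2.2.1, x.2.2.2.2 + 1)), (-1, (4, 0, x.2.2.2.1 + 1, x.2.2.2.2))]
     else [(1, (4, 0, x.2.2.2.1, x.2.2.2.2)), (-1, (4, 0, x.2.2.2.1 + 2, x.2.2.2.2))] := by
  have q0 : Primrec fun x : ℕ × Nm => x.1 := Primrec.fst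
  have q3 : Primrec fun x : ℕ × Nm => x.2.2.2.1 :=
    Primrec.fst.comp (Primrec.snd.comp (Primrec.snd.comp Primrec.snd))
  have q4 : Primrec fun x : ℕ × Nm => x.2.2.2.2 :=
    Primrec.snd.comp (Primrec.snd.comp (Primrec.snd.comp Primrec.snd))
  have c4 : Primrec fun _ : ℕ × Nm => 4 := Primrec.const 4
  have c0 : Primrec fun _ : ℕ × Nm => 0 := Primrec.const 0
  exact comp_ite (pp_eqc q0 0)
    (comp_l2 1 (-1) (prim_nm c4 c0 q3 (prim_addc q4 2)) (prim_nm c4 c0 q3 q4))
    (comp_ite (pp_eqc q0 1)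
      (comp_l2 1 (-1) (prim_nm c4 c0 q3 (prim_addc q4 1)) (prim_nm c4 c0 (prim_addc q3 1) q4))
      (comp_l2 1 (-1) (prim_nm c4 c0 q3 q4) (prim_nm c4 c0 (prim_addc q3 2) q4)))

theorem comp_tor1 : Computable fun x : ℕ × Nm =>
    if x.1 = 0 then [((1 : k), ((5, x.2.2.1, x.2.2.2.1, x.2.2.2.2 + 2) : Nm))] else
    if x.1 = 1 then [(1, (5, x.2.2.1 + 1, x.2.2.2.1, x.2.2.2.2)),
      (-1, (5, x.2.2.1, x.2.2.2.1 + 1, x.2.2.2.2)), (1, (5, x.2.2.1, x.2.2.2.1, x.2.2.2.2 + 1))]
    else [(1, (5, x.2.2.1 + 2, x.2.2.2.1, x.2.2.2.2)),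
      (-1, (5, x.2.2.1, x.2.2.2.1 + 2, x.2.2.2.2)), (1, (5, x.2.2.1, x.2.2.2.1, x.2.2.2.2))] := by
  have q0 : Primrec fun x : ℕ × Nm => x.1 := Primrec.fst
  have q2 : Primrec fun x : ℕ × Nm => x.2.2.1 :=
    Primrec.fst.comp (Primrec.snd.comp Primrec.snd)
  have q3 : Primrec fun x : ℕ × Nm => x.2.2.2.1 :=
    Primrec.fst.comp (Primrec.snd.comp (Primrec.snd.comp Primrec.snd))
  have q4 : Primrec fun x : ℕ × Nm => x.2.2.2.2 :=
    Primrec.snd.comp (Primrec.snd.comp (Primrec.snd.comp Primrec.snd))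
  have c5 : Primrec fun _ : ℕ × Nm => 5 := Primrec.const 5
  exact comp_ite (pp_eqc q0 0) (comp_l1 1 (prim_nm c5 q2 q3 (prim_addc q4 2)))
    (comp_ite (pp_eqc q0 1)
      (comp_l3 1 (-1) 1 (prim_nm c5 (prim_addc q2 1) q3 q4) (prim_nm c5 q2 (prim_addc q3 1) q4)
        (prim_nm c5 q2 q3 (prim_addc q4 1)))
      (comp_l3 1 (-1) 1 (prim_nm c5 (prim_addc q2 2) q3 q4) (prim_nm c5 q2 (prim_addc q3 2) q4)
        (prim_nm c5 q2 q3 q4)))

theorem comp_tor : Computable₂ (tor k) := by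
  have q0 : Primrec fun x : ℕ × Nm => x.1 := Primrec.fst
  have q1 : Primrec fun x : ℕ × Nm => x.2.1 := Primrec.fst.comp Primrec.snd
  have q2 : Primrec fun x : ℕ × Nm => x.2.2.1 :=
    Primrec.fst.comp (Primrec.snd.comp Primrec.snd)
  have c3 : Primrec fun _ : ℕ × Nm => 3 := Primrec.const 3
  have c0 : Primrec fun _ : ℕ × Nm => 0 := Primrec.const 0
  exact comp_ite (pp_eqc q1 3) (comp_l1 1 (prim_nm c3 (Primrec.nat_add.comp q2 q0) c0 c0))
    (comp_ite (pp_eqc q1 4) (comp_tor0 k) (comp_tor1 k))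

theorem comp_sH [CompField k] : Computable₂ (sH k) := by
  have a1 : Primrec fun x : Nm × Nm => x.1.1 := Primrec.fst.comp Primrec.fst
  have a2 : Primrec fun x : Nm × Nm => x.1.2.1 :=
    Primrec.fst.comp (Primrec.snd.comp Primrec.fst)
  have a3 : Primrec fun x : Nm × Nm => x.1.2.2.1 :=
    Primrec.fst.comp (Primrec.snd.comp (Primrec.snd.comp Primrec.fst))
  have a4 : Primrec fun x : Nm × Nm => x.1.2.2.2 :=
    Primrec.snd.comp (Primrec.snd.comp (Primrec.snd.comp Primrec.fst))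
  have b1 : Primrec fun x : Nm × Nm => x.2.1 := Primrec.fst.comp Primrec.snd
  have b2 : Primrec fun x : Nm × Nm => x.2.2.1 :=
    Primrec.fst.comp (Primrec.snd.comp Primrec.snd)
  have b3 : Primrec fun x : Nm × Nm => x.2.2.2.1 :=
    Primrec.fst.comp (Primrec.snd.comp (Primrec.snd.comp Primrec.snd))
  have b4 : Primrec fun x : Nm × Nm => x.2.2.2.2 :=
    Primrec.snd.comp (Primrec.snd.comp (Primrec.snd.comp Primrec.snd))
  have c5 : Primrec fun _ : Nm × Nm => 5 := Primrec.const 5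
  have t1 : Computable fun x : Nm × Nm => tor k x.2.1 x.1 :=
    (comp_tor k).comp b1.to_comp Computable.fst
  have t2 : Computable fun x : Nm × Nm => (tor k x.1.1 x.2).map fun p => (((-1 : k) * p.1, p.2) : k × Nm) := by
    have t3 : Computable fun x : Nm × Nm => tor k x.1.1 x.2 :=
      (comp_tor k).comp a1.to_comp Computable.snd
    have t4 : Computable₂ fun (_ : Nm × Nm) (p : k × Nm) => (((-1 : k) * p.1, p.2) : k × Nm) :=
      Computable.pair (CompField.mul.comp (Computable.const (-1 : k))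
        (Computable.fst.comp Computable.snd)) (Computable.snd.comp Computable.snd)
    exact comp_map t3 t4
  exact comp_ite (pp_ltc b1 3) (comp_ite (pp_ltc a1 3) (Computable.const []) t1)
    (comp_ite (pp_ltc a1 3) t2
      (comp_ite ((pp_eqc a1 3).and (pp_eqc b1 4)) (comp_l1 1 (prim_nm c5 a2 b3 b4))
        (comp_ite ((pp_eqc a1 4).and (pp_eqc b1 3)) (comp_l1 (-1) (prim_nm c5 b2 a3 a4))
          (Computable.const []))))

end

end Pool.Agent.Lib.MP_240c17_al.Q2
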