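import Pool.Agent.Lib.MP_240c17_al.Q2.Sc
import Pool.Agent.Lib.MP_240c17_al.Q2.ScC
import Pool.Agent.Lib.MP_240c17_al.Q2.Mem2

/-!
# MP_240c17, project Q2: the word problem of `G_j` is decidable
-/

set_option autoImplicit false

namespace Pool.Agent.Lib.MP_240c17_al.Q2

universe u

open Pool.Agent.Lib.MP_240c17_al

/-! ## the change of basis is computable -/

theorem comp_ex : Computable fun x : (ℕ × ℕ) × ℕ => ex x.1.1 x.1.2 x.2 := by
  have h0 : Computable fun x : (ℕ × ℕ) × ℕ => [((0, x.1.1, x.1.2) : ℕ × ℕ × ℕ)] :=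
    Computable.list_cons.comp (Computable.pair (Computable.const 0)
      (Computable.pair (Computable.fst.comp Computable.fst)
        (Computable.snd.comp Computable.fst))) (Computable.const [])
  have h1 : Computable₂ fun (x : (ℕ × ℕ) × ℕ) (y : ℕ × List (ℕ × ℕ × ℕ)) =>
      y.2.flatMap fun t => [(t.1 + 1, t.2.1, t.2.2), (t.1, t.2.1 + 1, t.2.2)] := by
    have b1 : Computable fun z : ((ℕ × ℕ) × ℕ) × (ℕ × List (ℕ × ℕ × ℕ)) => z.2.2 :=
      Computable.snd.comp Computable.snd
    have b2 : Computable₂ fun (_ : ((ℕ × ℕ) × ℕ) × (ℕ × List (ℕ × ℕ × ℕ))) (t : ℕ × ℕ × ℕ) =>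
        [(t.1 + 1, t.2.1, t.2.2), (t.1, t.2.1 + 1, t.2.2)] := by
      have c1 : Primrec fun z : (((ℕ × ℕ) × ℕ) × (ℕ × List (ℕ × ℕ × ℕ))) × (ℕ × ℕ × ℕ) => z.2.1 :=
        Primrec.fst.comp Primrec.snd
      have c2 : Primrec fun z : (((ℕ × ℕ) × ℕ) × (ℕ × List (ℕ × ℕ × ℕ))) × (ℕ × ℕ × ℕ) =>
          z.2.2.1 := Primrec.fst.comp (Primrec.snd.comp Primrec.snd)
      have c3 : Primrec fun z : (((ℕ × ℕ) × ℕ) × (ℕ × List (ℕ × ℕ × ℕ))) × (ℕ × ℕ × ℕ) =>
          z.2.2.2 := Primrec.snd.comp (Primrec.snd.comp Primrec.snd)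
      exact (Primrec.list_cons.comp (Primrec.pair (prim_addc c1 1) (Primrec.pair c2 c3))
        (Primrec.list_cons.comp (Primrec.pair c1 (Primrec.pair (prim_addc c2 1) c3))
          (Primrec.const []))).to_comp
    exact comp_flatMap b1 b2
  have h2 := Computable.nat_rec (f := fun x : (ℕ × ℕ) × ℕ => x.2) Computable.snd h0 h1
  refine h2.of_eq fun x => ?_
  obtain ⟨⟨p, q⟩, i⟩ := x
  show (Nat.rec [(0, p, q)] (fun _ IH => IH.flatMap fun t =>
    [(t.1 + 1, t.2.1, t.2.2), (t.1, t.2.1 + 1, t.2.2)]) i : List (ℕ × ℕ × ℕ)) = ex p q i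
  induction i with
  | zero => rfl
  | succ i ih =>
    show (Nat.rec [(0, p, q)] (fun _ IH => IH.flatMap fun t =>
      [(t.1 + 1, t.2.1, t.2.2), (t.1, t.2.1 + 1, t.2.2)]) i : List (ℕ × ℕ × ℕ)).flatMap _ = _
    rw [ih]
    rfl

section
variable (k : Type u) [Field k] [Primcodable k]

theorem comp_cvt : Computable (cvt k) := by
  have h1 : Computable₂ fun (_ : List (k × Nm)) (p : k × Nm) =>
      if p.2.1 ≤ 4 then [p] else
        (ex p.2.2.2.1 p.2.2.2.2 p.2.2.1).map fun t => (p.1, ((5, t.1, t.2.1, t.2.2) : Nm)) := by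
    have c1 : PrimrecPred fun x : List (k × Nm) × (k × Nm) => x.2.2.1 ≤ 4 :=
      Primrec.nat_le.comp (Primrec.fst.comp (Primrec.snd.comp Primrec.snd)) (Primrec.const 4)
    have c2 : Computable fun x : List (k × Nm) × (k × Nm) => [x.2] :=
      Computable.list_cons.comp Computable.snd (Computable.const [])
    have c3 : Computable fun x : List (k × Nm) × (k × Nm) =>
        ex x.2.2.2.2.1 x.2.2.2.2.2 x.2.2.2.1 := by
      have d1 : Computable fun x : List (k × Nm) × (k × Nm) =>
          (((x.2.2.2.2.1, x.2.2.2.2.2), x.2.2.2.1) : (ℕ × ℕ) × ℕ) := by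
        have d2 : Computable fun x : List (k × Nm) × (k × Nm) => x.2.2.2 :=
          Computable.snd.comp (Computable.snd.comp Computable.snd)
        exact Computable.pair (Computable.snd.comp d2) (Computable.fst.comp d2)
      exact comp_ex.comp d1
    have c4 : Computable₂ fun (x : List (k × Nm) × (k × Nm)) (t : ℕ × ℕ × ℕ) =>
        (x.2.1, ((5, t.1, t.2.1, t.2.2) : Nm)) := by
      have d3 : Computable fun y : (List (k × Nm) × (k × Nm)) × (ℕ × ℕ × ℕ) => y.1.2.1 :=
        Computable.fst.comp (Computable.snd.comp Computable.fst)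
      have d4 : Computable fun y : (List (k × Nm) × (k × Nm)) × (ℕ × ℕ × ℕ) =>
          ((5, y.2.1, y.2.2.1, y.2.2.2) : Nm) :=
        Computable.pair (Computable.const 5) Computable.snd
      exact Computable.pair d3 d4
    exact comp_ite c1 c2 (comp_map c3 c4)
  exact comp_flatMap Computable.id h1

end

/-! ## the test is computable -/

theorem pp_sameB : PrimrecPred fun x : Nm × Nm => sameB x.1 x.2 := by
  have a1 : Primrec fun x : Nm × Nm => x.1.1 := Primrec.fst.comp Primrec.fst
  have a2 : Primrec fun x : Nm × Nm => x.1.2.1 :=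
    Primrec.fst.comp (Primrec.snd.comp Primrec.fst)
  have a3 : Primrec fun x : Nm × Nm => x.1.2.2.1 :=
    Primrec.fst.comp (Primrec.snd.comp (Primrec.snd.comp Primrec.fst))
  have a4 : Primrec fun x : Nm × Nm => x.1.2.2.2 :=
    Primrec.snd.comp (Primrec.snd.comp (Primrec.snd.comp Primrec.fst))
  have b1 : Primrec fun x : Nm × Nm => x.2.1 := Primrec.fst.comp Primrec.snd
  have b2 : Primrec fun x : Nm × Nm => x.2.2.1 :=
    Primrec.fst.comp (Primrec.snd.comp Primrec.snd)
  have b3 : Primrec fun x : Nm × Nm => x.2.2.2.1 :=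
    Primrec.fst.comp (Primrec.snd.comp (Primrec.snd.comp Primrec.snd))
  have b4 : Primrec fun x : Nm × Nm => x.2.2.2.2 :=
    Primrec.snd.comp (Primrec.snd.comp (Primrec.snd.comp Primrec.snd))
  have c1 : PrimrecPred fun x : Nm × Nm => x.1.1 = x.2.1 ∨ (5 ≤ x.1.1 ∧ 5 ≤ x.2.1) :=
    (Primrec.eq.comp a1 b1).or ((Primrec.nat_le.comp (Primrec.const 5) a1).and
      (Primrec.nat_le.comp (Primrec.const 5) b1))
  have c2 : PrimrecPred fun x : Nm × Nm => x.1.1 < 3 ∨ x.1.1 = 4 ∨ x.1.2.1 = x.2.2.1 :=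
    (pp_ltc a1 3).or ((pp_eqc a1 4).or (Primrec.eq.comp a2 b2))
  have c3 : PrimrecPred fun x : Nm × Nm =>
      x.1.1 < 4 ∨ x.1.2.2.1 + x.2.2.2.2 = x.2.2.2.1 + x.1.2.2.2 :=
    (pp_ltc a1 4).or (Primrec.eq.comp (Primrec.nat_add.comp a3 b4) (Primrec.nat_add.comp b3 a4))
  exact c1.and (c2.and c3)

theorem pp_good (j : ℕ∞) : PrimrecPred fun m : Nm => good j m := by
  have a1 : Primrec fun x : Nm => x.1 := Primrec.fst
  have a2 : Primrec fun x : Nm => x.2.1 := Primrec.fst.comp Primrec.snd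
  have a3 : Primrec fun x : Nm => x.2.2.1 := Primrec.fst.comp (Primrec.snd.comp Primrec.snd)
  have a4 : Primrec fun x : Nm => x.2.2.2 := Primrec.snd.comp (Primrec.snd.comp Primrec.snd)
  have c1 : PrimrecPred fun m : Nm => 5 ≤ m.1 := Primrec.nat_le.comp (Primrec.const 5) a1
  have c2 : PrimrecPred fun m : Nm => m.2.2.1 ≤ m.2.1 + m.2.2.2 :=
    Primrec.nat_le.comp a3 (Primrec.nat_add.comp a2 a4)
  cases j with
  | top =>
    refine (c1.and c2).of_eq fun m => ?_
    constructor
    · rintro ⟨h1, h2⟩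
      exact ⟨h1, Or.inl h2⟩
    · rintro ⟨h1, h2 | h2⟩
      · exact ⟨h1, h2⟩
      · exact absurd (top_le_iff.mp h2) (ENat.natCast_ne_top _)
  | coe j =>
    have c3 : PrimrecPred fun m : Nm => j ≤ m.2.1 := Primrec.nat_le.comp (Primrec.const j) a2
    refine (c1.and (c2.or c3)).of_eq fun m => ?_
    constructor
    · rintro ⟨h1, h2 | h2⟩
      · exact ⟨h1, Or.inl h2⟩
      · exact ⟨h1, Or.inr (by exact_mod_cast h2)⟩
    · rintro ⟨h1, h2 | h2⟩
      · exact ⟨h1, Or.inl h2⟩
      · exact ⟨h1, Or.inr (by exact_mod_cast h2)⟩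

section
variable (k : Type u) [Field k] [Primcodable k] [CompField k]

theorem comp_cf : Computable₂ fun (m : Nm) (l : List (k × Nm)) => cf m l := by
  have h1 : Computable₂ fun (x : Nm × List (k × Nm)) (y : k × (k × Nm)) =>
      if sameB x.1 y.2.2 then y.1 + y.2.1 else y.1 := by
    have c1 : PrimrecPred fun z : (Nm × List (k × Nm)) × (k × (k × Nm)) =>
        sameB z.1.1 z.2.2.2 :=
      pp_sameB.comp (Primrec.pair (Primrec.fst.comp Primrec.fst)
        (Primrec.snd.comp (Primrec.snd.comp Primrec.snd)))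
    have c2 : Computable fun z : (Nm × List (k × Nm)) × (k × (k × Nm)) => z.2.1 + z.2.2.1 :=
      CompField.add.comp (Computable.fst.comp Computable.snd)
        (Computable.fst.comp (Computable.snd.comp Computable.snd))
    have c3 : Computable fun z : (Nm × List (k × Nm)) × (k × (k × Nm)) => z.2.1 :=
      Computable.fst.comp Computable.snd
    exact comp_ite c1 c2 c3
  have h2 := comp_foldl (f := fun x : Nm × List (k × Nm) => x.2) Computable.snd
    (Computable.const (0 : k)) h1
  refine h2.of_eq fun x => ?_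
  obtain ⟨m, l⟩ := x
  have key : ∀ (l : List (k × Nm)) (s : k),
      l.foldl (fun s b => if sameB m b.2 then s + b.1 else s) s = s + cf m l := by
    intro l
    induction l with
    | nil =>
      intro s
      rw [cf_nil, add_zero]
      rfl
    | cons p l ih =>
      intro s
      rw [List.foldl_cons, ih, cf_cons]
      by_cases h : sameB m p.2
      · rw [if_pos h, if_pos h, add_assoc]
      · rw [if_neg h, if_neg h, zero_add]
  have h3 := key l 0
  rw [zero_add] at h3
  exact h3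

theorem cp_test (j : ℕ∞) :
    ComputablePred fun l : List (k × Nm) => ∀ p ∈ l, good j p.2 ∨ cf p.2 l = 0 := by
  classical
  have h1 : Computable₂ fun (l : List (k × Nm)) (p : k × Nm) =>
      if good j p.2 then true else decide (cf p.2 l = 0) := by
    have c1 : PrimrecPred fun x : List (k × Nm) × (k × Nm) => good j x.2.2 :=
      (pp_good j).comp (Primrec.snd.comp Primrec.snd)
    have c2 : Computable fun x : List (k × Nm) × (k × Nm) => cf x.2.2 x.1 :=
      (comp_cf k).comp (Computable.snd.comp Computable.snd) Computable.fst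
    have c3 : Computable fun a : k => decide (a = 0) := by
      have c4 : PrimrecPred fun a : k => a = 0 :=
        Primrec.eq.comp Primrec.id (Primrec.const 0)
      exact c4.decide.to_comp
    exact comp_ite c1 (Computable.const true) (c3.comp c2)
  have h2 := comp_all (f := fun l : List (k × Nm) => l) Computable.id h1
  refine ⟨inferInstance, h2.of_eq fun l => ?_⟩
  rw [Bool.eq_iff_iff, List.all_eq_true, decide_eq_true_iff]
  refine forall₂_congr fun p _ => ?_
  by_cases h : good j p.2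
  · rw [if_pos h]
    exact ⟨fun _ => Or.inl h, fun _ => rfl⟩
  · rw [if_neg h, decide_eq_true_iff]
    exact ⟨Or.inr, fun h' => h'.resolve_left h⟩

/-- the generators as lists of terms -/
def gl6 (k : Type u) [Field k] : Fin 6 → List (k × Nm) :=
  ![[(1, (0, 0, 0, 0))], [(1, (1, 0, 0, 0))], [(1, (2, 0, 0, 0))], [(1, (3, 0, 0, 0))],
    [(1, (4, 0, 0, 0))], [(1, (4, 0, 1, 0))]]

omit [Primcodable k] [CompField k] in
theorem gl6_spec (i : Fin 6) : lval (eH k) (gl6 k i) = gens k i := by
  fin_cases i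
  · show lval (eH k) [(1, (0, 0, 0, 0))] = ⟨Pi.single 0 1, 0, 0, 0⟩
    rw [lval_one, one_smul]
    simp [eH]
  · show lval (eH k) [(1, (1, 0, 0, 0))] = ⟨Pi.single 1 1, 0, 0, 0⟩
    rw [lval_one, one_smul]
    simp [eH]
  · show lval (eH k) [(1, (2, 0, 0, 0))] = ⟨Pi.single 2 1, 0, 0, 0⟩
    rw [lval_one, one_smul]
    simp [eH]
  · show lval (eH k) [(1, (3, 0, 0, 0))] = ⟨0, 1, 0, 0⟩
    rw [lval_one, one_smul]
    simp [eH]
  · show lval (eH k) [(1, (4, 0, 0, 0))] = ⟨0, 0, 1, 0⟩
    rw [lval_one, one_smul]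
    simp [eH, mo_zero]
  · show lval (eH k) [(1, (4, 0, 1, 0))] = ⟨0, 0, mo 0 1, 0⟩
    rw [lval_one, one_smul]
    simp [eH]

end

section map
variable {k : Type u} [Field k] {L M : Type u} [LieRing L] [LieAlgebra k L] [LieRing M]
  [LieAlgebra k M]

theorem map_rstep (f : L →ₗ⁅k⁆ M) {n : ℕ} (x : Fin n → L) (st : List L) (o : Option (Fin n)) :
    (rstep x st o).map f = rstep (fun i => f (x i)) (st.map f) o := by
  cases o with
  | some i => rfl
  | none =>
    rcases st with _ | ⟨b, _ | ⟨a, r⟩⟩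
    · rfl
    · rfl
    · show (⁅a, b⁆ :: r).map f = ⁅f a, f b⁆ :: r.map f
      rw [List.map_cons, LieHom.map_lie]

theorem map_foldl (f : L →ₗ⁅k⁆ M) {n : ℕ} (x : Fin n → L) (w : List (Option (Fin n))) :
    ∀ st : List L, (w.foldl (rstep x) st).map f = w.foldl (rstep fun i => f (x i)) (st.map f) := by
  induction w with
  | nil => intro st; rfl
  | cons o w ih =>
    intro st
    rw [List.foldl_cons, List.foldl_cons, ih, map_rstep]

theorem map_rfin (f : L →ₗ⁅k⁆ M) (st : List L) : f (rfin st) = rfin (st.map f) := by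
  rcases st with _ | ⟨a, _ | ⟨b, r⟩⟩
  · exact map_zero f
  · rfl
  · exact map_zero f

theorem map_monVal (f : L →ₗ⁅k⁆ M) {n : ℕ} (x : Fin n → L) (w : List (Option (Fin n))) :
    f (monVal x w) = monVal (fun i => f (x i)) w := by
  rw [monVal, map_rfin, map_foldl]
  rfl

theorem map_linVal (f : L →ₗ⁅k⁆ M) {n : ℕ} (x : Fin n → L) (l : List (k × List (Option (Fin n)))) :
    f (linVal x l) = linVal (fun i => f (x i)) l := by
  induction l with
  | nil => exact map_zero f
  | cons p l ih =>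
    have h1 : linVal x (p :: l) = p.1 • monVal x p.2 + linVal x l := by
      show ((p :: l).map fun p => p.1 • monVal x p.2).sum = _
      rw [List.map_cons, List.sum_cons]
      rfl
    have h2 : linVal (fun i => f (x i)) (p :: l) =
        p.1 • monVal (fun i => f (x i)) p.2 + linVal (fun i => f (x i)) l := by
      show ((p :: l).map fun p => p.1 • monVal (fun i => f (x i)) p.2).sum = _
      rw [List.map_cons, List.sum_cons]
      rfl
    rw [h1, h2, map_add, map_smul, ih, map_monVal]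

end map

/-- **WP**: the word problem is decidable -/
def S_WP : Prop :=
  ∀ (k : Type u) [Field k] [Primcodable k] [CompField k] (j : ℕ∞), DecWP (qMk (kerJ k j))

theorem tWP : S_WP.{u} := by
  intro k _ _ _ j
  have h1 : Computable fun l : List (k × List (Option (Fin 6))) => cvt k (linC (sH k) (gl6 k) l) :=
    (comp_cvt k).comp (comp_linC (comp_sH k) (gl6 k))
  have h2 := (cp_test k j)
  obtain ⟨d, hd⟩ := h2
  have h3 : ComputablePred fun l : List (k × List (Option (Fin 6))) =>
      ∀ p ∈ cvt k (linC (sH k) (gl6 k) l), good j p.2 ∨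
        cf p.2 (cvt k (linC (sH k) (gl6 k) l)) = 0 :=
    ⟨fun l => d _, hd.comp h1⟩
  refine h3.of_eq fun l => ?_
  rw [← inK_iff, cvt_spec, linC_spec (sH_spec k)]
  have h4 : (fun i => lval (eH k) (gl6 k i)) = fun i => Phi k (FreeLieAlgebra.of k i) := by
    funext i
    rw [gl6_spec, Phi, FreeLieAlgebra.lift_of_apply]
  rw [h4, ← map_linVal (Phi k)]
  exact (qMk_eq_zero (kerJ k j) _).symm

end Pool.Agent.Lib.MP_240c17_al.Q2
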