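import Pool.Agent.Lib.MP_240c17_al.Q2.Spec
import Pool.Agent.Lib.MP_240c17_al.Q2.WP

/-!
# MP_240c17, project Q2: assembly
-/

set_option autoImplicit false

namespace Pool.Agent.Lib.MP_240c17_al.Q2

universe u

open Pool.Agent.Lib.MP_240c17_al

/-- the Lie algebra `G_j` has a finite relative presentation -/
theorem layer_pres (hAbs : S_Abs.{u}) (hLay : S_Lay.{u}) (k : Type u) [Field k] [Infinite k]
    (h2 : (2 : k) ≠ 0) (Id : Set (FreeLieAlgebra k ℕ)) (hI : NoId Id) :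
    ∃ j : ℕ∞, 0 < j ∧ ∃ S : Finset (FreeLieAlgebra k (Fin 6)), kerJ k j = verbalIdeal Id 6 ⊔
      LieSubmodule.lieSpan k (FreeLieAlgebra k (Fin 6)) (S : Set (FreeLieAlgebra k (Fin 6))) := by
  classical
  obtain ⟨j, hj, S, hS⟩ := hLay k Id hI
  obtain ⟨T, hT⟩ := hAbs k h2
  refine ⟨j, hj, T ∪ S, ?_⟩
  rw [hS, hT, Finset.coe_union, LieSubmodule.span_union]

/-- necessity for the algebras with decidable word problem -/
theorem dw_of (hAbs : S_Abs.{u}) (hLay : S_Lay.{u}) (hN : S_Nrfd.{u}) (k : Type u) [Field k]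
    [Infinite k] [Primcodable k] [CompField k] (h2 : (2 : k) ≠ 0) (Id : Set (FreeLieAlgebra k ℕ))
    (h : ∀ (L : Type u) [LieRing L] [LieAlgebra k L], RelFPDec Id L →
      ResiduallyFiniteDimensional k L) :
    ∃ (m : ℕ) (c : ℕ → k), (∃ i ≤ m, c i ≠ 0) ∧
      ∀ (L : Type u) [LieRing L] [LieAlgebra k L], InVariety Id L → ∀ a b y : L,
        ∑ i ∈ Finset.range (m + 1),
          c i • ⁅(fun l => ⁅l, y⁆)^[i] a, (fun l => ⁅l, y⁆)^[m - i] b⁆ = 0 := by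
  by_contra hno
  push Not at hno
  have hI : NoId Id := by
    intro m c hc i hi
    by_contra hne
    obtain ⟨L, _, _, hL, a, b, y, hne'⟩ := hno m c ⟨i, by simpa [Nat.lt_succ_iff] using hi, hne⟩
    exact hne' (hc L hL a b y)
  obtain ⟨j, hj, S, hS⟩ := layer_pres hAbs hLay k h2 Id hI
  have hfp : RelFPDec Id (Gq k j) :=
    ⟨6, qMk (kerJ k j), S, qMk_surjective _, (qMk_ker _).trans hS, tWP k j⟩
  exact hN k j hj (h _ hfp)

/-- an absolutely finitely presented algebra of `N₂A` that is not residually finite dimensional -/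
theorem ab_of (hAbs : S_Abs.{u}) (hN : S_Nrfd.{u}) (hA : S_N2A.{u}) (k : Type u) [Field k]
    (h2 : (2 : k) ≠ 0) :
    ∃ (J : LieIdeal k (FreeLieAlgebra k (Fin 6))) (S : Finset (FreeLieAlgebra k (Fin 6))),
      J = LieSubmodule.lieSpan k (FreeLieAlgebra k (Fin 6)) (S : Set (FreeLieAlgebra k (Fin 6))) ∧
      (∀ a b c d e f : FreeLieAlgebra k (Fin 6) ⧸ J, ⁅⁅⁅a, b⁆, ⁅c, d⁆⁆, ⁅e, f⁆⁆ = 0) ∧
      ¬ResiduallyFiniteDimensional k (FreeLieAlgebra k (Fin 6) ⧸ J) ∧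
      ∀ [Primcodable k] [CompField k], DecWP (qMk J) := by
  obtain ⟨S, hS⟩ := hAbs k h2
  refine ⟨kerJ k ⊤, S, hS, hA k ⊤, hN k ⊤ (by simp), ?_⟩
  intro _ _
  exact tWP k ⊤

end Pool.Agent.Lib.MP_240c17_al.Q2
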