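import Mathlib.Computability.Halting

/-!
# MP_240c17, project Q2: computable recursion on lists
-/

set_option autoImplicit false

namespace Pool.Agent.Lib.MP_240c17_al.Q2

universe u1 u2 u3

section
variable {α : Type u1} {β : Type u2} {σ : Type u3} [Primcodable α] [Primcodable β] [Primcodable σ]

/-- one step of the recursion -/
theorem comp_step {f : α → List β} {h : α → σ × β → σ} (hf : Computable f) (hh : Computable₂ h) :
    Computable₂ fun (a : α) (p : ℕ × σ) =>
      ((f a)[p.1]?).elim p.2 fun b => h a (p.2, b) := by
  have h1 : Computable fun x : α × (ℕ × σ) => (f x.1)[x.2.1]? :=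
    Computable.list_getElem?.comp (hf.comp Computable.fst) (Computable.fst.comp Computable.snd)
  have h2 : Computable fun x : α × (ℕ × σ) => x.2.2 := Computable.snd.comp Computable.snd
  have h3 : Computable₂ fun (x : α × (ℕ × σ)) (b : β) => h x.1 (x.2.2, b) :=
    hh.comp (Computable.fst.comp Computable.fst)
      ((h2.comp Computable.fst).pair Computable.snd)
  refine (Computable.option_casesOn h1 h2 h3).of_eq fun x => ?_
  show (Option.casesOn ((f x.1)[x.2.1]?) x.2.2 fun b => h x.1 (x.2.2, b) : σ) =
    ((f x.1)[x.2.1]?).elim x.2.2 fun b => h x.1 (x.2.2, b)
  cases (f x.1)[x.2.1]? <;> rfl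

/-- computable folds -/
theorem comp_foldl {f : α → List β} {g : α → σ} {h : α → σ × β → σ} (hf : Computable f)
    (hg : Computable g) (hh : Computable₂ h) :
    Computable fun a => (f a).foldl (fun s b => h a (s, b)) (g a) := by
  have h1 := Computable.nat_rec (Computable.list_length.comp hf) hg (comp_step hf hh)
  refine h1.of_eq fun a => ?_
  have key : ∀ n, n ≤ (f a).length →
      (Nat.rec (motive := fun _ => σ) (g a)
        (fun y IH => ((f a)[y]?).elim IH fun b => h a (IH, b)) n : σ) =
      ((f a).take n).foldl (fun s b => h a (s, b)) (g a) := by
    intro n
    induction n with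
    | zero => intro _; rfl
    | succ n ih =>
      intro hn
      have e1 := ih (by omega)
      have hlt : n < (f a).length := by omega
      show ((f a)[n]?).elim _ (fun b => h a (_, b)) = _
      rw [List.take_succ_eq_append_getElem hlt, List.foldl_append, ← e1,
        List.getElem?_eq_getElem hlt]
      rfl
  have e2 := key (f a).length le_rfl
  rw [List.take_length] at e2
  exact e2

theorem comp_flatMap {f : α → List β} {h : α → β → List σ} (hf : Computable f)
    (hh : Computable₂ h) : Computable fun a => (f a).flatMap (h a) := by
  have h1 : Computable₂ fun (a : α) (p : List σ × β) => p.1 ++ h a p.2 :=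
    Computable.list_append.comp (Computable.fst.comp Computable.snd)
      (hh.comp Computable.fst (Computable.snd.comp Computable.snd))
  have h2 := comp_foldl hf (Computable.const ([] : List σ)) h1
  refine h2.of_eq fun a => ?_
  have key : ∀ (l : List β) (s : List σ),
      l.foldl (fun s b => s ++ h a b) s = s ++ l.flatMap (h a) := by
    intro l
    induction l with
    | nil => intro s; simp
    | cons b l ih =>
      intro s
      rw [List.foldl_cons, ih, List.flatMap_cons, List.append_assoc]
  exact key (f a) []

theorem comp_map {f : α → List β} {h : α → β → σ} (hf : Computable f) (hh : Computable₂ h) :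
    Computable fun a => (f a).map (h a) := by
  have h1 : Computable₂ fun (a : α) (b : β) => [h a b] :=
    Computable.list_cons.comp hh (Computable.const [])
  refine (comp_flatMap hf h1).of_eq fun a => ?_
  induction f a with
  | nil => rfl
  | cons b l ih => rw [List.flatMap_cons, ih]; rfl

/-- computable bounded quantifiers over lists -/
theorem comp_all {f : α → List β} {h : α → β → Bool} (hf : Computable f) (hh : Computable₂ h) :
    Computable fun a => (f a).all (h a) := by
  have h1 : Computable₂ fun (a : α) (p : Bool × β) => (p.1 && h a p.2) := by
    have h2 : Computable fun x : α × (Bool × β) => cond x.2.1 (h x.1 x.2.2) false :=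
      Computable.cond (Computable.fst.comp Computable.snd)
        (hh.comp Computable.fst (Computable.snd.comp Computable.snd)) (Computable.const false)
    refine h2.of_eq fun x => ?_
    show cond x.2.1 (h x.1 x.2.2) false = (x.2.1 && h x.1 x.2.2)
    cases x.2.1 <;> rfl
  refine (comp_foldl hf (Computable.const true) h1).of_eq fun a => ?_
  have key : ∀ (l : List β) (s : Bool), l.foldl (fun s b => (s && h a b)) s = (s && l.all (h a)) := by
    intro l
    induction l with
    | nil => intro s; simp
    | cons b l ih =>
      intro s
      rw [List.foldl_cons, ih, List.all_cons, Bool.and_assoc]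
  rw [key, Bool.true_and]

/-- computable filters -/
theorem comp_filter {f : α → List β} {h : α → β → Bool} (hf : Computable f) (hh : Computable₂ h) :
    Computable fun a => (f a).filter (h a) := by
  have h1 : Computable₂ fun (a : α) (b : β) => cond (h a b) [b] [] := by
    have h2 : Computable fun x : α × β => cond (h x.1 x.2) [x.2] [] :=
      Computable.cond hh (Computable.list_cons.comp Computable.snd (Computable.const []))
        (Computable.const [])
    exact h2
  refine (comp_flatMap hf h1).of_eq fun a => ?_
  induction f a with
  | nil => rfl
  | cons b l ih =>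
    rw [List.flatMap_cons, ih, List.filter_cons]
    cases h a b <;> simp

end

end Pool.Agent.Lib.MP_240c17_al.Q2
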