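import Pool.Agent.Lib.MP_240c17_al.Q2.Defs2
import Pool.Agent.Lib.MP_240c17_al.Q2.Comp

/-!
# MP_240c17, project Q2: evaluation of coded elements with structure constants
-/

set_option autoImplicit false

namespace Pool.Agent.Lib.MP_240c17_al.Q2

universe u

open Pool.Agent.Lib.MP_240c17_al

section lval
variable {k : Type u} [Field k] {M : Type u} [AddCommGroup M] [Module k M] {ι : Type}

theorem lval_nil (e : ι → M) : lval (k := k) e [] = 0 := rfl

theorem lval_cons (e : ι → M) (p : k × ι) (l : List (k × ι)) :
    lval e (p :: l) = p.1 • e p.2 + lval e l := by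
  rw [lval, List.map_cons, List.sum_cons]
  rfl

theorem lval_append (e : ι → M) (l l' : List (k × ι)) :
    lval e (l ++ l') = lval e l + lval e l' := by
  rw [lval, List.map_append, List.sum_append]
  rfl

theorem lval_smul (e : ι → M) (c : k) (l : List (k × ι)) :
    lval e (l.map fun r => (c * r.1, r.2)) = c • lval e l := by
  induction l with
  | nil => rw [List.map_nil, lval_nil, smul_zero]
  | cons p l ih => rw [List.map_cons, lval_cons, lval_cons, ih, smul_add, mul_smul]

end lval

section brk
variable {k : Type u} [Field k] {L : Type u} [LieRing L] [LieAlgebra k L] {ι : Type}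

/-- bracket of two lists of terms -/
def brk (sc : ι → ι → List (k × ι)) (l l' : List (k × ι)) : List (k × ι) :=
  l.flatMap fun p => l'.flatMap fun q => (sc p.2 q.2).map fun r => (p.1 * q.1 * r.1, r.2)

theorem lval_brk {sc : ι → ι → List (k × ι)} {e : ι → L}
    (hsc : ∀ i j, lval e (sc i j) = ⁅e i, e j⁆) (l l' : List (k × ι)) :
    lval e (brk sc l l') = ⁅lval e l, lval e l'⁆ := by
  induction l with
  | nil => rw [brk, List.flatMap_nil, lval_nil, zero_lie]
  | cons p l ih =>
    have h1 : ∀ l' : List (k × ι), lval e (l'.flatMap fun q =>
        (sc p.2 q.2).map fun r => (p.1 * q.1 * r.1, r.2)) = ⁅p.1 • e p.2, lval e l'⁆ := by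
      intro l'
      induction l' with
      | nil => rw [List.flatMap_nil, lval_nil, lie_zero]
      | cons q l' ih' =>
        rw [List.flatMap_cons, lval_append, ih', lval_smul, hsc, lval_cons, lie_add, lie_smul,
          smul_lie (p.1) (e p.2) (e q.2), smul_smul, mul_comm q.1 p.1]
    have h2 : brk sc (p :: l) l' = (l'.flatMap fun q =>
        (sc p.2 q.2).map fun r => (p.1 * q.1 * r.1, r.2)) ++ brk sc l l' := by
      rw [brk, List.flatMap_cons]
      rfl
    rw [h2, lval_append, h1, ih, lval_cons, add_lie]

/-- one step of the evaluation -/
def rstepC (sc : ι → ι → List (k × ι)) {n : ℕ} (gl : Fin n → List (k × ι))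
    (st : List (List (k × ι))) (o : Option (Fin n)) : List (List (k × ι)) :=
  o.elim ((st[0]?).elim [] fun b => (st[1]?).elim [] fun a => brk sc a b :: st.drop 2)
    fun i => gl i :: st

/-- the result -/
def finC (st : List (List (k × ι))) : List (k × ι) :=
  cond (decide (st.length = 1)) ((st[0]?).getD []) []

theorem rstepC_spec {sc : ι → ι → List (k × ι)} {e : ι → L}
    (hsc : ∀ i j, lval e (sc i j) = ⁅e i, e j⁆) {n : ℕ} (gl : Fin n → List (k × ι))
    (st : List (List (k × ι))) (o : Option (Fin n)) :
    (rstepC sc gl st o).map (lval e) = rstep (fun i => lval e (gl i)) (st.map (lval e)) o := by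
  cases o with
  | some i => rfl
  | none =>
    rcases st with _ | ⟨b, _ | ⟨a, r⟩⟩
    · rfl
    · rfl
    · show (brk sc a b :: r).map (lval e) = ⁅lval e a, lval e b⁆ :: r.map (lval e)
      rw [List.map_cons, lval_brk hsc]

theorem foldC_spec {sc : ι → ι → List (k × ι)} {e : ι → L}
    (hsc : ∀ i j, lval e (sc i j) = ⁅e i, e j⁆) {n : ℕ} (gl : Fin n → List (k × ι))
    (w : List (Option (Fin n))) : ∀ st : List (List (k × ι)),
      (w.foldl (rstepC sc gl) st).map (lval e) =
        w.foldl (rstep fun i => lval e (gl i)) (st.map (lval e)) := by
  induction w with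
  | nil => intro st; rfl
  | cons o w ih =>
    intro st
    rw [List.foldl_cons, List.foldl_cons, ih, rstepC_spec hsc]

theorem finC_spec (e : ι → L) (st : List (List (k × ι))) :
    lval e (finC st) = rfin (st.map (lval e)) := by
  rcases st with _ | ⟨a, _ | ⟨b, r⟩⟩
  · rfl
  · rfl
  · rfl

/-- value of a coded linear combination, as a list of terms -/
def linC (sc : ι → ι → List (k × ι)) {n : ℕ} (gl : Fin n → List (k × ι))
    (l : List (k × List (Option (Fin n)))) : List (k × ι) :=
  l.flatMap fun p => (finC (p.2.foldl (rstepC sc gl) [])).map fun r => (p.1 * r.1, r.2)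

theorem linC_spec {sc : ι → ι → List (k × ι)} {e : ι → L}
    (hsc : ∀ i j, lval e (sc i j) = ⁅e i, e j⁆) {n : ℕ} (gl : Fin n → List (k × ι))
    (l : List (k × List (Option (Fin n)))) :
    lval e (linC sc gl l) = linVal (fun i => lval e (gl i)) l := by
  induction l with
  | nil => rfl
  | cons p l ih =>
    have h1 : linC sc gl (p :: l) =
        ((finC (p.2.foldl (rstepC sc gl) [])).map fun r => (p.1 * r.1, r.2)) ++ linC sc gl l := by
      rw [linC, List.flatMap_cons]
      rfl
    have h2 : linVal (fun i => lval e (gl i)) (p :: l) =
        p.1 • monVal (fun i => lval e (gl i)) p.2 + linVal (fun i => lval e (gl i)) l := by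
      show ((p :: l).map fun p => p.1 • monVal (fun i => lval e (gl i)) p.2).sum = _
      rw [List.map_cons, List.sum_cons]
      rfl
    rw [h1, h2, lval_append, ih, lval_smul, finC_spec, foldC_spec hsc]
    rfl

end brk

section comp
variable {k : Type u} [Field k] [Primcodable k] [CompField k] {ι : Type} [Primcodable ι]

theorem comp_scale {α : Type u} [Primcodable α] {c : α → k} {f : α → List (k × ι)}
    (hc : Computable c) (hf : Computable f) :
    Computable fun a => (f a).map fun r => ((c a * r.1, r.2) : k × ι) := by
  have h1 : Computable₂ fun (a : α) (r : k × ι) => ((c a * r.1, r.2) : k × ι) :=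
    Computable.pair (CompField.mul.comp (hc.comp Computable.fst)
      (Computable.fst.comp Computable.snd)) (Computable.snd.comp Computable.snd)
  exact comp_map hf h1

theorem comp_brk {sc : ι → ι → List (k × ι)} (hs : Computable₂ sc) :
    Computable₂ (brk (k := k) sc) := by
  have h2 : Computable₂ fun (x : (List (k × ι) × List (k × ι)) × (k × ι)) (q : k × ι) =>
      ((sc x.2.2 q.2).map fun r => ((x.2.1 * q.1 * r.1, r.2) : k × ι)) := by
    have b1 : Computable fun y : ((List (k × ι) × List (k × ι)) × (k × ι)) × (k × ι) =>
        y.1.2.1 * y.2.1 :=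
      CompField.mul.comp (Computable.fst.comp (Computable.snd.comp Computable.fst))
        (Computable.fst.comp Computable.snd)
    have b2 : Computable fun y : ((List (k × ι) × List (k × ι)) × (k × ι)) × (k × ι) =>
        sc y.1.2.2 y.2.2 :=
      hs.comp (Computable.snd.comp (Computable.snd.comp Computable.fst))
        (Computable.snd.comp Computable.snd)
    exact comp_scale b1 b2
  have h3 : Computable₂ fun (x : List (k × ι) × List (k × ι)) (p : k × ι) =>
      x.2.flatMap fun q => ((sc p.2 q.2).map fun r => ((p.1 * q.1 * r.1, r.2) : k × ι)) := by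
    have b3 : Computable fun y : (List (k × ι) × List (k × ι)) × (k × ι) => y.1.2 :=
      Computable.snd.comp Computable.fst
    exact comp_flatMap b3 h2
  have b4 : Computable fun y : List (k × ι) × List (k × ι) => y.1 := Computable.fst
  exact comp_flatMap b4 h3

theorem comp_rstepC {sc : ι → ι → List (k × ι)} (hs : Computable₂ sc) {n : ℕ}
    (gl : Fin n → List (k × ι)) : Computable₂ (rstepC sc gl) := by
  have hgl : Computable gl := (Primrec.dom_finite gl).to_comp
  have g0 : Computable fun x : List (List (k × ι)) × Option (Fin n) => x.1[0]? :=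
    Computable.list_getElem?.comp Computable.fst (Computable.const 0)
  have h1 : Computable₂ fun (x : (List (List (k × ι)) × Option (Fin n)) × List (k × ι))
      (a : List (k × ι)) => brk sc a x.2 :: x.1.1.drop 2 := by
    have b1 : Computable fun y : ((List (List (k × ι)) × Option (Fin n)) × List (k × ι)) ×
        List (k × ι) => brk sc y.2 y.1.2 :=
      (comp_brk hs).comp Computable.snd (Computable.snd.comp Computable.fst)
    have b2 : Computable fun y : ((List (List (k × ι)) × Option (Fin n)) × List (k × ι)) ×
        List (k × ι) => y.1.1.1.drop 2 := by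
      have b3 : Computable fun y : ((List (List (k × ι)) × Option (Fin n)) × List (k × ι)) ×
          List (k × ι) => y.1.1.1 :=
        Computable.fst.comp (Computable.fst.comp Computable.fst)
      have b4 : Computable fun l : List (List (k × ι)) => l.drop 2 := by
        have b5 : Primrec fun l : List (List (k × ι)) => l.tail.tail :=
          Primrec.list_tail.comp Primrec.list_tail
        refine b5.to_comp.of_eq fun l => ?_
        rcases l with _ | ⟨a, _ | ⟨b, r⟩⟩ <;> rfl
      exact b4.comp b3
    exact Computable.list_cons.comp b1 b2
  have h2 : Computable₂ fun (x : List (List (k × ι)) × Option (Fin n)) (b : List (k × ι)) =>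
      (Option.casesOn (x.1[1]?) [] fun a => brk sc a b :: x.1.drop 2 :
        List (List (k × ι))) := by
    have b1 : Computable fun y : (List (List (k × ι)) × Option (Fin n)) × List (k × ι) =>
        y.1.1[1]? :=
      Computable.list_getElem?.comp (Computable.fst.comp Computable.fst) (Computable.const 1)
    exact Computable.option_casesOn b1 (Computable.const []) h1
  have h3 : Computable fun x : List (List (k × ι)) × Option (Fin n) =>
      (Option.casesOn (x.1[0]?) [] fun b =>
        (Option.casesOn (x.1[1]?) [] fun a => brk sc a b :: x.1.drop 2 : List (List (k × ι))) :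
        List (List (k × ι))) :=
    Computable.option_casesOn g0 (Computable.const []) h2
  have h4 : Computable₂ fun (x : List (List (k × ι)) × Option (Fin n)) (i : Fin n) =>
      gl i :: x.1 :=
    Computable.list_cons.comp (hgl.comp Computable.snd) (Computable.fst.comp Computable.fst)
  have h0 : Computable fun x : List (List (k × ι)) × Option (Fin n) => x.2 := Computable.snd
  have h5 := Computable.option_casesOn h0 h3 h4
  refine h5.of_eq fun x => ?_
  rcases x with ⟨st, o⟩
  cases o with
  | some i => rfl
  | none =>
    rcases st with _ | ⟨b, _ | ⟨a, r⟩⟩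
    · rfl
    · rfl
    · rfl

omit [Field k] [CompField k] in
theorem comp_finC : Computable (finC (k := k) (ι := ι)) := by
  have h1 : PrimrecPred fun l : List (List (k × ι)) => l.length = 1 :=
    Primrec.eq.comp Primrec.list_length (Primrec.const 1)
  have h2 : Computable fun l : List (List (k × ι)) => decide (l.length = 1) := h1.decide.to_comp
  have h3 : Computable fun l : List (List (k × ι)) => (l[0]?).getD [] :=
    Computable.option_getD (Computable.list_getElem?.comp Computable.id (Computable.const 0))
      (Computable.const [])
  exact Computable.cond h2 h3 (Computable.const [])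

theorem comp_linC {sc : ι → ι → List (k × ι)} (hs : Computable₂ sc) {n : ℕ}
    (gl : Fin n → List (k × ι)) : Computable (linC sc gl) := by
  have h1 : Computable₂ fun (x : List (k × List (Option (Fin n))) × (k × List (Option (Fin n))))
      (p : List (List (k × ι)) × Option (Fin n)) => rstepC sc gl p.1 p.2 :=
    (comp_rstepC hs gl).comp (Computable.fst.comp Computable.snd)
      (Computable.snd.comp Computable.snd)
  have b0 : Computable fun x : List (k × List (Option (Fin n))) × (k × List (Option (Fin n))) =>
      x.2.2 := Computable.snd.comp Computable.snd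
  have h2 : Computable fun x : List (k × List (Option (Fin n))) × (k × List (Option (Fin n))) =>
      x.2.2.foldl (rstepC sc gl) [] :=
    comp_foldl b0 (Computable.const ([] : List (List (k × ι)))) h1
  have b1 : Computable fun x : List (k × List (Option (Fin n))) × (k × List (Option (Fin n))) =>
      x.2.1 := Computable.fst.comp Computable.snd
  have h4 : Computable₂ fun (_ : List (k × List (Option (Fin n))))
      (p : k × List (Option (Fin n))) =>
      (finC (p.2.foldl (rstepC sc gl) [])).map fun r => ((p.1 * r.1, r.2) : k × ι) :=
    comp_scale b1 (comp_finC.comp h2)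
  exact comp_flatMap Computable.id h4

end comp

end Pool.Agent.Lib.MP_240c17_al.Q2
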