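import Pool.Agent.Lib.MP_240c17_al.Necessary

/-!
# MP_240c17, project Q2: definitions

Part 1: the definitions of the final statements (coding of the elements of a free Lie algebra, decidable
word problem).  Part 2: the algebras used in the proofs.
-/

set_option autoImplicit false

namespace Pool.Agent.Lib.MP_240c17_al.Q2

universe u v

open Pool.Agent.Lib.MP_240c17_al

/-! ## part 1: coding, decidable word problem -/

section coding
variable {L : Type u} [LieRing L] {n : ℕ}

/-- One step of the evaluation of a bracket monomial, written in reverse Polish notation, on a stack: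
`some i` puts the generator `x i` on the stack, `none` replaces the two topmost entries `b, a` with
`⁅a, b⁆`. -/
def rstep (x : Fin n → L) (st : List L) : Option (Fin n) → List L
  | some i => x i :: st
  | none => match st with
    | b :: a :: r => ⁅a, b⁆ :: r
    | _ => []

/-- the result: the only element of the stack (`0` for ill-formed words) -/
def rfin : List L → L
  | [m] => m
  | _ => 0

/-- value of a bracket monomial in reverse Polish notation; for example `[some 0, some 1, none]` is
`⁅x 0, x 1⁆` -/
def monVal (x : Fin n → L) (w : List (Option (Fin n))) : L := rfin (w.foldl (rstep x) [])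

/-- value of a linear combination of bracket monomials -/
def linVal {k : Type v} [Field k] [LieAlgebra k L] (x : Fin n → L)
    (l : List (k × List (Option (Fin n)))) : L := (l.map fun p => p.1 • monVal x p.2).sum

end coding

/-- A computable field: the elements are coded (`Primcodable`; equality of codes is decidable), addition
and multiplication are computable. -/
class CompField (k : Type u) [Field k] [Primcodable k] : Prop where
  add : Computable₂ fun a b : k => a + b
  mul : Computable₂ fun a b : k => a * b

section wp
variable {k : Type u} [Field k] [Primcodable k]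

/-- the word problem of the presentation `π` is decidable: it is decidable whether a given linear
combination of bracket monomials in the generators is mapped to `0` -/
def DecWP {L : Type u} [LieRing L] [LieAlgebra k L] {n : ℕ}
    (π : FreeLieAlgebra k (Fin n) →ₗ⁅k⁆ L) : Prop :=
  ComputablePred fun l : List (k × List (Option (Fin n))) => π (linVal (FreeLieAlgebra.of k) l) = 0

/-- `L` has a finite presentation relative to the variety given by `Id` with decidable word problem -/
def RelFPDec (Id : Set (FreeLieAlgebra k ℕ)) (L : Type u) [LieRing L] [LieAlgebra k L] : Prop :=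
  ∃ (n : ℕ) (π : FreeLieAlgebra k (Fin n) →ₗ⁅k⁆ L) (S : Finset (FreeLieAlgebra k (Fin n))),
    Function.Surjective π ∧
      π.ker = verbalIdeal Id n ⊔
        LieSubmodule.lieSpan k (FreeLieAlgebra k (Fin n)) (S : Set (FreeLieAlgebra k (Fin n))) ∧
      DecWP π

/-- `L` has a finite (absolute) presentation with decidable word problem -/
def AbsFPDec (k : Type u) [Field k] [Primcodable k] (L : Type u) [LieRing L] [LieAlgebra k L] :
    Prop :=
  ∃ (n : ℕ) (π : FreeLieAlgebra k (Fin n) →ₗ⁅k⁆ L) (S : Finset (FreeLieAlgebra k (Fin n))),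
    Function.Surjective π ∧
      π.ker = LieSubmodule.lieSpan k (FreeLieAlgebra k (Fin n)) (S : Set (FreeLieAlgebra k (Fin n))) ∧
      DecWP π

end wp

/-- `L` is finitely presented (absolutely) -/
def AbsFP (k : Type u) [Field k] (L : Type u) [LieRing L] [LieAlgebra k L] : Prop :=
  ∃ (n : ℕ) (π : FreeLieAlgebra k (Fin n) →ₗ⁅k⁆ L) (S : Finset (FreeLieAlgebra k (Fin n))),
    Function.Surjective π ∧
      π.ker = LieSubmodule.lieSpan k (FreeLieAlgebra k (Fin n)) (S : Set (FreeLieAlgebra k (Fin n)))

/-! ## part 2: the algebras -/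

section HL
variable {k : Type u} [Field k] {V : Type u} [AddCommGroup V] [Module k V] {U : Type u} [CommRing U]
  [Algebra k U]

/-- `V ⋉ (U a ⊕ U b ⊕ U c)`, `[a, b] = c`, `v` acts on `U a`, `U b` by the multiplication with `f v`,
`g v` -/
@[ext] structure HL (f g : V →ₗ[k] U) where
  t : V
  a : U
  b : U
  c : U

namespace HL
variable {f g : V →ₗ[k] U}

instance : Zero (HL f g) := ⟨⟨0, 0, 0, 0⟩⟩
instance : Add (HL f g) := ⟨fun p q => ⟨p.t + q.t, p.a + q.a, p.b + q.b, p.c + q.c⟩⟩
instance : Neg (HL f g) := ⟨fun p => ⟨-p.t, -p.a, -p.b, -p.c⟩⟩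
instance : Sub (HL f g) := ⟨fun p q => ⟨p.t - q.t, p.a - q.a, p.b - q.b, p.c - q.c⟩⟩
instance : SMul k (HL f g) := ⟨fun r p => ⟨r • p.t, r • p.a, r • p.b, r • p.c⟩⟩

@[simp] theorem zero_t : (0 : HL f g).t = 0 := rfl
@[simp] theorem zero_a : (0 : HL f g).a = 0 := rfl
@[simp] theorem zero_b : (0 : HL f g).b = 0 := rfl
@[simp] theorem zero_c : (0 : HL f g).c = 0 := rfl
@[simp] theorem add_t (p q : HL f g) : (p + q).t = p.t + q.t := rfl
@[simp] theorem add_a (p q : HL f g) : (p + q).a = p.a + q.a := rfl
@[simp] theorem add_b (p q : HL f g) : (p + q).b = p.b + q.b := rfl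
@[simp] theorem add_c (p q : HL f g) : (p + q).c = p.c + q.c := rfl
@[simp] theorem neg_t (p : HL f g) : (-p).t = -p.t := rfl
@[simp] theorem neg_a (p : HL f g) : (-p).a = -p.a := rfl
@[simp] theorem neg_b (p : HL f g) : (-p).b = -p.b := rfl
@[simp] theorem neg_c (p : HL f g) : (-p).c = -p.c := rfl
@[simp] theorem sub_t (p q : HL f g) : (p - q).t = p.t - q.t := rfl
@[simp] theorem sub_a (p q : HL f g) : (p - q).a = p.a - q.a := rfl
@[simp] theorem sub_b (p q : HL f g) : (p - q).b = p.b - q.b := rfl
@[simp] theorem sub_c (p q : HL f g) : (p - q).c = p.c - q.c := rfl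
@[simp] theorem smul_t (r : k) (p : HL f g) : (r • p).t = r • p.t := rfl
@[simp] theorem smul_a (r : k) (p : HL f g) : (r • p).a = r • p.a := rfl
@[simp] theorem smul_b (r : k) (p : HL f g) : (r • p).b = r • p.b := rfl
@[simp] theorem smul_c (r : k) (p : HL f g) : (r • p).c = r • p.c := rfl

instance : AddCommGroup (HL f g) where
  add_assoc p q r := by ext <;> simp [add_assoc]
  zero_add p := by ext <;> simp
  add_zero p := by ext <;> simp
  add_comm p q := by ext <;> simp [add_comm]
  neg_add_cancel p := by ext <;> simp
  sub_eq_add_neg p q := by ext <;> simp [sub_eq_add_neg]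
  nsmul := nsmulRec
  zsmul := zsmulRec

instance : Module k (HL f g) where
  one_smul p := by ext <;> simp
  mul_smul r s p := by ext <;> simp [mul_smul]
  smul_zero r := by ext <;> simp
  smul_add r p q := by ext <;> simp
  add_smul r s p := by ext <;> simp [add_smul]
  zero_smul p := by ext <;> simp

instance : Bracket (HL f g) (HL f g) :=
  ⟨fun p q => ⟨0, p.a * f q.t - q.a * f p.t, p.b * g q.t - q.b * g p.t,
    p.a * q.b - q.a * p.b + (p.c * (f q.t + g q.t) - q.c * (f p.t + g p.t))⟩⟩

@[simp] theorem lie_t (p q : HL f g) : ⁅p, q⁆.t = 0 := rfl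
@[simp] theorem lie_a (p q : HL f g) : ⁅p, q⁆.a = p.a * f q.t - q.a * f p.t := rfl
@[simp] theorem lie_b (p q : HL f g) : ⁅p, q⁆.b = p.b * g q.t - q.b * g p.t := rfl
@[simp] theorem lie_c (p q : HL f g) : ⁅p, q⁆.c =
    p.a * q.b - q.a * p.b + (p.c * (f q.t + g q.t) - q.c * (f p.t + g p.t)) := rfl

instance : LieRing (HL f g) where
  add_lie p q r := by
    ext
    · simp
    all_goals simp only [add_a, add_b, add_c, add_t, lie_a, lie_b, lie_c, map_add]
    all_goals ring
  lie_add p q r := by
    ext
    · simp
    all_goals simp only [add_a, add_b, add_c, add_t, lie_a, lie_b, lie_c, map_add]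
    all_goals ring
  lie_self p := by
    ext
    · simp
    all_goals simp only [zero_a, zero_b, zero_c, lie_a, lie_b, lie_c]
    all_goals ring
  leibniz_lie p q r := by
    ext
    · simp
    all_goals simp only [add_a, add_b, add_c, lie_a, lie_b, lie_c, lie_t, map_zero]
    all_goals ring

instance : LieAlgebra k (HL f g) where
  lie_smul r p q := by
    ext
    · simp
    all_goals simp only [smul_a, smul_b, smul_c, smul_t, lie_a, lie_b, lie_c, map_smul,
      Algebra.smul_def]
    all_goals ring

end HL
end HL

end Pool.Agent.Lib.MP_240c17_al.Q2
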