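import Pool.Agent.Lib.MP_240c17_al.Q2.Ring

/-!
# MP_240c17, project Q2: relations, auxiliary algebras, structure constants
-/

set_option autoImplicit false

namespace Pool.Agent.Lib.MP_240c17_al.Q2

universe u v

open Pool.Agent.Lib.MP_240c17_al

variable {k : Type u} [Field k]

/-! ## relations -/

section rel
variable {Q : Type u} [LieRing Q]

/-- `E l = l - [l, x₂]` (it acts as `T²` on the `b`) -/
def Eo (x2 l : Q) : Q := l - ⁅l, x2⁆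

/-- `E' l = l + [l, z]` (it acts as `T⁻²` on the `b`) -/
def Fo (z l : Q) : Q := l + ⁅l, z⁆

/-- the defining relations of `G_∞` for the six elements `z, x₁, x₂, a, b₀, b₁` -/
structure Rl (z x1 x2 a b0 b1 : Q) : Prop where
  zx1 : ⁅z, x1⁆ = 0
  zx2 : ⁅z, x2⁆ = 0
  x12 : ⁅x1, x2⁆ = 0
  az : ⁅a, z⁆ = a
  ax2 : ⁅a, x2⁆ = ⁅⁅a, x1⁆, x1⁆
  e0 : Eo x2 (Fo z b0) = b0
  e1 : Eo x2 (Fo z b1) = b1
  b0x : ⁅b0, x1⁆ = Fo z b1 - b1
  b1x : ⁅b1, x1⁆ = b0 - Eo x2 b0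
  aa : ⁅a, ⁅a, x1⁆⁆ = 0
  bb : ∀ i j : Fin 5, ⁅(![Fo z b0, Fo z b1, b0, b1, Eo x2 b0] : Fin 5 → Q) i,
    (![Fo z b0, Fo z b1, b0, b1, Eo x2 b0] : Fin 5 → Q) j⁆ = 0
  ab0 : ⁅a, b0⁆ = 0
  ab1 : ⁅a, Fo z b1⁆ = 0

/-- families `A i = a T^i`, `B l = b T^l` with the action of the torus -/
structure Fam (z x1 x2 : Q) (A : ℕ → Q) (B : ℤ → Q) : Prop where
  zx1 : ⁅z, x1⁆ = 0
  zx2 : ⁅z, x2⁆ = 0
  x12 : ⁅x1, x2⁆ = 0
  Az : ∀ i, ⁅A i, z⁆ = A i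
  Ax1 : ∀ i, ⁅A i, x1⁆ = A (i + 1)
  Ax2 : ∀ i, ⁅A i, x2⁆ = A (i + 2)
  Bz : ∀ l, ⁅B l, z⁆ = B (l - 2) - B l
  Bx1 : ∀ l, ⁅B l, x1⁆ = B (l - 1) - B (l + 1)
  Bx2 : ∀ l, ⁅B l, x2⁆ = B l - B (l + 2)

end rel

/-! ## the algebras `H2` and `GG` -/

/-- `k² ⋉ Heis₃` with independent weights -/
abbrev H2 (k : Type u) [Field k] : Type u :=
  HL (k := k) (V := Fin 2 → k) (U := k) (LinearMap.proj 0) (LinearMap.proj 1)

/-- `k[s₁, s₂, t₁, t₂]` -/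
abbrev U4 (k : Type u) [Field k] : Type u := MvPolynomial (Fin 4) k

/-- weights `(s₁, s₂)` -/
noncomputable def f4 (k : Type u) [Field k] : (Fin 2 → k) →ₗ[k] U4 k where
  toFun y := y 0 • MvPolynomial.X 0 + y 1 • MvPolynomial.X 1
  map_add' s t := by
    simp only [Pi.add_apply, add_smul]
    abel
  map_smul' c t := by
    simp only [Pi.smul_apply, smul_eq_mul, mul_smul, smul_add, RingHom.id_apply]

/-- weights `(t₁, t₂)` -/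
noncomputable def g4 (k : Type u) [Field k] : (Fin 2 → k) →ₗ[k] U4 k where
  toFun y := y 0 • MvPolynomial.X 2 + y 1 • MvPolynomial.X 3
  map_add' s t := by
    simp only [Pi.add_apply, add_smul]
    abel
  map_smul' c t := by
    simp only [Pi.smul_apply, smul_eq_mul, mul_smul, smul_add, RingHom.id_apply]

/-- the generic algebra with a torus of rank two -/
abbrev GG (k : Type u) [Field k] : Type u := HL (f4 k) (g4 k)

/-- the generators `y₁, y₂, a, b` -/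
noncomputable def gens4 (k : Type u) [Field k] : Fin 4 → GG k :=
  ![⟨Pi.single 0 1, 0, 0, 0⟩, ⟨Pi.single 1 1, 0, 0, 0⟩, ⟨0, 1, 0, 0⟩, ⟨0, 0, 1, 0⟩]

noncomputable def Psi (k : Type u) [Field k] : FreeLieAlgebra k (Fin 4) →ₗ⁅k⁆ GG k :=
  FreeLieAlgebra.lift k (gens4 k)

/-- the `c`-components of the verbal ideal, in `H` -/
def VU (Id : Set (FreeLieAlgebra k ℕ)) : Set (R k) :=
  {c | ∃ v ∈ verbalIdeal Id 6, Phi k v = ⟨0, 0, 0, c⟩}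

/-- the `c`-components of the verbal ideal, in `GG` -/
def VG (Id : Set (FreeLieAlgebra k ℕ)) : Set (U4 k) :=
  {c | ∃ v ∈ verbalIdeal Id 4, Psi k v = ⟨0, 0, 0, c⟩}

/-- substitution `(s, t) ↦ (g s, g t)` -/
noncomputable def sub4 (g : Fin 2 → Fin 2 → k) : U4 k →ₐ[k] U4 k :=
  MvPolynomial.aeval ![g 0 0 • MvPolynomial.X 0 + g 0 1 • MvPolynomial.X 1,
    g 1 0 • MvPolynomial.X 0 + g 1 1 • MvPolynomial.X 1,
    g 0 0 • MvPolynomial.X 2 + g 0 1 • MvPolynomial.X 3,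
    g 1 0 • MvPolynomial.X 2 + g 1 1 • MvPolynomial.X 3]

/-- `s₁ t₂ - s₂ t₁` -/
noncomputable def det4 (k : Type u) [Field k] : U4 k :=
  MvPolynomial.X 0 * MvPolynomial.X 3 - MvPolynomial.X 1 * MvPolynomial.X 2

/-- evaluation `s ↦ (1, T₁)`, `t ↦ (ξ, ξ w)` -/
noncomputable def ev4 (k : Type u) [Field k] : U4 k →ₐ[k] R k :=
  MvPolynomial.aeval ![1, T1, mo 0 (-2) - 1, mo 0 (-1) - mo 0 1]

/-! ## structure constants of `H` -/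

/-- names of elements of `H`: `(tag, i, p, q)` -/
abbrev Nm : Type := ℕ × ℕ × ℕ × ℕ

/-- the element with the given name: tags `0, 1, 2` for `z, x₁, x₂`, tag `3` for `T₁^i a`, tag `4` for
`w^(p-q) b`, all other tags for `T₁^i w^(p-q) c` -/
noncomputable def eH (k : Type u) [Field k] (m : Nm) : HH k :=
  if m.1 = 0 then ⟨Pi.single 0 1, 0, 0, 0⟩ else
  if m.1 = 1 then ⟨Pi.single 1 1, 0, 0, 0⟩ else
  if m.1 = 2 then ⟨Pi.single 2 1, 0, 0, 0⟩ else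
  if m.1 = 3 then ⟨0, T1 ^ m.2.1, 0, 0⟩ else
  if m.1 = 4 then ⟨0, 0, mo 0 ((m.2.2.1 : ℤ) - m.2.2.2), 0⟩ else
  ⟨0, 0, 0, T1 ^ m.2.1 * mo 0 ((m.2.2.1 : ℤ) - m.2.2.2)⟩

/-- `[e, z]`, `[e, x₁]`, `[e, x₂]` for `s = 0, 1, 2` and an element `e` with tag `≥ 3` -/
def tor (k : Type u) [Field k] (s : ℕ) (m : Nm) : List (k × Nm) :=
  if m.1 = 3 then [(1, (3, m.2.1 + s, 0, 0))] else
  if m.1 = 4 then
    (if s = 0 then [(1, (4, 0, m.2.2.1, m.2.2.2 + 2)), (-1, (4, 0, m.2.2.1, m.2.2.2))] else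
     if s = 1 then [(1, (4, 0, m.2.2.1, m.2.2.2 + 1)), (-1, (4, 0, m.2.2.1 + 1, m.2.2.2))] else
     [(1, (4, 0, m.2.2.1, m.2.2.2)), (-1, (4, 0, m.2.2.1 + 2, m.2.2.2))]) else
  (if s = 0 then [(1, (5, m.2.1, m.2.2.1, m.2.2.2 + 2))] else
   if s = 1 then [(1, (5, m.2.1 + 1, m.2.2.1, m.2.2.2)), (-1, (5, m.2.1, m.2.2.1 + 1, m.2.2.2)),
     (1, (5, m.2.1, m.2.2.1, m.2.2.2 + 1))] else
   [(1, (5, m.2.1 + 2, m.2.2.1, m.2.2.2)), (-1, (5, m.2.1, m.2.2.1 + 2, m.2.2.2)),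
     (1, (5, m.2.1, m.2.2.1, m.2.2.2))])

/-- `[e, e']` as a list of terms -/
def sH (k : Type u) [Field k] (m m' : Nm) : List (k × Nm) :=
  if m'.1 < 3 then (if m.1 < 3 then [] else tor k m'.1 m) else
  if m.1 < 3 then (tor k m.1 m').map fun p => (-1 * p.1, p.2) else
  if m.1 = 3 ∧ m'.1 = 4 then [(1, (5, m.2.1, m'.2.2.1, m'.2.2.2))] else
  if m.1 = 4 ∧ m'.1 = 3 then [(-1, (5, m'.2.1, m.2.2.1, m.2.2.2))] else []

/-- value of a list of terms -/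
def lval {M : Type v} [AddCommGroup M] [Module k M] {ι : Type} (e : ι → M) (l : List (k × ι)) : M :=
  (l.map fun p => p.1 • e p.2).sum

/-- `T₁^i w^(p-q)` as a sum of monomials `u^s w^(p'-q')`, listed as `(s, p', q')` -/
def ex (p q : ℕ) : ℕ → List (ℕ × ℕ × ℕ)
  | 0 => [(0, p, q)]
  | i + 1 => (ex p q i).flatMap fun t => [(t.1 + 1, t.2.1, t.2.2), (t.1, t.2.1 + 1, t.2.2)]

/-- basis vectors of `H`, named as above, but with `u^i w^(p-q) c` for the tags `≥ 5` -/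
noncomputable def bH (k : Type u) [Field k] (m : Nm) : HH k :=
  if m.1 ≤ 4 then eH k m else ⟨0, 0, 0, mo m.2.1 ((m.2.2.1 : ℤ) - m.2.2.2)⟩

/-- change from `eH` to `bH` -/
def cvt (k : Type u) [Field k] (l : List (k × Nm)) : List (k × Nm) :=
  l.flatMap fun p => if p.2.1 ≤ 4 then [p] else
    (ex p.2.2.2.1 p.2.2.2.2 p.2.2.1).map fun t => (p.1, (5, t.1, t.2.1, t.2.2))

/-- equality of basis vectors -/
def sameB (m m' : Nm) : Prop :=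
  (m.1 = m'.1 ∨ (5 ≤ m.1 ∧ 5 ≤ m'.1)) ∧ (m.1 < 3 ∨ m.1 = 4 ∨ m.2.1 = m'.2.1) ∧
    (m.1 < 4 ∨ m.2.2.1 + m'.2.2.2 = m'.2.2.1 + m.2.2.2)

instance (m m' : Nm) : Decidable (sameB m m') := by
  unfold sameB
  infer_instance

end Pool.Agent.Lib.MP_240c17_al.Q2
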