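import Pool.Agent.Lib.MP_240c17_al.Q2.Spec

/-!
# MP_240c17, project Q2, module Idl: `VU` is an ideal
-/

set_option autoImplicit false

namespace Pool.Agent.Lib.MP_240c17_al.Q2

universe u

open Pool.Agent.Lib.MP_240c17_al

variable {k : Type u} [Field k]

/-- the generators of the free Lie algebra -/
private noncomputable abbrev Idl_X (k : Type u) [Field k] (i : Fin 6) :
    FreeLieAlgebra k (Fin 6) := FreeLieAlgebra.of k i

/-- the endomorphism `⟨t,a,b,c⟩ ↦ ⟨t, α a, β b, α β c⟩` of `H` -/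
private noncomputable def Idl_E (α β : R k) : HH k →ₗ⁅k⁆ HH k where
  toFun p := ⟨p.t, α * p.a, β * p.b, α * β * p.c⟩
  map_add' p q := by
    ext1
    · rfl
    · exact mul_add _ _ _
    · exact mul_add _ _ _
    · exact mul_add _ _ _
  map_smul' c p := by
    ext1
    · rfl
    · exact mul_smul_comm _ _ _
    · exact mul_smul_comm _ _ _
    · exact mul_smul_comm _ _ _
  map_lie' := by
    intro p q
    ext1
    · rfl
    · change α * (p.a * fA k q.t - q.a * fA k p.t) = (α * p.a) * fA k q.t - (α * q.a) * fA k p.t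
      ring
    · change β * (p.b * gB k q.t - q.b * gB k p.t) = (β * p.b) * gB k q.t - (β * q.b) * gB k p.t
      ring
    · change α * β * (p.a * q.b - q.a * p.b + (p.c * (fA k q.t + gB k q.t) -
          q.c * (fA k p.t + gB k p.t))) = (α * p.a) * (β * q.b) - (α * q.a) * (β * p.b) +
          ((α * β * p.c) * (fA k q.t + gB k q.t) - (α * β * q.c) * (fA k p.t + gB k p.t))
      ring

private theorem Idl_E_apply (α β : R k) (p : HH k) :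
    Idl_E α β p = ⟨p.t, α * p.a, β * p.b, α * β * p.c⟩ := rfl

private theorem Idl_Phi (i : Fin 6) : Phi k (Idl_X k i) = gens k i :=
  FreeLieAlgebra.lift_of_apply (gens k) i

/-- general form: an endomorphism of the free Lie algebra which induces `Idl_E α β` -/
private theorem Idl_gen (hV : S_Ver.{u}) (Id : Set (FreeLieAlgebra k ℕ)) (α β : R k)
    (g : Fin 6 → FreeLieAlgebra k (Fin 6)) (hg : ∀ i, Phi k (g i) = Idl_E α β (gens k i))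
    (c : R k) (hc : c ∈ VU Id) : α * β * c ∈ VU Id := by
  obtain ⟨v, hv, hvc⟩ := hc
  have hcomp : (Phi k).comp (FreeLieAlgebra.lift k g) = (Idl_E α β).comp (Phi k) := by
    refine FreeLieAlgebra.hom_ext fun i => ?_
    have h2 : Phi k (FreeLieAlgebra.of k i) = gens k i := Idl_Phi i
    rw [LieHom.comp_apply, LieHom.comp_apply, FreeLieAlgebra.lift_of_apply, hg, h2]
  refine ⟨FreeLieAlgebra.lift k g v, hV k Id 6 6 _ v hv, ?_⟩
  have h1 : Phi k (FreeLieAlgebra.lift k g v) = Idl_E α β (Phi k v) := by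
    rw [← LieHom.comp_apply, hcomp, LieHom.comp_apply]
  rw [h1, hvc, Idl_E_apply]
  ext1
  · rfl
  · exact mul_zero _
  · exact mul_zero _
  · rfl

private theorem Idl_E_t (α β : R k) (t : Fin 3 → k) :
    Idl_E α β (⟨t, 0, 0, 0⟩ : HH k) = ⟨t, 0, 0, 0⟩ := by
  rw [Idl_E_apply, mul_zero, mul_zero, mul_zero]

private theorem Idl_E_a (α β a : R k) :
    Idl_E α β (⟨0, a, 0, 0⟩ : HH k) = ⟨0, α * a, 0, 0⟩ := by
  rw [Idl_E_apply, mul_zero, mul_zero]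

private theorem Idl_E_b (α β b : R k) :
    Idl_E α β (⟨0, 0, b, 0⟩ : HH k) = ⟨0, 0, β * b, 0⟩ := by
  rw [Idl_E_apply, mul_zero, mul_zero]

private theorem Idl_lie_at (a : R k) (t : Fin 3 → k) :
    ⁅(⟨0, a, 0, 0⟩ : HH k), (⟨t, 0, 0, 0⟩ : HH k)⁆ = ⟨0, a * fA k t, 0, 0⟩ := by
  ext1
  · rfl
  · rw [HL.lie_a, map_zero, mul_zero, sub_zero]
  · rw [HL.lie_b, zero_mul, zero_mul, sub_zero]
  · rw [HL.lie_c, mul_zero, zero_mul, zero_mul, zero_mul, sub_zero, add_zero]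

private theorem Idl_lie_bt (b : R k) (t : Fin 3 → k) :
    ⁅(⟨0, 0, b, 0⟩ : HH k), (⟨t, 0, 0, 0⟩ : HH k)⁆ = ⟨0, 0, b * gB k t, 0⟩ := by
  ext1
  · rfl
  · rw [HL.lie_a, zero_mul, zero_mul, sub_zero]
  · rw [HL.lie_b, map_zero, mul_zero, sub_zero]
  · rw [HL.lie_c, zero_mul, zero_mul, zero_mul, zero_mul, sub_zero, add_zero]

private theorem Idl_fA1 : fA k (Pi.single 1 1) = T1 := by
  change (Pi.single (1 : Fin 3) (1 : k) : Fin 3 → k) 0 • (1 : R k) +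
    (Pi.single (1 : Fin 3) (1 : k) : Fin 3 → k) 1 • T1 +
    (Pi.single (1 : Fin 3) (1 : k) : Fin 3 → k) 2 • T1 ^ 2 = T1
  simp

private theorem Idl_gB0 : gB k (Pi.single 0 1) = mo 0 (-2) - 1 := by
  change (Pi.single (0 : Fin 3) (1 : k) : Fin 3 → k) 0 • (mo 0 (-2) - 1 : R k) +
    (Pi.single (0 : Fin 3) (1 : k) : Fin 3 → k) 1 • (mo 0 (-1) - mo 0 1) +
    (Pi.single (0 : Fin 3) (1 : k) : Fin 3 → k) 2 • (1 - mo 0 2) = _
  simp

private theorem Idl_gB2 : gB k (Pi.single 2 1) = 1 - mo 0 2 := by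
  change (Pi.single (2 : Fin 3) (1 : k) : Fin 3 → k) 0 • (mo 0 (-2) - 1 : R k) +
    (Pi.single (2 : Fin 3) (1 : k) : Fin 3 → k) 1 • (mo 0 (-1) - mo 0 1) +
    (Pi.single (2 : Fin 3) (1 : k) : Fin 3 → k) 2 • (1 - mo 0 2) = _
  simp

private theorem Idl_T1 (hV : S_Ver.{u}) (Id : Set (FreeLieAlgebra k ℕ)) (c : R k)
    (hc : c ∈ VU Id) : T1 * c ∈ VU Id := by
  have h := Idl_gen hV Id T1 1 ![Idl_X k 0, Idl_X k 1,
    Idl_X k 2, ⁅Idl_X k 3, Idl_X k 1⁆,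
    Idl_X k 4, Idl_X k 5] ?_ c hc
  · rwa [mul_one] at h
  intro i
  fin_cases i
  · change Phi k (Idl_X k 0) = Idl_E T1 1 ⟨Pi.single 0 1, 0, 0, 0⟩
    rw [Idl_E_t, Idl_Phi]
    rfl
  · change Phi k (Idl_X k 1) = Idl_E T1 1 ⟨Pi.single 1 1, 0, 0, 0⟩
    rw [Idl_E_t, Idl_Phi]
    rfl
  · change Phi k (Idl_X k 2) = Idl_E T1 1 ⟨Pi.single 2 1, 0, 0, 0⟩
    rw [Idl_E_t, Idl_Phi]
    rfl
  · change Phi k ⁅Idl_X k 3, Idl_X k 1⁆ = Idl_E T1 1 ⟨0, 1, 0, 0⟩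
    rw [Idl_E_a, LieHom.map_lie, Idl_Phi, Idl_Phi]
    change ⁅(⟨0, 1, 0, 0⟩ : HH k), (⟨Pi.single 1 1, 0, 0, 0⟩ : HH k)⁆ = _
    rw [Idl_lie_at, Idl_fA1, mul_one, one_mul]
  · change Phi k (Idl_X k 4) = Idl_E T1 1 ⟨0, 0, 1, 0⟩
    rw [Idl_E_b, Idl_Phi, mul_one]
    rfl
  · change Phi k (Idl_X k 5) = Idl_E T1 1 ⟨0, 0, mo 0 1, 0⟩
    rw [Idl_E_b, Idl_Phi, one_mul]
    rfl

private theorem Idl_w (hV : S_Ver.{u}) (Id : Set (FreeLieAlgebra k ℕ)) (c : R k)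
    (hc : c ∈ VU Id) : mo 0 1 * c ∈ VU Id := by
  have h := Idl_gen hV Id 1 (mo 0 1) ![Idl_X k 0, Idl_X k 1,
    Idl_X k 2, Idl_X k 3, Idl_X k 5,
    Idl_X k 4 - ⁅Idl_X k 4, Idl_X k 2⁆] ?_ c hc
  · rwa [one_mul] at h
  intro i
  fin_cases i
  · change Phi k (Idl_X k 0) = Idl_E 1 (mo 0 1) ⟨Pi.single 0 1, 0, 0, 0⟩
    rw [Idl_E_t, Idl_Phi]
    rfl
  · change Phi k (Idl_X k 1) = Idl_E 1 (mo 0 1) ⟨Pi.single 1 1, 0, 0, 0⟩
    rw [Idl_E_t, Idl_Phi]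
    rfl
  · change Phi k (Idl_X k 2) = Idl_E 1 (mo 0 1) ⟨Pi.single 2 1, 0, 0, 0⟩
    rw [Idl_E_t, Idl_Phi]
    rfl
  · change Phi k (Idl_X k 3) = Idl_E 1 (mo 0 1) ⟨0, 1, 0, 0⟩
    rw [Idl_E_a, Idl_Phi, one_mul]
    rfl
  · change Phi k (Idl_X k 5) = Idl_E 1 (mo 0 1) ⟨0, 0, 1, 0⟩
    rw [Idl_E_b, Idl_Phi, mul_one]
    rfl
  · change Phi k (Idl_X k 4 - ⁅Idl_X k 4, Idl_X k 2⁆) =
      Idl_E 1 (mo 0 1) ⟨0, 0, mo 0 1, 0⟩
    rw [Idl_E_b, map_sub, LieHom.map_lie, Idl_Phi, Idl_Phi]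
    change (⟨0, 0, 1, 0⟩ : HH k) - ⁅(⟨0, 0, 1, 0⟩ : HH k), (⟨Pi.single 2 1, 0, 0, 0⟩ : HH k)⁆ = _
    rw [Idl_lie_bt, Idl_gB2, mo_mul]
    ext1
    · exact sub_zero _
    · exact sub_zero _
    · change (1 : R k) - 1 * (1 - mo 0 2) = mo 0 2
      ring
    · exact sub_zero _

private theorem Idl_wi (hV : S_Ver.{u}) (Id : Set (FreeLieAlgebra k ℕ)) (c : R k)
    (hc : c ∈ VU Id) : mo 0 (-1) * c ∈ VU Id := by
  have h := Idl_gen hV Id 1 (mo 0 (-1)) ![Idl_X k 0, Idl_X k 1,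
    Idl_X k 2, Idl_X k 3,
    Idl_X k 5 + ⁅Idl_X k 5, Idl_X k 0⁆,
    Idl_X k 4] ?_ c hc
  · rwa [one_mul] at h
  intro i
  fin_cases i
  · change Phi k (Idl_X k 0) = Idl_E 1 (mo 0 (-1)) ⟨Pi.single 0 1, 0, 0, 0⟩
    rw [Idl_E_t, Idl_Phi]
    rfl
  · change Phi k (Idl_X k 1) = Idl_E 1 (mo 0 (-1)) ⟨Pi.single 1 1, 0, 0, 0⟩
    rw [Idl_E_t, Idl_Phi]
    rfl
  · change Phi k (Idl_X k 2) = Idl_E 1 (mo 0 (-1)) ⟨Pi.single 2 1, 0, 0, 0⟩
    rw [Idl_E_t, Idl_Phi]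
    rfl
  · change Phi k (Idl_X k 3) = Idl_E 1 (mo 0 (-1)) ⟨0, 1, 0, 0⟩
    rw [Idl_E_a, Idl_Phi, one_mul]
    rfl
  · change Phi k (Idl_X k 5 + ⁅Idl_X k 5, Idl_X k 0⁆) =
      Idl_E 1 (mo 0 (-1)) ⟨0, 0, 1, 0⟩
    rw [Idl_E_b, map_add, LieHom.map_lie, Idl_Phi, Idl_Phi]
    change (⟨0, 0, mo 0 1, 0⟩ : HH k) +
      ⁅(⟨0, 0, mo 0 1, 0⟩ : HH k), (⟨Pi.single 0 1, 0, 0, 0⟩ : HH k)⁆ = _
    rw [Idl_lie_bt, Idl_gB0]
    ext1
    · exact add_zero _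
    · exact add_zero _
    · change (mo 0 1 : R k) + mo 0 1 * (mo 0 (-2) - 1) = mo 0 (-1) * 1
      rw [mul_sub, mo_mul, mul_one, mul_one]
      change (mo 0 1 : R k) + (mo 0 (-1) - mo 0 1) = mo 0 (-1)
      ring
    · exact add_zero _
  · change Phi k (Idl_X k 4) = Idl_E 1 (mo 0 (-1)) ⟨0, 0, mo 0 1, 0⟩
    rw [Idl_E_b, Idl_Phi, mo_mul]
    rfl

private theorem Idl_add (Id : Set (FreeLieAlgebra k ℕ)) {c d : R k} (hc : c ∈ VU Id)
    (hd : d ∈ VU Id) : c + d ∈ VU Id := by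
  obtain ⟨v, hv, hvc⟩ := hc
  obtain ⟨w, hw, hwd⟩ := hd
  refine ⟨v + w, add_mem hv hw, ?_⟩
  rw [map_add, hvc, hwd]
  ext1
  · exact add_zero _
  · exact add_zero _
  · exact add_zero _
  · rfl

private theorem Idl_smul (Id : Set (FreeLieAlgebra k ℕ)) (r : k) {c : R k} (hc : c ∈ VU Id) :
    r • c ∈ VU Id := by
  obtain ⟨v, hv, hvc⟩ := hc
  refine ⟨r • v, Submodule.smul_mem _ r hv, ?_⟩
  rw [map_smul, hvc]
  ext1
  · exact smul_zero _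
  · exact smul_zero _
  · exact smul_zero _
  · rfl

private theorem Idl_zero (Id : Set (FreeLieAlgebra k ℕ)) : (0 : R k) ∈ VU Id :=
  ⟨0, zero_mem _, by rw [map_zero]; rfl⟩

private theorem Idl_u (hV : S_Ver.{u}) (Id : Set (FreeLieAlgebra k ℕ)) (c : R k)
    (hc : c ∈ VU Id) : mo 1 0 * c ∈ VU Id := by
  have h1 := Idl_T1 hV Id c hc
  have h2 := Idl_smul Id (-1) (Idl_w hV Id c hc)
  have h3 := Idl_add Id h1 h2
  have e : (mo 1 0 : R k) * c = T1 * c + (-1 : k) • (mo 0 1 * c) := by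
    rw [T1, neg_smul, one_smul]
    ring
  rw [e]
  exact h3

private theorem Idl_upow (hV : S_Ver.{u}) (Id : Set (FreeLieAlgebra k ℕ)) (ψ : R k)
    (h : ∀ c ∈ VU Id, ψ * c ∈ VU Id) (n : ℕ) : ∀ c ∈ VU Id, ψ ^ n * c ∈ VU Id := by
  induction n with
  | zero =>
    intro c hc
    rwa [pow_zero, one_mul]
  | succ n ih =>
    intro c hc
    rw [pow_succ, mul_assoc]
    exact ih _ (h c hc)

theorem tIdl : S_Ver.{u} → S_Idl.{u} := by
  intro hV k _ Id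
  have hmul : ∀ φ : R k, ∀ c ∈ VU Id, φ * c ∈ VU Id := by
    intro φ
    refine R_induction (P := fun φ => ∀ c ∈ VU Id, φ * c ∈ VU Id) ?_ ?_ ?_ ?_ φ
    · intro c _
      rw [zero_mul]
      exact Idl_zero Id
    · intro φ ψ h1 h2 c hc
      rw [add_mul]
      exact Idl_add Id (h1 c hc) (h2 c hc)
    · intro r φ h c hc
      rw [smul_mul_assoc]
      exact Idl_smul Id r (h c hc)
    · intro i l c hc
      rw [mo_split, mul_assoc]
      refine Idl_upow hV Id _ (Idl_u hV Id) i _ ?_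
      obtain ⟨n, rfl | rfl⟩ := l.eq_nat_or_neg
      · have e : (mo 0 (n : ℤ) : R k) = mo 0 1 ^ n := by
          rw [mo_pow]
          simp
        rw [e]
        exact Idl_upow hV Id _ (Idl_w hV Id) n c hc
      · have e : (mo 0 (-(n : ℤ)) : R k) = mo 0 (-1) ^ n := by
          rw [mo_pow]
          simp
        rw [e]
        exact Idl_upow hV Id _ (Idl_wi hV Id) n c hc
  exact ⟨{ carrier := VU Id
           add_mem' := fun hc hd => Idl_add Id hc hd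
           zero_mem' := Idl_zero Id
           smul_mem' := fun φ c hc => hmul φ c hc }, rfl⟩

end Pool.Agent.Lib.MP_240c17_al.Q2
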