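import Pool.Agent.Lib.MP_240c17_al.Q2.Cwp

/-!
# MP_240c17, project Q2: membership test
-/

set_option autoImplicit false

namespace Pool.Agent.Lib.MP_240c17_al.Q2

universe u

open Pool.Agent.Lib.MP_240c17_al

/-! ## change of basis -/

section change
variable (k : Type u) [Field k]

theorem bH_le (m : Nm) (h : m.1 ≤ 4) : bH k m = eH k m := by
  rw [bH, if_pos h]

theorem bH_gt (m : Nm) (h : ¬m.1 ≤ 4) :
    bH k m = ⟨0, 0, 0, mo m.2.1 ((m.2.2.1 : ℤ) - m.2.2.2)⟩ := by
  rw [bH, if_neg h]

theorem eH_gt (m : Nm) (h : ¬m.1 ≤ 4) :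
    eH k m = ⟨0, 0, 0, T1 ^ m.2.1 * mo 0 ((m.2.2.1 : ℤ) - m.2.2.2)⟩ := by
  have h0 : m.1 ≠ 0 := by omega
  have h1 : m.1 ≠ 1 := by omega
  have h2 : m.1 ≠ 2 := by omega
  have h3 : m.1 ≠ 3 := by omega
  have h4 : m.1 ≠ 4 := by omega
  rw [eH, if_neg h0, if_neg h1, if_neg h2, if_neg h3, if_neg h4]

theorem ex_spec (p q i : ℕ) :
    ((ex p q i).map fun t => (mo t.1 ((t.2.1 : ℤ) - t.2.2) : R k)).sum =
      T1 ^ i * mo 0 ((p : ℤ) - q) := by
  induction i with
  | zero => simp [ex]
  | succ i ih =>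
    have h1 : ∀ l : List (ℕ × ℕ × ℕ),
        ((l.flatMap fun t => [(t.1 + 1, t.2.1, t.2.2), (t.1, t.2.1 + 1, t.2.2)]).map
          fun t => (mo t.1 ((t.2.1 : ℤ) - t.2.2) : R k)).sum =
          T1 * (l.map fun t => (mo t.1 ((t.2.1 : ℤ) - t.2.2) : R k)).sum := by
      intro l
      induction l with
      | nil => simp
      | cons t l ih' =>
        have e3 : (List.map (fun t : ℕ × ℕ × ℕ => (mo t.1 ((t.2.1 : ℤ) - t.2.2) : R k))
            (t :: l)).sum = mo t.1 ((t.2.1 : ℤ) - t.2.2) +
            (l.map fun t => (mo t.1 ((t.2.1 : ℤ) - t.2.2) : R k)).sum := by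
          rw [List.map_cons, List.sum_cons]
        rw [List.flatMap_cons, List.map_append, List.sum_append, ih', e3, mul_add]
        congr 1
        have e1 : (mo (t.1 + 1) ((t.2.1 : ℤ) - t.2.2) : R k) =
            mo 1 0 * mo t.1 ((t.2.1 : ℤ) - t.2.2) := by
          rw [mo_mul]
          congr 1
          · ring
          · ring
        have e2 : (mo t.1 (((t.2.1 + 1 : ℕ) : ℤ) - t.2.2) : R k) =
            mo 0 1 * mo t.1 ((t.2.1 : ℤ) - t.2.2) := by
          rw [mo_mul]
          congr 1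
          · ring
          · push_cast
            ring
        show (mo (t.1 + 1) ((t.2.1 : ℤ) - t.2.2) : R k) +
          (mo t.1 (((t.2.1 + 1 : ℕ) : ℤ) - t.2.2) + 0) = _
        rw [e1, e2, T1]
        ring
    have h2 := h1 (ex p q i)
    rw [ih] at h2
    rw [pow_succ']
    rw [mul_assoc]
    exact h2

theorem cvt_spec (l : List (k × Nm)) : lval (bH k) (cvt k l) = lval (eH k) l := by
  induction l with
  | nil => rfl
  | cons p l ih =>
    have h1 : cvt k (p :: l) = (if p.2.1 ≤ 4 then [p] else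
        (ex p.2.2.2.1 p.2.2.2.2 p.2.2.1).map fun t => (p.1, ((5, t.1, t.2.1, t.2.2) : Nm))) ++
        cvt k l := by
      rw [cvt, List.flatMap_cons]
      rfl
    rw [h1, lval_append, ih, lval_cons]
    congr 1
    by_cases h : p.2.1 ≤ 4
    · rw [if_pos h, lval_cons, lval_nil, add_zero, bH_le k p.2 h]
    · rw [if_neg h, eH_gt k p.2 h]
      have h2 : ∀ l : List (ℕ × ℕ × ℕ), lval (bH k)
          (l.map fun t => (p.1, ((5, t.1, t.2.1, t.2.2) : Nm))) =
          p.1 • (⟨0, 0, 0, (l.map fun t => (mo t.1 ((t.2.1 : ℤ) - t.2.2) : R k)).sum⟩ : HH k) := by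
        intro l
        induction l with
        | nil =>
          rw [List.map_nil, lval_nil, List.map_nil, List.sum_nil]
          refine HL.ext ?_ ?_ ?_ ?_
          · simp
          · simp
          · simp
          · simp
        | cons t l ih' =>
          rw [List.map_cons, lval_cons, ih', List.map_cons, List.sum_cons,
            bH_gt k (5, t.1, t.2.1, t.2.2) (by show ¬ 5 ≤ 4; omega), ← smul_add]
          congr 1
          refine HL.ext ?_ ?_ ?_ ?_
          · simp
          · simp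
          · simp
          · rfl
      rw [h2, ex_spec]

end change

/-! ## coordinates -/

section coord
variable (k : Type u) [Field k]

/-- `w` as a unit -/
noncomputable def wU : (R k)ˣ :=
  ⟨mo 0 1, mo 0 (-1), by rw [mo_mul]; exact mo_zero, by rw [mo_mul]; exact mo_zero⟩

/-- `u ↦ u - w` -/
noncomputable def tau : R k →ₐ[k] R k := algOf (mo 1 0 - mo 0 1) (wU k)

/-- `u ↦ u + w` -/
noncomputable def tauI : R k →ₐ[k] R k := algOf (mo 1 0 + mo 0 1) (wU k)

theorem tau_u : tau k (mo 1 0) = mo 1 0 - mo 0 1 := by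
  rw [tau, algOf_mo]
  simp

theorem tau_w : tau k (mo 0 1) = mo 0 1 := by
  rw [tau, algOf_mo]
  simp [wU]

theorem tauI_u : tauI k (mo 1 0) = mo 1 0 + mo 0 1 := by
  rw [tauI, algOf_mo]
  simp

theorem tauI_w : tauI k (mo 0 1) = mo 0 1 := by
  rw [tauI, algOf_mo]
  simp [wU]

theorem tau_T1 (n : ℕ) : tau k (T1 ^ n) = mo n 0 := by
  rw [map_pow, T1, map_add, tau_u, tau_w, sub_add_cancel, mo_pow]
  simp

theorem tau_inj (φ : R k) (h : tau k φ = 0) : φ = 0 := by
  have h1 : (tauI k).comp (tau k) = AlgHom.id k (R k) := by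
    refine alg_ext ?_ ?_
    · rw [AlgHom.comp_apply, tau_u, map_sub, tauI_u, tauI_w, add_sub_cancel_right]
      rfl
    · rw [AlgHom.comp_apply, tau_w, tauI_w]
      rfl
  have h2 : (tauI k).comp (tau k) φ = φ := by
    rw [h1]
    rfl
  rw [← h2, AlgHom.comp_apply, h, map_zero]

/-- coefficient functional -/
noncomputable def cfn (p : ℕ × ℤ) : R k →ₗ[k] k :=
  (Finsupp.lapply p).comp (AddMonoidAlgebra.coeffLinearEquiv k).toLinearMap

theorem cfn_apply (p : ℕ × ℤ) (φ : R k) : cfn k p φ = φ.coeff p := rfl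

noncomputable def prT (s : Fin 3) : HH k →ₗ[k] k where
  toFun v := v.t s
  map_add' _ _ := rfl
  map_smul' _ _ := rfl

noncomputable def prA : HH k →ₗ[k] R k where
  toFun v := v.a
  map_add' _ _ := rfl
  map_smul' _ _ := rfl

noncomputable def prB : HH k →ₗ[k] R k where
  toFun v := v.b
  map_add' _ _ := rfl
  map_smul' _ _ := rfl

noncomputable def prC : HH k →ₗ[k] R k where
  toFun v := v.c
  map_add' _ _ := rfl
  map_smul' _ _ := rfl

theorem lin_lval (f : HH k →ₗ[k] k) (l : List (k × Nm)) :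
    f (lval (bH k) l) = (l.map fun p => p.1 * f (bH k p.2)).sum := by
  induction l with
  | nil => rw [lval_nil, map_zero, List.map_nil, List.sum_nil]
  | cons p l ih =>
    rw [lval_cons, map_add, map_smul, ih, List.map_cons, List.sum_cons, smul_eq_mul]

/-- the coordinate functional of a basis vector -/
noncomputable def kap (m : Nm) : HH k →ₗ[k] k :=
  if m.1 = 0 then prT k 0 else if m.1 = 1 then prT k 1 else if m.1 = 2 then prT k 2 else
  if m.1 = 3 then (cfn k (m.2.1, 0)).comp ((tau k).toLinearMap.comp (prA k)) else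
  if m.1 = 4 then (cfn k (0, (m.2.2.1 : ℤ) - m.2.2.2)).comp (prB k) else
  (cfn k (m.2.1, (m.2.2.1 : ℤ) - m.2.2.2)).comp (prC k)

theorem kap_bH (m m' : Nm) : kap k m (bH k m') = if sameB m m' then 1 else 0 := by
  obtain ⟨t, i, p, q⟩ := m
  obtain ⟨t', i', p', q'⟩ := m'
  have ht : t = 0 ∨ t = 1 ∨ t = 2 ∨ t = 3 ∨ t = 4 ∨ 5 ≤ t := by omega
  have ht' : t' = 0 ∨ t' = 1 ∨ t' = 2 ∨ t' = 3 ∨ t' = 4 ∨ 5 ≤ t' := by omega
  have c0 : (0 : R k).coeff = 0 := rfl
  rcases ht with rfl | rfl | rfl | rfl | rfl | ht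
  · rcases ht' with rfl | rfl | rfl | rfl | rfl | ht'
    · simp [kap, bH, eH, sameB, prT]
    · simp [kap, bH, eH, sameB, prT]
    · simp [kap, bH, eH, sameB, prT]
    · simp [kap, bH, eH, sameB, prT]
    · simp [kap, bH, eH, sameB, prT]
    · have a1 : ¬t' ≤ 4 := by omega
      have a2 : ¬0 = t' := by omega
      simp [kap, bH, sameB, prT, a1, a2]
  · rcases ht' with rfl | rfl | rfl | rfl | rfl | ht'
    · simp [kap, bH, eH, sameB, prT]
    · simp [kap, bH, eH, sameB, prT]
    · simp [kap, bH, eH, sameB, prT]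
    · simp [kap, bH, eH, sameB, prT]
    · simp [kap, bH, eH, sameB, prT]
    · have a1 : ¬t' ≤ 4 := by omega
      have a2 : ¬1 = t' := by omega
      simp [kap, bH, sameB, prT, a1, a2]
  · rcases ht' with rfl | rfl | rfl | rfl | rfl | ht'
    · simp [kap, bH, eH, sameB, prT]
    · simp [kap, bH, eH, sameB, prT]
    · simp [kap, bH, eH, sameB, prT]
    · simp [kap, bH, eH, sameB, prT]
    · simp [kap, bH, eH, sameB, prT]
    · have a1 : ¬t' ≤ 4 := by omega
      have a2 : ¬2 = t' := by omega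
      simp [kap, bH, sameB, prT, a1, a2]
  · rcases ht' with rfl | rfl | rfl | rfl | rfl | ht'
    · simp [kap, bH, eH, sameB, prA]
    · simp [kap, bH, eH, sameB, prA]
    · simp [kap, bH, eH, sameB, prA]
    · have e1 : kap k (3, i, p, q) (bH k (3, i', p', q')) = (tau k (T1 ^ i')).coeff (i, 0) := by
        simp [kap, bH, eH, prA, cfn_apply]
      rw [e1, tau_T1, coeff_mo]
      by_cases h : i = i'
      · simp [sameB, h]
      · simp [sameB, h]
    · simp [kap, bH, eH, sameB, prA]
    · have a1 : ¬t' ≤ 4 := by omega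
      have a2 : ¬3 = t' := by omega
      simp [kap, bH, sameB, prA, a1, a2]
  · rcases ht' with rfl | rfl | rfl | rfl | rfl | ht'
    · simp [kap, bH, eH, sameB, prB]
    · simp [kap, bH, eH, sameB, prB]
    · simp [kap, bH, eH, sameB, prB]
    · simp [kap, bH, eH, sameB, prB]
    · have e1 : kap k (4, i, p, q) (bH k (4, i', p', q')) =
          (mo 0 ((p' : ℤ) - q') : R k).coeff (0, (p : ℤ) - q) := by
        simp [kap, bH, eH, prB, cfn_apply]
      rw [e1, coeff_mo]
      by_cases h : p + q' = p' + q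
      · rw [if_pos, if_pos]
        · simp [sameB, h]
        · simp
          omega
      · rw [if_neg, if_neg]
        · simp [sameB, h]
        · simp
          omega
    · have a1 : ¬t' ≤ 4 := by omega
      have a2 : ¬4 = t' := by omega
      simp [kap, bH, sameB, prB, a1, a2]
  · have n0 : t ≠ 0 := by omega
    have n1 : t ≠ 1 := by omega
    have n2 : t ≠ 2 := by omega
    have n3 : t ≠ 3 := by omega
    have n4 : t ≠ 4 := by omega
    have m3 : ¬t < 3 := by omega
    have m4 : ¬t < 4 := by omega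
    have hk : kap k (t, i, p, q) = (cfn k (i, (p : ℤ) - q)).comp (prC k) := by
      simp [kap, n0, n1, n2, n3, n4]
    rw [hk]
    rcases ht' with rfl | rfl | rfl | rfl | rfl | ht'
    · simp [bH, eH, sameB, prC, n0]
    · simp [bH, eH, sameB, prC, n1]
    · simp [bH, eH, sameB, prC, n2]
    · simp [bH, eH, sameB, prC, n3]
    · simp [bH, eH, sameB, prC, n4]
    · have a1 : ¬t' ≤ 4 := by omega
      have e1 : ((cfn k (i, (p : ℤ) - q)).comp (prC k)) (bH k (t', i', p', q')) =
          (mo i' ((p' : ℤ) - q') : R k).coeff (i, (p : ℤ) - q) := by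
        simp [bH, prC, cfn_apply, a1]
      rw [e1, coeff_mo]
      by_cases h : i = i' ∧ p + q' = p' + q
      · rw [if_pos, if_pos]
        · exact ⟨Or.inr ⟨ht, ht'⟩, Or.inr (Or.inr h.1), Or.inr h.2⟩
        · rw [Prod.mk.injEq]
          refine ⟨h.1, ?_⟩
          have := h.2
          omega
      · rw [if_neg, if_neg]
        · rintro ⟨_, s2, s3⟩
          apply h
          constructor
          · rcases s2 with s2 | s2 | s2
            · exact absurd s2 m3
            · exact absurd s2 n4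
            · exact s2
          · rcases s3 with s3 | s3
            · exact absurd s3 m4
            · exact s3
        · rw [Prod.mk.injEq]
          rintro ⟨s1, s2⟩
          apply h
          refine ⟨s1, ?_⟩
          omega

end coord

end Pool.Agent.Lib.MP_240c17_al.Q2
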