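import Pool.Agent.Lib.MP_240c17_al.Q2.Spec

/-!
# The sum of two subalgebras, case (1,2)
-/

set_option autoImplicit false

namespace Pool.Agent.Lib.MP_240c17_al.Q2

universe u

open Pool.Agent.Lib.MP_240c17_al

theorem tP12 : S_PU.{u} → S_P12.{u} := by
  intro hPU k _ C _ _ p r ri s si hr hs i a b c d
  have a1 : ri ∈ Algebra.adjoin k {ri, p - r, (p - r) * r, s, si} :=
    Algebra.subset_adjoin (by simp)
  have a2 : p - r ∈ Algebra.adjoin k {ri, p - r, (p - r) * r, s, si} :=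
    Algebra.subset_adjoin (by simp)
  have a3 : (p - r) * r ∈ Algebra.adjoin k {ri, p - r, (p - r) * r, s, si} :=
    Algebra.subset_adjoin (by simp)
  have a4 : s ∈ Algebra.adjoin k {ri, p - r, (p - r) * r, s, si} :=
    Algebra.subset_adjoin (by simp)
  have a5 : si ∈ Algebra.adjoin k {ri, p - r, (p - r) * r, s, si} :=
    Algebra.subset_adjoin (by simp)
  have b1 : si ∈ Algebra.adjoin k {si, p - s, (p - s) * s, r, ri} :=
    Algebra.subset_adjoin (by simp)
  have b2 : p - s ∈ Algebra.adjoin k {si, p - s, (p - s) * s, r, ri} :=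
    Algebra.subset_adjoin (by simp)
  have b4 : r ∈ Algebra.adjoin k {si, p - s, (p - s) * s, r, ri} :=
    Algebra.subset_adjoin (by simp)
  have b5 : ri ∈ Algebra.adjoin k {si, p - s, (p - s) * s, r, ri} :=
    Algebra.subset_adjoin (by simp)
  generalize Algebra.adjoin k {ri, p - r, (p - r) * r, s, si} = O1 at a1 a2 a3 a4 a5 ⊢
  generalize Algebra.adjoin k {si, p - s, (p - s) * s, r, ri} = O2 at b1 b2 b4 b5 ⊢
  have hp : p * ri ∈ O1 := by
    have e : p * ri = (p - r) * ri + 1 := by rw [← hr]; ring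
    rw [e]
    exact O1.add_mem (O1.mul_mem a2 a1) O1.one_mem
  have hq : p * si ∈ O2 := by
    have e : p * si = (p - s) * si + 1 := by rw [← hs]; ring
    rw [e]
    exact O2.add_mem (O2.mul_mem b2 b1) O2.one_mem
  have hra : ri ^ a * r ^ a = 1 := by rw [← mul_pow, mul_comm, hr, one_pow]
  have hsc : si ^ c * s ^ c = 1 := by rw [← mul_pow, mul_comm, hs, one_pow]
  refine hPU k C O1 O2 ri si ((p - r) * r * si) (r - (p - s)) a1 b1 (O1.mul_mem a3 a5)
    (O2.sub_mem b4 b2) ?_ (i + a + c) _ ?_ ?_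
  · calc ri * ((p - r) * r * si) + si * (r - (p - s))
        = (p - r) * si * (r * ri) + si * (r - p) + s * si := by ring
      _ = 1 := by rw [hr, hs]; ring
  · have e : ri ^ (i + a + c) * (p ^ i * r ^ a * ri ^ b * s ^ c * si ^ d) =
        (p * ri) ^ i * ri ^ c * ri ^ b * s ^ c * si ^ d := by
      calc ri ^ (i + a + c) * (p ^ i * r ^ a * ri ^ b * s ^ c * si ^ d)
          = (p * ri) ^ i * ri ^ c * ri ^ b * s ^ c * si ^ d * (ri ^ a * r ^ a) := by ring
        _ = (p * ri) ^ i * ri ^ c * ri ^ b * s ^ c * si ^ d := by rw [hra, mul_one]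
    rw [e]
    exact O1.mul_mem (O1.mul_mem (O1.mul_mem (O1.mul_mem (O1.pow_mem hp _) (O1.pow_mem a1 _))
      (O1.pow_mem a1 _)) (O1.pow_mem a4 _)) (O1.pow_mem a5 _)
  · have e : si ^ (i + a + c) * (p ^ i * r ^ a * ri ^ b * s ^ c * si ^ d) =
        (p * si) ^ i * si ^ a * si ^ d * r ^ a * ri ^ b := by
      calc si ^ (i + a + c) * (p ^ i * r ^ a * ri ^ b * s ^ c * si ^ d)
          = (p * si) ^ i * si ^ a * si ^ d * r ^ a * ri ^ b * (si ^ c * s ^ c) := by ring
        _ = (p * si) ^ i * si ^ a * si ^ d * r ^ a * ri ^ b := by rw [hsc, mul_one]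
    rw [e]
    exact O2.mul_mem (O2.mul_mem (O2.mul_mem (O2.mul_mem (O2.pow_mem hq _) (O2.pow_mem b1 _))
      (O2.pow_mem b1 _)) (O2.pow_mem b4 _)) (O2.pow_mem b5 _)

end Pool.Agent.Lib.MP_240c17_al.Q2
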