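import Pool.Agent.Lib.MP_240c17_al.Q2.Defs

/-!
# MP_240c17, project Q2: the ring `k[u, w, w⁻¹]`
-/

set_option autoImplicit false

namespace Pool.Agent.Lib.MP_240c17_al.Q2

universe u v

open Pool.Agent.Lib.MP_240c17_al

variable {k : Type u} [Field k]

/-- the ring `k[u, w, w⁻¹]` -/
abbrev R (k : Type u) [Field k] : Type u := AddMonoidAlgebra k (ℕ × ℤ)

/-- the monomial `u^i w^l` -/
noncomputable def mo (i : ℕ) (l : ℤ) : R k := AddMonoidAlgebra.single (i, l) 1

/-- `T₁ = u + w` -/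
noncomputable def T1 : R k := mo 1 0 + mo 0 1

theorem mo_mul (i j : ℕ) (l m : ℤ) : (mo i l : R k) * mo j m = mo (i + j) (l + m) := by
  simp [mo, AddMonoidAlgebra.single_mul_single]

theorem mo_zero : (mo 0 0 : R k) = 1 := rfl

theorem mo_pow (i : ℕ) (l : ℤ) (n : ℕ) : (mo i l : R k) ^ n = mo (n * i) (n * l) := by
  induction n with
  | zero => simp [mo_zero]
  | succ n ih =>
    rw [pow_succ, ih, mo_mul]
    congr 1
    · ring
    · push_cast
      ring

theorem mo_split (i : ℕ) (l : ℤ) : (mo i l : R k) = mo 1 0 ^ i * mo 0 l := by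
  rw [mo_pow, mo_mul]
  congr 1
  · ring
  · ring

theorem coeff_mo (i : ℕ) (l : ℤ) (p : ℕ × ℤ) :
    (mo i l : R k).coeff p = if p = (i, l) then 1 else 0 := by
  rw [mo, AddMonoidAlgebra.coeff_single, Finsupp.single_apply]
  by_cases h : p = (i, l)
  · rw [if_pos h, if_pos h.symm]
  · rw [if_neg h, if_neg (fun h' => h h'.symm)]

theorem single_eq (p : ℕ × ℤ) (c : k) : (AddMonoidAlgebra.single p c : R k) = c • mo p.1 p.2 := by
  rw [mo, AddMonoidAlgebra.smul_single, smul_eq_mul, mul_one]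

/-- induction principle -/
theorem R_induction {P : R k → Prop} (h0 : P 0) (hadd : ∀ φ ψ, P φ → P ψ → P (φ + ψ))
    (hsmul : ∀ (c : k) φ, P φ → P (c • φ)) (hmo : ∀ i l, P (mo i l)) (φ : R k) : P φ := by
  have h : P (AddMonoidAlgebra.ofCoeff φ.coeff) := by
    induction φ.coeff using Finsupp.induction with
    | zero => exact h0
    | single_add p c f _ _ ih =>
      rw [AddMonoidAlgebra.ofCoeff_add, AddMonoidAlgebra.ofCoeff_single, single_eq]
      exact hadd _ _ (hsmul _ _ (hmo _ _)) ih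
  exact h

/-- membership in a subspace -/
theorem mem_of_mo {P : Submodule k (R k)} {φ : R k}
    (h : ∀ p : ℕ × ℤ, φ.coeff p ≠ 0 → mo p.1 p.2 ∈ P) : φ ∈ P := by
  have e : φ = φ.coeff.sum AddMonoidAlgebra.single := (AddMonoidAlgebra.sum_coeff_single φ).symm
  rw [e]
  refine Submodule.sum_mem _ fun p hp => ?_
  rw [single_eq]
  exact P.smul_mem _ (h p (Finsupp.mem_support_iff.mp hp))

/-- the monomials span -/
theorem span_mo : Submodule.span k (Set.range fun p : ℕ × ℤ => (mo p.1 p.2 : R k)) = ⊤ := by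
  rw [eq_top_iff]
  intro φ _
  exact mem_of_mo fun p _ => Submodule.subset_span ⟨p, rfl⟩

/-- linear maps with prescribed values on the monomials -/
noncomputable def linOf {M : Type v} [AddCommGroup M] [Module k M] (F : ℕ → ℤ → M) : R k →ₗ[k] M :=
  (Finsupp.lift M k (ℕ × ℤ) fun p => F p.1 p.2).comp
    (AddMonoidAlgebra.coeffLinearEquiv k).toLinearMap

theorem linOf_mo {M : Type v} [AddCommGroup M] [Module k M] (F : ℕ → ℤ → M) (i : ℕ) (l : ℤ) :
    linOf (k := k) F (mo i l) = F i l := by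
  show Finsupp.lift M k (ℕ × ℤ) (fun p => F p.1 p.2) (mo i l : R k).coeff = F i l
  rw [mo, AddMonoidAlgebra.coeff_single, Finsupp.lift_apply, Finsupp.sum_single_index (by simp),
    one_smul]

theorem lin_ext {M : Type v} [AddCommGroup M] [Module k M] {f g : R k →ₗ[k] M}
    (h : ∀ i l, f (mo i l) = g (mo i l)) : f = g := by
  refine LinearMap.ext fun φ => ?_
  refine R_induction (P := fun φ => f φ = g φ) ?_ ?_ ?_ h φ
  · rw [map_zero, map_zero]
  · intro a b ha hb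
    rw [map_add, map_add, ha, hb]
  · intro c a ha
    rw [map_smul, map_smul, ha]

/-- the homomorphism of algebras with `u ↦ b`, `w ↦ w` -/
noncomputable def algOf {B : Type v} [CommRing B] [Algebra k B] (b : B) (w : Bˣ) : R k →ₐ[k] B :=
  AddMonoidAlgebra.lift k B (ℕ × ℤ)
    { toFun := fun p => b ^ (Multiplicative.toAdd p).1 * ((w ^ (Multiplicative.toAdd p).2 : Bˣ) : B)
      map_one' := by simp
      map_mul' := by
        intro p q
        rw [toAdd_mul, Prod.fst_add, Prod.snd_add, pow_add, zpow_add, Units.val_mul]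
        ring }

theorem algOf_mo {B : Type v} [CommRing B] [Algebra k B] (b : B) (w : Bˣ) (i : ℕ) (l : ℤ) :
    algOf (k := k) b w (mo i l) = b ^ i * ((w ^ l : Bˣ) : B) := by
  rw [algOf, mo, AddMonoidAlgebra.lift_single, one_smul]
  rfl

theorem alg_ext {B : Type v} [CommRing B] [Algebra k B] {f g : R k →ₐ[k] B}
    (hu : f (mo 1 0) = g (mo 1 0)) (hw : f (mo 0 1) = g (mo 0 1)) : f = g := by
  have h1 : ∀ l : ℤ, f (mo 0 l) = g (mo 0 l) := by
    have hm : ∀ (f : R k →ₐ[k] B), f (mo 0 1) * f (mo 0 (-1)) = 1 := by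
      intro f
      rw [← map_mul, mo_mul]
      exact map_one f
    have hinv : f (mo 0 (-1)) = g (mo 0 (-1)) := by
      have e1 := hm f
      have e2 := hm g
      rw [hw] at e1
      calc f (mo 0 (-1)) = (g (mo 0 1) * g (mo 0 (-1))) * f (mo 0 (-1)) := by rw [e2, one_mul]
        _ = g (mo 0 (-1)) * (g (mo 0 1) * f (mo 0 (-1))) := by ring
        _ = g (mo 0 (-1)) := by rw [e1, mul_one]
    intro l
    obtain ⟨n, rfl | rfl⟩ := l.eq_nat_or_neg
    · have e : (mo 0 (n : ℤ) : R k) = mo 0 1 ^ n := by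
        rw [mo_pow]
        simp
      rw [e, map_pow, map_pow, hw]
    · have e : (mo 0 (-(n : ℤ)) : R k) = mo 0 (-1) ^ n := by
        rw [mo_pow]
        simp
      rw [e, map_pow, map_pow, hinv]
  refine AlgHom.ext fun φ => ?_
  refine R_induction (P := fun φ => f φ = g φ) ?_ ?_ ?_ ?_ φ
  · rw [map_zero, map_zero]
  · intro a b ha hb
    rw [map_add, map_add, ha, hb]
  · intro c a ha
    rw [map_smul, map_smul, ha]
  · intro i l
    rw [mo_split, map_mul, map_mul, map_pow, map_pow, hu, h1]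

/-! ## the subspaces `JJ j` -/

/-- `W + (u^j)`, `W = k[w⁻¹, u, u w]`: spanned by the monomials `u^i w^l` with `l ≤ i` or `j ≤ i` -/
def JJ (k : Type u) [Field k] (j : ℕ∞) : Submodule k (R k) where
  carrier := {φ | ∀ p : ℕ × ℤ, φ.coeff p ≠ 0 → p.2 ≤ (p.1 : ℤ) ∨ j ≤ (p.1 : ℕ∞)}
  add_mem' := by
    intro φ ψ hφ hψ p hp
    by_cases h : φ.coeff p = 0
    · refine hψ p ?_
      intro h'
      apply hp
      rw [AddMonoidAlgebra.coeff_add, Finsupp.add_apply, h, h', add_zero]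
    · exact hφ p h
  zero_mem' := by
    intro p hp
    exact absurd rfl hp
  smul_mem' := by
    intro c φ hφ p hp
    refine hφ p ?_
    intro h
    apply hp
    rw [AddMonoidAlgebra.coeff_smul, Finsupp.smul_apply, h, smul_zero]

theorem mem_JJ {j : ℕ∞} {φ : R k} :
    φ ∈ JJ k j ↔ ∀ p : ℕ × ℤ, φ.coeff p ≠ 0 → p.2 ≤ (p.1 : ℤ) ∨ j ≤ (p.1 : ℕ∞) := Iff.rfl

theorem mo_mem_JJ {j : ℕ∞} {i : ℕ} {l : ℤ} : (mo i l : R k) ∈ JJ k j ↔
    l ≤ (i : ℤ) ∨ j ≤ (i : ℕ∞) := by
  constructor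
  · intro h
    refine h (i, l) ?_
    rw [coeff_mo, if_pos rfl]
    exact one_ne_zero
  · intro h p hp
    rw [coeff_mo] at hp
    by_cases e : p = (i, l)
    · rw [e]
      exact h
    · rw [if_neg e] at hp
      exact absurd rfl hp

/-- closed under the multiplication with suitable elements -/
theorem mul_mem_JJ {j : ℕ∞} {ψ : R k} (hψ : ∀ i l, (mo i l : R k) ∈ JJ k j → mo i l * ψ ∈ JJ k j)
    {φ : R k} (hφ : φ ∈ JJ k j) : φ * ψ ∈ JJ k j := by
  have h1 : φ ∈ (JJ k j).comap (LinearMap.mulRight k ψ) := by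
    refine mem_of_mo fun p hp => ?_
    exact hψ p.1 p.2 (mo_mem_JJ.mpr (hφ p hp))
  exact h1

/-! ## the torus -/

/-- the weights on `a`: `1, T₁, T₁²` -/
noncomputable def fA (k : Type u) [Field k] : (Fin 3 → k) →ₗ[k] R k where
  toFun t := t 0 • 1 + t 1 • T1 + t 2 • T1 ^ 2
  map_add' s t := by
    simp only [Pi.add_apply, add_smul]
    abel
  map_smul' c t := by
    simp only [Pi.smul_apply, smul_eq_mul, mul_smul, smul_add, RingHom.id_apply]

/-- the weights on `b`: `ξ, ξ w, ξ w²`, `ξ = w⁻² - 1` -/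
noncomputable def gB (k : Type u) [Field k] : (Fin 3 → k) →ₗ[k] R k where
  toFun t := t 0 • (mo 0 (-2) - 1) + t 1 • (mo 0 (-1) - mo 0 1) + t 2 • (1 - mo 0 2)
  map_add' s t := by
    simp only [Pi.add_apply, add_smul]
    abel
  map_smul' c t := by
    simp only [Pi.smul_apply, smul_eq_mul, mul_smul, smul_add, RingHom.id_apply]

theorem T1_sq : (T1 : R k) ^ 2 = mo 2 0 + (mo 1 1 + mo 1 1) + mo 0 2 := by
  rw [T1, sq, add_mul, mul_add, mul_add, mo_mul, mo_mul, mo_mul, mo_mul]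
  norm_num
  abel

/-- the weights on `c` -/
theorem hC (t : Fin 3 → k) : fA k t + gB k t = t 0 • mo 0 (-2) + t 1 • (mo 1 0 + mo 0 (-1)) +
    t 2 • (mo 2 0 + (mo 1 1 + mo 1 1) + 1) := by
  show (t 0 • (1 : R k) + t 1 • T1 + t 2 • T1 ^ 2) + (t 0 • (mo 0 (-2) - 1) +
    t 1 • (mo 0 (-1) - mo 0 1) + t 2 • (1 - mo 0 2)) = _
  rw [T1_sq, T1]
  module

theorem JJ_hC {j : ℕ∞} {φ : R k} (hφ : φ ∈ JJ k j) (t : Fin 3 → k) :
    φ * (fA k t + gB k t) ∈ JJ k j := by
  have h0 : φ * mo 0 (-2) ∈ JJ k j := by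
    refine mul_mem_JJ (fun i l h => ?_) hφ
    rw [mo_mul, mo_mem_JJ]
    rcases mo_mem_JJ.mp h with h | h
    · left
      push_cast
      omega
    · right
      simpa using h
  have h1 : φ * mo 1 0 ∈ JJ k j := by
    refine mul_mem_JJ (fun i l h => ?_) hφ
    rw [mo_mul, mo_mem_JJ]
    rcases mo_mem_JJ.mp h with h | h
    · left
      push_cast
      omega
    · right
      refine h.trans ?_
      exact_mod_cast Nat.le_succ i
  have h2 : φ * mo 0 (-1) ∈ JJ k j := by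
    refine mul_mem_JJ (fun i l h => ?_) hφ
    rw [mo_mul, mo_mem_JJ]
    rcases mo_mem_JJ.mp h with h | h
    · left
      push_cast
      omega
    · right
      simpa using h
  have h3 : φ * mo 2 0 ∈ JJ k j := by
    refine mul_mem_JJ (fun i l h => ?_) hφ
    rw [mo_mul, mo_mem_JJ]
    rcases mo_mem_JJ.mp h with h | h
    · left
      push_cast
      omega
    · right
      refine h.trans ?_
      exact_mod_cast Nat.le_add_right i 2
  have h4 : φ * mo 1 1 ∈ JJ k j := by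
    refine mul_mem_JJ (fun i l h => ?_) hφ
    rw [mo_mul, mo_mem_JJ]
    rcases mo_mem_JJ.mp h with h | h
    · left
      push_cast
      omega
    · right
      refine h.trans ?_
      exact_mod_cast Nat.le_succ i
  rw [hC]
  have e : φ * (t 0 • mo 0 (-2) + t 1 • (mo 1 0 + mo 0 (-1)) +
      t 2 • (mo 2 0 + (mo 1 1 + mo 1 1) + 1)) = t 0 • (φ * mo 0 (-2)) +
      t 1 • (φ * mo 1 0 + φ * mo 0 (-1)) +
      t 2 • (φ * mo 2 0 + (φ * mo 1 1 + φ * mo 1 1) + φ) := by
    simp only [mul_add, mul_smul_comm, mul_one]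
  rw [e]
  refine Submodule.add_mem _ (Submodule.add_mem _ ?_ ?_) ?_
  · exact Submodule.smul_mem _ _ h0
  · exact Submodule.smul_mem _ _ (Submodule.add_mem _ h1 h2)
  · exact Submodule.smul_mem _ _ (Submodule.add_mem _ (Submodule.add_mem _ h3
      (Submodule.add_mem _ h4 h4)) hφ)

/-! ## the algebra `H` and its ideals -/

/-- the algebra `H = k³ ⋉ (R a ⊕ R b ⊕ R c)` -/
abbrev HH (k : Type u) [Field k] : Type u := HL (fA k) (gB k)

/-- the generators `z, x₁, x₂, a, b₀, b₁` -/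
noncomputable def gens (k : Type u) [Field k] : Fin 6 → HH k :=
  ![⟨Pi.single 0 1, 0, 0, 0⟩, ⟨Pi.single 1 1, 0, 0, 0⟩, ⟨Pi.single 2 1, 0, 0, 0⟩, ⟨0, 1, 0, 0⟩,
    ⟨0, 0, 1, 0⟩, ⟨0, 0, mo 0 1, 0⟩]

/-- the homomorphism of the free Lie algebra -/
noncomputable def Phi (k : Type u) [Field k] : FreeLieAlgebra k (Fin 6) →ₗ⁅k⁆ HH k :=
  FreeLieAlgebra.lift k (gens k)

/-- the preimage of the ideal `JJ j c` of `H` -/
noncomputable def kerJ (k : Type u) [Field k] (j : ℕ∞) : LieIdeal k (FreeLieAlgebra k (Fin 6)) where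
  carrier := {v | (Phi k v).t = 0 ∧ (Phi k v).a = 0 ∧ (Phi k v).b = 0 ∧ (Phi k v).c ∈ JJ k j}
  add_mem' := by
    rintro v w ⟨h1, h2, h3, h4⟩ ⟨n1, n2, n3, n4⟩
    refine ⟨?_, ?_, ?_, ?_⟩
    · rw [map_add, HL.add_t, h1, n1, add_zero]
    · rw [map_add, HL.add_a, h2, n2, add_zero]
    · rw [map_add, HL.add_b, h3, n3, add_zero]
    · rw [map_add, HL.add_c]
      exact Submodule.add_mem _ h4 n4
  zero_mem' := by
    refine ⟨?_, ?_, ?_, ?_⟩ <;> rw [map_zero]
    · rfl
    · rfl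
    · rfl
    · exact Submodule.zero_mem _
  smul_mem' := by
    rintro c v ⟨h1, h2, h3, h4⟩
    refine ⟨?_, ?_, ?_, ?_⟩
    · rw [map_smul, HL.smul_t, h1, smul_zero]
    · rw [map_smul, HL.smul_a, h2, smul_zero]
    · rw [map_smul, HL.smul_b, h3, smul_zero]
    · rw [map_smul, HL.smul_c]
      exact Submodule.smul_mem _ _ h4
  lie_mem := by
    rintro x v ⟨h1, h2, h3, h4⟩
    refine ⟨?_, ?_, ?_, ?_⟩
    · rw [LieHom.map_lie, HL.lie_t]
    · rw [LieHom.map_lie, HL.lie_a, h1, h2, map_zero, mul_zero, zero_mul, sub_zero]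
    · rw [LieHom.map_lie, HL.lie_b, h1, h3, map_zero, mul_zero, zero_mul, sub_zero]
    · rw [LieHom.map_lie, HL.lie_c, h1, h2, h3]
      have e : (Phi k x).a * 0 - 0 * (Phi k x).b + ((Phi k x).c * (fA k 0 + gB k 0) -
          (Phi k v).c * (fA k (Phi k x).t + gB k (Phi k x).t)) =
          -((Phi k v).c * (fA k (Phi k x).t + gB k (Phi k x).t)) := by
        rw [map_zero, map_zero]
        ring
      rw [e]
      exact Submodule.neg_mem _ (JJ_hC h4 _)

theorem mem_kerJ {j : ℕ∞} {v : FreeLieAlgebra k (Fin 6)} : v ∈ kerJ k j ↔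
    (Phi k v).t = 0 ∧ (Phi k v).a = 0 ∧ (Phi k v).b = 0 ∧ (Phi k v).c ∈ JJ k j := Iff.rfl

/-- the algebras `G_j` -/
abbrev Gq (k : Type u) [Field k] (j : ℕ∞) : Type u := FreeLieAlgebra k (Fin 6) ⧸ kerJ k j

end Pool.Agent.Lib.MP_240c17_al.Q2
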