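import Pool.Agent.Lib.MP_240c17_al.Q2.Cwp

/-!
# MP_240c17, project Q2: structure constants of `H`
-/

set_option autoImplicit false

namespace Pool.Agent.Lib.MP_240c17_al.Q2

universe u

open Pool.Agent.Lib.MP_240c17_al

section correct
variable (k : Type u) [Field k]

theorem eH_a (i p q : ℕ) : eH k (3, i, p, q) = ⟨0, T1 ^ i, 0, 0⟩ := by
  simp [eH]

theorem eH_b (i p q : ℕ) : eH k (4, i, p, q) = ⟨0, 0, mo 0 ((p : ℤ) - q), 0⟩ := by
  simp [eH]

theorem eH_c (t i p q : ℕ) (ht : 5 ≤ t) :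
    eH k (t, i, p, q) = ⟨0, 0, 0, T1 ^ i * mo 0 ((p : ℤ) - q)⟩ := by
  have h0 : t ≠ 0 := by omega
  have h1 : t ≠ 1 := by omega
  have h2 : t ≠ 2 := by omega
  have h3 : t ≠ 3 := by omega
  have h4 : t ≠ 4 := by omega
  simp [eH, h0, h1, h2, h3, h4]

/-- the torus elements -/
noncomputable def xT (s : ℕ) : Fin 3 → k :=
  if s = 0 then Pi.single 0 1 else if s = 1 then Pi.single 1 1 else Pi.single 2 1

theorem eH_t (t i p q : ℕ) (ht : t < 3) : eH k (t, i, p, q) = ⟨xT k t, 0, 0, 0⟩ := by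
  have h : t = 0 ∨ t = 1 ∨ t = 2 := by omega
  rcases h with rfl | rfl | rfl
  · simp [eH, xT]
  · simp [eH, xT]
  · simp [eH, xT]

theorem fA_x0 : fA k (Pi.single 0 1) = 1 := by
  show ((Pi.single 0 1 : Fin 3 → k) 0) • (1 : R k) + ((Pi.single 0 1 : Fin 3 → k) 1) • T1 +
    ((Pi.single 0 1 : Fin 3 → k) 2) • T1 ^ 2 = 1
  simp

theorem fA_x1 : fA k (Pi.single 1 1) = T1 := by
  show ((Pi.single 1 1 : Fin 3 → k) 0) • (1 : R k) + ((Pi.single 1 1 : Fin 3 → k) 1) • T1 +
    ((Pi.single 1 1 : Fin 3 → k) 2) • T1 ^ 2 = T1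
  simp

theorem fA_x2 : fA k (Pi.single 2 1) = T1 ^ 2 := by
  show ((Pi.single 2 1 : Fin 3 → k) 0) • (1 : R k) + ((Pi.single 2 1 : Fin 3 → k) 1) • T1 +
    ((Pi.single 2 1 : Fin 3 → k) 2) • T1 ^ 2 = T1 ^ 2
  simp

theorem gB_x0 : gB k (Pi.single 0 1) = mo 0 (-2) - 1 := by
  show ((Pi.single 0 1 : Fin 3 → k) 0) • (mo 0 (-2) - 1 : R k) +
    ((Pi.single 0 1 : Fin 3 → k) 1) • (mo 0 (-1) - mo 0 1) +
    ((Pi.single 0 1 : Fin 3 → k) 2) • (1 - mo 0 2) = _
  simp

theorem gB_x1 : gB k (Pi.single 1 1) = mo 0 (-1) - mo 0 1 := by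
  show ((Pi.single 1 1 : Fin 3 → k) 0) • (mo 0 (-2) - 1 : R k) +
    ((Pi.single 1 1 : Fin 3 → k) 1) • (mo 0 (-1) - mo 0 1) +
    ((Pi.single 1 1 : Fin 3 → k) 2) • (1 - mo 0 2) = _
  simp

theorem gB_x2 : gB k (Pi.single 2 1) = 1 - mo 0 2 := by
  show ((Pi.single 2 1 : Fin 3 → k) 0) • (mo 0 (-2) - 1 : R k) +
    ((Pi.single 2 1 : Fin 3 → k) 1) • (mo 0 (-1) - mo 0 1) +
    ((Pi.single 2 1 : Fin 3 → k) 2) • (1 - mo 0 2) = _
  simp

theorem lval_one {M : Type u} [AddCommGroup M] [Module k M] {ι : Type} (e : ι → M) (c : k) (m : ι) :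
    lval e [(c, m)] = c • e m := by
  rw [lval_cons, lval_nil, add_zero]

theorem lval_two {M : Type u} [AddCommGroup M] [Module k M] {ι : Type} (e : ι → M) (c d : k)
    (m n : ι) : lval e [(c, m), (d, n)] = c • e m + d • e n := by
  rw [lval_cons, lval_one]

theorem lval_three {M : Type u} [AddCommGroup M] [Module k M] {ι : Type} (e : ι → M) (c d f : k)
    (m n o : ι) : lval e [(c, m), (d, n), (f, o)] = c • e m + (d • e n + f • e o) := by
  rw [lval_cons, lval_two]

theorem mo_sub2 (p q : ℕ) : (mo 0 ((p : ℤ) - ((q + 2 : ℕ) : ℤ)) : R k) =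
    mo 0 ((p : ℤ) - q) * mo 0 (-2) := by
  rw [mo_mul]
  congr 1
  push_cast
  ring

theorem mo_sub1 (p q : ℕ) : (mo 0 ((p : ℤ) - ((q + 1 : ℕ) : ℤ)) : R k) =
    mo 0 ((p : ℤ) - q) * mo 0 (-1) := by
  rw [mo_mul]
  congr 1
  push_cast
  ring

theorem mo_add1 (p q : ℕ) : (mo 0 (((p + 1 : ℕ) : ℤ) - q) : R k) =
    mo 0 ((p : ℤ) - q) * mo 0 1 := by
  rw [mo_mul]
  congr 1
  push_cast
  ring

theorem mo_add2 (p q : ℕ) : (mo 0 (((p + 2 : ℕ) : ℤ) - q) : R k) =
    mo 0 ((p : ℤ) - q) * mo 0 2 := by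
  rw [mo_mul]
  congr 1
  push_cast
  ring

/-- the torus -/
theorem tor_spec (s : ℕ) (hs : s < 3) (m : Nm) (hm : 3 ≤ m.1) :
    lval (eH k) (tor k s m) = ⁅eH k m, (⟨xT k s, 0, 0, 0⟩ : HH k)⁆ := by
  obtain ⟨t, i, p, q⟩ := m
  have hs' : s = 0 ∨ s = 1 ∨ s = 2 := by omega
  have ht : t = 3 ∨ t = 4 ∨ 5 ≤ t := by
    have : 3 ≤ t := hm
    omega
  rcases ht with rfl | rfl | ht
  · -- a
    have e1 : tor k s (3, i, p, q) = [(1, (3, i + s, 0, 0))] := by
      simp [tor]
    rw [e1, lval_one, one_smul, eH_a, eH_a]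
    rcases hs' with rfl | rfl | rfl
    · ext
      · rfl
      · simp [xT, fA_x0]
      · simp
      · simp
    · ext
      · rfl
      · simp [xT, fA_x1, pow_succ]
      · simp
      · simp
    · ext
      · rfl
      · simp [xT, fA_x2, pow_add]
      · simp
      · simp
  · -- b
    rcases hs' with rfl | rfl | rfl
    · have e1 : tor k 0 (4, i, p, q) = [(1, (4, 0, p, q + 2)), (-1, (4, 0, p, q))] := by
        simp [tor]
      rw [e1, lval_two, one_smul, eH_b, eH_b, eH_b, mo_sub2]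
      refine HL.ext ?_ ?_ ?_ ?_
      · simp
      · simp
      · simp [xT, gB_x0]
        ring
      · simp
    · have e1 : tor k 1 (4, i, p, q) = [(1, (4, 0, p, q + 1)), (-1, (4, 0, p + 1, q))] := by
        simp [tor]
      rw [e1, lval_two, one_smul, eH_b, eH_b, eH_b, mo_sub1, mo_add1]
      refine HL.ext ?_ ?_ ?_ ?_
      · simp
      · simp
      · simp [xT, gB_x1]
        ring
      · simp
    · have e1 : tor k 2 (4, i, p, q) = [(1, (4, 0, p, q)), (-1, (4, 0, p + 2, q))] := by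
        simp [tor]
      rw [e1, lval_two, one_smul, eH_b, eH_b, eH_b, mo_add2]
      refine HL.ext ?_ ?_ ?_ ?_
      · simp
      · simp
      · simp [xT, gB_x2]
        ring
      · simp
  · -- c
    have h3 : t ≠ 3 := by omega
    have h4 : t ≠ 4 := by omega
    rcases hs' with rfl | rfl | rfl
    · have e1 : tor k 0 (t, i, p, q) = [(1, (5, i, p, q + 2))] := by
        simp [tor, h3, h4]
      rw [e1, lval_one, one_smul, eH_c k 5 _ _ _ le_rfl, eH_c k t _ _ _ ht, mo_sub2]
      refine HL.ext ?_ ?_ ?_ ?_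
      · simp
      · simp
      · simp
      · simp [xT, fA_x0, gB_x0]
        ring
    · have e1 : tor k 1 (t, i, p, q) = [(1, (5, i + 1, p, q)), (-1, (5, i, p + 1, q)),
          (1, (5, i, p, q + 1))] := by
        simp [tor, h3, h4]
      rw [e1, lval_three, one_smul, one_smul, eH_c k 5 _ _ _ le_rfl, eH_c k 5 _ _ _ le_rfl,
        eH_c k 5 _ _ _ le_rfl, eH_c k t _ _ _ ht, mo_sub1, mo_add1]
      refine HL.ext ?_ ?_ ?_ ?_
      · simp
      · simp
      · simp
      · simp [xT, fA_x1, gB_x1]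
        ring
    · have e1 : tor k 2 (t, i, p, q) = [(1, (5, i + 2, p, q)), (-1, (5, i, p + 2, q)),
          (1, (5, i, p, q))] := by
        simp [tor, h3, h4]
      rw [e1, lval_three, one_smul, one_smul, eH_c k 5 _ _ _ le_rfl, eH_c k 5 _ _ _ le_rfl,
        eH_c k 5 _ _ _ le_rfl, eH_c k t _ _ _ ht, mo_add2]
      refine HL.ext ?_ ?_ ?_ ?_
      · simp
      · simp
      · simp
      · simp [xT, fA_x2, gB_x2]
        ring

theorem sH_spec (m m' : Nm) : lval (eH k) (sH k m m') = ⁅eH k m, eH k m'⁆ := by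
  obtain ⟨t, i, p, q⟩ := m
  obtain ⟨t', i', p', q'⟩ := m'
  by_cases h1 : t' < 3
  · by_cases h2 : t < 3
    · have e1 : sH k (t, i, p, q) (t', i', p', q') = [] := by
        simp [sH, h1, h2]
      rw [e1, lval_nil, eH_t k t _ _ _ h2, eH_t k t' _ _ _ h1]
      refine HL.ext ?_ ?_ ?_ ?_
      · simp
      · simp
      · simp
      · simp
    · have e1 : sH k (t, i, p, q) (t', i', p', q') = tor k t' (t, i, p, q) := by
        simp [sH, h1, h2]
      rw [e1, tor_spec k t' h1 (t, i, p, q) (not_lt.mp h2), eH_t k t' _ _ _ h1]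
  · by_cases h2 : t < 3
    · have e1 : sH k (t, i, p, q) (t', i', p', q') =
          (tor k t (t', i', p', q')).map fun p => (-1 * p.1, p.2) := by
        simp [sH, h1, h2]
      rw [e1, lval_smul, tor_spec k t h2 (t', i', p', q') (not_lt.mp h1), eH_t k t _ _ _ h2,
        neg_one_smul, lie_skew]
    · have ht : t = 3 ∨ t = 4 ∨ 5 ≤ t := by omega
      have ht' : t' = 3 ∨ t' = 4 ∨ 5 ≤ t' := by omega
      rcases ht with rfl | rfl | ht
      · rcases ht' with rfl | rfl | ht'
        · have e1 : sH k (3, i, p, q) (3, i', p', q') = [] := by simp [sH]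
          rw [e1, lval_nil, eH_a, eH_a]
          refine HL.ext ?_ ?_ ?_ ?_
          · simp
          · simp
          · simp
          · simp
        · have e1 : sH k (3, i, p, q) (4, i', p', q') = [(1, (5, i, p', q'))] := by simp [sH]
          rw [e1, lval_one, one_smul, eH_a, eH_b, eH_c k 5 _ _ _ le_rfl]
          refine HL.ext ?_ ?_ ?_ ?_
          · simp
          · simp
          · simp
          · simp
        · have h3 : t' ≠ 4 := by omega
          have e1 : sH k (3, i, p, q) (t', i', p', q') = [] := by simp [sH, h1, h3]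
          rw [e1, lval_nil, eH_a, eH_c k t' _ _ _ ht']
          refine HL.ext ?_ ?_ ?_ ?_
          · simp
          · simp
          · simp
          · simp
      · rcases ht' with rfl | rfl | ht'
        · have e1 : sH k (4, i, p, q) (3, i', p', q') = [(-1, (5, i', p, q))] := by simp [sH]
          rw [e1, lval_one, eH_a, eH_b, eH_c k 5 _ _ _ le_rfl]
          refine HL.ext ?_ ?_ ?_ ?_
          · simp
          · simp
          · simp
          · simp
        · have e1 : sH k (4, i, p, q) (4, i', p', q') = [] := by simp [sH]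
          rw [e1, lval_nil, eH_b, eH_b]
          refine HL.ext ?_ ?_ ?_ ?_
          · simp
          · simp
          · simp
          · simp
        · have h3 : t' ≠ 3 := by omega
          have e1 : sH k (4, i, p, q) (t', i', p', q') = [] := by simp [sH, h1, h3]
          rw [e1, lval_nil, eH_b, eH_c k t' _ _ _ ht']
          refine HL.ext ?_ ?_ ?_ ?_
          · simp
          · simp
          · simp
          · simp
      · have h3 : t ≠ 3 := by omega
        have h4 : t ≠ 4 := by omega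
        have e1 : sH k (t, i, p, q) (t', i', p', q') = [] := by simp [sH, h1, h2, h3, h4]
        rw [e1, lval_nil, eH_c k t _ _ _ ht]
        rcases ht' with rfl | rfl | ht'
        · rw [eH_a]
          refine HL.ext ?_ ?_ ?_ ?_
          · simp
          · simp
          · simp
          · simp
        · rw [eH_b]
          refine HL.ext ?_ ?_ ?_ ?_
          · simp
          · simp
          · simp
          · simp
        · rw [eH_c k t' _ _ _ ht']
          refine HL.ext ?_ ?_ ?_ ?_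
          · simp
          · simp
          · simp
          · simp

end correct

end Pool.Agent.Lib.MP_240c17_al.Q2
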